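import Pool.Agent.CGS.AlgBase

/-!
# Transfer of classes: isomorphic algebras, and the group algebra

PACKAGE (statements frozen; auxiliary lemmas private; the imported files are black boxes, some
of them still contain sorry).

* `aCls_congr`: `f ↦ f.comp e.symm` is a bijection `AIrr A d ≃ AIrr B d` (inverse `f ↦ f.comp e`)
  which respects and reflects `ASim` (the same matrix `P`); use `Quotient.congr`.
* `aCls_monoidAlgebra`: an algebra homomorphism `f : MonoidAlgebra ℂ G →ₐ[ℂ] M_d(ℂ)` is the same
  as a monoid homomorphism `G →* M_d(ℂ)` (`MonoidAlgebra.lift`), which is the same as a `ρ : Rep G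
  d = G →* GL (Fin d) ℂ` (`MonoidHom.toHomUnits`, `ofMat`, `Units.coeHom`): `f = lift ρ`, `f
  (MonoidAlgebra.of ℂ G g) = mat ρ g` (`lift_of`). The range of `f` is the span of the `mat ρ g`
  (every element of the group algebra is a linear combination of group elements), so `f` is
  surjective iff `span (range (mat ρ)) = ⊤`, that is (`0 < d`) iff `IsIrr ρ`. `P f(a) = f'(a) P`
  for all `a` iff it holds for all group elements (linearity, `MonoidAlgebra.induction_linear` or
  `MonoidAlgebra.induction_on`). So `Quotient.congr` gives the equivalence.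
-/

set_option autoImplicit false

namespace Pool.Agent.CGS

open Matrix

/-- isomorphic algebras have the same classes -/
theorem aCls_congr {A B : Type} [Ring A] [Algebra ℂ A] [Ring B] [Algebra ℂ B] (e : A ≃ₐ[ℂ] B)
    (d : ℕ) : Nonempty (ACls A d ≃ ACls B d) := by
  refine ⟨Quotient.congr (ra := aSetoid A d) (rb := aSetoid B d)
    { toFun := fun f => ⟨f.1.comp (e.symm : B →ₐ[ℂ] A), fun m => ?_⟩
      invFun := fun f => ⟨f.1.comp (e : A →ₐ[ℂ] B), fun m => ?_⟩
      left_inv := fun f => ?_
      right_inv := fun f => ?_ } (fun f g => ?_)⟩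
  · obtain ⟨a, ha⟩ := f.2 m
    exact ⟨e a, by simp [ha]⟩
  · obtain ⟨b, hb⟩ := f.2 m
    exact ⟨e.symm b, by simp [hb]⟩
  · apply Subtype.ext
    apply AlgHom.ext
    intro a
    simp
  · apply Subtype.ext
    apply AlgHom.ext
    intro a
    simp
  · constructor
    · rintro ⟨P, hP⟩
      exact ⟨P, fun b => hP (e.symm b)⟩
    · rintro ⟨P, hP⟩
      refine ⟨P, fun a => ?_⟩
      have h := hP (e a)
      simpa using h

private theorem lift_mem_span {G : Type} [Group G] {d : ℕ} (ρ : Rep G d)
    (a : MonoidAlgebra ℂ G) : lift ρ a ∈ Submodule.span ℂ (Set.range (mat ρ)) := by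
  induction a using MonoidAlgebra.induction_linear with
  | zero => rw [map_zero]; exact Submodule.zero_mem _
  | add x y hx hy => rw [map_add]; exact Submodule.add_mem _ hx hy
  | single g c =>
    rw [lift_single]
    exact Submodule.smul_mem _ _ (Submodule.subset_span ⟨g, rfl⟩)

private theorem lift_surj_aux {G : Type} [Group G] {d : ℕ} {ρ : Rep G d} (h : IsIrr ρ) :
    Function.Surjective (lift ρ) := by
  intro m
  have hm : m ∈ Submodule.span ℂ (Set.range (mat ρ)) := by rw [h.span]; exact Submodule.mem_top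
  induction hm using Submodule.span_induction with
  | mem x hx =>
    obtain ⟨g, rfl⟩ := hx
    exact ⟨MonoidAlgebra.of ℂ G g, lift_of ρ g⟩
  | zero => exact ⟨0, map_zero _⟩
  | add x y _ _ hx hy =>
    obtain ⟨a, ha⟩ := hx
    obtain ⟨b, hb⟩ := hy
    exact ⟨a + b, by rw [map_add, ha, hb]⟩
  | smul c x _ hx =>
    obtain ⟨a, ha⟩ := hx
    exact ⟨c • a, by rw [map_smul, ha]⟩

private noncomputable def toRep {G : Type} [Group G] {d : ℕ}
    (f : MonoidAlgebra ℂ G →ₐ[ℂ] Matrix (Fin d) (Fin d) ℂ) : Rep G d :=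
  ofMat ((f : MonoidAlgebra ℂ G →* Matrix (Fin d) (Fin d) ℂ).comp (MonoidAlgebra.of ℂ G))

private theorem mat_toRep {G : Type} [Group G] {d : ℕ}
    (f : MonoidAlgebra ℂ G →ₐ[ℂ] Matrix (Fin d) (Fin d) ℂ) (g : G) :
    mat (toRep f) g = f (MonoidAlgebra.of ℂ G g) := rfl

private theorem lift_toRep {G : Type} [Group G] {d : ℕ}
    (f : MonoidAlgebra ℂ G →ₐ[ℂ] Matrix (Fin d) (Fin d) ℂ) : lift (toRep f) = f := by
  apply AlgHom.ext
  intro a
  induction a using MonoidAlgebra.induction_linear with
  | zero => rw [map_zero, map_zero]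
  | add x y hx hy => rw [map_add, map_add, hx, hy]
  | single g c =>
    rw [lift_single, mat_toRep, ← map_smul]
    congr 1
    simp

private theorem irr_toRep {G : Type} [Group G] {d : ℕ} (hd : 0 < d)
    (f : MonoidAlgebra ℂ G →ₐ[ℂ] Matrix (Fin d) (Fin d) ℂ) (hf : Function.Surjective f) :
    IsIrr (toRep f) := by
  refine ⟨hd, ?_⟩
  rw [eq_top_iff]
  intro m _
  obtain ⟨a, ha⟩ := hf m
  have h := lift_mem_span (toRep f) a
  rw [lift_toRep, ha] at h
  exact h

private theorem toRep_lift {G : Type} [Group G] {d : ℕ} (ρ : Rep G d) : toRep (lift ρ) = ρ :=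
  rep_ext fun g => by rw [mat_toRep, lift_of]

private theorem asim_iff {G : Type} [Group G] {d : ℕ}
    (f g : MonoidAlgebra ℂ G →ₐ[ℂ] Matrix (Fin d) (Fin d) ℂ) :
    ASim f g ↔ Sim (toRep f) (toRep g) := by
  constructor
  · rintro ⟨P, hP⟩
    exact ⟨P, fun x => by rw [mat_toRep, mat_toRep]; exact hP _⟩
  · rintro ⟨P, hP⟩
    refine ⟨P, fun a => ?_⟩
    rw [← lift_toRep f, ← lift_toRep g]
    induction a using MonoidAlgebra.induction_linear with
    | zero => rw [map_zero, map_zero, mul_zero, zero_mul]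
    | add x y hx hy => rw [map_add, map_add, mul_add, add_mul, hx, hy]
    | single x c =>
      rw [lift_single, lift_single, mul_smul_comm, smul_mul_assoc, hP x]

/-- the classes of the group algebra are the classes of irreducible representations -/
theorem aCls_monoidAlgebra (G : Type) [Group G] {d : ℕ} (hd : 0 < d) :
    Nonempty (ACls (MonoidAlgebra ℂ G) d ≃ Cls G d) := by
  exact ⟨Quotient.congr (ra := aSetoid (MonoidAlgebra ℂ G) d) (rb := irrSetoid G d)
    { toFun := fun f => ⟨toRep f.1, irr_toRep hd f.1 f.2⟩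
      invFun := fun ρ => ⟨lift ρ.1, lift_surj_aux ρ.2⟩
      left_inv := fun f => Subtype.ext (lift_toRep f.1)
      right_inv := fun ρ => Subtype.ext (toRep_lift ρ.1) } (fun f g => asim_iff f.1 g.1)⟩

/-- irreducible representations are surjective on the group algebra -/
theorem lift_surjective {G : Type} [Group G] {d : ℕ} {ρ : Rep G d} (h : IsIrr ρ) :
    Function.Surjective (lift ρ) := lift_surj_aux h

/-- every surjection of the group algebra comes from an irreducible representation -/
theorem exists_rep_of_surjective {G : Type} [Group G] {d : ℕ} (hd : 0 < d)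
    (f : MonoidAlgebra ℂ G →ₐ[ℂ] Matrix (Fin d) (Fin d) ℂ) (hf : Function.Surjective f) :
    ∃ ρ : Rep G d, IsIrr ρ ∧ lift ρ = f :=
  ⟨toRep f, irr_toRep hd f hf, lift_toRep f⟩

end Pool.Agent.CGS
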