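import Pool.Agent.CGS.AlgBase

/-!
# A surjection of a product of matrix algebras onto a matrix algebra has a block

PACKAGE (statements frozen; auxiliary lemmas private; the imported files are black boxes, some
of them still contain sorry).

Write `A = ∀ i, M_{δ i}(ℂ)` and `e i = Pi.single i 1`. The `e i` are central idempotents of `A`
(`x * e i = e i * x = Pi.single i (x i)`), `e i * e j = 0` for `i ≠ j`, and `∑ i, e i = 1`. `f (e
i)` commutes with all `f a`, that is (f surjective) with all matrices, so it is a scalar matrix `c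
i • 1` (`Matrix.mem_range_scalar_of_commute_single` or by hand), and it is idempotent, so (`d >
0`) `c i = 0` or `c i = 1`. As `∑ f (e i) = 1` there is `i` with `f (e i) ≠ 0`, so `f (e i) = 1`.
If `a i = 0` then `a * e i = 0` (componentwise), so `f a = f a * f (e i) = f (a * e i) = 0`: the
last claim. For `δ i = d`: the map `h : M_{δ i} → M_d`, `h x = f (Pi.single i x)`, is additive,
linear, multiplicative (`Pi.single_mul`), and `h 1 = f (e i) = 1`; it is surjective: `f a = f
(Pi.single i (a i))` as the difference has `i`-component zero. It is injective: the kernel of a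
ring homomorphism from the simple ring `M_{δ i}(ℂ)` (`δ i > 0`; `IsSimpleRing`,
`RingHom.injective` for simple rings; or: if `h x = 0`, `x a b ≠ 0`, then multiplying by matrix
units gives `h 1 = 0`). So `(δ i) ^ 2 = d ^ 2` by `LinearEquiv.finrank_eq` and
`Module.finrank_matrix`, and `δ i = d`.
-/

set_option autoImplicit false

namespace Pool.Agent.CGS

open Matrix

/-- the block through which a surjection onto a matrix algebra factors -/
theorem exists_block {n : ℕ} (δ : Fin n → ℕ) (hδ : ∀ i, 0 < δ i) {d : ℕ} (hd : 0 < d)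
    (f : (∀ i, Matrix (Fin (δ i)) (Fin (δ i)) ℂ) →ₐ[ℂ] Matrix (Fin d) (Fin d) ℂ)
    (hf : Function.Surjective f) :
    ∃ i, δ i = d ∧ f (Pi.single i 1) = 1 ∧ ∀ a, a i = 0 → f a = 0 := by
  classical
  have hd' : Nonempty (Fin d) := ⟨⟨0, hd⟩⟩
  have hr : ∀ (i : Fin n) (a : ∀ i, Matrix (Fin (δ i)) (Fin (δ i)) ℂ),
      a * Pi.single i 1 = Pi.single i (a i) := by
    intro i a
    funext j
    by_cases hj : j = i
    · subst hj
      rw [Pi.mul_apply, Pi.single_eq_same, Pi.single_eq_same, mul_one]
    · rw [Pi.mul_apply, Pi.single_eq_of_ne hj, Pi.single_eq_of_ne hj, mul_zero]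
  have hl : ∀ (i : Fin n) (a : ∀ i, Matrix (Fin (δ i)) (Fin (δ i)) ℂ),
      Pi.single i 1 * a = Pi.single i (a i) := by
    intro i a
    funext j
    by_cases hj : j = i
    · subst hj
      rw [Pi.mul_apply, Pi.single_eq_same, Pi.single_eq_same, one_mul]
    · rw [Pi.mul_apply, Pi.single_eq_of_ne hj, Pi.single_eq_of_ne hj, zero_mul]
  have hcom : ∀ (i : Fin n) (b : Matrix (Fin d) (Fin d) ℂ), Commute b (f (Pi.single i 1)) := by
    intro i b
    obtain ⟨a, rfl⟩ := hf b
    change f a * f (Pi.single i 1) = f (Pi.single i 1) * f a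
    rw [← map_mul, ← map_mul, hr, hl]
  have h01 : ∀ i : Fin n, f (Pi.single i 1) = 0 ∨ f (Pi.single i 1) = 1 := by
    intro i
    obtain ⟨c, hc⟩ := Matrix.mem_range_scalar_of_commute_single
      (M := f (Pi.single i 1)) fun a b _ => hcom i (Matrix.single a b 1)
    have h1 : f (Pi.single i 1) * f (Pi.single i 1) = f (Pi.single i 1) := by
      rw [← map_mul, hr, Pi.single_eq_same]
    rw [← hc, ← map_mul] at h1
    have h2 : c * c = c := Matrix.scalar_inj.1 h1
    by_cases h0 : c = 0
    · left
      rw [← hc, h0, map_zero]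
    · right
      have h3 : c = 1 := mul_left_cancel₀ h0 (h2.trans (mul_one c).symm)
      rw [← hc, h3, map_one]
  obtain ⟨i, hi⟩ : ∃ i : Fin n, f (Pi.single i 1) = 1 := by
    by_contra hcon
    push Not at hcon
    have h1 : ∀ i : Fin n, f (Pi.single i 1) = 0 := fun i => (h01 i).resolve_right (hcon i)
    have h2 : f 1 = 0 := by
      have h3 : (1 : ∀ i, Matrix (Fin (δ i)) (Fin (δ i)) ℂ) = ∑ i, Pi.single i 1 :=
        (Finset.univ_sum_single (1 : ∀ i, Matrix (Fin (δ i)) (Fin (δ i)) ℂ)).symm
      rw [h3, map_sum]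
      exact Finset.sum_eq_zero fun i _ => h1 i
    rw [map_one] at h2
    exact one_ne_zero h2
  have hone : ∀ a, f (Pi.single i (a i)) = f a := by
    intro a
    rw [← hr, map_mul, hi, mul_one]
  have hδi : Nonempty (Fin (δ i)) := ⟨⟨0, hδ i⟩⟩
  refine ⟨i, ?_, hi, fun a ha => ?_⟩
  · let g : Matrix (Fin (δ i)) (Fin (δ i)) ℂ →+* Matrix (Fin d) (Fin d) ℂ :=
      { toFun := fun x => f (Pi.single i x)
        map_one' := hi
        map_mul' := fun x y => by rw [← map_mul, ← Pi.single_mul]
        map_zero' := by rw [Pi.single_zero, map_zero]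
        map_add' := fun x y => by rw [← map_add, ← Pi.single_add] }
    have hg : Function.Injective g := RingHom.injective g
    let h : Matrix (Fin (δ i)) (Fin (δ i)) ℂ →ₗ[ℂ] Matrix (Fin d) (Fin d) ℂ :=
      f.toLinearMap ∘ₗ LinearMap.single ℂ (fun i => Matrix (Fin (δ i)) (Fin (δ i)) ℂ) i
    have hbij : Function.Bijective h := by
      refine ⟨fun x y hxy => hg hxy, fun b => ?_⟩
      obtain ⟨a, rfl⟩ := hf b
      exact ⟨a i, hone a⟩
    have h1 := (LinearEquiv.ofBijective h hbij).finrank_eq
    rw [Module.finrank_matrix, Module.finrank_matrix, Fintype.card_fin, Fintype.card_fin,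
      Module.finrank_self, mul_one, mul_one] at h1
    exact Nat.mul_self_inj.1 h1
  · rw [← hone a, ha, Pi.single_zero, map_zero]

end Pool.Agent.CGS
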