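import Pool.Agent.CGS.AlgBase
import Pool.Agent.CGS.Alg2

/-!
# The classes of a product of matrix algebras are its blocks

PACKAGE (statements frozen; auxiliary lemmas private; the imported files are black boxes, some
of them still contain sorry).

Use `exists_block` (file `Alg2`, a black box). For `f : AIrr A d`, `A = ∀ i, M_{δ i}(ℂ)`, the
block `i` is unique: if `f (Pi.single i 1) = 1 = f (Pi.single j 1)` with `i ≠ j` then multiplying
gives `1 = f 0 = 0`, but `d > 0`. If `P f(a) = g(a) P` for all `a` then `f (Pi.single i 1) = 1`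
implies `g (Pi.single i 1) = 1`, so the block depends only on the class. This gives a map `Φ :
ACls A d → {i // δ i = d}`.

`Φ` is surjective: if `δ i = d` then (after `subst`, or with `Matrix.reindexAlgEquiv`) the
projection `a ↦ a i` (`Pi.evalAlgHom`) is a surjective algebra homomorphism, with block `i`.

`Φ` is injective: let `f, g` have the same block `i`; by `subst` assume `d = δ i`. The map `h x =
f (Pi.single i x)` is an algebra homomorphism `M_d → M_d` (`h 1 = 1`, `Pi.single_mul`), surjective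
since `f a = h (a i)` (the difference `a - Pi.single i (a i)` has `i`-component zero), so
bijective (finite dimension, `LinearMap.injective_iff_surjective`); so it is an algebra
automorphism; same for `g` and `k x = g (Pi.single i x)`. The automorphism `k ∘ h⁻¹` of `M_d(ℂ)`
is inner: transport with `Matrix.toLinAlgEquiv'` to `Module.End ℂ (Fin d → ℂ)` and use
`AlgEquiv.eq_linearEquivConjAlgEquiv` (file `Mathlib/LinearAlgebra/GeneralLinearGroup/AlgEquiv`),
the matrix of the linear equivalence `T` is `P : GL (Fin d) ℂ` with `k (h⁻¹ x) = P x P⁻¹`. So `g a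
= k (a i) = P h(a i) P⁻¹ = P f(a) P⁻¹`, that is `ASim f g`. Finally `Equiv.ofBijective`.
-/

set_option autoImplicit false

namespace Pool.Agent.CGS

open Matrix

/-- automorphisms of a matrix algebra are inner -/
private theorem alg3_inner {d : ℕ}
    (e : Matrix (Fin d) (Fin d) ℂ ≃ₐ[ℂ] Matrix (Fin d) (Fin d) ℂ) :
    ∃ P : GL (Fin d) ℂ, ∀ x, (P : Matrix (Fin d) (Fin d) ℂ) * x =
      e x * (P : Matrix (Fin d) (Fin d) ℂ) := by
  let L : Matrix (Fin d) (Fin d) ℂ ≃ₐ[ℂ] ((Fin d → ℂ) →ₗ[ℂ] (Fin d → ℂ)) :=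
    Matrix.toLinAlgEquiv'
  obtain ⟨T, hT⟩ := (L.symm.trans (e.trans L)).eq_linearEquivConjAlgEquiv
  have h1 : (T : (Fin d → ℂ) →ₗ[ℂ] (Fin d → ℂ)) * (T.symm : (Fin d → ℂ) →ₗ[ℂ] (Fin d → ℂ)) =
      1 := LinearMap.ext fun v => T.apply_symm_apply v
  have h2 : (T.symm : (Fin d → ℂ) →ₗ[ℂ] (Fin d → ℂ)) * (T : (Fin d → ℂ) →ₗ[ℂ] (Fin d → ℂ)) =
      1 := LinearMap.ext fun v => T.symm_apply_apply v
  refine ⟨⟨L.symm T, L.symm T.symm, ?_, ?_⟩, fun x => ?_⟩
  · rw [← map_mul, h1, map_one]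
  · rw [← map_mul, h2, map_one]
  · apply L.injective
    change L (L.symm T * x) = L (e x * L.symm T)
    rw [map_mul, map_mul, AlgEquiv.apply_symm_apply]
    have h3 : L (e x) = (T : (Fin d → ℂ) →ₗ[ℂ] (Fin d → ℂ)) * L x *
        (T.symm : (Fin d → ℂ) →ₗ[ℂ] (Fin d → ℂ)) := by
      have h4 : (L.symm.trans (e.trans L)) (L x) = L (e x) := by
        change L (e (L.symm (L x))) = L (e x)
        rw [AlgEquiv.symm_apply_apply]
      rw [← h4, hT]
      rfl
    rw [h3, mul_assoc, h2, mul_one]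

section

variable {n : ℕ} {δ : Fin n → ℕ}

/-- `f` factors through the block `i` -/
private def Blk {d : ℕ} (f : (∀ i, Matrix (Fin (δ i)) (Fin (δ i)) ℂ) →ₐ[ℂ]
    Matrix (Fin d) (Fin d) ℂ) (i : Fin n) : Prop :=
  f (Pi.single i 1) = 1 ∧ ∀ a, a i = 0 → f a = 0

private theorem blk_unique {d : ℕ} (hd : 0 < d)
    {f : (∀ i, Matrix (Fin (δ i)) (Fin (δ i)) ℂ) →ₐ[ℂ] Matrix (Fin d) (Fin d) ℂ} {i j : Fin n}
    (hi : Blk f i) (hj : Blk f j) : i = j := by
  by_contra hij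
  have h1 : (Pi.single i 1 : ∀ i, Matrix (Fin (δ i)) (Fin (δ i)) ℂ) j = 0 :=
    Pi.single_eq_of_ne (Ne.symm hij) _
  have h2 := hj.2 _ h1
  rw [hi.1] at h2
  have h3 := congrFun (congrFun h2 ⟨0, hd⟩) ⟨0, hd⟩
  simp at h3

private theorem blk_asim {d : ℕ}
    {f g : (∀ i, Matrix (Fin (δ i)) (Fin (δ i)) ℂ) →ₐ[ℂ] Matrix (Fin d) (Fin d) ℂ} {i : Fin n}
    (h : ASim f g) (hi : Blk f i) : Blk g i := by
  obtain ⟨P, hP⟩ := h
  refine ⟨?_, fun a ha => ?_⟩
  · have h1 := hP (Pi.single i 1)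
    rw [hi.1, mul_one] at h1
    refine P.isUnit.mul_right_cancel ?_
    rw [one_mul]
    exact h1.symm
  · have h1 := hP a
    rw [hi.2 a ha, mul_zero] at h1
    exact (P.isUnit.mul_left_eq_zero.1 h1.symm)

/-- the homomorphism of the block -/
private def blkHom {i : Fin n} (f : (∀ i, Matrix (Fin (δ i)) (Fin (δ i)) ℂ) →ₐ[ℂ]
    Matrix (Fin (δ i)) (Fin (δ i)) ℂ) (h : Blk f i) :
    Matrix (Fin (δ i)) (Fin (δ i)) ℂ →ₐ[ℂ] Matrix (Fin (δ i)) (Fin (δ i)) ℂ :=
  AlgHom.ofLinearMap (f.toLinearMap ∘ₗ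
    LinearMap.single ℂ (fun i => Matrix (Fin (δ i)) (Fin (δ i)) ℂ) i) h.1 (by
    intro x y
    change f (Pi.single i (x * y)) = f (Pi.single i x) * f (Pi.single i y)
    rw [← map_mul, Pi.single_mul])

private theorem blkHom_apply {i : Fin n} {f : (∀ i, Matrix (Fin (δ i)) (Fin (δ i)) ℂ) →ₐ[ℂ]
    Matrix (Fin (δ i)) (Fin (δ i)) ℂ} (h : Blk f i) (a : ∀ i, Matrix (Fin (δ i)) (Fin (δ i)) ℂ) :
    blkHom f h (a i) = f a := by
  change f (Pi.single i (a i)) = f a
  have h1 : f (a - Pi.single i (a i)) = 0 := by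
    refine h.2 _ ?_
    rw [Pi.sub_apply, Pi.single_eq_same, sub_self]
  rw [map_sub, sub_eq_zero] at h1
  exact h1.symm

private theorem blkHom_bij {i : Fin n} {f : (∀ i, Matrix (Fin (δ i)) (Fin (δ i)) ℂ) →ₐ[ℂ]
    Matrix (Fin (δ i)) (Fin (δ i)) ℂ} (h : Blk f i) (hf : Function.Surjective f) :
    Function.Bijective (blkHom f h) := by
  have hs : Function.Surjective (blkHom f h) := by
    intro y
    obtain ⟨a, rfl⟩ := hf y
    exact ⟨a i, blkHom_apply h a⟩
  exact ⟨(LinearMap.injective_iff_surjective (f := (blkHom f h).toLinearMap)).2 hs, hs⟩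

private theorem asim_of_blk {d : ℕ}
    {f g : (∀ i, Matrix (Fin (δ i)) (Fin (δ i)) ℂ) →ₐ[ℂ] Matrix (Fin d) (Fin d) ℂ} {i : Fin n}
    (hi : δ i = d) (hf : Function.Surjective f) (hg : Function.Surjective g) (h : Blk f i)
    (h' : Blk g i) : ASim f g := by
  subst hi
  let e1 := AlgEquiv.ofBijective (blkHom f h) (blkHom_bij h hf)
  let e2 := AlgEquiv.ofBijective (blkHom g h') (blkHom_bij h' hg)
  obtain ⟨P, hP⟩ := alg3_inner (e1.symm.trans e2)
  refine ⟨P, fun a => ?_⟩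
  have h1 : e1 (a i) = f a := blkHom_apply h a
  have h2 : e2 (a i) = g a := blkHom_apply h' a
  have h3 := hP (f a)
  rw [← h1, AlgEquiv.trans_apply, AlgEquiv.symm_apply_apply, h1, h2] at h3
  exact h3

private theorem exists_of_blk {d : ℕ} {i : Fin n} (hi : δ i = d) :
    ∃ f : (∀ i, Matrix (Fin (δ i)) (Fin (δ i)) ℂ) →ₐ[ℂ] Matrix (Fin d) (Fin d) ℂ,
      Function.Surjective f ∧ Blk f i := by
  subst hi
  refine ⟨Pi.evalAlgHom ℂ (fun i => Matrix (Fin (δ i)) (Fin (δ i)) ℂ) i,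
    Function.surjective_eval i, ?_, fun a ha => ha⟩
  exact Pi.single_eq_same i 1

end

/-- the classes of a product of matrix algebras are its blocks -/
theorem aCls_pi {n : ℕ} (δ : Fin n → ℕ) (hδ : ∀ i, 0 < δ i) {d : ℕ} (hd : 0 < d) :
    Nonempty (ACls (∀ i, Matrix (Fin (δ i)) (Fin (δ i)) ℂ) d ≃ {i : Fin n // δ i = d}) := by
  have hb : ∀ f : AIrr (∀ i, Matrix (Fin (δ i)) (Fin (δ i)) ℂ) d,
      ∃ i : {i : Fin n // δ i = d}, Blk f.1 i.1 := by
    intro f
    obtain ⟨i, h1, h2, h3⟩ := exists_block δ hδ hd f.1 f.2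
    exact ⟨⟨i, h1⟩, h2, h3⟩
  choose b hb using hb
  have hwd : ∀ f g : AIrr (∀ i, Matrix (Fin (δ i)) (Fin (δ i)) ℂ) d, ASim f.1 g.1 →
      b f = b g := fun f g h => Subtype.ext (blk_unique hd (blk_asim h (hb f)) (hb g))
  refine ⟨Equiv.ofBijective (Quotient.lift (s := aSetoid _ d) b hwd) ⟨?_, ?_⟩⟩
  · intro x y
    refine Quotient.inductionOn₂ x y fun f g h => ?_
    have h1 : b f = b g := h
    refine Quotient.sound (s := aSetoid _ d) ?_
    refine asim_of_blk (b f).2 f.2 g.2 (hb f) ?_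
    rw [h1]
    exact hb g
  · rintro ⟨i, hi⟩
    obtain ⟨f, hf, hfi⟩ := exists_of_blk hi
    refine ⟨Quotient.mk (aSetoid _ d) ⟨f, hf⟩, ?_⟩
    change b ⟨f, hf⟩ = ⟨i, hi⟩
    exact Subtype.ext (blk_unique hd (hb ⟨f, hf⟩) hfi)

end Pool.Agent.CGS
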