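import Pool.Agent.CGS.Base

/-!
# The group algebra is a product of matrix algebras

(problem MP_0fa5bb_al, architect helper55; proved by helper79)

Maschke, Wedderburn; the sum of the squares of the degrees is the order of the group.
-/

set_option autoImplicit false

namespace Pool.Agent.CGS

open Matrix

/-- Maschke and Wedderburn -/
theorem exists_iso (G : Type) [Group G] [Finite G] :
    ∃ (n : ℕ) (δ : Fin n → ℕ), (∀ i, 0 < δ i) ∧ ∑ i, δ i ^ 2 = Nat.card G ∧
      Nonempty (MonoidAlgebra ℂ G ≃ₐ[ℂ] (∀ i, Matrix (Fin (δ i)) (Fin (δ i)) ℂ)) := by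
  have hF : FiniteDimensional ℂ (MonoidAlgebra ℂ G) :=
    (MonoidAlgebra.coeffLinearEquiv (R := ℂ) (S := ℂ) (M := G)).symm.finiteDimensional
  have hfr : Module.finrank ℂ (MonoidAlgebra ℂ G) = Nat.card G := by
    have := Fintype.ofFinite G
    rw [(MonoidAlgebra.coeffLinearEquiv (R := ℂ) (S := ℂ) (M := G)).finrank_eq,
      Module.finrank_finsupp_self, Nat.card_eq_fintype_card]
  have hN : NeZero (Nat.card G : ℂ) := ⟨Nat.cast_ne_zero.2 Nat.card_pos.ne'⟩
  have hS : IsSemisimpleRing (MonoidAlgebra ℂ G) := inferInstance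
  obtain ⟨n, δ, hδ, ⟨e⟩⟩ :=
    IsSemisimpleRing.exists_algEquiv_pi_matrix_of_isAlgClosed (F := ℂ) (R := MonoidAlgebra ℂ G)
  refine ⟨n, δ, fun i => Nat.pos_of_ne_zero (hδ i).out, ?_, ⟨e⟩⟩
  rw [← hfr, e.toLinearEquiv.finrank_eq, Module.finrank_pi_fintype]
  refine Finset.sum_congr rfl fun i _ => ?_
  rw [Module.finrank_matrix, Module.finrank_self, Fintype.card_fin, mul_one, sq]

end Pool.Agent.CGS
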