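import Pool.Agent.CGS.Base

/-!
# The center of the group algebra

PACKAGE (statements frozen; auxiliary lemmas private; the imported files are black boxes, some
of them still contain sorry).

An element `x` of `MonoidAlgebra ℂ G` is central iff it commutes with all group elements
(linearity and `MonoidAlgebra.of`), iff its coefficient function is constant on conjugacy classes:
the coefficient of `g x g⁻¹` at `g h g⁻¹` is the coefficient of `x` at `h`. So the center is
linearly isomorphic to the functions on the finite set `ConjClasses G`: to `φ : ConjClasses G → ℂ`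
associate `∑ g, MonoidAlgebra.single g (φ (ConjClasses.mk g))` (`ConjClasses.mk_eq_mk_iff_isConj`,
`isConj_iff`, `Quotient.lift` for the inverse). `Module.finrank_pi` or
`Module.finrank_fintype_fun_eq_card`.
-/

set_option autoImplicit false

namespace Pool.Agent.CGS

open Matrix

private theorem mem_center_iff_coeff (G : Type) [Group G] (x : MonoidAlgebra ℂ G) :
    x ∈ Subalgebra.center ℂ (MonoidAlgebra ℂ G) ↔
      ∀ g h : G, x.coeff (g * h * g⁻¹) = x.coeff h := by
  rw [Subalgebra.mem_center_iff]
  constructor
  · intro hx g h
    have h1 := hx (MonoidAlgebra.single g 1)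
    have h2 := congrArg (fun y : MonoidAlgebra ℂ G => y.coeff (g * h)) h1
    simp only [MonoidAlgebra.coeff_single_mul_apply, MonoidAlgebra.coeff_mul_single_apply,
      one_mul, mul_one, inv_mul_cancel_left] at h2
    exact h2.symm
  · intro hx b
    induction b using MonoidAlgebra.induction_linear with
    | zero => rw [zero_mul, mul_zero]
    | add y z hy hz => rw [add_mul, mul_add, hy, hz]
    | single m r =>
      ext h
      rw [MonoidAlgebra.coeff_single_mul_apply, MonoidAlgebra.coeff_mul_single_apply]
      have h1 := hx m (m⁻¹ * h)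
      rw [mul_inv_cancel_left] at h1
      rw [h1, mul_comm]

/-- the dimension of the center of the group algebra is the class number -/
theorem finrank_center_monoidAlgebra (G : Type) [Group G] [Finite G] :
    Module.finrank ℂ (Subalgebra.center ℂ (MonoidAlgebra ℂ G)) = Nat.card (ConjClasses G) := by
  classical
  have := Fintype.ofFinite G
  have hfin : Finite (ConjClasses G) := Finite.of_surjective _ ConjClasses.mk_surjective
  have := Fintype.ofFinite (ConjClasses G)
  let T : (ConjClasses G → ℂ) →ₗ[ℂ] MonoidAlgebra ℂ G :=
    ((MonoidAlgebra.coeffLinearEquiv ℂ).symm.toLinearMap ∘ₗ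
      (Finsupp.linearEquivFunOnFinite ℂ ℂ G).symm.toLinearMap) ∘ₗ
      LinearMap.funLeft ℂ ℂ (ConjClasses.mk : G → ConjClasses G)
  have hT : ∀ φ g, (T φ).coeff g = φ (ConjClasses.mk g) := fun φ g => rfl
  have hinj : Function.Injective T := by
    intro φ ψ h
    funext c
    obtain ⟨g, rfl⟩ := ConjClasses.mk_surjective c
    rw [← hT φ g, ← hT ψ g, h]
  have hr : LinearMap.range T =
      Subalgebra.toSubmodule (Subalgebra.center ℂ (MonoidAlgebra ℂ G)) := by
    ext x
    rw [Subalgebra.mem_toSubmodule, mem_center_iff_coeff, LinearMap.mem_range]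
    constructor
    · rintro ⟨φ, rfl⟩ g h
      rw [hT, hT]
      congr 1
      rw [ConjClasses.mk_eq_mk_iff_isConj, isConj_comm, isConj_iff]
      exact ⟨g, rfl⟩
    · intro hx
      refine ⟨fun c => Quotient.liftOn c (fun g => x.coeff g) ?_, ?_⟩
      · intro a b hab
        obtain ⟨g, hg⟩ := isConj_iff.1 hab
        rw [← hg, hx]
      · ext g
        rw [hT]
        rfl
  rw [← Subalgebra.finrank_toSubmodule, ← hr, LinearMap.finrank_range_of_inj hinj,
    Module.finrank_fintype_fun_eq_card, Nat.card_eq_fintype_card]

end Pool.Agent.CGS
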