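import Pool.Agent.CGS.Base

/-!
# The center of a product of matrix algebras

PACKAGE (statements frozen; auxiliary lemmas private; the imported files are black boxes, some
of them are not finished yet).

* `finrank_center_congr`: an algebra isomorphism maps the center onto the center; this gives a
  linear equivalence of the centers (`LinearEquiv.ofSubmodules` or by hand) and
  `LinearEquiv.finrank_eq`.
* `finrank_center_pi`: an element `a` of the product is central iff every `a i` is central in
  `M_{δ i}(ℂ)` (`Set.center_pi` or by hand with `Pi.single`), iff `a i = c i • 1` (a matrix which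
  commutes with all matrices is scalar, `Matrix.mem_range_scalar_of_commute_single`). The map `c ↦
  fun i => c i • 1` is a linear bijection of `Fin n → ℂ` onto the center (injective because `δ i >
  0`). So the dimension is `n` (`Module.finrank_fin_fun`).
-/

set_option autoImplicit false

namespace Pool.Agent.CGS

open Matrix

theorem finrank_center_congr {A B : Type} [Ring A] [Algebra ℂ A] [Ring B] [Algebra ℂ B]
    (e : A ≃ₐ[ℂ] B) :
    Module.finrank ℂ (Subalgebra.center ℂ A) = Module.finrank ℂ (Subalgebra.center ℂ B) := by
  have hmap : (Subalgebra.toSubmodule (Subalgebra.center ℂ A)).map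
      (e.toLinearEquiv : A →ₗ[ℂ] B) = Subalgebra.toSubmodule (Subalgebra.center ℂ B) := by
    ext x
    rw [Submodule.mem_map, Subalgebra.mem_toSubmodule, Subalgebra.mem_center_iff]
    constructor
    · rintro ⟨a, ha, rfl⟩ b
      rw [Subalgebra.mem_toSubmodule, Subalgebra.mem_center_iff] at ha
      obtain ⟨a', rfl⟩ := e.surjective b
      change e a' * e a = e a * e a'
      rw [← map_mul, ← map_mul, ha]
    · intro hx
      refine ⟨e.symm x, ?_, e.apply_symm_apply x⟩
      rw [Subalgebra.mem_toSubmodule, Subalgebra.mem_center_iff]
      intro b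
      apply e.injective
      rw [map_mul, map_mul, e.apply_symm_apply]
      exact hx _
  exact LinearEquiv.finrank_eq (LinearEquiv.ofSubmodules e.toLinearEquiv _ _ hmap)

theorem finrank_center_pi {n : ℕ} (δ : Fin n → ℕ) (hδ : ∀ i, 0 < δ i) :
    Module.finrank ℂ (Subalgebra.center ℂ (∀ i, Matrix (Fin (δ i)) (Fin (δ i)) ℂ)) = n := by
  classical
  let f : (Fin n → ℂ) →ₗ[ℂ] (Subalgebra.center ℂ (∀ i, Matrix (Fin (δ i)) (Fin (δ i)) ℂ)) :=
    { toFun := fun c => ⟨fun i => c i • 1, by
        rw [Subalgebra.mem_center_iff]
        intro b
        funext i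
        simp⟩
      map_add' := fun c c' => by
        apply Subtype.ext
        funext i
        simp [add_smul]
      map_smul' := fun r c => by
        apply Subtype.ext
        funext i
        simp [mul_smul] }
  have hf : ∀ c i, (f c : ∀ i, Matrix (Fin (δ i)) (Fin (δ i)) ℂ) i = c i • 1 := fun c i => rfl
  have hbij : Function.Bijective f := by
    constructor
    · intro c c' h
      funext i
      have h1 : (f c : ∀ i, Matrix (Fin (δ i)) (Fin (δ i)) ℂ) i =
          (f c' : ∀ i, Matrix (Fin (δ i)) (Fin (δ i)) ℂ) i := by rw [h]
      rw [hf, hf] at h1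
      have h2 := congrFun (congrFun h1 ⟨0, hδ i⟩) ⟨0, hδ i⟩
      simpa using h2
    · rintro ⟨a, ha⟩
      rw [Subalgebra.mem_center_iff] at ha
      have hex : ∀ i, ∃ c : ℂ, a i = c • 1 := by
        intro i
        have h1 : a i ∈ Set.range (Matrix.scalar (Fin (δ i))) := by
          refine Matrix.mem_range_scalar_of_commute_single fun j k _ => ?_
          have h2 := congrFun (ha (Pi.single i (Matrix.single j k 1))) i
          simp only [Pi.mul_apply, Pi.single_eq_same] at h2
          exact h2
        obtain ⟨c, hc⟩ := h1
        refine ⟨c, ?_⟩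
        rw [← hc, Matrix.scalar_apply, Matrix.smul_one_eq_diagonal]
      choose c hc using hex
      refine ⟨c, Subtype.ext (funext fun i => ?_)⟩
      exact (hc i).symm
  rw [← LinearEquiv.finrank_eq (LinearEquiv.ofBijective f hbij), Module.finrank_fin_fun]

end Pool.Agent.CGS
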