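import Pool.Agent.CGS.Base

/-!
# Surjective homomorphisms of an algebra onto matrix algebras, up to conjugation
-/

set_option autoImplicit false

namespace Pool.Agent.CGS

open Matrix

/-- surjective homomorphisms of an algebra onto the matrices of size `d` -/
abbrev AIrr (A : Type) [Ring A] [Algebra ℂ A] (d : ℕ) : Type :=
  {f : A →ₐ[ℂ] Matrix (Fin d) (Fin d) ℂ // Function.Surjective f}

/-- conjugate homomorphisms -/
def ASim {A : Type} [Ring A] [Algebra ℂ A] {d : ℕ}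
    (f g : A →ₐ[ℂ] Matrix (Fin d) (Fin d) ℂ) : Prop :=
  ∃ P : GL (Fin d) ℂ, ∀ a,
    (P : Matrix (Fin d) (Fin d) ℂ) * f a = g a * (P : Matrix (Fin d) (Fin d) ℂ)

theorem ASim.refl {A : Type} [Ring A] [Algebra ℂ A] {d : ℕ}
    (f : A →ₐ[ℂ] Matrix (Fin d) (Fin d) ℂ) : ASim f f := ⟨1, fun g => by simp⟩

theorem ASim.symm {A : Type} [Ring A] [Algebra ℂ A] {d : ℕ}
    {f g : A →ₐ[ℂ] Matrix (Fin d) (Fin d) ℂ} (h : ASim f g) : ASim g f := by
  obtain ⟨P, hP⟩ := h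
  refine ⟨P⁻¹, fun a => ?_⟩
  have e1 : ((P⁻¹ : GL (Fin d) ℂ) : Matrix (Fin d) (Fin d) ℂ) *
      (P : Matrix (Fin d) (Fin d) ℂ) = 1 := by
    rw [← Units.val_mul, inv_mul_cancel, Units.val_one]
  have e2 : (P : Matrix (Fin d) (Fin d) ℂ) *
      ((P⁻¹ : GL (Fin d) ℂ) : Matrix (Fin d) (Fin d) ℂ) = 1 := by
    rw [← Units.val_mul, mul_inv_cancel, Units.val_one]
  calc ((P⁻¹ : GL (Fin d) ℂ) : Matrix (Fin d) (Fin d) ℂ) * g a
      = ((P⁻¹ : GL (Fin d) ℂ) : Matrix (Fin d) (Fin d) ℂ) *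
        (g a * (P : Matrix (Fin d) (Fin d) ℂ)) *
        ((P⁻¹ : GL (Fin d) ℂ) : Matrix (Fin d) (Fin d) ℂ) := by
          rw [mul_assoc, mul_assoc (g a), e2, mul_one]
    _ = ((P⁻¹ : GL (Fin d) ℂ) : Matrix (Fin d) (Fin d) ℂ) *
        ((P : Matrix (Fin d) (Fin d) ℂ) * f a) *
        ((P⁻¹ : GL (Fin d) ℂ) : Matrix (Fin d) (Fin d) ℂ) := by rw [hP a]
    _ = f a * ((P⁻¹ : GL (Fin d) ℂ) : Matrix (Fin d) (Fin d) ℂ) := by
          rw [← mul_assoc, e1, one_mul]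

theorem ASim.trans {A : Type} [Ring A] [Algebra ℂ A] {d : ℕ}
    {f g h : A →ₐ[ℂ] Matrix (Fin d) (Fin d) ℂ} (h1 : ASim f g) (h2 : ASim g h) : ASim f h := by
  obtain ⟨P, hP⟩ := h1
  obtain ⟨Q, hQ⟩ := h2
  refine ⟨Q * P, fun a => ?_⟩
  rw [Units.val_mul, mul_assoc, hP a, ← mul_assoc, hQ a, mul_assoc]

/-- the setoid of conjugation -/
def aSetoid (A : Type) [Ring A] [Algebra ℂ A] (d : ℕ) : Setoid (AIrr A d) where
  r f g := ASim f.1 g.1
  iseqv := ⟨fun f => ASim.refl f.1, fun h => h.symm, fun h h' => h.trans h'⟩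

/-- conjugacy classes of surjective homomorphisms onto the matrices of size `d` -/
def ACls (A : Type) [Ring A] [Algebra ℂ A] (d : ℕ) : Type := Quotient (aSetoid A d)

end Pool.Agent.CGS
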