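import Mathlib

/-!
# Complex matrix representations of a group and their similarity classes

All groups of this folder live in `Type`.  `Rep G d` is the type of homomorphisms
`G → GL_d(ℂ)`, `mat ρ g` the matrix of `g`; `IsIrr ρ` says that `d > 0` and the matrices of `ρ`
span the algebra of all matrices (equivalent to irreducibility, file `Irr`); `Cls G d` is the
type of similarity classes of irreducible representations of degree `d`, `N G d` their number.
-/

set_option autoImplicit false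

namespace Pool.Agent.CGS

open Matrix

/-- complex matrix representations of degree `d` -/
abbrev Rep (G : Type) [Group G] (d : ℕ) : Type := G →* GL (Fin d) ℂ

section

variable {G : Type} [Group G] {d : ℕ}

/-- the matrix of `g` -/
def mat (ρ : Rep G d) (g : G) : Matrix (Fin d) (Fin d) ℂ :=
  ((ρ g : GL (Fin d) ℂ) : Matrix (Fin d) (Fin d) ℂ)

theorem mat_one (ρ : Rep G d) : mat ρ 1 = 1 := by simp [mat]

theorem mat_mul (ρ : Rep G d) (g h : G) : mat ρ (g * h) = mat ρ g * mat ρ h := by simp [mat]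

theorem mat_inv_mul (ρ : Rep G d) (g : G) : mat ρ g⁻¹ * mat ρ g = 1 := by
  rw [← mat_mul, inv_mul_cancel, mat_one]

theorem mat_mul_inv (ρ : Rep G d) (g : G) : mat ρ g * mat ρ g⁻¹ = 1 := by
  rw [← mat_mul, mul_inv_cancel, mat_one]

theorem mat_pow (ρ : Rep G d) (g : G) (n : ℕ) : mat ρ (g ^ n) = mat ρ g ^ n := by
  simp [mat]

theorem rep_ext {ρ σ : Rep G d} (h : ∀ g, mat ρ g = mat σ g) : ρ = σ :=
  MonoidHom.ext fun g => Units.ext (h g)

/-- a homomorphism into the matrices gives a representation -/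
def ofMat (f : G →* Matrix (Fin d) (Fin d) ℂ) : Rep G d := f.toHomUnits

theorem mat_ofMat (f : G →* Matrix (Fin d) (Fin d) ℂ) (g : G) : mat (ofMat f) g = f g := rfl

/-- irreducible: the matrices span everything -/
structure IsIrr (ρ : Rep G d) : Prop where
  pos : 0 < d
  span : Submodule.span ℂ (Set.range (mat ρ)) = ⊤

/-- a subspace stable under the representation -/
def Stable (ρ : Rep G d) (W : Submodule ℂ (Fin d → ℂ)) : Prop :=
  ∀ g, ∀ w ∈ W, mat ρ g *ᵥ w ∈ W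

/-- similar representations -/
def Sim (ρ σ : Rep G d) : Prop :=
  ∃ P : GL (Fin d) ℂ, ∀ g,
    (P : Matrix (Fin d) (Fin d) ℂ) * mat ρ g = mat σ g * (P : Matrix (Fin d) (Fin d) ℂ)

theorem Sim.refl (ρ : Rep G d) : Sim ρ ρ := ⟨1, fun g => by simp⟩

theorem sim_iff {ρ σ : Rep G d} : Sim ρ σ ↔ ∃ P : GL (Fin d) ℂ, ∀ g,
    mat σ g = (P : Matrix (Fin d) (Fin d) ℂ) * mat ρ g *
      ((P⁻¹ : GL (Fin d) ℂ) : Matrix (Fin d) (Fin d) ℂ) := by
  constructor
  · rintro ⟨P, hP⟩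
    refine ⟨P, fun g => ?_⟩
    rw [hP g, mul_assoc, ← Units.val_mul, mul_inv_cancel, Units.val_one, mul_one]
  · rintro ⟨P, hP⟩
    refine ⟨P, fun g => ?_⟩
    rw [hP g, mul_assoc, ← Units.val_mul, inv_mul_cancel, Units.val_one, mul_one]

theorem Sim.symm {ρ σ : Rep G d} (h : Sim ρ σ) : Sim σ ρ := by
  obtain ⟨P, hP⟩ := sim_iff.1 h
  refine ⟨P⁻¹, fun g => ?_⟩
  rw [hP g, ← mul_assoc, ← mul_assoc, ← Units.val_mul, inv_mul_cancel, Units.val_one, one_mul]

theorem Sim.trans {ρ σ τ : Rep G d} (h : Sim ρ σ) (h' : Sim σ τ) : Sim ρ τ := by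
  obtain ⟨P, hP⟩ := h
  obtain ⟨Q, hQ⟩ := h'
  refine ⟨Q * P, fun g => ?_⟩
  rw [Units.val_mul, mul_assoc, hP g, ← mul_assoc, hQ g, mul_assoc]

theorem IsIrr.of_sim {ρ σ : Rep G d} (hρ : IsIrr ρ) (h : Sim ρ σ) : IsIrr σ := by
  obtain ⟨P, hP⟩ := sim_iff.1 h
  refine ⟨hρ.pos, ?_⟩
  have hs := hρ.span
  rw [eq_top_iff]
  intro A _
  have key : ∀ B ∈ Submodule.span ℂ (Set.range (mat ρ)),
      (P : Matrix (Fin d) (Fin d) ℂ) * B * ((P⁻¹ : GL (Fin d) ℂ) : Matrix (Fin d) (Fin d) ℂ) ∈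
        Submodule.span ℂ (Set.range (mat σ)) := by
    intro B hB
    induction hB using Submodule.span_induction with
    | mem x hx =>
      obtain ⟨g, rfl⟩ := hx
      rw [← hP g]
      exact Submodule.subset_span ⟨g, rfl⟩
    | zero => simp
    | add x y _ _ hx hy =>
      rw [mul_add, add_mul]
      exact Submodule.add_mem _ hx hy
    | smul c x _ hx =>
      rw [mul_smul_comm, smul_mul_assoc]
      exact Submodule.smul_mem _ _ hx
  have hB : ((P⁻¹ : GL (Fin d) ℂ) : Matrix (Fin d) (Fin d) ℂ) * A *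
      (P : Matrix (Fin d) (Fin d) ℂ) ∈ Submodule.span ℂ (Set.range (mat ρ)) := by
    rw [hs]; exact Submodule.mem_top
  have h1 := key _ hB
  have h2 : (P : Matrix (Fin d) (Fin d) ℂ) * (((P⁻¹ : GL (Fin d) ℂ) : Matrix (Fin d) (Fin d) ℂ) *
      A * (P : Matrix (Fin d) (Fin d) ℂ)) *
      ((P⁻¹ : GL (Fin d) ℂ) : Matrix (Fin d) (Fin d) ℂ) = A := by
    have e1 : (P : Matrix (Fin d) (Fin d) ℂ) *
        ((P⁻¹ : GL (Fin d) ℂ) : Matrix (Fin d) (Fin d) ℂ) = 1 := by
      rw [← Units.val_mul, mul_inv_cancel, Units.val_one]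
    calc _ = ((P : Matrix (Fin d) (Fin d) ℂ) *
        ((P⁻¹ : GL (Fin d) ℂ) : Matrix (Fin d) (Fin d) ℂ)) * A *
        ((P : Matrix (Fin d) (Fin d) ℂ) *
        ((P⁻¹ : GL (Fin d) ℂ) : Matrix (Fin d) (Fin d) ℂ)) := by noncomm_ring
      _ = A := by rw [e1, one_mul, mul_one]
  rwa [h2] at h1

end

/-- the irreducible representations of degree `d` up to similarity -/
def irrSetoid (G : Type) [Group G] (d : ℕ) : Setoid {ρ : Rep G d // IsIrr ρ} where
  r ρ σ := Sim ρ.1 σ.1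
  iseqv := ⟨fun ρ => Sim.refl ρ.1, fun h => h.symm, fun h h' => h.trans h'⟩

/-- similarity classes of irreducible representations of degree `d` -/
def Cls (G : Type) [Group G] (d : ℕ) : Type := Quotient (irrSetoid G d)

/-- the number of irreducible representations of degree `d` up to similarity -/
noncomputable def N (G : Type) [Group G] (d : ℕ) : ℕ := Nat.card (Cls G d)

section

variable {G H : Type} [Group G] [Group H] {d : ℕ}

/-- the class of an irreducible representation -/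
def mk (ρ : Rep G d) (h : IsIrr ρ) : Cls G d := Quotient.mk (irrSetoid G d) ⟨ρ, h⟩

theorem mk_eq {ρ σ : Rep G d} {h : IsIrr ρ} {h' : IsIrr σ} : mk ρ h = mk σ h' ↔ Sim ρ σ :=
  ⟨fun e => Quotient.exact e, fun e => Quotient.sound e⟩

theorem cls_ind {q : Cls G d → Prop} (h : ∀ ρ (hρ : IsIrr ρ), q (mk ρ hρ)) (c : Cls G d) : q c :=
  Quotient.ind (fun a => h a.1 a.2) c

/-- a map of representations which respects irreducibility and similarity acts on classes -/
def clsMap (F : Rep G d → Rep H d) (hI : ∀ ρ, IsIrr ρ → IsIrr (F ρ))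
    (hS : ∀ ρ σ, Sim ρ σ → Sim (F ρ) (F σ)) : Cls G d → Cls H d :=
  Quotient.map' (s₁ := irrSetoid G d) (s₂ := irrSetoid H d) (fun ρ => ⟨F ρ.1, hI ρ.1 ρ.2⟩)
    (fun ρ σ h => hS ρ.1 σ.1 h)

theorem clsMap_mk (F : Rep G d → Rep H d) (hI : ∀ ρ, IsIrr ρ → IsIrr (F ρ))
    (hS : ∀ ρ σ, Sim ρ σ → Sim (F ρ) (F σ)) (ρ : Rep G d) (h : IsIrr ρ) :
    clsMap F hI hS (mk ρ h) = mk (F ρ) (hI ρ h) := rfl

/-- a property of representations, for classes -/
def Has (q : Rep G d → Prop) (c : Cls G d) : Prop := ∃ ρ, ∃ h : IsIrr ρ, mk ρ h = c ∧ q ρ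

theorem has_mk {q : Rep G d → Prop} (hq : ∀ ρ σ, Sim ρ σ → q ρ → q σ) {ρ : Rep G d}
    {h : IsIrr ρ} : Has q (mk ρ h) ↔ q ρ := by
  constructor
  · rintro ⟨σ, hσ, e, hqσ⟩
    exact hq _ _ (mk_eq.1 e) hqσ
  · intro hh
    exact ⟨ρ, h, rfl, hh⟩

/-- self-dual representations: there is an invariant nondegenerate bilinear form -/
def SelfDual (ρ : Rep G d) : Prop :=
  ∃ P : GL (Fin d) ℂ, ∀ g, (mat ρ g)ᵀ * (P : Matrix (Fin d) (Fin d) ℂ) * mat ρ g =
    (P : Matrix (Fin d) (Fin d) ℂ)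

theorem SelfDual.of_sim {ρ σ : Rep G d} (h : Sim ρ σ) (hρ : SelfDual ρ) : SelfDual σ := by
  obtain ⟨Q, hQ⟩ := h.symm
  obtain ⟨P, hP⟩ := hρ
  -- Q σ(g) = ρ(g) Q, the form of σ is Qᵀ P Q
  have hdet : IsUnit ((Q : Matrix (Fin d) (Fin d) ℂ)ᵀ * (P : Matrix (Fin d) (Fin d) ℂ) *
      (Q : Matrix (Fin d) (Fin d) ℂ)) := by
    rw [Matrix.isUnit_iff_isUnit_det, det_mul, det_mul, det_transpose]
    have hQ' := (Matrix.isUnit_iff_isUnit_det _).1 Q.isUnit
    have hP' := (Matrix.isUnit_iff_isUnit_det _).1 P.isUnit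
    exact (hQ'.mul hP').mul hQ'
  refine ⟨hdet.unit, fun g => ?_⟩
  rw [IsUnit.unit_spec]
  have h1 : (mat σ g)ᵀ * (Q : Matrix (Fin d) (Fin d) ℂ)ᵀ =
      (Q : Matrix (Fin d) (Fin d) ℂ)ᵀ * (mat ρ g)ᵀ := by
    rw [← transpose_mul, ← transpose_mul, hQ g]
  calc (mat σ g)ᵀ * ((Q : Matrix (Fin d) (Fin d) ℂ)ᵀ * (P : Matrix (Fin d) (Fin d) ℂ) *
        (Q : Matrix (Fin d) (Fin d) ℂ)) * mat σ g
      = ((mat σ g)ᵀ * (Q : Matrix (Fin d) (Fin d) ℂ)ᵀ) * (P : Matrix (Fin d) (Fin d) ℂ) *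
        ((Q : Matrix (Fin d) (Fin d) ℂ) * mat σ g) := by noncomm_ring
    _ = (Q : Matrix (Fin d) (Fin d) ℂ)ᵀ *
        ((mat ρ g)ᵀ * (P : Matrix (Fin d) (Fin d) ℂ) * mat ρ g) *
        (Q : Matrix (Fin d) (Fin d) ℂ) := by rw [h1, hQ g]; noncomm_ring
    _ = _ := by rw [hP g]

/-- the number of self-dual classes -/
noncomputable def SD (G : Type) [Group G] (d : ℕ) : ℕ := Nat.card {c : Cls G d // Has SelfDual c}

/-- the extension to the group algebra -/
noncomputable def lift (ρ : Rep G d) : MonoidAlgebra ℂ G →ₐ[ℂ] Matrix (Fin d) (Fin d) ℂ :=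
  MonoidAlgebra.lift ℂ _ G ((Units.coeHom _).comp ρ)

theorem lift_of (ρ : Rep G d) (g : G) : lift ρ (MonoidAlgebra.of ℂ G g) = mat ρ g := by
  simp [lift, mat]

theorem lift_single (ρ : Rep G d) (g : G) (c : ℂ) :
    lift ρ (MonoidAlgebra.single g c) = c • mat ρ g := by
  simp [lift, mat]

/-- restriction to a subgroup -/
def res (Y : Subgroup G) (ρ : Rep G d) : Rep Y d := ρ.comp Y.subtype

theorem mat_res (Y : Subgroup G) (ρ : Rep G d) (y : Y) : mat (res Y ρ) y = mat ρ (y : G) := rfl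

/-- the inclusion of group algebras -/
noncomputable def inc (Y : Subgroup G) : MonoidAlgebra ℂ Y →ₐ[ℂ] MonoidAlgebra ℂ G :=
  MonoidAlgebra.lift ℂ _ Y ((MonoidAlgebra.of ℂ G).comp Y.subtype)

theorem inc_of (Y : Subgroup G) (y : Y) :
    inc Y (MonoidAlgebra.of ℂ Y y) = MonoidAlgebra.of ℂ G (y : G) := by
  simp [inc]

theorem lift_inc (Y : Subgroup G) (ρ : Rep G d) (a : MonoidAlgebra ℂ Y) :
    lift ρ (inc Y a) = lift (res Y ρ) a := by
  have : (lift ρ).comp (inc Y) = lift (res Y ρ) := by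
    refine MonoidAlgebra.algHom_ext (fun y => ?_) (Subsingleton.elim _ _)
    have h1 := inc_of Y y
    rw [MonoidAlgebra.of_apply] at h1
    rw [AlgHom.comp_apply, h1, lift_of, lift_single, one_smul]
    rfl
  exact congrArg (fun f : MonoidAlgebra ℂ Y →ₐ[ℂ] Matrix (Fin d) (Fin d) ℂ => f a) this

/-- pull back along a homomorphism -/
def pull (f : H →* G) (ρ : Rep G d) : Rep H d := ρ.comp f

theorem mat_pull (f : H →* G) (ρ : Rep G d) (h : H) : mat (pull f ρ) h = mat ρ (f h) := rfl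

/-- the conjugate of a representation of a normal subgroup -/
def cj (Y : Subgroup G) [Y.Normal] (s : G) (τ : Rep Y d) : Rep Y d :=
  pull (MulAut.conjNormal s : Y ≃* Y).toMonoidHom τ

theorem mat_cj (Y : Subgroup G) [Y.Normal] (s : G) (τ : Rep Y d) (y y' : Y)
    (h : (y' : G) = s * y * s⁻¹) : mat (cj Y s τ) y = mat τ y' := by
  have : (MulAut.conjNormal s : Y ≃* Y) y = y' := Subtype.ext (by rw [h]; rfl)
  rw [cj, mat_pull, ← this]
  rfl

/-- the dual representation -/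
def dual (ρ : Rep G d) : Rep G d :=
  ofMat
    { toFun := fun g => (mat ρ g⁻¹)ᵀ
      map_one' := by simp [mat_one]
      map_mul' := fun g h => by simp [mat_mul] }

theorem mat_dual (ρ : Rep G d) (g : G) : mat (dual ρ) g = (mat ρ g⁻¹)ᵀ := rfl

/-- the representation on column vectors -/
def toRepr (ρ : Rep G d) : Representation ℂ G (Fin d → ℂ) where
  toFun g := (mat ρ g).mulVecLin
  map_one' := by rw [mat_one]; exact Matrix.mulVecLin_one
  map_mul' g h := by rw [mat_mul, Matrix.mulVecLin_mul]; rfl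

theorem toRepr_apply (ρ : Rep G d) (g : G) (v : Fin d → ℂ) : toRepr ρ g v = mat ρ g *ᵥ v := rfl

/-- similar representations have the same kernel -/
theorem ker_sim {ρ σ : Rep G d} (h : Sim ρ σ) : ρ.ker = σ.ker := by
  have key : ∀ {ρ σ : Rep G d}, Sim ρ σ → ρ.ker ≤ σ.ker := by
    intro ρ σ h g hg
    obtain ⟨P, hP⟩ := sim_iff.1 h
    rw [MonoidHom.mem_ker] at hg ⊢
    apply Units.ext
    have h1 := hP g
    have h2 : mat ρ g = 1 := by rw [mat, hg, Units.val_one]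
    rw [h2, mul_one, ← Units.val_mul, mul_inv_cancel, Units.val_one] at h1
    rw [Units.val_one]
    exact h1
  exact le_antisymm (key h) (key h.symm)

/-- the kernel of a class -/
def kerC (c : Cls G d) : Subgroup G :=
  Quotient.lift (s := irrSetoid G d) (fun ρ => ρ.1.ker) (fun _ _ h => ker_sim h) c

theorem kerC_mk (ρ : Rep G d) (h : IsIrr ρ) : kerC (mk ρ h) = ρ.ker := rfl

instance kerC_normal (c : Cls G d) : (kerC c).Normal := by
  refine cls_ind (q := fun c => (kerC c).Normal) (fun ρ hρ => ?_) c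
  rw [kerC_mk]
  infer_instance

theorem mem_ker_iff (ρ : Rep G d) (g : G) : g ∈ ρ.ker ↔ mat ρ g = 1 := by
  rw [MonoidHom.mem_ker, mat]
  exact ⟨fun h => by rw [h, Units.val_one], fun h => Units.ext (by rw [h, Units.val_one])⟩

end

/-- the sum of the squares of the degrees with odd part `e` -/
noncomputable def MS (G : Type) [Group G] (e : ℕ) : ℕ :=
  ∑ d ∈ (Finset.range (Nat.card G + 1)).filter (fun d => d / 2 ^ d.factorization 2 = e),
    d ^ 2 * N G d

/-- no subgroup of index two -/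
def NoIdx2 (G : Type) [Group G] : Prop := ∀ Y : Subgroup G, Y.index ≠ 2

/-- some derived subgroup has odd order -/
def S2 (G : Type) [Group G] : Prop := ∃ m, Odd (Nat.card (derivedSeries G m))

/-- the arithmetic condition on the soluble side -/
def Good (n N : ℕ) : Prop :=
  n ≤ 2 ∨ (n = 3 ∧ ¬ 7 ∣ N) ∨
    (¬ 9 ∣ N ∧ ∀ p i : ℕ, p.Prime → 5 ≤ p → p ∣ N → 1 ≤ i → i ≤ n → ¬ p ∣ 2 ^ i - 1)

/-- the arithmetic condition on the other side; `N` is the order of the group, `c` the order of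
its commutator subgroup -/
def GoodH (n N c : ℕ) : Prop :=
  n ≤ 3 ∨ ((¬ 9 ∣ N ∨ ¬ 3 ∣ c) ∧
    ∀ p i : ℕ, p.Prime → 5 ≤ p → p ∣ c → 1 ≤ i → i + 2 ≤ n → ¬ p ∣ 2 ^ i - 1)

theorem Good.of_dvd {n N N' : ℕ} (h : Good n N) (hd : N' ∣ N) : Good n N' := by
  rcases h with h | ⟨h, h'⟩ | ⟨h, h'⟩
  · exact Or.inl h
  · exact Or.inr (Or.inl ⟨h, fun h7 => h' (h7.trans hd)⟩)
  · exact Or.inr (Or.inr ⟨fun h9 => h (h9.trans hd),
      fun p i hp h5 hpN h1 hi => h' p i hp h5 (hpN.trans hd) h1 hi⟩)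

theorem Good.goodH {n N c : ℕ} (h : Good n N) (hc : c ∣ N) : GoodH n N c := by
  rcases h with h | ⟨h, _⟩ | ⟨h, h'⟩
  · exact Or.inl (by omega)
  · exact Or.inl (by omega)
  · exact Or.inr ⟨Or.inl h, fun p i hp h5 hpN h1 hi => h' p i hp h5 (hpN.trans hc) h1 (by omega)⟩

/-- no nontrivial normal subgroup of odd order -/
def NoOdd (X : Type) [Group X] : Prop :=
  ∀ S : Subgroup X, S.Normal → Odd (Nat.card S) → S = ⊥

/-- no odd prime divisor of the order of `M` divides a number `2 ^ i - 1`, `i > 0`, where `2 ^ i`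
divides the order of `M` -/
def Harmless (M : Type) [Group M] : Prop :=
  ∀ p : ℕ, p.Prime → p ≠ 2 → p ∣ Nat.card M →
    ∀ i : ℕ, 1 ≤ i → 2 ^ i ∣ Nat.card M → ¬ p ∣ 2 ^ i - 1

/-- the hypothesis of the theorem of Frobenius: `N(R)/C(R)` is a 2-group for every 2-subgroup -/
def FC (M : Type) [Group M] : Prop :=
  ∀ R : Subgroup M, IsPGroup 2 R →
    ∃ k, (Subgroup.centralizer (R : Set M)).relIndex (Subgroup.normalizer (R : Set M)) = 2 ^ k

/-- the action of a finite group of rotations on its poles -/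
structure PoleAction (K Ω : Type) [Group K] [MulAction K Ω] : Type where
  /-- the opposite pole -/
  neg : Ω → Ω
  neg_neg : ∀ x : Ω, neg (neg x) = x
  neg_ne : ∀ x : Ω, neg x ≠ x
  smul_neg : ∀ (g : K) (x : Ω), g • neg x = neg (g • x)
  fix : ∀ g : K, g ≠ 1 → ∃ v : Ω, ∀ x : Ω, g • x = x ↔ x = v ∨ x = neg v
  pole : ∀ x : Ω, ∃ g : K, g ≠ 1 ∧ g • x = x
  noinv : ∀ x : Ω, ∃ g : K, g • x ≠ x ∧ g • x ≠ neg x

/-- a normal subgroup `S` of odd order and a normal subgroup `Q` of index three with `Q/S` a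
2-group -/
def Has23 (X : Type) [Group X] : Prop :=
  ∃ S Q : Subgroup X, S.Normal ∧ Q.Normal ∧ S ≤ Q ∧ Odd (Nat.card S) ∧ Q.index = 3 ∧
    ∃ k, S.relIndex Q = 2 ^ k

end Pool.Agent.CGS
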