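import Pool.Agent.CGS.Ops

/-!
# Determinants, twists, traces, conjugation of classes
-/

set_option autoImplicit false

namespace Pool.Agent.CGS

open Matrix

section

variable {G H : Type} [Group G] [Group H] {d : ℕ}

/-- the determinant of `ρ` has odd order -/
def OddDet (ρ : Rep G d) : Prop := ∃ m : ℕ, Odd m ∧ ∀ g, (mat ρ g).det ^ m = 1

theorem det_sim {ρ σ : Rep G d} (h : Sim ρ σ) (g : G) : (mat ρ g).det = (mat σ g).det := by
  obtain ⟨P, hP⟩ := sim_iff.1 h
  have h1 := congrArg Matrix.det (hP g)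
  rw [det_mul, det_mul] at h1
  have h2 : (P : Matrix (Fin d) (Fin d) ℂ).det *
      ((P⁻¹ : GL (Fin d) ℂ) : Matrix (Fin d) (Fin d) ℂ).det = 1 := by
    rw [← det_mul, ← Units.val_mul, mul_inv_cancel, Units.val_one, det_one]
  rw [h1, mul_right_comm, h2, one_mul]

theorem OddDet.of_sim {ρ σ : Rep G d} (h : Sim ρ σ) (hρ : OddDet ρ) : OddDet σ := by
  obtain ⟨m, hm, hd⟩ := hρ
  exact ⟨m, hm, fun g => by rw [← det_sim h g]; exact hd g⟩

theorem OddDet.pull {ρ : Rep G d} (f : H →* G) (hρ : OddDet ρ) :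
    OddDet (Pool.Agent.CGS.pull f ρ) := by
  obtain ⟨m, hm, hd⟩ := hρ
  exact ⟨m, hm, fun g => by rw [mat_pull]; exact hd (f g)⟩

/-- twist by a linear character -/
def twist (χ : G →* ℂˣ) (ρ : Rep G d) : Rep G d :=
  ofMat
    { toFun := fun g => (χ g : ℂ) • mat ρ g
      map_one' := by simp [mat_one]
      map_mul' := fun g h => by
        simp only [map_mul, Units.val_mul, mat_mul, smul_mul_smul_comm] }

theorem mat_twist (χ : G →* ℂˣ) (ρ : Rep G d) (g : G) :
    mat (twist χ ρ) g = (χ g : ℂ) • mat ρ g := rfl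

theorem trace_sim {ρ σ : Rep G d} (h : Sim ρ σ) (g : G) :
    (mat ρ g).trace = (mat σ g).trace := by
  obtain ⟨P, hP⟩ := sim_iff.1 h
  rw [hP g, Matrix.trace_mul_comm, ← mul_assoc, ← Units.val_mul, inv_mul_cancel, Units.val_one,
    one_mul]

/-- the character of a class -/
noncomputable def chi (c : Cls G d) (g : G) : ℂ :=
  Quotient.lift (s := irrSetoid G d) (fun ρ => (mat ρ.1 g).trace) (fun _ _ h => trace_sim h g) c

theorem chi_mk (ρ : Rep G d) (h : IsIrr ρ) (g : G) : chi (mk ρ h) g = (mat ρ g).trace := rfl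

/-- the dual class -/
def dualC : Cls G d → Cls G d := clsMap dual (fun _ h => isIrr_dual h) (fun _ _ h => sim_dual h)

/-- the conjugate of a class of a normal subgroup -/
def cjC (Y : Subgroup G) [Y.Normal] (s : G) : Cls Y d → Cls Y d :=
  clsMap (cj Y s)
    (fun _ h => (isIrr_pull (f := (MulAut.conjNormal s : Y ≃* Y).toMonoidHom)
      (MulAut.conjNormal s : Y ≃* Y).surjective).2 h)
    (fun _ _ h => sim_pull _ h)

theorem cjC_mk (Y : Subgroup G) [Y.Normal] (s : G) (τ : Rep Y d) (h : IsIrr τ) :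
    ∃ h' : IsIrr (cj Y s τ), cjC Y s (mk τ h) = mk (cj Y s τ) h' := ⟨_, rfl⟩

/-- invariant classes of a normal subgroup -/
def InvC (Y : Subgroup G) [Y.Normal] (c : Cls Y d) : Prop := ∀ s : G, cjC Y s c = c

theorem invC_mk (Y : Subgroup G) [Y.Normal] (τ : Rep Y d) (h : IsIrr τ) :
    InvC Y (mk τ h) ↔ ∀ s : G, Sim (cj Y s τ) τ := by
  constructor
  · intro hi s
    exact mk_eq.1 (hi s)
  · intro hi s
    exact mk_eq.2 (hi s)

/-- the number of invariant classes of degree `d` of a normal subgroup -/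
noncomputable def NI (Y : Subgroup G) [Y.Normal] (d : ℕ) : ℕ :=
  Nat.card {c : Cls Y d // InvC Y c}

/-- the classes with irreducible restriction to `Y` -/
def ResIrr (Y : Subgroup G) (ρ : Rep G d) : Prop := IsIrr (res Y ρ)

theorem ResIrr.of_sim (Y : Subgroup G) {ρ σ : Rep G d} (h : Sim ρ σ) (hρ : ResIrr Y ρ) :
    ResIrr Y σ := IsIrr.of_sim hρ (sim_res Y h)

/-- restriction to a smaller subgroup -/
def resLE {R Y : Subgroup G} (h : R ≤ Y) (ρ : Rep Y d) : Rep R d :=
  Pool.Agent.CGS.pull (Subgroup.inclusion h) ρ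

theorem mat_resLE {R Y : Subgroup G} (h : R ≤ Y) (ρ : Rep Y d) (r : R) :
    mat (resLE h ρ) r = mat ρ (Subgroup.inclusion h r) := rfl

/-- the classes of all degrees -/
def AC (G : Type) [Group G] : Type := Σ d : ℕ, Cls G d

/-- the character -/
noncomputable def chiA (c : AC G) (g : G) : ℂ := chi c.2 g

/-- the dual class -/
def dualA (c : AC G) : AC G := ⟨c.1, dualC c.2⟩

/-- the conjugate class -/
def cjA (Y : Subgroup G) [Y.Normal] (s : G) (c : AC Y) : AC Y := ⟨c.1, cjC Y s c.2⟩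

end

/-- a 2-element `w` whose centralizer has a normal 2-complement `O` of index four -/
structure WData {R : Type} [Group R] (w : R) (O : Subgroup R) : Prop where
  pow4 : w ^ 4 = 1
  ne_one : w ≠ 1
  conj_inv : IsConj w w⁻¹
  mem_iff : ∀ y : R, y ∈ O ↔ w * y = y * w ∧ Odd (orderOf y)
  card_centralizer : Nat.card (Subgroup.centralizer {w}) = 4 * Nat.card O

/-- the trace of `w` on the vectors fixed by `O` -/
noncomputable def aC {R : Type} [Group R] (w : R) (O : Subgroup R) (c : AC R) : ℂ :=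
  (Nat.card O : ℂ)⁻¹ * ∑ᶠ y : O, chiA c (w * (y : R))

end Pool.Agent.CGS
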