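import Pool.Agent.CGS.Sol3

/-!
# The 2-residual of a group with a normal subgroup of odd order and index three times a power of two

PACKAGE (statements frozen; auxiliary lemmas private; the imported files are black boxes, some
of them still contain sorry).

Let `S' = S.comap f`, a normal subgroup of `A`. Its order divides the order of `S` (`f` is
injective), so it is odd. Its index divides `S.index = 3 * 2 ^ a` (`Subgroup.index_comap`: it is
`S.relIndex f.range`; `Subgroup.relIndex_dvd_index_of_normal`; or: `A ⧸ S'` embeds into `G ⧸ S`).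
A divisor of `3 * 2 ^ a` is `2 ^ b` or `3 * 2 ^ b`. In the first case `S' = ⊤` by `range_le`
applied to the identity of `A` and the subgroup `S'` (`hA`), so `Nat.card A = Nat.card S'` is odd,
a contradiction. In the second case apply `has23_of_card`.
-/

set_option autoImplicit false

namespace Pool.Agent.CGS

open Matrix

theorem has23_of_case_A {G A : Type} [Group G] [Group A] [Finite G] [Finite A] (f : A →* G)
    (hf : Function.Injective f) (hA : NoIdx2 A) (h2 : 2 ∣ Nat.card A) (S : Subgroup G)
    [S.Normal] (hS : Odd (Nat.card S)) {a : ℕ} (hi : S.index = 3 * 2 ^ a) : Has23 A := by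
  have hN : (S.comap f).Normal := Subgroup.Normal.comap inferInstance f
  have hodd : Odd (Nat.card (S.comap f)) := by
    refine hS.of_dvd_nat (Subgroup.card_dvd_of_injective (f.subgroupComap S) ?_)
    intro x y hxy
    exact Subtype.ext (hf (congrArg Subtype.val hxy))
  have hd : (S.comap f).index ∣ 3 * 2 ^ a := by
    rw [Subgroup.index_comap, ← hi]
    exact Subgroup.relIndex_dvd_index_of_normal S f.range
  obtain ⟨c, d, hc, hd', hcd⟩ := (Nat.dvd_mul).1 hd
  obtain ⟨b, -, rfl⟩ := (Nat.dvd_prime_pow Nat.prime_two).1 hd'
  rcases (Nat.dvd_prime Nat.prime_three).1 hc with rfl | rfl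
  · exfalso
    have h1 := range_le (MonoidHom.id A) hA (S.comap f) (a := b) (by rw [← hcd, one_mul])
    have h3 : S.comap f = ⊤ := by
      rw [eq_top_iff]
      intro x _
      exact h1 ⟨x, rfl⟩
    rw [h3, Subgroup.card_top] at hodd
    exact (Nat.not_even_iff_odd.2 hodd) (even_iff_two_dvd.2 h2)
  · exact has23_of_card hA (S.comap f) hodd (a := b) hcd.symm

end Pool.Agent.CGS
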