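import Pool.Agent.CGS.Irr

/-!
# Clifford theory for a subgroup of index two

PACKAGE (statements frozen; auxiliary lemmas private; the imported files are black boxes, some
of them are not finished yet).

`Y` is normal (`Subgroup.normal_of_index_eq_two`). Choose `s ∉ Y`; `s ^ 2 ∈ Y` and every element
of `G` is `y` or `s * y` with `y ∈ Y` (`Subgroup.mul_self_mem_of_index_two`,
`Subgroup.mul_mem_iff_of_index_two`). Call a subspace `W` of `V = Fin d → ℂ` `Y`-stable if `mat ρ
y *ᵥ w ∈ W` for `y ∈ Y`, `w ∈ W`. Choose a `Y`-stable `W ≠ ⊥` with minimal `finrank` (`⊤` is one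
since `0 < d`); put `d' = finrank W > 0`. By minimality a `Y`-stable `W' ≤ W` is `⊥` or `W`.

Let `W'' = W.map (mat ρ s).mulVecLin` (written `sW`). It is `Y`-stable because `Y` is normal:
`ρ(y) ρ(s) w = ρ(s) ρ(s⁻¹ y s) w`. It has the same dimension as `W` (`ρ(s)` is invertible), and
`s(sW) = W` because `s ^ 2 ∈ Y`. `W ⊔ sW` is stable under `G` and not `⊥`, so it is `⊤`
(`isIrr_iff`). `W ⊓ sW ≤ W` is `Y`-stable, so it is `⊥` or `W`. If it is `W` then `W ≤ sW`, so `W
= sW` (dimension) and `W = ⊤`, `d = d'`. If it is `⊥` then `d = finrank (W ⊔ sW) = 2 * d'`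
(`Submodule.finrank_sup_add_finrank_inf_eq`).

Choose a basis `b : Basis (Fin d') ℂ W`. `T` = the matrix with columns `b j` (`T i j = (b j : Fin
d → ℂ) i`), `τ y` = the matrix of the restriction of `ρ(y)` to `W` in the basis `b`
(`LinearMap.toMatrix b b`, `LinearMap.restrict`; it is multiplicative, so use `ofMat`). Then `ρ(y)
T = T τ(y)`. `T ≠ 0` as `d' > 0`. `T` is injective on vectors, and for a subspace `U` of `Fin d' →
ℂ` stable under `τ` the subspace `T U ≤ W` is `Y`-stable, so `⊥` or `W`, so `U = ⊥` or `⊤`; so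
`IsIrr τ` by `isIrr_iff`.
-/

set_option autoImplicit false

namespace Pool.Agent.CGS

open Matrix

private theorem exists_min {V : Type} [AddCommGroup V] [Module ℂ V] [FiniteDimensional ℂ V]
    (P : Submodule ℂ V → Prop) (hP : ∃ W, P W ∧ W ≠ ⊥) :
    ∃ W, P W ∧ W ≠ ⊥ ∧ ∀ W', P W' → W' ≤ W → W' = ⊥ ∨ W' = W := by
  classical
  have hex : ∃ n, ∃ W, (P W ∧ W ≠ ⊥) ∧ Module.finrank ℂ W = n := by
    obtain ⟨W, hW⟩ := hP
    exact ⟨_, W, hW, rfl⟩
  obtain ⟨W, ⟨h1, h2⟩, h3⟩ := Nat.find_spec hex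
  refine ⟨W, h1, h2, fun W' hW' hle => ?_⟩
  by_cases hb : W' = ⊥
  · exact Or.inl hb
  · right
    have h4 : Nat.find hex ≤ Module.finrank ℂ W' := Nat.find_min' hex ⟨W', ⟨hW', hb⟩, rfl⟩
    exact Submodule.eq_of_le_of_finrank_le hle (by rw [h3]; exact h4)

/-- an irreducible constituent of the restriction to a subgroup of index two -/
theorem exists_sub {G : Type} [Group G] {d : ℕ} (Y : Subgroup G) (hY : Y.index = 2)
    {ρ : Rep G d} (h : IsIrr ρ) :
    ∃ (d' : ℕ) (τ : Rep Y d') (T : Matrix (Fin d) (Fin d') ℂ), IsIrr τ ∧ T ≠ 0 ∧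
      (∀ y : Y, mat ρ (y : G) * T = T * mat τ y) ∧ (d = d' ∨ d = 2 * d') := by
  classical
  have hd := h.pos
  have hirr := ((isIrr_iff ρ).1 h).2
  have hn : Y.Normal := Subgroup.normal_of_index_eq_two hY
  obtain ⟨s, hs⟩ : ∃ s : G, s ∉ Y := by
    by_contra hcon
    push Not at hcon
    have : Y = ⊤ := (Subgroup.eq_top_iff' Y).2 hcon
    rw [this, Subgroup.index_top] at hY
    omega
  have hs2 : s * s ∈ Y := Subgroup.mul_self_mem_of_index_two hY s
  have hmm : ∀ v : Fin d → ℂ, ∀ g g' : G, mat ρ g *ᵥ (mat ρ g' *ᵥ v) = mat ρ (g * g') *ᵥ v := by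
    intro v g g'
    rw [Matrix.mulVec_mulVec, mat_mul]
  let P : Submodule ℂ (Fin d → ℂ) → Prop := fun W => ∀ y : Y, ∀ w ∈ W, mat ρ (y : G) *ᵥ w ∈ W
  have hnt : (⊤ : Submodule ℂ (Fin d → ℂ)) ≠ ⊥ := by
    intro h0
    have h1 := congrArg (fun W : Submodule ℂ (Fin d → ℂ) => Module.finrank ℂ W) h0
    simp only [finrank_top, Module.finrank_fin_fun, finrank_bot] at h1
    omega
  obtain ⟨W, hW, hW0, hmin⟩ := exists_min P ⟨⊤, fun _ _ _ => Submodule.mem_top, hnt⟩
  -- the subspace `s W`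
  let e : (Fin d → ℂ) ≃ₗ[ℂ] (Fin d → ℂ) :=
    LinearEquiv.ofLinear (mat ρ s).mulVecLin (mat ρ s⁻¹).mulVecLin
      (by
        rw [← Matrix.mulVecLin_mul, mat_mul_inv, Matrix.mulVecLin_one])
      (by
        rw [← Matrix.mulVecLin_mul, mat_inv_mul, Matrix.mulVecLin_one])
  have he : ∀ v, e v = mat ρ s *ᵥ v := fun v => rfl
  obtain ⟨sW, hsW⟩ : ∃ sW, sW = W.map (e : (Fin d → ℂ) →ₗ[ℂ] (Fin d → ℂ)) := ⟨_, rfl⟩
  have hmem : ∀ w, w ∈ sW ↔ ∃ w' ∈ W, mat ρ s *ᵥ w' = w := by
    intro w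
    rw [hsW, Submodule.mem_map]
    rfl
  have hfin : Module.finrank ℂ sW = Module.finrank ℂ W := by
    rw [hsW]
    exact LinearEquiv.finrank_map_eq e W
  have hPs : P sW := by
    intro y w hw
    obtain ⟨w', hw', rfl⟩ := (hmem w).1 hw
    have h1 : s⁻¹ * (y : G) * s ∈ Y := by
      have := hn.conj_mem (y : G) y.2 s⁻¹
      simpa using this
    refine (hmem _).2 ⟨_, hW ⟨_, h1⟩ w' hw', ?_⟩
    rw [hmm, hmm]
    congr 2
    group
  have hss : ∀ w ∈ sW, mat ρ s *ᵥ w ∈ W := by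
    intro w hw
    obtain ⟨w', hw', rfl⟩ := (hmem w).1 hw
    rw [hmm]
    exact hW ⟨_, hs2⟩ w' hw'
  have htop : W ⊔ sW = ⊤ := by
    have hst : Stable ρ (W ⊔ sW) := by
      have key : ∀ g, ∀ w, w ∈ W ∨ w ∈ sW → mat ρ g *ᵥ w ∈ W ⊔ sW := by
        intro g w hw
        by_cases hg : g ∈ Y
        · rcases hw with hw | hw
          · exact Submodule.mem_sup_left (hW ⟨g, hg⟩ w hw)
          · exact Submodule.mem_sup_right (hPs ⟨g, hg⟩ w hw)
        · have hy : s⁻¹ * g ∈ Y := by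
            rw [Subgroup.mul_mem_iff_of_index_two hY]
            simp only [inv_mem_iff]
            exact ⟨fun h0 => absurd h0 hs, fun h0 => absurd h0 hg⟩
          have hg' : ∀ v, mat ρ g *ᵥ v = mat ρ s *ᵥ (mat ρ (s⁻¹ * g) *ᵥ v) := by
            intro v
            rw [hmm]
            congr 2
            group
          rw [hg']
          rcases hw with hw | hw
          · exact Submodule.mem_sup_right ((hmem _).2 ⟨_, hW ⟨_, hy⟩ w hw, rfl⟩)
          · exact Submodule.mem_sup_left (hss _ (hPs ⟨_, hy⟩ w hw))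
      intro g w hw
      obtain ⟨w1, h1, w2, h2, rfl⟩ := Submodule.mem_sup.1 hw
      rw [Matrix.mulVec_add]
      exact Submodule.add_mem _ (key g w1 (Or.inl h1)) (key g w2 (Or.inr h2))
    rcases hirr _ hst with h0 | h0
    · exact absurd (le_bot_iff.1 (le_sup_left.trans h0.le)) hW0
    · exact h0
  have hdim := Submodule.finrank_sup_add_finrank_inf_eq W sW
  rw [htop, finrank_top, Module.finrank_fin_fun, hfin] at hdim
  have hor : d = Module.finrank ℂ W ∨ d = 2 * Module.finrank ℂ W := by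
    have hPi : P (W ⊓ sW) := by
      intro y w hw
      exact ⟨hW y w hw.1, hPs y w hw.2⟩
    rcases hmin _ hPi inf_le_left with h0 | h0
    · right
      rw [h0, finrank_bot] at hdim
      omega
    · left
      rw [h0] at hdim
      omega
  -- the basis
  let b := Module.finBasis ℂ W
  let T : Matrix (Fin d) (Fin (Module.finrank ℂ W)) ℂ := fun i j => (b j : Fin d → ℂ) i
  have hT : ∀ v, T *ᵥ v = ((b.equivFun.symm v : W) : Fin d → ℂ) := by
    intro v
    rw [Module.Basis.equivFun_symm_apply]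
    funext i
    simp only [Matrix.mulVec, dotProduct, Submodule.coe_sum, Submodule.coe_smul, Finset.sum_apply,
      Pi.smul_apply, smul_eq_mul, T]
    exact Finset.sum_congr rfl fun j _ => mul_comm _ _
  let ψ : Y →* Module.End ℂ W :=
    { toFun := fun y => (mat ρ (y : G)).mulVecLin.restrict (hW y)
      map_one' := by
        refine LinearMap.ext fun w => Subtype.ext ?_
        change mat ρ ((1 : Y) : G) *ᵥ (w : Fin d → ℂ) = w
        rw [OneMemClass.coe_one, mat_one, Matrix.one_mulVec]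
      map_mul' := fun y y' => by
        refine LinearMap.ext fun w => Subtype.ext ?_
        change mat ρ ((y * y' : Y) : G) *ᵥ (w : Fin d → ℂ) =
          mat ρ (y : G) *ᵥ (mat ρ (y' : G) *ᵥ (w : Fin d → ℂ))
        rw [hmm]
        rfl }
  have hψ : ∀ (y : Y) (w : W), ((ψ y w : W) : Fin d → ℂ) = mat ρ (y : G) *ᵥ (w : Fin d → ℂ) :=
    fun y w => rfl
  let τ : Rep Y (Module.finrank ℂ W) :=
    ofMat (((LinearMap.toMatrixAlgEquiv b : Module.End ℂ W ≃ₐ[ℂ] _) :
      Module.End ℂ W →* Matrix (Fin (Module.finrank ℂ W)) (Fin (Module.finrank ℂ W)) ℂ).comp ψ)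
  have hτ : ∀ y, mat τ y = LinearMap.toMatrix b b (ψ y) := fun y => rfl
  have hτv : ∀ (y : Y) (v : Fin (Module.finrank ℂ W) → ℂ),
      b.equivFun.symm (mat τ y *ᵥ v) = ψ y (b.equivFun.symm v) := by
    intro y v
    rw [LinearEquiv.symm_apply_eq, hτ]
    have h1 := LinearMap.toMatrix_mulVec_repr b b (ψ y) (b.equivFun.symm v)
    have h2 : (b.repr (b.equivFun.symm v) : Fin (Module.finrank ℂ W) → ℂ) = v :=
      b.equivFun.apply_symm_apply v
    rw [h2] at h1
    rw [h1]
    rfl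
  have hint : ∀ (y : Y) (v : Fin (Module.finrank ℂ W) → ℂ),
      mat ρ (y : G) *ᵥ (T *ᵥ v) = T *ᵥ (mat τ y *ᵥ v) := by
    intro y v
    rw [hT, hT, hτv, hψ]
  have hinj : ∀ u v, T *ᵥ u = T *ᵥ v → u = v := by
    intro u v huv
    rw [hT, hT] at huv
    exact b.equivFun.symm.injective (Subtype.ext huv)
  have hsurj : ∀ w ∈ W, ∃ v, T *ᵥ v = w := by
    intro w hw
    refine ⟨b.equivFun ⟨w, hw⟩, ?_⟩
    rw [hT, LinearEquiv.symm_apply_apply]
  have hpos : 0 < Module.finrank ℂ W := by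
    rw [Nat.pos_iff_ne_zero]
    intro h0
    exact hW0 (Submodule.finrank_eq_zero.1 h0)
  refine ⟨Module.finrank ℂ W, τ, T, ?_, ?_, ?_, hor⟩
  · rw [isIrr_iff]
    refine ⟨hpos, fun U hU => ?_⟩
    have hPU : P (U.map T.mulVecLin) := by
      intro y w hw
      obtain ⟨u, hu, rfl⟩ := Submodule.mem_map.1 hw
      refine Submodule.mem_map.2 ⟨mat τ y *ᵥ u, hU y u hu, ?_⟩
      exact (hint y u).symm
    have hle : U.map T.mulVecLin ≤ W := by
      intro w hw
      obtain ⟨u, hu, rfl⟩ := Submodule.mem_map.1 hw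
      rw [Matrix.mulVecLin_apply, hT]
      exact Subtype.coe_prop _
    rcases hmin _ hPU hle with h0 | h0
    · left
      rw [eq_bot_iff]
      intro u hu
      have h1 : T *ᵥ u ∈ (⊥ : Submodule ℂ (Fin d → ℂ)) := by
        rw [← h0]
        exact Submodule.mem_map.2 ⟨u, hu, rfl⟩
      rw [Submodule.mem_bot] at h1
      rw [Submodule.mem_bot]
      exact hinj _ _ (by rw [h1, Matrix.mulVec_zero])
    · right
      rw [eq_top_iff]
      intro v _
      have h1 : T *ᵥ v ∈ U.map T.mulVecLin := by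
        rw [h0, hT]
        exact Subtype.coe_prop _
      obtain ⟨u, hu, h2⟩ := Submodule.mem_map.1 h1
      have : u = v := hinj _ _ h2
      rw [← this]
      exact hu
  · intro h0
    obtain ⟨w, hw, hw0⟩ := Submodule.exists_mem_ne_zero_of_ne_bot hW0
    obtain ⟨v, hv⟩ := hsurj w hw
    rw [h0, Matrix.zero_mulVec] at hv
    exact hw0 hv.symm
  · intro y
    apply Matrix.toLin'.injective
    refine LinearMap.ext fun v => ?_
    rw [Matrix.toLin'_apply, Matrix.toLin'_apply, ← Matrix.mulVec_mulVec, ← Matrix.mulVec_mulVec]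
    exact hint y v

end Pool.Agent.CGS
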