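import Pool.Agent.CGS.Alg1
import Pool.Agent.CGS.Alg3
import Pool.Agent.CGS.Alg4
import Pool.Agent.CGS.Alg5
import Pool.Agent.CGS.Alg6

/-!
# The degrees of the irreducible representations

PACKAGE (statements frozen; auxiliary lemmas private; the imported files are black boxes, some
of them still contain sorry).

* `exists_degrees`: take `n, δ` and the isomorphism from `exists_iso`; `Nat.card (ConjClasses G) =
  finrank` of the center of the group algebra `= n` by `finrank_center_monoidAlgebra`,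
  `finrank_center_congr`, `finrank_center_pi`. For `0 < d`: `Cls G d ≃ ACls (MonoidAlgebra ℂ G) d
  ≃ ACls (product) d ≃ {i // δ i = d}` by `aCls_monoidAlgebra`, `aCls_congr`, `aCls_pi`.
* `finite_cls`: for `d > 0` from `exists_degrees`; for `d = 0` the type is empty (`IsIrr.pos`).
* `N_congr`: for `d > 0` from `aCls_monoidAlgebra` (twice) and `aCls_congr`; for `d = 0` both are
  `0` (empty types).
* `card_congr`: the dimension of the group algebra is the order of the group (from `exists_iso`,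
  or directly the basis of group elements); an algebra isomorphism is a linear isomorphism.
* `N_eq_zero`: if `N G d ≠ 0` then `d > 0` and there is `i` with `δ i = d`, so `d ≤ d ^ 2 ≤ ∑ δ i
  ^ 2 = Nat.card G`.
* `sum_sq`: `∑ d ∈ range (Nat.card G + 1), d ^ 2 * N G d = ∑ i, δ i ^ 2` by grouping the `i` by
  the value `δ i ≤ δ i ^ 2 ≤ Nat.card G` (`Finset.sum_fiberwise_of_maps_to`, `Finset.sum_const`,
  `Nat.card_eq_fintype_card`, `Fintype.card_subtype`).
-/

set_option autoImplicit false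

namespace Pool.Agent.CGS

open Matrix

private theorem cls_zero (G : Type) [Group G] : IsEmpty (Cls G 0) :=
  ⟨fun c => cls_ind (q := fun _ => False) (fun _ h => absurd h.pos (lt_irrefl 0)) c⟩

theorem exists_degrees (G : Type) [Group G] [Finite G] :
    ∃ (n : ℕ) (δ : Fin n → ℕ), (∀ i, 0 < δ i) ∧ ∑ i, δ i ^ 2 = Nat.card G ∧
      n = Nat.card (ConjClasses G) ∧
      Nonempty (MonoidAlgebra ℂ G ≃ₐ[ℂ] (∀ i, Matrix (Fin (δ i)) (Fin (δ i)) ℂ)) ∧
      ∀ d, 0 < d → Nonempty (Cls G d ≃ {i : Fin n // δ i = d}) := by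
  obtain ⟨n, δ, hδ, hsum, ⟨e⟩⟩ := exists_iso G
  refine ⟨n, δ, hδ, hsum, ?_, ⟨e⟩, fun d hd => ?_⟩
  · rw [← finrank_center_monoidAlgebra, finrank_center_congr e, finrank_center_pi δ hδ]
  · obtain ⟨e1⟩ := aCls_monoidAlgebra G hd
    obtain ⟨e2⟩ := aCls_congr e d
    obtain ⟨e3⟩ := aCls_pi δ hδ hd
    exact ⟨e1.symm.trans (e2.trans e3)⟩

theorem finite_cls (G : Type) [Group G] [Finite G] (d : ℕ) : Finite (Cls G d) := by
  rcases Nat.eq_zero_or_pos d with rfl | hd
  · have := cls_zero G
    infer_instance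
  · obtain ⟨n, δ, -, -, -, -, h⟩ := exists_degrees G
    obtain ⟨e⟩ := h d hd
    exact Finite.of_equiv _ e.symm

theorem N_congr {G H : Type} [Group G] [Group H]
    (e : Nonempty (MonoidAlgebra ℂ G ≃ₐ[ℂ] MonoidAlgebra ℂ H)) (d : ℕ) : N G d = N H d := by
  obtain ⟨e⟩ := e
  unfold N
  rcases Nat.eq_zero_or_pos d with rfl | hd
  · have := cls_zero G
    have := cls_zero H
    rw [Nat.card_of_isEmpty, Nat.card_of_isEmpty]
  · obtain ⟨e1⟩ := aCls_monoidAlgebra G hd
    obtain ⟨e2⟩ := aCls_congr e d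
    obtain ⟨e3⟩ := aCls_monoidAlgebra H hd
    exact Nat.card_congr (e1.symm.trans (e2.trans e3))

theorem card_congr {G H : Type} [Group G] [Group H] [Finite G] [Finite H]
    (e : Nonempty (MonoidAlgebra ℂ G ≃ₐ[ℂ] MonoidAlgebra ℂ H)) : Nat.card G = Nat.card H := by
  obtain ⟨e⟩ := e
  have key : ∀ (G : Type) [Group G] [Finite G],
      Module.finrank ℂ (MonoidAlgebra ℂ G) = Nat.card G := by
    intro G _ _
    obtain ⟨n, δ, -, hsum, ⟨e⟩⟩ := exists_iso G
    rw [e.toLinearEquiv.finrank_eq, Module.finrank_pi_fintype, ← hsum]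
    refine Finset.sum_congr rfl fun i _ => ?_
    rw [Module.finrank_matrix, Fintype.card_fin, Module.finrank_self, mul_one, pow_two]
  rw [← key G, ← key H]
  exact e.toLinearEquiv.finrank_eq

theorem N_eq_zero (G : Type) [Group G] [Finite G] {d : ℕ} (hd : Nat.card G < d) : N G d = 0 := by
  by_contra hN
  obtain ⟨n, δ, -, hsum, -, -, h⟩ := exists_degrees G
  obtain ⟨e⟩ := h d (Nat.zero_lt_of_lt hd)
  have h1 : Nonempty (Cls G d) := (Nat.card_ne_zero.1 hN).1
  obtain ⟨i, hi⟩ := e h1.some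
  have h2 : δ i ^ 2 ≤ ∑ i, δ i ^ 2 :=
    Finset.single_le_sum (f := fun i => δ i ^ 2) (fun _ _ => Nat.zero_le _) (Finset.mem_univ i)
  rw [hsum, hi] at h2
  have h3 : d ≤ d ^ 2 := Nat.le_self_pow (by norm_num) d
  omega

theorem sum_sq (G : Type) [Group G] [Finite G] :
    ∑ d ∈ Finset.range (Nat.card G + 1), d ^ 2 * N G d = Nat.card G := by
  classical
  obtain ⟨n, δ, hδ, hsum, -, -, h⟩ := exists_degrees G
  have hmaps : ∀ i ∈ (Finset.univ : Finset (Fin n)), δ i ∈ Finset.range (Nat.card G + 1) := by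
    intro i _
    have h2 : δ i ^ 2 ≤ ∑ i, δ i ^ 2 :=
      Finset.single_le_sum (f := fun i => δ i ^ 2) (fun _ _ => Nat.zero_le _) (Finset.mem_univ i)
    have h3 : δ i ≤ δ i ^ 2 := Nat.le_self_pow (by norm_num) _
    rw [hsum] at h2
    rw [Finset.mem_range]
    omega
  calc ∑ d ∈ Finset.range (Nat.card G + 1), d ^ 2 * N G d
      = ∑ d ∈ Finset.range (Nat.card G + 1),
        ∑ i ∈ Finset.univ.filter (fun i => δ i = d), δ i ^ 2 := by
        refine Finset.sum_congr rfl fun d _ => ?_
        have h4 : ∑ i ∈ Finset.univ.filter (fun i => δ i = d), δ i ^ 2 =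
            (Finset.univ.filter (fun i => δ i = d)).card * d ^ 2 := by
          rw [← smul_eq_mul, ← Finset.sum_const]
          refine Finset.sum_congr rfl fun i hi => ?_
          rw [(Finset.mem_filter.1 hi).2]
        rw [h4, mul_comm]
        rcases Nat.eq_zero_or_pos d with rfl | hd
        · rw [zero_pow (by norm_num), mul_zero, mul_zero]
        · obtain ⟨e⟩ := h d hd
          unfold N
          rw [Nat.card_congr e, Nat.card_eq_fintype_card, Fintype.card_subtype]
    _ = ∑ i, δ i ^ 2 := Finset.sum_fiberwise_of_maps_to hmaps _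
    _ = Nat.card G := hsum

end Pool.Agent.CGS
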