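import Pool.Agent.CGS.Ops
import Pool.Agent.CGS.Deg

/-!
# Duality: the number of classes and the number of self-dual classes have the same parity

PACKAGE (statements frozen; auxiliary lemmas private; the imported files are black boxes, some
of them still contain sorry).

The map `D = clsMap dual isIrr_dual sim_dual` on `Cls G d` (a finite type, `finite_cls`) is an
involution (`dual_dual`, `clsMap_mk`, `cls_ind`). A class `mk ρ h` is fixed iff `Sim (dual ρ) ρ`
(`mk_eq`), iff `SelfDual ρ` (`dual_sim_iff`, `Sim.symm`), iff `Has SelfDual (mk ρ h)` (`has_mk`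
with `SelfDual.of_sim`). The number of elements of a finite type and the number of fixed points of
an involution have the same parity (`Equiv.Perm.card_fixedPoints_modEq` with `p = 2`, `n = 1`,
file `Mathlib/GroupTheory/Perm/Cycle/Type.lean`, or `Function.Involutive` lemmas).
-/

set_option autoImplicit false

namespace Pool.Agent.CGS

open Matrix

theorem N_modEq_SD (G : Type) [Group G] [Finite G] (d : ℕ) : N G d ≡ SD G d [MOD 2] := by
  classical
  have := finite_cls G d
  have := Fintype.ofFinite (Cls G d)
  let D : Cls G d → Cls G d :=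
    clsMap dual (fun _ h => isIrr_dual h) (fun _ _ h => sim_dual h)
  have hmk : ∀ (ρ : Rep G d) (h : IsIrr ρ), D (mk ρ h) = mk (dual ρ) (isIrr_dual h) :=
    fun ρ h => rfl
  have hD : ∀ c, D (D c) = c := by
    refine cls_ind fun ρ h => ?_
    rw [hmk, hmk, mk_eq, dual_dual]
    exact Sim.refl ρ
  have hfix : ∀ c, D c = c ↔ Has SelfDual c := by
    refine cls_ind fun ρ h => ?_
    rw [hmk, mk_eq, has_mk (fun _ _ => SelfDual.of_sim), ← dual_sim_iff]
    exact ⟨Sim.symm, Sim.symm⟩
  have h1 : D^[2 ^ 1] = id := by
    funext c
    exact hD c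
  have h2 := Equiv.Perm.card_fixedPoints_modEq (f := D) (p := 2) (n := 1) h1
  have h3 : N G d = Fintype.card (Cls G d) := Nat.card_eq_fintype_card
  have h4 : SD G d = Fintype.card (Function.fixedPoints D) := by
    unfold SD
    rw [← Nat.card_eq_fintype_card]
    exact Nat.card_congr (Equiv.subtypeEquivRight fun c => (hfix c).symm)
  rw [h3, h4]
  exact h2

end Pool.Agent.CGS
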