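import Pool.Agent.CGS.Base

/-!
# Elements of odd prime power order normalising a 2-subgroup

PACKAGE (statements frozen; auxiliary lemmas private; the imported files are black boxes, some
of them still contain sorry).

* `commute_of_harmless`: the cyclic group `Z = Subgroup.zpowers g` is a `p`-group and acts on the
  finite set `R` by conjugation (all powers of `g` normalise `R`: `g R g⁻¹ ≤ R` and `R` is finite
  so `g R g⁻¹ = R`). The fixed points are `F = {r ∈ R | g * r = r * g}`, a subgroup of `R`, so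
  `Nat.card R = 2 ^ a`, `Nat.card F = 2 ^ b` with `b ≤ a`. `IsPGroup.card_modEq_card_fixedPoints`
  gives `2 ^ a ≡ 2 ^ b` modulo `p`, so `p ∣ 2 ^ b * (2 ^ (a - b) - 1)`, and as `p` is odd `p ∣ 2 ^
  (a - b) - 1`. If `b < a` this contradicts `hh` with `i = a - b` (`2 ^ (a - b) ∣ 2 ^ a`). So `a =
  b` and `F = R`.
* `centralize_of_odd_index`: let `C = {u ∈ U | u commutes with all t ∈ T}`, a subgroup with `T ≤ C
  ≤ U` (`T` is commutative, because all its elements have square one). Suppose `C ≠ U` and let `p`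
  be a prime divisor of `C.relIndex U`, which divides `T.relIndex U` (so `p` is odd). Let `P` be a
  Sylow `p`-subgroup of `U`. Every `g ∈ P` has `p`-power order and normalises `T` (normal), so it
  commutes with all elements of `T` by `commute_of_harmless`. So `P ≤ C` and `p ∤ C.relIndex U`
  (the full `p`-part of `Nat.card U` divides `Nat.card C`), a contradiction.
-/

set_option autoImplicit false

namespace Pool.Agent.CGS

open Matrix

private theorem pow_two_sub {p a b : ℕ} (hp : p.Prime) (hp2 : p ≠ 2) (hab : b < a)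
    (h : 2 ^ a ≡ 2 ^ b [MOD p]) : p ∣ 2 ^ (a - b) - 1 := by
  have h1 : p ∣ 2 ^ a - 2 ^ b :=
    (Nat.modEq_iff_dvd' (Nat.pow_le_pow_right two_pos hab.le)).1 h.symm
  have h2 : 2 ^ a - 2 ^ b = 2 ^ b * (2 ^ (a - b) - 1) := by
    rw [Nat.mul_sub, ← pow_add, mul_one]
    congr 2
    omega
  rw [h2] at h1
  rcases hp.dvd_mul.1 h1 with h | h
  · exact absurd ((Nat.prime_dvd_prime_iff_eq hp Nat.prime_two).1 (hp.dvd_of_dvd_pow h)) hp2
  · exact h

theorem commute_of_harmless {X : Type} [Group X] [Finite X] (R : Subgroup X)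
    (hR : IsPGroup 2 R) {p : ℕ} (hp : p.Prime) (hp2 : p ≠ 2) (g : X)
    (hg : ∃ k, orderOf g = p ^ k) (hn : ∀ r ∈ R, g * r * g⁻¹ ∈ R)
    (hh : ∀ i : ℕ, 1 ≤ i → 2 ^ i ∣ Nat.card R → ¬ p ∣ 2 ^ i - 1) : ∀ r ∈ R, g * r = r * g := by
  classical
  have := Fact.mk hp
  have := Fact.mk Nat.prime_two
  let _ : Fintype R := Fintype.ofFinite R
  obtain ⟨k, hk⟩ := hg
  let f : Function.End R := fun r => ⟨g * r * g⁻¹, hn r r.2⟩
  have hf1 : ∀ (n : ℕ) (r : R), (((f ^ n) r : R) : X) = g ^ n * r * (g ^ n)⁻¹ := by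
    intro n
    induction n with
    | zero =>
      intro r
      rw [pow_zero, pow_zero, inv_one, one_mul, mul_one]
      rfl
    | succ n ih =>
      intro r
      have h1 : (f ^ (n + 1)) r = (f ^ n) (f r) := by
        rw [pow_succ]
        rfl
      rw [h1, ih]
      change g ^ n * (g * r * g⁻¹) * (g ^ n)⁻¹ = _
      rw [pow_succ, _root_.mul_inv_rev]
      group
  have hf : f ^ p ^ k = 1 := by
    funext r
    apply Subtype.ext
    rw [hf1, ← hk, pow_orderOf_eq_one, inv_one, one_mul, mul_one]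
    rfl
  have hmod := Equiv.Perm.card_fixedPoints_modEq (p := p) (n := k) hf
  -- the subgroup of fixed points
  let F : Subgroup X := R ⊓ Subgroup.centralizer {g}
  have hFR : F ≤ R := inf_le_left
  have hcard : Fintype.card (Function.fixedPoints f) = Nat.card F := by
    rw [← Nat.card_eq_fintype_card]
    refine Nat.card_congr
      { toFun := fun x => ⟨(x.1 : X), ?_⟩
        invFun := fun y => ⟨⟨(y : X), y.2.1⟩, ?_⟩
        left_inv := fun x => rfl
        right_inv := fun y => rfl }
    · refine ⟨x.1.2, ?_⟩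
      have h1 : g * (x.1 : X) * g⁻¹ = x.1 := congrArg Subtype.val x.2
      change (x.1 : X) ∈ Subgroup.centralizer {g}
      rw [Subgroup.mem_centralizer_singleton_iff]
      have h2 := mul_inv_eq_iff_eq_mul.1 h1
      exact h2.symm
    · have h1 : (y : X) ∈ Subgroup.centralizer {g} := y.2.2
      rw [Subgroup.mem_centralizer_singleton_iff] at h1
      change f ⟨(y : X), y.2.1⟩ = ⟨(y : X), y.2.1⟩
      apply Subtype.ext
      change g * (y : X) * g⁻¹ = y
      rw [mul_inv_eq_iff_eq_mul]
      exact h1.symm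
  obtain ⟨a, ha⟩ := IsPGroup.iff_card.1 hR
  obtain ⟨b, hb⟩ := IsPGroup.iff_card.1 (hR.to_le hFR)
  rw [hcard, ← Nat.card_eq_fintype_card, ha, hb] at hmod
  have hle : Nat.card F ≤ Nat.card R := Subgroup.card_le_of_le hFR
  rw [ha, hb] at hle
  have hba : b ≤ a := (Nat.pow_le_pow_iff_right (by norm_num)).1 hle
  have heq : F = R := by
    apply Subgroup.eq_of_le_of_card_ge hFR
    rw [ha, hb]
    rcases hba.lt_or_eq with h | h
    · exact absurd (pow_two_sub hp hp2 h hmod)
        (hh (a - b) (by omega) (by rw [ha]; exact pow_dvd_pow 2 (by omega)))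
    · rw [h]
  intro r hr
  rw [← heq] at hr
  have h1 : r ∈ Subgroup.centralizer {g} := hr.2
  rw [Subgroup.mem_centralizer_singleton_iff] at h1
  exact h1.symm

theorem centralize_of_odd_index {X : Type} [Group X] [Finite X] (T U : Subgroup X) [T.Normal]
    (hTU : T ≤ U) (hT : ∀ t ∈ T, t * t = 1) (hodd : Odd (T.relIndex U))
    (hh : ∀ p : ℕ, p.Prime → p ∣ T.relIndex U →
      ∀ i : ℕ, 1 ≤ i → 2 ^ i ∣ Nat.card T → ¬ p ∣ 2 ^ i - 1) :
    ∀ t ∈ T, ∀ u ∈ U, t * u = u * t := by
  have hTp : IsPGroup 2 T := by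
    intro t
    refine ⟨1, ?_⟩
    apply Subtype.ext
    rw [pow_one, pow_two]
    exact hT t t.2
  have hTc : ∀ s ∈ T, ∀ t ∈ T, s * t = t * s := by
    intro s hs t ht
    have h1 : ∀ x ∈ T, x⁻¹ = x := fun x hx => inv_eq_of_mul_eq_one_left (hT x hx)
    have h2 := h1 (s * t) (T.mul_mem hs ht)
    rw [_root_.mul_inv_rev, h1 s hs, h1 t ht] at h2
    exact h2.symm
  let C : Subgroup X := U ⊓ Subgroup.centralizer (T : Set X)
  have hTC : T ≤ C := by
    intro t ht
    refine ⟨hTU ht, ?_⟩
    change t ∈ Subgroup.centralizer (T : Set X)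
    rw [Subgroup.mem_centralizer_iff]
    intro s hs
    exact hTc s hs t ht
  have hCU : C.relIndex U = 1 := by
    by_contra hne
    obtain ⟨p, hp, hpd⟩ := Nat.exists_prime_and_dvd hne
    have := Fact.mk hp
    have hpT : p ∣ T.relIndex U := hpd.trans (Subgroup.relIndex_dvd_of_le_left U hTC)
    have hp2 : p ≠ 2 := by
      rintro rfl
      exact (Nat.not_even_iff_odd.2 hodd) (even_iff_two_dvd.2 hpT)
    obtain ⟨P⟩ : Nonempty (Sylow p U) := inferInstance
    have hPC : (P : Subgroup U) ≤ C.subgroupOf U := by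
      intro x hx
      rw [Subgroup.mem_subgroupOf]
      refine ⟨x.2, ?_⟩
      change (x : X) ∈ Subgroup.centralizer (T : Set X)
      rw [Subgroup.mem_centralizer_iff]
      intro t ht
      have hord : ∃ k, orderOf (x : X) = p ^ k := by
        obtain ⟨k, hk⟩ := IsPGroup.iff_orderOf.1 P.isPGroup' ⟨x, hx⟩
        refine ⟨k, ?_⟩
        rw [← hk, Subgroup.orderOf_mk, Subgroup.orderOf_coe]
      exact (commute_of_harmless T hTp hp hp2 (x : X) hord
        (fun r hr => (inferInstance : T.Normal).conj_mem r hr _) (hh p hp hpT) t ht).symm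
    have h1 : C.relIndex U ∣ (P : Subgroup U).index := Subgroup.index_dvd_of_le hPC
    exact P.not_dvd_index (hpd.trans h1)
  intro t ht u hu
  have h2 : u ∈ C := Subgroup.relIndex_eq_one.1 hCU hu
  have h3 : u ∈ Subgroup.centralizer (T : Set X) := h2.2
  rw [Subgroup.mem_centralizer_iff] at h3
  exact h3 t ht

end Pool.Agent.CGS
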