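import Pool.Agent.CGS.FA

/-!
# Harmless groups satisfy the hypothesis of Frobenius

Statements frozen; auxiliary lemmas private; the imported files are black boxes.

Let `R` be a 2-subgroup, `N = Subgroup.normalizer (R : Set M)`, `C = Subgroup.centralizer (R : Set
M) ≤ N`. We show that no prime `p ≠ 2` divides `C.relIndex N`; then it is a power of two
(`Nat.eq_prime_pow_of_unique_prime_dvd`). Suppose `p ≠ 2` is a prime divisor. `p ∣ Nat.card M`.
Let `P` be a Sylow `p`-subgroup of `N` (as a subgroup of `N`, or mapped to `M`). Every `g ∈ P` has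
`p`-power order and `g r g⁻¹ ∈ R` for `r ∈ R`; by `commute_of_harmless` with `hh` from `Harmless
M` (`2 ^ i ∣ Nat.card R ∣ Nat.card M`) `g` commutes with all elements of `R`. So `P ≤ C`, and
`Nat.card P`, the full `p`-part of `Nat.card N`, divides `Nat.card C`; so `p` does not divide
`C.relIndex N = Nat.card N / Nat.card C`, a contradiction.
-/

set_option autoImplicit false

namespace Pool.Agent.CGS

open Matrix

theorem Harmless.fc {M : Type} [Group M] [Finite M] (h : Harmless M) : FC M := by
  intro R hR
  set N := Subgroup.normalizer (R : Set M) with hN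
  set C := Subgroup.centralizer (R : Set M) with hC
  have hne : C.relIndex N ≠ 0 := Subgroup.index_ne_zero_of_finite
  refine ⟨_, Nat.eq_prime_pow_of_unique_prime_dvd hne fun {p} hp hd => ?_⟩
  by_contra hp2
  haveI : Fact p.Prime := ⟨hp⟩
  have hpM : p ∣ Nat.card M :=
    (hd.trans (Subgroup.index_dvd_card _)).trans (Subgroup.card_subgroup_dvd_card N)
  let P : Sylow p N := default
  have hle : (P : Subgroup N) ≤ C.subgroupOf N := by
    intro g hg
    rw [Subgroup.mem_subgroupOf, hC, Subgroup.mem_centralizer_iff]
    intro r hr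
    refine (commute_of_harmless R hR hp hp2 (g : M) ?_ ?_ ?_ r hr).symm
    · obtain ⟨k, hk⟩ := IsPGroup.iff_orderOf.1 P.isPGroup' ⟨g, hg⟩
      refine ⟨k, ?_⟩
      rw [← hk, Subgroup.orderOf_coe, ← Subgroup.orderOf_coe (⟨g, hg⟩ : P)]
    · intro s hs
      exact (Subgroup.mem_normalizer_iff.1 g.2 s).1 hs
    · intro i hi h2
      exact h p hp hp2 hpM i hi (h2.trans (Subgroup.card_subgroup_dvd_card R))
  exact P.not_dvd_index (hd.trans (Subgroup.index_dvd_of_le hle))

end Pool.Agent.CGS
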