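import Pool.Agent.CGS.Base

/-!
# Two Sylow 2-subgroups are conjugate by an element centralising their intersection

PACKAGE (statements frozen; auxiliary lemmas private; the imported files are black boxes, some
of them still contain sorry).

Induction: strong downward induction on `Nat.card (P ⊓ Q)` (that is, strong induction on `Nat.card
M - Nat.card (P ⊓ Q)`). If `P = Q` take `c = 1`. Otherwise let `R = P ⊓ Q` (a subgroup of `M`), a
proper subgroup of `P` and of `Q` (Sylow subgroups are maximal 2-subgroups, all of the same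
order). `R` is a 2-group. Let `N = Subgroup.normalizer (R : Set M)`, `C = Subgroup.centralizer (R
: Set M)`.

* `P₁ = P ⊓ N` is strictly larger than `R` (in the nilpotent group `P` a proper subgroup is
  strictly smaller than its normaliser: `IsPGroup` groups are nilpotent, `Group.IsNilpotent` and
  `NormalizerCondition` lemmas, `normalizerCondition_of_isNilpotent`, or
  `IsPGroup.lt_normalizer`-type); same for `Q₁ = Q ⊓ N`.
* let `P₂ ≥ P₁`, `Q₂ ≥ Q₁` be Sylow 2-subgroups of the group `N` (`IsPGroup.exists_le_sylow`).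
  They are conjugate in `N`: `Q₂ = u P₂ u⁻¹` with `u ∈ N`. The index of `C ⊓ N = C` in `N` is a
  power of two (`h`), the index of `P₂` in `N` is odd, and `C` is normal in `N`, so `N = C P₂`
  (the index of the subgroup `C ⊔ P₂` in `N` divides both). Write `u = c₀ p` with `c₀ ∈ C`, `p ∈
  P₂`. So `Q₂ = c₀ P₂ c₀⁻¹`.
* let `P₃` be a Sylow 2-subgroup of `M` containing (the image in `M` of) `P₂`. Then `P ⊓ P₃ ≥ P₁ >
  R`, and by induction there is `c₁` centralising `P ⊓ P₃ ≥ R` with `P₃ = c₁ • P`. The Sylow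
  2-subgroup `c₀ • P₃ ≥ Q₂ ≥ Q₁` satisfies `(c₀ • P₃) ⊓ Q ≥ Q₁ > R`, and by induction there is
  `c₂` centralising it, so centralising `R`, with `Q = c₂ • (c₀ • P₃)`. So `Q = (c₂ c₀ c₁) • P`
  and `c₂ c₀ c₁ ∈ C`.
-/

set_option autoImplicit false

namespace Pool.Agent.CGS

open Pointwise

private theorem mem_sy {M : Type} [Group M] {p : ℕ} (g : M) (P : Sylow p M) (x : M) :
    x ∈ ((g • P : Sylow p M) : Subgroup M) ↔ g⁻¹ * x * g ∈ (P : Subgroup M) := by
  rw [Sylow.coe_subgroup_smul, Subgroup.mem_pointwise_smul_iff_inv_smul_mem, ← map_inv,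
    MulAut.smul_def, MulAut.conj_apply, inv_inv]

private theorem mem_nor {M : Type} [Group M] {R : Subgroup M} {g : M} :
    g ∈ Subgroup.normalizer (R : Set M) ↔ ∀ h, h ∈ R ↔ g * h * g⁻¹ ∈ R :=
  Subgroup.mem_normalizer_iff

private theorem exists_nor {M : Type} [Group M] [Finite M] {P R : Subgroup M}
    (hP : IsPGroup 2 P) (hR : R < P) :
    ∃ x ∈ P, x ∈ Subgroup.normalizer (R : Set M) ∧ x ∉ R := by
  have : Fact (Nat.Prime 2) := ⟨Nat.prime_two⟩
  have := hP.isNilpotent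
  have h1 : R.subgroupOf P < ⊤ := by
    rw [lt_top_iff_ne_top]
    intro h
    rw [Subgroup.subgroupOf_eq_top] at h
    exact absurd h (not_le_of_gt hR)
  have h2 := Group.normalizerCondition_of_isNilpotent (G := P) (R.subgroupOf P) h1
  obtain ⟨x, hx, hx'⟩ := SetLike.exists_of_lt h2
  refine ⟨x, x.2, mem_nor.2 fun y => ?_, fun h => hx' (Subgroup.mem_subgroupOf.2 h)⟩
  have h3 := mem_nor.1 hx
  constructor
  · intro hy
    have h4 := (h3 ⟨y, hR.le hy⟩).1 (Subgroup.mem_subgroupOf.2 hy)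
    exact Subgroup.mem_subgroupOf.1 h4
  · intro hy
    have hyP : y ∈ P := by
      have h5 := P.mul_mem (P.mul_mem (P.inv_mem x.2) (hR.le hy)) x.2
      have h6 : (x : M)⁻¹ * ((x : M) * y * (x : M)⁻¹) * (x : M) = y := by group
      rwa [h6] at h5
    have h4 := (h3 ⟨y, hyP⟩).2 (Subgroup.mem_subgroupOf.2 hy)
    exact Subgroup.mem_subgroupOf.1 h4

private theorem card_lt {M : Type} [Group M] [Finite M] {R S : Subgroup M} (h : R ≤ S)
    {x : M} (hx : x ∈ S) (hx' : x ∉ R) : Nat.card R < Nat.card S := by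
  by_contra hc
  have h1 := Subgroup.eq_of_le_of_card_ge h (not_lt.1 hc)
  exact hx' (h1 ▸ hx)

private theorem index_one {G : Type} [Group G] [Finite G] (C : Subgroup G) {k : ℕ}
    (hk : C.index = 2 ^ k) (P : Sylow 2 G) : C ⊔ (P : Subgroup G) = ⊤ := by
  have : Fact (Nat.Prime 2) := ⟨Nat.prime_two⟩
  have h1 : (C ⊔ (P : Subgroup G)).index ∣ 2 ^ k :=
    hk ▸ Subgroup.index_dvd_of_le le_sup_left
  have h2 : (C ⊔ (P : Subgroup G)).index ∣ (P : Subgroup G).index :=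
    Subgroup.index_dvd_of_le le_sup_right
  obtain ⟨j, _, hj⟩ := (Nat.dvd_prime_pow Nat.prime_two).1 h1
  rcases j with _ | j
  · rw [pow_zero] at hj
    exact Subgroup.index_eq_one.1 hj
  · exfalso
    apply P.not_dvd_index
    refine dvd_trans ?_ h2
    rw [hj]
    exact Dvd.intro_left (2 ^ j) rfl

private theorem sub_ne {M : Type} [Group M] {P Q : Sylow 2 M} (h : P ≠ Q) :
    (P : Subgroup M) ⊓ (Q : Subgroup M) < (P : Subgroup M) := by
  refine lt_of_le_of_ne inf_le_left fun h1 => h ?_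
  have h2 : (P : Subgroup M) ≤ (Q : Subgroup M) := by
    rw [← h1]
    exact inf_le_right
  exact (Sylow.ext (P.is_maximal' Q.isPGroup' h2)).symm

theorem exists_centralizing_conj {M : Type} [Group M] [Finite M] (h : FC M) (P Q : Sylow 2 M) :
    ∃ c : M, (∀ x, x ∈ (P : Subgroup M) → x ∈ (Q : Subgroup M) → c * x = x * c) ∧
      Q = c • P := by
  have : Fact (Nat.Prime 2) := ⟨Nat.prime_two⟩
  obtain ⟨n, hn⟩ : ∃ n, n = Nat.card M -
      Nat.card ((P : Subgroup M) ⊓ (Q : Subgroup M) : Subgroup M) := ⟨_, rfl⟩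
  induction n using Nat.strong_induction_on generalizing P Q with
  | _ n ih =>
  by_cases hPQ : P = Q
  · exact ⟨1, fun x _ _ => by rw [one_mul, mul_one], by rw [one_smul, hPQ]⟩
  obtain ⟨R, hR⟩ : ∃ R : Subgroup M, R = (P : Subgroup M) ⊓ (Q : Subgroup M) := ⟨_, rfl⟩
  have ih' : ∀ P' Q' : Sylow 2 M, R ≤ (P' : Subgroup M) ⊓ (Q' : Subgroup M) →
      (∃ x, x ∈ (P' : Subgroup M) ⊓ (Q' : Subgroup M) ∧ x ∉ R) →
      ∃ c : M, (∀ x ∈ R, c * x = x * c) ∧ Q' = c • P' := by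
    rintro P' Q' h1 ⟨x, hx, hx'⟩
    have h2 := card_lt h1 hx hx'
    have h3 := Subgroup.card_le_card_group ((P' : Subgroup M) ⊓ (Q' : Subgroup M))
    obtain ⟨c, hc, hc'⟩ := ih _ (by rw [hn, ← hR]; omega) P' Q' rfl
    exact ⟨c, fun y hy => hc y (h1 hy).1 (h1 hy).2, hc'⟩
  have hRP : R < (P : Subgroup M) := hR ▸ sub_ne hPQ
  have hRQ : R < (Q : Subgroup M) := by
    rw [hR, inf_comm]
    exact sub_ne (Ne.symm hPQ)
  obtain ⟨x, hxP, hxN, hxR⟩ := exists_nor P.isPGroup' hRP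
  obtain ⟨y, hyQ, hyN, hyR⟩ := exists_nor Q.isPGroup' hRQ
  obtain ⟨k, hk⟩ := h R (P.isPGroup'.to_le hRP.le)
  obtain ⟨N, hN⟩ : ∃ N : Subgroup M, N = Subgroup.normalizer (R : Set M) := ⟨_, rfl⟩
  have hRN : R ≤ N := hN ▸ Subgroup.le_normalizer
  have hnor : ((Subgroup.centralizer (R : Set M)).subgroupOf N).Normal := by
    rw [hN]
    infer_instance
  rw [← hN] at hxN hyN hk
  have hp1 : IsPGroup 2 ((P : Subgroup M).subgroupOf N) :=
    P.isPGroup'.comap_of_injective N.subtype N.subtype_injective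
  have hq1 : IsPGroup 2 ((Q : Subgroup M).subgroupOf N) :=
    Q.isPGroup'.comap_of_injective N.subtype N.subtype_injective
  obtain ⟨P₂, hP₂⟩ := hp1.exists_le_sylow
  obtain ⟨Q₂, hQ₂⟩ := hq1.exists_le_sylow
  obtain ⟨u, hu⟩ := MulAction.exists_smul_eq N P₂ Q₂
  have htop := index_one ((Subgroup.centralizer (R : Set M)).subgroupOf N) hk P₂
  have hu' : u ∈ (((Subgroup.centralizer (R : Set M)).subgroupOf N ⊔ (P₂ : Subgroup N) :
      Subgroup N) : Set N) := by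
    rw [htop]
    trivial
  rw [Subgroup.normal_mul] at hu'
  obtain ⟨c₀, hc₀, p, hp, rfl⟩ := Set.mem_mul.1 hu'
  have hpP : p • P₂ = P₂ := Sylow.smul_eq_iff_mem_normalizer.2 (Subgroup.le_normalizer hp)
  rw [mul_smul, hpP] at hu
  have hc₀' : ∀ z ∈ R, (c₀ : M) * z = z * c₀ := by
    intro z hz
    exact (Subgroup.mem_centralizer_iff.1 (Subgroup.mem_subgroupOf.1 hc₀) z hz).symm
  obtain ⟨P₃, hP₃⟩ := (P₂.isPGroup'.map N.subtype).exists_le_sylow
  have hin : ∀ z (hz : z ∈ N), z ∈ (P : Subgroup M) → z ∈ (P₃ : Subgroup M) := by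
    intro z hz hzP
    exact hP₃ ⟨⟨z, hz⟩, hP₂ (Subgroup.mem_subgroupOf.2 hzP), rfl⟩
  have hin' : ∀ z (hz : z ∈ N), z ∈ (Q : Subgroup M) →
      z ∈ (((c₀ : M) • P₃ : Sylow 2 M) : Subgroup M) := by
    intro z hz hzQ
    have h1 : (⟨z, hz⟩ : N) ∈ (Q₂ : Subgroup N) := hQ₂ (Subgroup.mem_subgroupOf.2 hzQ)
    rw [← hu, mem_sy] at h1
    rw [mem_sy]
    exact hP₃ ⟨_, h1, rfl⟩
  obtain ⟨c₁, hc₁, hc₁'⟩ := ih' P P₃ (fun z hz => ⟨hRP.le hz, hin z (hRN hz) (hRP.le hz)⟩)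
    ⟨x, ⟨hxP, hin x hxN hxP⟩, hxR⟩
  obtain ⟨c₂, hc₂, hc₂'⟩ := ih' ((c₀ : M) • P₃) Q
    (fun z hz => ⟨hin' z (hRN hz) (hRQ.le hz), hRQ.le hz⟩) ⟨y, ⟨hin' y hyN hyQ, hyQ⟩, hyR⟩
  refine ⟨c₂ * (c₀ * c₁), fun z hz hz' => ?_, ?_⟩
  · have hzR : z ∈ R := hR ▸ ⟨hz, hz'⟩
    have e1 := hc₁ z hzR
    have e2 := hc₀' z hzR
    have e3 := hc₂ z hzR
    rw [mul_assoc, mul_assoc, e1, ← mul_assoc (c₀ : M), e2, mul_assoc z, ← mul_assoc c₂, e3,
      mul_assoc z]
  · rw [mul_smul, mul_smul, ← hc₁', ← hc₂']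

end Pool.Agent.CGS
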