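import Pool.Agent.CGS.FCa

/-!
# A Sylow 2-subgroup controls its fusion

PACKAGE (statements frozen; auxiliary lemmas private; the imported files are black boxes, some
of them still contain sorry).

Let `y = g * x * g⁻¹ ∈ P`. Let `Q = g⁻¹ • P` (a Sylow 2-subgroup, `Sylow` has a `MulAction` of `M`
by conjugation: `z ∈ g⁻¹ • P ↔ g * z * g⁻¹ ∈ P`, `Sylow.pointwise_smul_def`,
`Subgroup.mem_pointwise_smul_iff_inv_smul_mem`), so `x ∈ P ⊓ Q`. By `exists_centralizing_conj`
there is `c` commuting with `x` such that `g⁻¹ • P = c • P`. So `z = g * c` normalises `P`: `(g *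
c) • P = P`. The 2-group `P` satisfies (`h` for `R = P`) that the index of the centraliser `C` of
`P` in the normaliser `N` of `P` is a power of two; the index of `P` in `N` is odd (`P` is Sylow);
`C` is normal in `N`, so `N = P C` (the index of `P ⊔ C` in `N` divides both), and `z = u * k`
with `u ∈ P`, `k ∈ C`. Now `u * x * u⁻¹ = u * k * x * k⁻¹ * u⁻¹ = z * x * z⁻¹ = g * c * x * c⁻¹ *
g⁻¹ = g * x * g⁻¹`.
-/

set_option autoImplicit false

namespace Pool.Agent.CGS

open Pointwise

theorem fusion_control {M : Type} [Group M] [Finite M] (h : FC M) (P : Sylow 2 M) {x g : M}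
    (hx : x ∈ (P : Subgroup M)) (hg : g * x * g⁻¹ ∈ (P : Subgroup M)) :
    ∃ u ∈ (P : Subgroup M), u * x * u⁻¹ = g * x * g⁻¹ := by
  have hQ : x ∈ ((g⁻¹ • P : Sylow 2 M) : Subgroup M) := by
    rw [Sylow.coe_subgroup_smul, Subgroup.mem_pointwise_smul_iff_inv_smul_mem]
    simpa using hg
  obtain ⟨c, hc, hcP⟩ := exists_centralizing_conj h P (g⁻¹ • P)
  have hcx := hc x hx hQ
  have hz : (g * c) • P = P := by
    rw [mul_smul, ← hcP, smul_inv_smul]
  rw [Sylow.smul_eq_iff_mem_normalizer] at hz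
  obtain ⟨k, hk⟩ := h (P : Subgroup M) P.isPGroup'
  let K : Subgroup M :=
    { carrier := {z | ∃ u ∈ (P : Subgroup M), ∃ v ∈ Subgroup.centralizer ((P : Subgroup M) : Set M), z = u * v}
      one_mem' := ⟨1, one_mem _, 1, one_mem _, (mul_one 1).symm⟩
      mul_mem' := by
        rintro _ _ ⟨u, hu, v, hv, rfl⟩ ⟨u', hu', v', hv', rfl⟩
        refine ⟨u * u', mul_mem hu hu', v * v', mul_mem hv hv', ?_⟩
        have h1 : u' * v = v * u' := Subgroup.mem_centralizer_iff.1 hv u' hu'
        calc u * v * (u' * v') = u * (v * u') * v' := by group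
          _ = u * u' * (v * v') := by rw [← h1]; group
      inv_mem' := by
        rintro _ ⟨u, hu, v, hv, rfl⟩
        refine ⟨u⁻¹, inv_mem hu, v⁻¹, inv_mem hv, ?_⟩
        have h1 : u * v = v * u := Subgroup.mem_centralizer_iff.1 hv u hu
        rw [h1]
        group }
  have hsup : (P : Subgroup M) ⊔ Subgroup.centralizer ((P : Subgroup M) : Set M) ≤ K :=
    sup_le (fun u hu => ⟨u, hu, 1, one_mem _, (mul_one u).symm⟩)
      fun v hv => ⟨1, one_mem _, v, hv, (one_mul v).symm⟩
  have h1 : ((P : Subgroup M) ⊔ Subgroup.centralizer ((P : Subgroup M) : Set M)).relIndex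
      (Subgroup.normalizer ((P : Subgroup M) : Set M)) ∣ 2 ^ k := by
    rw [← hk]
    exact Subgroup.relIndex_dvd_of_le_left _ le_sup_right
  have h2 : ((P : Subgroup M) ⊔ Subgroup.centralizer ((P : Subgroup M) : Set M)).relIndex
      (Subgroup.normalizer ((P : Subgroup M) : Set M)) ∣ (P : Subgroup M).relIndex
        (Subgroup.normalizer ((P : Subgroup M) : Set M)) :=
    Subgroup.relIndex_dvd_of_le_left _ le_sup_left
  have h3 : (P : Subgroup M).relIndex (Subgroup.normalizer ((P : Subgroup M) : Set M)) ∣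
      (P : Subgroup M).index := Subgroup.relIndex_dvd_index_of_le Subgroup.le_normalizer
  have h4 : ¬ 2 ∣ (P : Subgroup M).index := P.not_dvd_index' Subgroup.index_ne_zero_of_finite
  have h5 : ((P : Subgroup M) ⊔ Subgroup.centralizer ((P : Subgroup M) : Set M)).relIndex
      (Subgroup.normalizer ((P : Subgroup M) : Set M)) = 1 := by
    obtain ⟨j, -, hj⟩ := (Nat.dvd_prime_pow Nat.prime_two).1 h1
    rcases Nat.eq_zero_or_pos j with rfl | hj0
    · rw [hj, pow_zero]
    · exfalso
      apply h4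
      refine dvd_trans ?_ (h2.trans h3)
      rw [hj]
      exact dvd_pow_self 2 hj0.ne'
  rw [Subgroup.relIndex_eq_one] at h5
  obtain ⟨u, hu, v, hv, huv⟩ := hsup (h5 hz)
  refine ⟨u, hu, ?_⟩
  have h6 : x * v = v * x := Subgroup.mem_centralizer_iff.1 hv x hx
  have h7 : u * x * u⁻¹ = (u * v) * x * (u * v)⁻¹ := by
    calc u * x * u⁻¹ = u * (x * v) * v⁻¹ * u⁻¹ := by group
      _ = (u * v) * x * (u * v)⁻¹ := by rw [h6]; group
  rw [h7, ← huv]
  calc g * c * x * (g * c)⁻¹ = g * (c * x) * c⁻¹ * g⁻¹ := by group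
    _ = g * x * g⁻¹ := by rw [hcx]; group

end Pool.Agent.CGS
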