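import Pool.Agent.CGS.NoIdx

/-!
# Control of fusion gives a subgroup of index two

PACKAGE (statements frozen; auxiliary lemmas private; the imported files are black boxes, some
of them still contain sorry).

By the focal subgroup theorem (`commutator_inf_eq_focalSubgroup`, file
`Mathlib/GroupTheory/Focal.lean`; read the definition there) `commutator M ⊓ P` is generated by
the quotients of elements of `P` which are conjugate in `M`: the elements `x⁻¹ * (g * x * g⁻¹)`
(or the commutator form used there) with `x ∈ P`, `g * x * g⁻¹ ∈ P`. By `hf` each of them is `x⁻¹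
* (u * x * u⁻¹)` with `u ∈ P`, a commutator of elements of `P`. So `commutator M ⊓ P ≤ ⁅P, P⁆`.
`P` is a nontrivial 2-group (`2 ∣ Nat.card M`), so it is nilpotent (solvable) and `⁅P, P⁆ < P`
(`IsSolvable.commutator_lt_of_ne_bot` or the same for nilpotent groups). So `P` is not contained
in `commutator M`. If `(commutator M).index` were odd then the 2-subgroup `P` would be contained
in `commutator M` (its image in the quotient of odd order is a 2-group, so trivial). So
`(commutator M).index` is even and by `NoIdx2.odd_index_commutator` `M` has a subgroup of index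
two.
-/

set_option autoImplicit false

namespace Pool.Agent.CGS

open Matrix

open scoped commutatorElement

theorem exists_index_two_of_fusion {M : Type} [Group M] [Finite M] (h2 : 2 ∣ Nat.card M)
    (P : Sylow 2 M) (hf : ∀ x ∈ (P : Subgroup M), ∀ g : M, g * x * g⁻¹ ∈ (P : Subgroup M) →
      ∃ u ∈ (P : Subgroup M), u * x * u⁻¹ = g * x * g⁻¹) : ∃ Y : Subgroup M, Y.index = 2 := by
  have hp2 : Fact (Nat.Prime 2) := ⟨Nat.prime_two⟩
  by_contra hno
  have hN : NoIdx2 M := fun Y hY => hno ⟨Y, hY⟩
  have hodd := hN.odd_index_commutator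
  -- the Sylow subgroup is contained in the commutator subgroup
  have h1 : (P : Subgroup M) ≤ commutator M := by
    intro x hx
    obtain ⟨k, hk⟩ := P.isPGroup' ⟨x, hx⟩
    have hk' : x ^ 2 ^ k = 1 := congrArg Subtype.val hk
    have h2 : (QuotientGroup.mk x : M ⧸ commutator M) ^ 2 ^ k = 1 := by
      rw [← QuotientGroup.mk_pow, hk']
      rfl
    have h3 : (QuotientGroup.mk x : M ⧸ commutator M) ^ (commutator M).index = 1 := by
      rw [Subgroup.index]
      exact pow_card_eq_one'
    have h4 : Nat.Coprime (2 ^ k) (commutator M).index :=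
      Nat.Coprime.pow_left k ((Nat.coprime_two_left).2 hodd)
    have h5 : orderOf (QuotientGroup.mk x : M ⧸ commutator M) ∣ 1 := by
      rw [← h4]
      exact Nat.dvd_gcd (orderOf_dvd_of_pow_eq_one h2) (orderOf_dvd_of_pow_eq_one h3)
    have h6 : (QuotientGroup.mk x : M ⧸ commutator M) = 1 :=
      orderOf_eq_one_iff.1 (Nat.dvd_one.1 h5)
    exact (QuotientGroup.eq_one_iff x).1 h6
  -- the focal subgroup is the commutator subgroup of the Sylow subgroup
  have h2 : (P : Subgroup M).focalSubgroup ≤ ⁅(P : Subgroup M), (P : Subgroup M)⁆ := by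
    rw [Subgroup.focalSubgroup_def, Subgroup.closure_le]
    rintro g ⟨hg, x, hx, u, rfl⟩
    have h3 : u * x⁻¹ * u⁻¹ ∈ (P : Subgroup M) := by
      have h4 := mul_mem (inv_mem hx) hg
      rw [commutatorElement_def] at h4
      have h5 : x⁻¹ * (x * u * x⁻¹ * u⁻¹) = u * x⁻¹ * u⁻¹ := by group
      rwa [h5] at h4
    obtain ⟨v, hv, hve⟩ := hf x⁻¹ (inv_mem hx) u h3
    have h6 : ⁅x, u⁆ = ⁅x, v⁆ := by
      rw [commutatorElement_def, commutatorElement_def]
      calc x * u * x⁻¹ * u⁻¹ = x * (u * x⁻¹ * u⁻¹) := by group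
        _ = x * (v * x⁻¹ * v⁻¹) := by rw [hve]
        _ = x * v * x⁻¹ * v⁻¹ := by group
    rw [h6]
    exact Subgroup.commutator_mem_commutator hx hv
  have h3 : (P : Subgroup M) ≤ ⁅(P : Subgroup M), (P : Subgroup M)⁆ := by
    refine le_trans ?_ h2
    rw [← Subgroup.commutator_inf_eq_focalSubgroup P]
    exact le_inf h1 le_rfl
  -- a contradiction, the Sylow subgroup is nilpotent
  have h4 : (P : Subgroup M) ≠ ⊥ := by
    intro h5
    have h6 := P.not_dvd_index
    rw [h5, Subgroup.index_bot] at h6
    exact h6 ‹2 ∣ Nat.card M›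
  have h5 : Nontrivial (P : Subgroup M) := (Subgroup.nontrivial_iff_ne_bot _).2 h4
  have h6 : Group.IsNilpotent (P : Subgroup M) := P.isPGroup'.isNilpotent
  have h7 : Group.IsSolvable (P : Subgroup M) := inferInstance
  have h8 := Group.IsSolvable.commutator_lt_top_of_nontrivial (P : Subgroup M)
  refine h8.ne (eq_top_iff.2 fun x _ => ?_)
  have h9 := h3 x.2
  rw [← Subgroup.map_subtype_commutator] at h9
  obtain ⟨y, hy, hyx⟩ := h9
  have h10 : y = x := Subtype.ext hyx
  rw [← h10]
  exact hy

end Pool.Agent.CGS
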