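import Pool.Agent.CGS.FB
import Pool.Agent.CGS.FCb
import Pool.Agent.CGS.FD

/-!
# Harmless groups have a normal 2-complement

PACKAGE (statements frozen; auxiliary lemmas private; the imported files are black boxes, some
of them still contain sorry).

Strong induction on `Nat.card M` (for all `M`). If `Nat.card M` is odd take `K = ⊤`, `k = 0`.
Otherwise `2 ∣ Nat.card M`, and by `Harmless.fc`, `fusion_control`, `exists_index_two_of_fusion`
there is a subgroup `Y` of index two, which is normal. `Y` is harmless (its order divides the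
order of `M`). By induction there is `K' : Subgroup Y` characteristic of odd order and index `2 ^
k`. Let `K = K'.map Y.subtype`: it is normal in `M` (characteristic in a normal subgroup,
`ConjAct.normal_of_characteristic_of_normal`), of odd order and of index `2 * 2 ^ k`. It is
characteristic in `M`: let `φ` be an automorphism of `M`; `K₁ = K.map φ` is normal of the same odd
order; the image of `K₁` in `M ⧸ K` (a group of order `2 ^ (k + 1)`) has odd order and 2-power
order, so it is trivial and `K₁ ≤ K`, so `K₁ = K` (`Subgroup.characteristic_iff_map_le`).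
-/

set_option autoImplicit false

namespace Pool.Agent.CGS

open Matrix

theorem exists_complement {M : Type} [Group M] [Finite M] (h : Harmless M) :
    ∃ K : Subgroup M, K.Characteristic ∧ Odd (Nat.card K) ∧ ∃ k, K.index = 2 ^ k := by
  have key : ∀ n : ℕ, ∀ (M : Type) [Group M] [Finite M], Nat.card M = n → Harmless M →
      ∃ K : Subgroup M, K.Characteristic ∧ Odd (Nat.card K) ∧ ∃ k, K.index = 2 ^ k := by
    intro n
    induction n using Nat.strong_induction_on with
    | _ n ih =>
    intro M _ _ hn h
    by_cases hodd : Odd (Nat.card M)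
    · exact ⟨⊤, Subgroup.topCharacteristic, by rwa [Subgroup.card_top], 0, by simp⟩
    have h2 : 2 ∣ Nat.card M := (Nat.not_odd_iff_even.1 hodd).two_dvd
    have hf2 : Fact (Nat.Prime 2) := ⟨Nat.prime_two⟩
    obtain ⟨P⟩ : Nonempty (Sylow 2 M) := inferInstance
    obtain ⟨Y, hY⟩ := exists_index_two_of_fusion h2 P
      (fun x hx g hg => fusion_control h.fc P hx hg)
    have hYn : Y.Normal := Subgroup.normal_of_index_eq_two hY
    have hcard : Nat.card Y * 2 = Nat.card M := by
      rw [← hY]; exact Subgroup.card_mul_index Y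
    have hpos : 0 < Nat.card Y := Nat.card_pos
    have hYh : Harmless Y := fun p hp hp2 hd i hi hi2 =>
      h p hp hp2 (hd.trans ⟨2, hcard.symm⟩) i hi (hi2.trans ⟨2, hcard.symm⟩)
    obtain ⟨K', hK'c, hK'o, k, hk⟩ := ih (Nat.card Y) (by omega) Y rfl hYh
    have hKn : (K'.map Y.subtype).Normal := ConjAct.normal_of_characteristic_of_normal
    have hKo : Nat.card (K'.map Y.subtype) = Nat.card K' :=
      Nat.card_congr (K'.equivMapOfInjective Y.subtype Y.subtype_injective).toEquiv.symm
    have hKi : (K'.map Y.subtype).index = 2 ^ (k + 1) := by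
      have e1 := Subgroup.card_mul_index (K'.map Y.subtype)
      have e2 := Subgroup.card_mul_index K'
      rw [hKo, ← hcard, ← e2, mul_assoc, hk] at e1
      have hp : 0 < Nat.card K' := Nat.card_pos
      rw [Nat.eq_of_mul_eq_mul_left hp e1, pow_succ]
    refine ⟨K'.map Y.subtype, ?_, by rw [hKo]; exact hK'o, k + 1, hKi⟩
    rw [Subgroup.characteristic_iff_map_le]
    rintro φ _ ⟨y, hy, rfl⟩
    have h3 : orderOf ((QuotientGroup.mk (φ y) : M ⧸ (K'.map Y.subtype))) ∣
        Nat.card K' := by
      have e1 : orderOf ((QuotientGroup.mk' (K'.map Y.subtype)) (φ y)) ∣ orderOf (φ y) :=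
        orderOf_map_dvd _ _
      have e2 : orderOf (φ y) = orderOf y := φ.orderOf_eq y
      have e3 : orderOf y ∣ Nat.card (K'.map Y.subtype) :=
        Subgroup.orderOf_dvd_natCard _ hy
      rw [hKo] at e3
      rw [e2] at e1
      exact e1.trans e3
    have h4 : orderOf ((QuotientGroup.mk (φ y) : M ⧸ (K'.map Y.subtype))) ∣ 2 ^ (k + 1) := by
      rw [← hKi, Subgroup.index]
      exact orderOf_dvd_natCard _
    have h5 : Nat.Coprime (Nat.card K') (2 ^ (k + 1)) :=
      Nat.Coprime.pow_right _ (Nat.coprime_two_right.2 hK'o)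
    have h6 := Nat.eq_one_of_dvd_coprimes h5 h3 h4
    rw [orderOf_eq_one_iff] at h6
    exact (QuotientGroup.eq_one_iff _).1 h6
  exact key _ M rfl h

end Pool.Agent.CGS
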