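import Pool.Agent.CGS.Base

/-!
# Restriction of an irreducible representation of odd dimension to a subgroup of index two

PACKAGE (statements frozen; auxiliary lemmas private; the imported files are black boxes, some
of them still contain sorry).

`Y` is normal. Choose `s ∉ Y`; then `s * s ∈ Y` (`Subgroup.mul_self_mem_of_index_two`) and every
element of `G` is in `Y` or of the form `s * y` with `y ∈ Y`
(`Subgroup.mul_mem_iff_of_index_two`). Let `W` be stable under `Y`, and suppose `W ≠ ⊥` and `W ≠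
⊤`. Let `sW = W.map (r s)`. It is stable under `Y` (`r y (r s w) = r s (r (s⁻¹ y s) w)`) and
`(sW).map (r s) = W`, because `s * s ∈ Y` (as `r y` maps `W` onto `W`: `r y⁻¹` also does). So `W ⊓
sW` and `W ⊔ sW` are stable under `G` (`(W ⊓ sW).map (r s) ≤ sW ⊓ W`). By irreducibility `W ⊓ sW =
⊥` (it is `≤ W ≠ ⊤`) and `W ⊔ sW = ⊤` (it is `≥ W ≠ ⊥`). So `finrank V = finrank W + finrank sW =
2 * finrank W` (`Submodule.finrank_sup_add_finrank_inf_eq`; `r s` is bijective,
`LinearMap.finrank_map_eq` or `LinearEquiv.finrank_map_eq`), which is even: a contradiction.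
-/

set_option autoImplicit false

namespace Pool.Agent.CGS

open Matrix

theorem irr_res_of_odd {G V : Type} [Group G] [AddCommGroup V] [Module ℂ V]
    [FiniteDimensional ℂ V] (r : Representation ℂ G V) (Y : Subgroup G) (hY : Y.index = 2)
    (hodd : Odd (Module.finrank ℂ V))
    (hirr : ∀ W : Submodule ℂ V, (∀ g : G, ∀ w ∈ W, r g w ∈ W) → W = ⊥ ∨ W = ⊤)
    (W : Submodule ℂ V) (hW : ∀ y ∈ Y, ∀ w ∈ W, r y w ∈ W) : W = ⊥ ∨ W = ⊤ := by
  by_contra hcon
  obtain ⟨hbot, htop⟩ := not_or.1 hcon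
  have hYn : Y.Normal := Subgroup.normal_of_index_eq_two hY
  obtain ⟨s, hs⟩ : ∃ s, s ∉ Y := by
    by_contra hall
    push Not at hall
    have : Y = ⊤ := (Subgroup.eq_top_iff' Y).2 hall
    rw [this, Subgroup.index_top] at hY
    omega
  have hss : s * s ∈ Y := Subgroup.mul_self_mem_of_index_two hY s
  have hinv : ∀ g v, r g⁻¹ (r g v) = v := by
    intro g v
    rw [← Module.End.mul_apply, ← map_mul, inv_mul_cancel, map_one, Module.End.one_apply]
  have hinj : Function.Injective (r s) := fun a b h => by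
    rw [← hinv s a, h, hinv]
  have hrs : ∀ w ∈ W, r s (r s w) ∈ W := by
    intro w hw
    rw [← Module.End.mul_apply, ← map_mul]
    exact hW _ hss w hw
  have hG : ∀ U : Submodule ℂ V, (∀ y ∈ Y, ∀ w ∈ U, r y w ∈ U) → (∀ w ∈ U, r s w ∈ U) →
      ∀ g : G, ∀ w ∈ U, r g w ∈ U := by
    intro U h1 h2 g w hw
    by_cases hg : g ∈ Y
    · exact h1 g hg w hw
    · have h3 : s⁻¹ * g ∈ Y := by
        rw [Subgroup.mul_mem_iff_of_index_two hY]
        constructor
        · intro h; exact absurd (Y.inv_mem_iff.1 h) hs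
        · intro h; exact absurd h hg
      have h4 : g = s * (s⁻¹ * g) := by group
      rw [h4, map_mul, Module.End.mul_apply]
      exact h2 _ (h1 _ h3 w hw)
  have hsW : ∀ y ∈ Y, ∀ w ∈ W.map (r s), r y w ∈ W.map (r s) := by
    rintro y hy _ ⟨w, hw, rfl⟩
    refine ⟨r (s⁻¹ * y * s) w, hW _ ?_ w hw, ?_⟩
    · have h := hYn.conj_mem y hy s⁻¹
      rwa [inv_inv] at h
    · rw [← Module.End.mul_apply, ← Module.End.mul_apply, ← map_mul, ← map_mul]
      congr 2
      group
  have hinf : W ⊓ W.map (r s) = ⊥ := by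
    have h0 := hirr (W ⊓ W.map (r s)) (hG _ (fun y hy w hw =>
      ⟨hW y hy w hw.1, hsW y hy w hw.2⟩) (by
        rintro v ⟨h1, w, hw, rfl⟩
        exact ⟨hrs w hw, ⟨_, h1, rfl⟩⟩))
    rcases h0 with h | h
    · exact h
    · exact absurd (top_le_iff.1 (h ▸ inf_le_left)) htop
  have hsup : W ⊔ W.map (r s) = ⊤ := by
    have h0 := hirr (W ⊔ W.map (r s)) (hG _ (by
        intro y hy w hw
        obtain ⟨a, ha, b, hb, rfl⟩ := Submodule.mem_sup.1 hw
        rw [map_add]
        exact Submodule.add_mem_sup (hW y hy a ha) (hsW y hy b hb)) (by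
        intro w hw
        obtain ⟨a, ha, _, ⟨b, hb, rfl⟩, rfl⟩ := Submodule.mem_sup.1 hw
        rw [map_add, add_comm]
        exact Submodule.add_mem_sup (hrs b hb) ⟨a, ha, rfl⟩))
    rcases h0 with h | h
    · exact absurd (le_bot_iff.1 (h ▸ le_sup_left)) hbot
    · exact h
  have hdim := Submodule.finrank_sup_add_finrank_inf_eq W (W.map (r s))
  have h2 : Module.finrank ℂ (W.map (r s)) = Module.finrank ℂ W :=
    (Submodule.equivMapOfInjective (r s) hinj W).finrank_eq.symm
  rw [hinf, hsup, finrank_bot, finrank_top, h2] at hdim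
  rw [Nat.odd_iff] at hodd
  omega

end Pool.Agent.CGS
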