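import Pool.Agent.CGS.Ops

/-!
# Inflation from a quotient

PACKAGE (statements frozen; auxiliary lemmas private; the imported files are black boxes, some
of them still contain sorry).

`e = clsMap (pull (QuotientGroup.mk' M))` with `isIrr_pull` (the projection is surjective) and
`sim_pull`.

* injective: if `P (pull ρ)(x) = (pull σ)(x) P` for all `x : X` then `P ρ(y) = σ(y) P` for all `y`
  in the quotient (surjectivity).
* self-dual: the same form `P` for `ρ` and `pull ρ` (surjectivity); `has_mk` with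
  `SelfDual.of_sim`, `cls_ind`, `clsMap_mk`.
* kernel: `(pull (mk' M) ρ).ker = ρ.ker.comap (mk' M)` (`MonoidHom.comap_ker`), `kerC_mk`.
* if `M ≤ kerC c`, `c = mk σ h`, then `σ` factors through the quotient (`QuotientGroup.lift M σ`),
  `σ = pull (mk' M) (lift)`, and the lift is irreducible by `isIrr_pull`.
* `exists_faithful`: apply this to `M = kerC c`; `c = e c'`, `(kerC c').comap (mk' M) = kerC c =
  M`, so `kerC c' = ⊥` (an element of `kerC c'` is the image of some `x` in the comap, so `x ∈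
  M`).
-/

set_option autoImplicit false

namespace Pool.Agent.CGS

open Matrix

variable {X : Type} [Group X] {d : ℕ}

private theorem sim_of_pull {Y : Type} [Group Y] {f : Y →* X} (hf : Function.Surjective f)
    {ρ σ : Rep X d} (h : Sim (pull f ρ) (pull f σ)) : Sim ρ σ := by
  obtain ⟨P, hP⟩ := h
  refine ⟨P, fun g => ?_⟩
  obtain ⟨y, rfl⟩ := hf g
  exact hP y

private theorem selfDual_pull {Y : Type} [Group Y] {f : Y →* X} (hf : Function.Surjective f)
    {ρ : Rep X d} : SelfDual (pull f ρ) ↔ SelfDual ρ := by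
  constructor
  · rintro ⟨P, hP⟩
    refine ⟨P, fun g => ?_⟩
    obtain ⟨y, rfl⟩ := hf g
    exact hP y
  · rintro ⟨P, hP⟩
    exact ⟨P, fun y => hP (f y)⟩

private theorem mk_congr {ρ σ : Rep X d} (e : ρ = σ) (h : IsIrr ρ) (h' : IsIrr σ) :
    mk ρ h = mk σ h' := by
  subst e
  rfl

private theorem exists_mk (c : Cls X d) : ∃ ρ, ∃ h : IsIrr ρ, mk ρ h = c :=
  cls_ind (q := fun c => ∃ ρ, ∃ h : IsIrr ρ, mk ρ h = c) (fun ρ hρ => ⟨ρ, hρ, rfl⟩) c

theorem exists_infl (M : Subgroup X) [M.Normal] (d : ℕ) :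
    ∃ e : Cls (X ⧸ M) d → Cls X d, Function.Injective e ∧
      (∀ c, Has SelfDual (e c) ↔ Has SelfDual c) ∧
      (∀ c, kerC (e c) = (kerC c).comap (QuotientGroup.mk' M)) ∧
      ∀ c, M ≤ kerC c → ∃ c', e c' = c := by
  have hs : Function.Surjective (QuotientGroup.mk' M) := QuotientGroup.mk'_surjective M
  refine ⟨clsMap (pull (QuotientGroup.mk' M)) (fun ρ h => (isIrr_pull hs).2 h)
    (fun ρ σ h => sim_pull _ h), ?_, ?_, ?_, ?_⟩
  · intro c c'
    obtain ⟨ρ, hρ, rfl⟩ := exists_mk c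
    obtain ⟨σ, hσ, rfl⟩ := exists_mk c'
    intro h
    rw [clsMap_mk, clsMap_mk, mk_eq] at h
    exact mk_eq.2 (sim_of_pull hs h)
  · refine cls_ind fun ρ hρ => ?_
    rw [clsMap_mk, has_mk fun _ _ h => SelfDual.of_sim h, has_mk fun _ _ h => SelfDual.of_sim h]
    exact selfDual_pull hs
  · refine cls_ind fun ρ hρ => ?_
    rw [clsMap_mk, kerC_mk, kerC_mk, pull, MonoidHom.comap_ker]
  · refine cls_ind fun σ hσ => ?_
    rw [kerC_mk]
    intro hM
    have e1 : pull (QuotientGroup.mk' M)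
        (QuotientGroup.lift M σ fun x hx => MonoidHom.mem_ker.1 (hM hx)) = σ := by
      refine MonoidHom.ext fun x => ?_
      rfl
    have h1 : IsIrr (QuotientGroup.lift M σ fun x hx => MonoidHom.mem_ker.1 (hM hx)) := by
      refine (isIrr_pull hs).1 ?_
      rw [e1]
      exact hσ
    refine ⟨mk _ h1, ?_⟩
    rw [clsMap_mk]
    exact mk_congr e1 _ _

theorem exists_faithful (c : Cls X d) :
    ∃ c' : Cls (X ⧸ kerC c) d, kerC c' = ⊥ ∧ (Has SelfDual c → Has SelfDual c') := by
  obtain ⟨e, -, h2, h3, h4⟩ := exists_infl (kerC c) d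
  obtain ⟨c', hc'⟩ := h4 c le_rfl
  refine ⟨c', ?_, fun h => ?_⟩
  · rw [eq_bot_iff]
    intro y hy
    obtain ⟨x, rfl⟩ := QuotientGroup.mk'_surjective (kerC c) y
    have h5 : x ∈ (kerC c').comap (QuotientGroup.mk' (kerC c)) := hy
    rw [← h3 c', hc'] at h5
    rw [Subgroup.mem_bot]
    exact (QuotientGroup.eq_one_iff x).2 h5
  · rw [← h2 c', hc']
    exact h

end Pool.Agent.CGS
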