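import Pool.Agent.CGS.Base
import Pool.Agent.FQ.Burnside

/-!
# Irreducible representations: stable subspaces and the lemma of Schur

PACKAGE (statements frozen; auxiliary lemmas private; the imported files are black boxes, some
of them are not finished yet).

`V = Fin d → ℂ`; `Stable ρ W` says that the subspace `W` is stable.

* `isIrr_iff`, direction `→`: let `W` be stable and `W ≠ ⊥`, `0 ≠ w ∈ W`. The set of matrices `A`
  with `A *ᵥ w ∈ W` for all `w ∈ W` is a linear subspace containing all `mat ρ g`, so it is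
  everything (`IsIrr.span`). For every `u` there is a matrix `A` with `A *ᵥ w = u` (choose `j`
  with `w j ≠ 0`, and `A = fun i k => if k = j then u i / w j else 0`). So `W = ⊤`.
* direction `←`: let `E` be the span of the matrices `mat ρ g`. It is closed under multiplication
  (the set of `mat ρ g` is) and contains `1 = mat ρ 1`; so it is a subalgebra of the matrices,
  equal to `Algebra.adjoin ℂ (Set.range (mat ρ))` (`Algebra.adjoin_eq_span`; the submonoid closure
  of the range of a monoid homomorphism is the range). Transport to `Module.End ℂ (Fin d → ℂ)`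
  with `Matrix.toLinAlgEquiv'` (or `Matrix.toLin'`) and apply `Pool.Agent.FQ.eq_top_of_irr`: a
  subspace stable under the subalgebra is `Stable ρ`, so it is `⊥` or `⊤`. Hence the subalgebra is
  everything and `E = ⊤`.
* `schur`: the set of matrices commuting with `A` is a subspace containing all `mat ρ g`, so `A`
  commutes with all matrices and is scalar (for example
  `Matrix.mem_range_scalar_of_commute_single` or `Matrix.mem_range_scalar_iff_commute_single`; or
  compare with the matrices `Matrix.single i j 1` by hand).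
-/

set_option autoImplicit false

namespace Pool.Agent.CGS

open Matrix

variable {G : Type} [Group G] {d : ℕ}

/-- irreducible means: no proper stable subspace -/
theorem isIrr_iff (ρ : Rep G d) :
    IsIrr ρ ↔ 0 < d ∧ ∀ W : Submodule ℂ (Fin d → ℂ), Stable ρ W → W = ⊥ ∨ W = ⊤ := by
  classical
  constructor
  · intro h
    refine ⟨h.pos, fun W hW => ?_⟩
    by_cases hb : W = ⊥
    · exact Or.inl hb
    right
    obtain ⟨w, hw, hw0⟩ := Submodule.exists_mem_ne_zero_of_ne_bot hb
    let S : Submodule ℂ (Matrix (Fin d) (Fin d) ℂ) :=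
      { carrier := {A | A *ᵥ w ∈ W}
        add_mem' := fun {A B} hA hB => by
          change (A + B) *ᵥ w ∈ W
          rw [Matrix.add_mulVec]
          exact W.add_mem hA hB
        zero_mem' := by
          change (0 : Matrix (Fin d) (Fin d) ℂ) *ᵥ w ∈ W
          rw [Matrix.zero_mulVec]
          exact W.zero_mem
        smul_mem' := fun c A hA => by
          change (c • A) *ᵥ w ∈ W
          rw [Matrix.smul_mulVec]
          exact W.smul_mem c hA }
    have hS : (⊤ : Submodule ℂ (Matrix (Fin d) (Fin d) ℂ)) ≤ S := by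
      rw [← h.span, Submodule.span_le]
      rintro _ ⟨g, rfl⟩
      exact hW g w hw
    have hall : ∀ A : Matrix (Fin d) (Fin d) ℂ, A *ᵥ w ∈ W := fun A => hS Submodule.mem_top
    obtain ⟨j, hj⟩ : ∃ j, w j ≠ 0 := by
      by_contra hcon
      push Not at hcon
      exact hw0 (funext hcon)
    rw [eq_top_iff]
    intro u _
    have h1 := hall (fun i k => if k = j then u i / w j else 0)
    have h2 : (fun i k => if k = j then u i / w j else 0 : Matrix (Fin d) (Fin d) ℂ) *ᵥ w = u := by
      funext i
      simp only [Matrix.mulVec, dotProduct, ite_mul, zero_mul, Finset.sum_ite_eq',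
        Finset.mem_univ, if_true]
      exact div_mul_cancel₀ _ hj
    rwa [h2] at h1
  · rintro ⟨hd, hirr⟩
    refine ⟨hd, ?_⟩
    let f : G →* Matrix (Fin d) (Fin d) ℂ := (Units.coeHom _).comp ρ
    have hf : ∀ g, f g = mat ρ g := fun g => rfl
    let E : Subalgebra ℂ (Matrix (Fin d) (Fin d) ℂ) := Algebra.adjoin ℂ (Set.range (mat ρ))
    have hE : Subalgebra.toSubmodule E = Submodule.span ℂ (Set.range (mat ρ)) := by
      rw [Algebra.adjoin_eq_span]
      have h1 : Set.range (mat ρ) = (MonoidHom.mrange f : Set (Matrix (Fin d) (Fin d) ℂ)) := rfl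
      rw [h1, Submonoid.closure_eq]
    let φ : Matrix (Fin d) (Fin d) ℂ ≃ₐ[ℂ] Module.End ℂ (Fin d → ℂ) := Matrix.toLinAlgEquiv'
    have hφ : ∀ A v, φ A v = A *ᵥ v := fun A v => rfl
    have htop : E.map (φ : Matrix (Fin d) (Fin d) ℂ →ₐ[ℂ] Module.End ℂ (Fin d → ℂ)) = ⊤ := by
      refine FQ.eq_top_of_irr _ fun W hW => hirr W fun g w hw => ?_
      exact hW (φ (mat ρ g))
        (Subalgebra.mem_map.2 ⟨mat ρ g, Algebra.subset_adjoin ⟨g, rfl⟩, rfl⟩) w hw
    rw [← hE, eq_top_iff]
    intro A _
    have h2 : φ A ∈ E.map (φ : Matrix (Fin d) (Fin d) ℂ →ₐ[ℂ] Module.End ℂ (Fin d → ℂ)) := by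
      rw [htop]
      exact Algebra.mem_top
    obtain ⟨B, hB, hBA⟩ := Subalgebra.mem_map.1 h2
    have : B = A := φ.injective hBA
    rw [← this]
    exact hB

/-- Schur's lemma for matrices -/
theorem schur {ρ : Rep G d} (h : IsIrr ρ) (A : Matrix (Fin d) (Fin d) ℂ)
    (hA : ∀ g, A * mat ρ g = mat ρ g * A) : ∃ c : ℂ, A = c • (1 : Matrix (Fin d) (Fin d) ℂ) := by
  classical
  let S : Submodule ℂ (Matrix (Fin d) (Fin d) ℂ) :=
    { carrier := {B | A * B = B * A}
      add_mem' := fun {B C} hB hC => by
        change A * (B + C) = (B + C) * A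
        rw [mul_add, add_mul, hB, hC]
      zero_mem' := by
        change A * 0 = 0 * A
        rw [mul_zero, zero_mul]
      smul_mem' := fun c B hB => by
        change A * (c • B) = (c • B) * A
        rw [mul_smul_comm, smul_mul_assoc, hB] }
  have hS : (⊤ : Submodule ℂ (Matrix (Fin d) (Fin d) ℂ)) ≤ S := by
    rw [← h.span, Submodule.span_le]
    rintro _ ⟨g, rfl⟩
    exact hA g
  have hall : ∀ B : Matrix (Fin d) (Fin d) ℂ, A * B = B * A := fun B => hS Submodule.mem_top
  have key : ∀ k i j : Fin d, A k i = if k = i then A j j else 0 := by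
    intro k i j
    have h1 := congrFun (congrFun (hall (Matrix.single i j 1)) k) j
    rw [Matrix.mul_single_apply_same, mul_one] at h1
    rw [h1]
    by_cases hk : k = i
    · rw [if_pos hk, hk, Matrix.single_mul_apply_same, one_mul]
    · rw [if_neg hk, Matrix.single_mul_apply_of_ne _ _ _ _ _ hk]
  refine ⟨A ⟨0, h.pos⟩ ⟨0, h.pos⟩, ?_⟩
  ext k i
  rw [key k i ⟨0, h.pos⟩, Matrix.smul_apply, Matrix.one_apply, smul_eq_mul, mul_ite, mul_one,
    mul_zero]

end Pool.Agent.CGS
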