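import Pool.Agent.CGS.Base

/-!
# Groups without subgroups of index two

PACKAGE (statements frozen; auxiliary lemmas private; the imported files are black boxes, some
of them still contain sorry).

* `NoIdx2.quotient`: the preimage of a subgroup of index two of the quotient has index two
  (`Subgroup.index_comap_of_surjective`). `NoIdx2.of_surjective`: same.
* `exists_index_two_of_isPGroup`: a nontrivial finite 2-group has a subgroup of index two: its
  order is `2 ^ (k + 1)` (`IsPGroup.iff_card`) and it has a subgroup of order `2 ^ k`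
  (`Sylow.exists_subgroup_card_pow_prime`).
* `range_le`: let `q : G → G ⧸ K` and `h = q.comp f`. `G ⧸ K` has order `2 ^ a`, so the range of
  `h` is a 2-group; if it is not trivial it has a subgroup of index two, and its preimage in `A`
  has index two, a contradiction. So `h` is trivial and `f.range ≤ K`.
* `NoIdx2.odd_index_commutator`: if the order of the commutative group `Abelianization G` is even
  then it has a subgroup of index two: write the finite commutative group as ... or: the Sylow
  2-subgroup `P` of it is not trivial; the map `x ↦ x ^ m`, `m` the odd part of the order, is a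
  homomorphism onto a nontrivial 2-group (its image consists of elements of 2-power order, and it
  does not kill an element of order two), which has a subgroup of index two; its preimage has
  index two. Then use `NoIdx2.of_surjective` with `Abelianization.of`.
* `NoIdx2.four_dvd`: if `|G| = 2 m` with `m` odd then `G` has a subgroup of index two: the kernel
  of the sign of the regular representation (an involution `t`, Cauchy, acts on `G` by left
  multiplication as a product of `m` disjoint transpositions, an odd permutation;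
  `MulAction.toPermHom G G`, `Equiv.Perm.sign`; or use the transfer
  `MonoidHom.ker_transferSylow_isComplement'` or `IsCyclic` Sylow subgroup lemmas of
  `Mathlib/GroupTheory/Transfer.lean`).
-/

set_option autoImplicit false

namespace Pool.Agent.CGS

open Matrix

variable {G A : Type} [Group G] [Group A]

theorem NoIdx2.of_surjective (h : NoIdx2 G) (f : G →* A) (hf : Function.Surjective f) :
    NoIdx2 A := by
  intro Y hY
  exact h (Y.comap f) (by rw [Subgroup.index_comap_of_surjective Y hf]; exact hY)

theorem NoIdx2.quotient (h : NoIdx2 G) (M : Subgroup G) [M.Normal] : NoIdx2 (G ⧸ M) := by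
  exact h.of_surjective (QuotientGroup.mk' M) (QuotientGroup.mk'_surjective M)

theorem exists_index_two_of_isPGroup [Finite G] [Nontrivial G] (h : IsPGroup 2 G) :
    ∃ Y : Subgroup G, Y.index = 2 := by
  obtain ⟨n, hn⟩ := IsPGroup.iff_card.1 h
  have h1 : 1 < Nat.card G := Finite.one_lt_card
  have h0 : n ≠ 0 := by
    rintro rfl
    rw [hn, pow_zero] at h1
    exact absurd h1 (lt_irrefl 1)
  obtain ⟨k, rfl⟩ := Nat.exists_eq_succ_of_ne_zero h0
  have : Fact (Nat.Prime 2) := ⟨Nat.prime_two⟩
  obtain ⟨Y, hY⟩ := Sylow.exists_subgroup_card_pow_prime (G := G) 2 (n := k)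
    (by rw [hn]; exact pow_dvd_pow 2 (Nat.le_succ k))
  refine ⟨Y, ?_⟩
  have h2 := Y.card_mul_index
  rw [hY, hn, pow_succ] at h2
  exact Nat.eq_of_mul_eq_mul_left (by positivity) h2

theorem range_le [Finite G] [Finite A] (f : A →* G) (hA : NoIdx2 A) (K : Subgroup G) [K.Normal]
    {a : ℕ} (hK : K.index = 2 ^ a) : f.range ≤ K := by
  let h : A →* G ⧸ K := (QuotientGroup.mk' K).comp f
  have h1 : IsPGroup 2 (G ⧸ K) := IsPGroup.of_card (n := a) hK
  have h2 : IsPGroup 2 h.range := h1.to_subgroup _
  have h3 : NoIdx2 h.range := hA.of_surjective h.rangeRestrict h.rangeRestrict_surjective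
  rintro _ ⟨x, rfl⟩
  by_contra hx
  have hne : h x ≠ 1 := by
    intro h4
    exact hx ((QuotientGroup.eq_one_iff _).1 h4)
  have : Nontrivial h.range :=
    ⟨⟨⟨h x, x, rfl⟩, 1, fun h4 => hne (congrArg Subtype.val h4)⟩⟩
  obtain ⟨Y, hY⟩ := exists_index_two_of_isPGroup h2
  exact h3 Y hY

theorem NoIdx2.odd_index_commutator [Finite G] (h : NoIdx2 G) : Odd (commutator G).index := by
  by_contra hodd
  have h2 : 2 ∣ Nat.card (Abelianization G) := (Nat.not_odd_iff_even.1 hodd).two_dvd
  have hA : NoIdx2 (Abelianization G) :=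
    h.of_surjective Abelianization.of QuotientGroup.mk_surjective
  obtain ⟨k, m, hm, hc⟩ := Nat.exists_eq_two_pow_mul_odd
    (Nat.card_pos (α := Abelianization G)).ne'
  let p : Abelianization G →* Abelianization G := powMonoidHom m
  have h3 : NoIdx2 p.range := hA.of_surjective p.rangeRestrict p.rangeRestrict_surjective
  have h4 : IsPGroup 2 p.range := by
    rintro ⟨_, x, rfl⟩
    refine ⟨k, Subtype.ext ?_⟩
    change (x ^ m) ^ 2 ^ k = 1
    rw [← pow_mul, mul_comm, ← hc]
    exact pow_card_eq_one'
  have : Fact (Nat.Prime 2) := ⟨Nat.prime_two⟩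
  obtain ⟨t, ht⟩ := exists_prime_orderOf_dvd_card' (G := Abelianization G) 2 h2
  have ht1 : t ≠ 1 := by
    intro h5
    rw [h5, orderOf_one] at ht
    exact absurd ht (by norm_num)
  have ht2 : t ^ m = t := by
    obtain ⟨r, rfl⟩ := hm
    rw [pow_add, pow_mul, ← ht, pow_orderOf_eq_one, one_pow, one_mul, pow_one]
  have : Nontrivial p.range :=
    ⟨⟨⟨p t, t, rfl⟩, 1, fun h5 => ht1 (by rw [← ht2]; exact congrArg Subtype.val h5)⟩⟩
  obtain ⟨Y, hY⟩ := exists_index_two_of_isPGroup h4
  exact h3 Y hY

theorem NoIdx2.four_dvd [Finite G] (h : NoIdx2 G) (h2 : 2 ∣ Nat.card G) : 4 ∣ Nat.card G := by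
  classical
  by_contra h4
  have : Fintype G := Fintype.ofFinite G
  have : Fact (Nat.Prime 2) := ⟨Nat.prime_two⟩
  obtain ⟨t, ht⟩ := exists_prime_orderOf_dvd_card' (G := G) 2 h2
  have ht1 : t ≠ 1 := by
    intro h5
    rw [h5, orderOf_one] at ht
    exact absurd ht (by norm_num)
  obtain ⟨m, hm⟩ := h2
  have hodd : Odd m := by
    by_contra h5
    obtain ⟨r, rfl⟩ := (Nat.not_odd_iff_even.1 h5).two_dvd
    exact h4 ⟨r, by rw [hm]; ring⟩
  let σ : Equiv.Perm G := MulAction.toPermHom G G t
  have hσ2 : σ ^ 2 = 1 := by
    change (MulAction.toPermHom G G t) ^ 2 = 1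
    rw [← map_pow, ← ht, pow_orderOf_eq_one, map_one]
  have hct : ∀ c ∈ σ.cycleType, c = 2 := Equiv.Perm.pow_prime_eq_one_iff.1 hσ2
  have hrep : σ.cycleType = Multiset.replicate (Multiset.card σ.cycleType) 2 :=
    Multiset.eq_replicate_card.2 hct
  have hsupp : σ.support = Finset.univ := by
    ext x
    simp only [Equiv.Perm.mem_support, Finset.mem_univ, iff_true]
    change t * x ≠ x
    intro h5
    exact ht1 (mul_eq_right.1 h5)
  have hsum : σ.cycleType.sum = 2 * m := by
    rw [Equiv.Perm.sum_cycleType, hsupp, Finset.card_univ, ← Nat.card_eq_fintype_card, hm]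
  have hcard : Multiset.card σ.cycleType = m := by
    rw [hrep, Multiset.sum_replicate, smul_eq_mul] at hsum
    omega
  have hsign : Equiv.Perm.sign σ = -1 := by
    rw [Equiv.Perm.sign_of_cycleType, hsum, hcard, pow_add, pow_mul, Odd.neg_one_pow hodd]
    norm_num
  let f : G →* ℤˣ := Equiv.Perm.sign.comp (MulAction.toPermHom G G)
  have hf : Function.Surjective f := by
    intro u
    rcases Int.units_eq_one_or u with rfl | rfl
    · exact ⟨1, map_one f⟩
    · exact ⟨t, hsign⟩
  have h6 : NoIdx2 ℤˣ := h.of_surjective f hf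
  apply h6 ⊥
  rw [Subgroup.index_bot, Nat.card_eq_fintype_card, Fintype.card_units_int]

end Pool.Agent.CGS
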