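import Mathlib

/-!
# The arithmetic of the classification of the rotation groups

PACKAGE (statements frozen; auxiliary lemmas private; the imported files are black boxes, some
of them still contain sorry).

Let `k = Fintype.card O`. As `m > 0` all `size o` and `n o` are positive, `n o ≤ m`, and `size o ≤
m / 2`. From `h3`: `∑ size o = k * m - 2 * m + 2`; as `2 * size o ≤ m` (`n o ≥ 2`) we get `2 * (k
* m - 2 * m + 2) ≤ k * m`, that is `(k - 4) * m + 4 ≤ 0`, so `k ≤ 3`.

* `k = 0`: `2 * (m - 1) = 0`, impossible. `k = 1`: `size o + 2 * (m - 1) = m`, impossible as `size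
  o ≥ 1`, `m ≥ 2`.
* `k = 2`: the two sizes have the sum `2`, so both are `1`.
* `k = 3`: `O = {a, b, c}` and the sizes `x, y, z` satisfy `x + y + z = m + 2`, `x p = y q = z r =
  m` with `p, q, r ≥ 2`. If some size is `≤ 2` we are done. Sort `p ≤ q ≤ r`. If `p ≥ 3` then `x,
  y, z ≤ m / 3` and `x + y + z ≤ m`, a contradiction. So `p = 2`, `x = m / 2`. If `q ≥ 4` then `y,
  z ≤ m / 4`, sum `≤ m`, a contradiction. If `q = 2` then `y = m / 2` and `z = 2`. If `q = 3` then
  `6 (z - 2) = m` (from `y = m / 3`) and `z r = m`, so `6 (z - 2) = z r`, `(6 - r) z = 12`, so `r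
  < 6`; `r = 3, 4, 5` give `z = 4, 6, 12` and `m = 12, 24, 60`. The sorting: treat all orders of
  `a, b, c` (or pick `c` with the greatest `n`).
-/

set_option autoImplicit false

namespace Pool.Agent.CGS

open Finset

private lemma par_core (x y z p q r m : ℕ) (hm : 2 ≤ m) (hx : x * p = m) (hy : y * q = m)
    (hz : z * r = m) (hp : 2 ≤ p) (hpq : p ≤ q) (hqr : q ≤ r) (hs : x + y + z = m + 2) :
    z ≤ 2 ∨ m = 12 ∨ m = 24 ∨ (m = 60 ∧ p = 2 ∧ q = 3 ∧ r = 5) := by
  -- first `p = 2`
  have hp2 : p = 2 := by
    by_contra hne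
    have h3 : 3 ≤ p := by omega
    have a1 : x * 3 ≤ x * p := Nat.mul_le_mul_left _ h3
    have a2 : y * 3 ≤ y * q := Nat.mul_le_mul_left _ (by omega)
    have a3 : z * 3 ≤ z * r := Nat.mul_le_mul_left _ (by omega)
    omega
  subst hp2
  have hq4 : q < 4 := by
    by_contra hne
    have h4 : 4 ≤ q := by omega
    have a2 : y * 4 ≤ y * q := Nat.mul_le_mul_left _ h4
    have a3 : z * 4 ≤ z * r := Nat.mul_le_mul_left _ (by omega)
    omega
  have hq : q = 2 ∨ q = 3 := by omega
  rcases hq with hq | hq
  · subst hq
    left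
    omega
  · subst hq
    have hr : r < 6 := by
      by_contra hne
      have a3 : z * 6 ≤ z * r := Nat.mul_le_mul_left _ (by omega)
      omega
    have hr' : r = 3 ∨ r = 4 ∨ r = 5 := by omega
    rcases hr' with h | h | h
    · subst h
      right; left
      omega
    · subst h
      right; right; left
      omega
    · subst h
      right; right; right
      refine ⟨by omega, rfl, rfl, rfl⟩

theorem orbit_arith {O : Type} [Fintype O] (size n : O → ℕ) (m : ℕ) (hm : 2 ≤ m)
    (h1 : ∀ o, size o * n o = m) (h2 : ∀ o, 2 ≤ n o)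
    (h3 : ∑ o, size o + 2 * (m - 1) = Fintype.card O * m) :
    (∃ o, size o ≤ 2) ∨ m = 12 ∨ m = 24 ∨
      (m = 60 ∧ ∃ a b c : O, (∀ o, o = a ∨ o = b ∨ o = c) ∧ n a = 2 ∧ n b = 3 ∧ n c = 5) := by
  classical
  have hpos : ∀ o, 1 ≤ size o := by
    intro o
    rcases Nat.eq_zero_or_pos (size o) with h | h
    · have := h1 o
      rw [h, Nat.zero_mul] at this
      omega
    · exact h
  have hle : ∀ o, size o * 2 ≤ m := by
    intro o
    calc size o * 2 ≤ size o * n o := Nat.mul_le_mul_left _ (h2 o)
      _ = m := h1 o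
  have hsum : (∑ o, size o) * 2 ≤ Fintype.card O * m := by
    rw [Finset.sum_mul]
    calc ∑ o, size o * 2 ≤ ∑ _o : O, m := Finset.sum_le_sum (fun o _ => hle o)
      _ = Fintype.card O * m := by simp
  have hcard : Fintype.card O < 4 := by
    by_contra hne
    have h4 : 4 ≤ Fintype.card O := by omega
    have : 4 * m ≤ Fintype.card O * m := Nat.mul_le_mul_right _ h4
    omega
  have hcases : Fintype.card O = 0 ∨ Fintype.card O = 1 ∨ Fintype.card O = 2 ∨
      Fintype.card O = 3 := by omega
  rcases hcases with h | h | h | h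
  · rw [h] at h3
    omega
  · have hO : 0 < Fintype.card O := by omega
    obtain ⟨o⟩ := Fintype.card_pos_iff.1 hO
    have hge : size o ≤ ∑ o, size o := Finset.single_le_sum (fun _ _ => Nat.zero_le _)
      (Finset.mem_univ o)
    have := hpos o
    rw [h] at h3
    omega
  · have hO : 0 < Fintype.card O := by omega
    obtain ⟨o⟩ := Fintype.card_pos_iff.1 hO
    have hge : size o ≤ ∑ o, size o := Finset.single_le_sum (fun _ _ => Nat.zero_le _)
      (Finset.mem_univ o)
    rw [h] at h3
    left
    exact ⟨o, by omega⟩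
  · have hu : (Finset.univ : Finset O).card = 3 := by rw [Finset.card_univ, h]
    obtain ⟨a, b, c, hab, hac, hbc, habc⟩ := Finset.card_eq_three.1 hu
    have hall : ∀ o, o = a ∨ o = b ∨ o = c := by
      intro o
      have := Finset.mem_univ o
      rw [habc] at this
      simpa using this
    have hs3 : ∑ o, size o = size a + size b + size c := by
      rw [habc, Finset.sum_insert (by simp [hab, hac]), Finset.sum_insert (by simp [hbc]),
        Finset.sum_singleton]
      ring
    rw [hs3, h] at h3
    have key : ∀ a b c : O, (∀ o, o = a ∨ o = b ∨ o = c) →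
        size a + size b + size c = m + 2 → n a ≤ n b → n b ≤ n c →
        (∃ o, size o ≤ 2) ∨ m = 12 ∨ m = 24 ∨
        (m = 60 ∧ ∃ a b c : O, (∀ o, o = a ∨ o = b ∨ o = c) ∧ n a = 2 ∧ n b = 3 ∧ n c = 5) := by
      intro a b c hall hsum hab hbc
      rcases par_core (size a) (size b) (size c) (n a) (n b) (n c) m hm (h1 a) (h1 b) (h1 c)
        (h2 a) hab hbc hsum with h | h | h | ⟨h, h1', h2', h3'⟩
      · exact Or.inl ⟨c, h⟩
      · exact Or.inr (Or.inl h)
      · exact Or.inr (Or.inr (Or.inl h))
      · exact Or.inr (Or.inr (Or.inr ⟨h, a, b, c, hall, h1', h2', h3'⟩))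
    rcases Nat.le_total (n a) (n b) with h12 | h12 <;>
    rcases Nat.le_total (n b) (n c) with h23 | h23 <;>
    rcases Nat.le_total (n a) (n c) with h13 | h13
    · exact key a b c hall (by omega) h12 h23
    · exact key a b c hall (by omega) h12 h23
    · exact key a c b (fun o => by rcases hall o with h | h | h <;> simp [h]) (by omega) h13 h23
    · exact key c a b (fun o => by rcases hall o with h | h | h <;> simp [h]) (by omega) h13 h12
    · exact key b a c (fun o => by rcases hall o with h | h | h <;> simp [h]) (by omega) h12 h13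
    · exact key b c a (fun o => by rcases hall o with h | h | h <;> simp [h]) (by omega) h23 h13
    · exact key c b a (fun o => by rcases hall o with h | h | h <;> simp [h]) (by omega) h23 h12
    · exact key c b a (fun o => by rcases hall o with h | h | h <;> simp [h]) (by omega) h23 h12

end Pool.Agent.CGS
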