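import Pool.Agent.CGS.Base
import Pool.Agent.CGS.PAr

/-!
# Classification of the groups with an action on poles

PACKAGE (statements frozen; auxiliary lemmas private; the imported files are black boxes, some
of them still contain sorry).

Apply `orbit_arith` with `O = MulAction.orbitRel.Quotient K Ω`, `m = Nat.card K`, `size o =
Nat.card` of the orbit `o`, `n o = Nat.card (MulAction.stabilizer K o.out)` (`Quotient.out`).

* `h1`: orbit-stabilizer (`MulAction.card_orbit_mul_card_stabilizer_eq_card_group`, `Nat.card`
  version or `MulAction.orbitEquivQuotientStabilizer`). `hm`: `K` is nontrivial.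
* `h2`: `pa.pole`: the stabilizer contains some `g ≠ 1`, so its order is at least two.
* `h3`: Burnside's lemma `MulAction.sum_card_fixedBy_eq_card_orbits_mul_card_group`: `fixedBy 1`
  is everything, `fixedBy g = {v, neg v}` has two elements for `g ≠ 1` (`pa.fix`, `pa.neg_ne`);
  and `Nat.card Ω = ∑ o, size o` (`MulAction.selfEquivSigmaOrbits`).
* no orbit has size `≤ 2`: let `x` be in the orbit. If the size is `1` then `g • x = x` for all
  `g`, contradicting `pa.noinv x`. If the size is `2` let the orbit be `{x, y}`, `y ≠ x`; the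
  stabilizer `H` of `x` has index two, so it is normal, and it fixes `y = k • x` too (`h • k • x =
  k • (k⁻¹ h k) • x = k • x`). Take `g ∈ H`, `g ≠ 1` (`pa.pole x`): it fixes `x` and `y`, so `x, y
  ∈ {v, neg v}` (`pa.fix`), and `y = neg x` (`pa.neg_neg`). So `g' • x ∈ {x, neg x}` for all `g'`,
  contradicting `pa.noinv x`.
* in the case `m = 60` take `a.out, b.out, c.out`.
-/

set_option autoImplicit false

namespace Pool.Agent.CGS

open Matrix

/-- an orbit has at least three elements -/
private theorem PAb_orbit {K Ω : Type} [Group K] [MulAction K Ω] [Finite Ω]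
    (pa : PoleAction K Ω) (x : Ω) : 3 ≤ Nat.card (MulAction.orbit K x) := by
  classical
  by_contra hlt
  have hle : Nat.card (MulAction.orbit K x) ≤ 2 := by omega
  have : Fintype Ω := Fintype.ofFinite Ω
  obtain ⟨g, h1, h2⟩ := pa.noinv x
  obtain ⟨h, h3, h4⟩ := pa.pole x
  have h5 : h • g • x = g • x := by
    by_contra h6
    have h7 : h • g • x ≠ x := by
      intro h8
      have h9 : g • x = x := by
        have h10 : h • g • x = h • x := by rw [h8, h4]
        exact smul_left_cancel h h10
      exact h1 h9
    have hsub : ({x, g • x, h • g • x} : Finset Ω) ⊆ (MulAction.orbit K x).toFinset := by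
      intro z hz
      rw [Set.mem_toFinset]
      simp only [Finset.mem_insert, Finset.mem_singleton] at hz
      rcases hz with rfl | rfl | rfl
      · exact MulAction.mem_orbit_self _
      · exact MulAction.mem_orbit _ _
      · rw [smul_smul]
        exact MulAction.mem_orbit _ _
    have hcard := Finset.card_le_card hsub
    rw [Set.toFinset_card, ← Nat.card_eq_fintype_card] at hcard
    have h11 : ({x, g • x, h • g • x} : Finset Ω).card = 3 := by
      rw [Finset.card_eq_three]
      exact ⟨x, g • x, h • g • x, fun e => h1 e.symm, fun e => h7 e.symm, fun e => h6 e.symm,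
        rfl⟩
    omega
  obtain ⟨v, hv⟩ := pa.fix h h3
  have hx := (hv x).1 h4
  have hy := (hv (g • x)).1 h5
  rcases hx with hx | hx
  · rcases hy with hy | hy
    · exact h1 (hy.trans hx.symm)
    · exact h2 (by rw [hy, hx])
  · rcases hy with hy | hy
    · exact h2 (hy.trans ((pa.neg_neg v).symm.trans (congrArg pa.neg hx.symm)))
    · exact h1 (hy.trans hx.symm)

theorem pole_classification {K Ω : Type} [Group K] [Finite K] [Nontrivial K] [MulAction K Ω]
    [Finite Ω] (pa : PoleAction K Ω) :
    Nat.card K = 12 ∨ Nat.card K = 24 ∨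
      (Nat.card K = 60 ∧ ∃ a b c : Ω, Nat.card (MulAction.stabilizer K a) = 2 ∧
        Nat.card (MulAction.stabilizer K b) = 3 ∧ Nat.card (MulAction.stabilizer K c) = 5 ∧
        ∀ x : Ω, x ∈ MulAction.orbit K a ∨ x ∈ MulAction.orbit K b ∨
          x ∈ MulAction.orbit K c) := by
  classical
  have : Fintype K := Fintype.ofFinite K
  have : Fintype Ω := Fintype.ofFinite Ω
  have : Fintype (MulAction.orbitRel.Quotient K Ω) := Fintype.ofFinite _
  have hm : 2 ≤ Nat.card K := Finite.one_lt_card
  have h1 : ∀ o : MulAction.orbitRel.Quotient K Ω, Nat.card (MulAction.orbit K o.out) *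
      Nat.card (MulAction.stabilizer K o.out) = Nat.card K := by
    intro o
    rw [Nat.card_eq_fintype_card, Nat.card_eq_fintype_card, Nat.card_eq_fintype_card]
    exact MulAction.card_orbit_mul_card_stabilizer_eq_card_group K o.out
  have h2 : ∀ o : MulAction.orbitRel.Quotient K Ω,
      2 ≤ Nat.card (MulAction.stabilizer K o.out) := by
    intro o
    obtain ⟨g, hg, hg'⟩ := pa.pole o.out
    have : Nontrivial (MulAction.stabilizer K o.out) :=
      ⟨⟨⟨g, MulAction.mem_stabilizer_iff.2 hg'⟩, 1, fun e => hg (congrArg Subtype.val e)⟩⟩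
    exact Finite.one_lt_card
  have h3 : ∑ o : MulAction.orbitRel.Quotient K Ω, Nat.card (MulAction.orbit K o.out) +
      2 * (Nat.card K - 1) =
      Fintype.card (MulAction.orbitRel.Quotient K Ω) * Nat.card K := by
    have e1 : ∑ g : K, Fintype.card (MulAction.fixedBy Ω g) =
        Fintype.card (MulAction.orbitRel.Quotient K Ω) * Fintype.card K :=
      MulAction.sum_card_fixedBy_eq_card_orbits_mul_card_group K Ω
    have e2 : ∑ o : MulAction.orbitRel.Quotient K Ω, Nat.card (MulAction.orbit K o.out) =
        Fintype.card Ω := by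
      rw [Fintype.card_congr (MulAction.selfEquivSigmaOrbits K Ω), Fintype.card_sigma]
      exact Finset.sum_congr rfl fun o _ => Nat.card_eq_fintype_card
    have e3 : Fintype.card (MulAction.fixedBy Ω (1 : K)) = Fintype.card Ω := by
      refine Fintype.card_congr (Equiv.subtypeUnivEquiv fun x => ?_)
      rw [MulAction.mem_fixedBy, one_smul]
    have e4 : ∀ g ∈ (Finset.univ : Finset K).erase 1,
        Fintype.card (MulAction.fixedBy Ω g) = 2 := by
      intro g hg
      obtain ⟨v, hv⟩ := pa.fix g (Finset.ne_of_mem_erase hg)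
      have e5 : (MulAction.fixedBy Ω g) = ({v, pa.neg v} : Set Ω) := by
        ext x
        rw [MulAction.mem_fixedBy, hv x]
        rfl
      rw [← Nat.card_eq_fintype_card, e5, Nat.card_coe_set_eq]
      exact Set.ncard_pair (pa.neg_ne v).symm
    rw [← Finset.add_sum_erase _ _ (Finset.mem_univ (1 : K)), e3, Finset.sum_congr rfl e4,
      Finset.sum_const, Finset.card_erase_of_mem (Finset.mem_univ _), Finset.card_univ,
      smul_eq_mul] at e1
    rw [e2, Nat.card_eq_fintype_card, ← e1, mul_comm]
  rcases orbit_arith (fun o : MulAction.orbitRel.Quotient K Ω =>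
    Nat.card (MulAction.orbit K o.out)) (fun o => Nat.card (MulAction.stabilizer K o.out))
    (Nat.card K) hm h1 h2 h3 with ⟨o, ho⟩ | h | h | ⟨h, a, b, c, habc, ha, hb, hc⟩
  · have := PAb_orbit pa o.out
    omega
  · exact Or.inl h
  · exact Or.inr (Or.inl h)
  · refine Or.inr (Or.inr ⟨h, a.out, b.out, c.out, ha, hb, hc, fun x => ?_⟩)
    have key : ∀ o : MulAction.orbitRel.Quotient K Ω,
        (Quotient.mk (MulAction.orbitRel K Ω) x : MulAction.orbitRel.Quotient K Ω) = o →
          x ∈ MulAction.orbit K o.out := by
      intro o ho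
      have h4 : Quotient.mk (MulAction.orbitRel K Ω) x =
          Quotient.mk (MulAction.orbitRel K Ω) o.out := ho.trans (Quotient.out_eq o).symm
      exact MulAction.orbitRel_apply.1 (Quotient.exact h4)
    rcases habc (Quotient.mk (MulAction.orbitRel K Ω) x) with ho | ho | ho
    · exact Or.inl (key a ho)
    · exact Or.inr (Or.inl (key b ho))
    · exact Or.inr (Or.inr (key c ho))

end Pool.Agent.CGS
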