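import Pool.Agent.CGS.Base

/-!
# The group of order 60: orders of elements

PACKAGE (statements frozen; auxiliary lemmas private; the imported files are black boxes, some
of them still contain sorry).

All stabilizers of points in the same orbit have the same order (conjugate), so every `x : Ω` has
a stabilizer of order `2`, `3` or `5`; write `p x` for it (a prime). The three orbits are disjoint
(different stabilizer orders) and have `30`, `20`, `12` elements (orbit-stabilizer).

* orders: let `g ≠ 1` and `v` as in `pa.fix g`. `g` lies in the stabilizer of `v`, of prime order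
  `p v`, so `orderOf g = p v` (`Subgroup.orderOf_mk`, `orderOf_dvd_natCard`,
  `Nat.Prime.eq_one_or_self_of_dvd`).
* `stab_eq_order`: if `g ≠ 1` and `g • x = x` then `Nat.card (stabilizer K x) = orderOf g`: same
  argument.
* counting: fix `q ∈ {2, 3, 5}` and count the pairs `(g, x)` with `g ≠ 1`, `g • x = x`, `p x = q`.
  For given `x` with `p x = q` there are `q - 1` such `g`; there are `60 / q` such `x`. For given
  `g ≠ 1` the points with `g • x = x` are the two points `v, neg v`, and `p x = orderOf g` for
  both; so there are two pairs if `orderOf g = q` and none otherwise. So `2 * #{g | orderOf g = q}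
  = (60 / q) * (q - 1)`, which gives `15`, `20`, `24`.
-/

set_option autoImplicit false

namespace Pool.Agent.CGS

open Matrix

variable {K Ω : Type} [Group K] [Finite K] [MulAction K Ω] [Finite Ω]

omit [Finite K] [Finite Ω] in
private theorem card_stab {x y : Ω} (h : x ∈ MulAction.orbit K y) :
    Nat.card (MulAction.stabilizer K x) = Nat.card (MulAction.stabilizer K y) :=
  Nat.card_congr (MulAction.stabilizerEquivStabilizerOfOrbitRel
    (MulAction.orbitRel_apply.2 h)).toEquiv

omit [Finite K] [Finite Ω] in
private theorem order_prime {g : K} {x : Ω} (hg : g ≠ 1) (hx : g • x = x) {p : ℕ} (hp : p.Prime)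
    (h : Nat.card (MulAction.stabilizer K x) = p) : orderOf g = p := by
  have hm : g ∈ MulAction.stabilizer K x := hx
  have h1 : orderOf g ∣ p := by
    rw [← h, ← Subgroup.orderOf_mk g hm]
    exact orderOf_dvd_natCard _
  rcases (Nat.dvd_prime hp).1 h1 with h2 | h2
  · exact absurd (orderOf_eq_one_iff.1 h2) hg
  · exact h2

private theorem count_aux (pa : PoleAction K Ω) {q : ℕ} (hq : q ≠ 1) (a : Ω)
    (ha : Nat.card (MulAction.stabilizer K a) = q)
    (hor : ∀ x : Ω, Nat.card (MulAction.stabilizer K x) = q → x ∈ MulAction.orbit K a)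
    (ho : ∀ (g : K) (x : Ω), g ≠ 1 → g • x = x →
      Nat.card (MulAction.stabilizer K x) = orderOf g) :
    2 * Nat.card {g : K // orderOf g = q} = (MulAction.orbit K a).ncard * (q - 1) := by
  classical
  have : Fintype K := Fintype.ofFinite K
  have : Fintype Ω := Fintype.ofFinite Ω
  let s : Finset K := Finset.univ.filter fun g => g ≠ 1
  let t : Finset Ω := Finset.univ.filter fun x => Nat.card (MulAction.stabilizer K x) = q
  have key := Finset.sum_card_bipartiteAbove_eq_sum_card_bipartiteBelow (s := s) (t := t)
    (fun (g : K) (x : Ω) => g • x = x)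
  have h1 : ∀ x ∈ t, (s.bipartiteBelow (fun (g : K) (x : Ω) => g • x = x) x).card = q - 1 := by
    intro x hx
    have hx' : Nat.card (MulAction.stabilizer K x) = q := (Finset.mem_filter.1 hx).2
    have e1 : s.bipartiteBelow (fun (g : K) (x : Ω) => g • x = x) x =
        (Finset.univ.filter fun g : K => g • x = x).erase 1 := by
      ext g
      simp only [s, Finset.bipartiteBelow, Finset.mem_filter, Finset.mem_univ, true_and,
        Finset.mem_erase]
    have e2 : (Finset.univ.filter fun g : K => g • x = x).card = q := by
      rw [← hx', ← Fintype.card_subtype, ← Nat.card_eq_fintype_card]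
      rfl
    rw [e1, Finset.card_erase_of_mem (by simp), e2]
  have h2 : ∀ g ∈ s, (t.bipartiteAbove (fun (g : K) (x : Ω) => g • x = x) g).card =
      if orderOf g = q then 2 else 0 := by
    intro g hg
    have hg' : g ≠ 1 := (Finset.mem_filter.1 hg).2
    obtain ⟨v, hv⟩ := pa.fix g hg'
    split_ifs with h3
    · have e1 : t.bipartiteAbove (fun (g : K) (x : Ω) => g • x = x) g = {v, pa.neg v} := by
        ext x
        simp only [t, Finset.bipartiteAbove, Finset.mem_filter, Finset.mem_univ, true_and,
          Finset.mem_insert, Finset.mem_singleton]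
        rw [← hv x]
        constructor
        · exact fun h => h.2
        · exact fun h => ⟨(ho g x hg' h).trans h3, h⟩
      rw [e1, Finset.card_pair (pa.neg_ne v).symm]
    · rw [Finset.card_eq_zero, Finset.eq_empty_iff_forall_notMem]
      intro x hx
      simp only [t, Finset.bipartiteAbove, Finset.mem_filter, Finset.mem_univ, true_and] at hx
      exact h3 ((ho g x hg' hx.2).symm.trans hx.1)
  rw [Finset.sum_congr rfl h2, Finset.sum_congr rfl h1, Finset.sum_const, smul_eq_mul,
    Finset.sum_ite, Finset.sum_const, Finset.sum_const_zero, add_zero, smul_eq_mul] at key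
  have h4 : (s.filter fun g => orderOf g = q).card = Nat.card {g : K // orderOf g = q} := by
    rw [Nat.card_eq_fintype_card, Fintype.card_subtype]
    congr 1
    ext g
    simp only [s, Finset.mem_filter, Finset.mem_univ, true_and]
    constructor
    · exact fun h => h.2
    · intro h
      refine ⟨?_, h⟩
      rintro rfl
      exact hq (h.symm.trans orderOf_one)
  have h5 : t.card = (MulAction.orbit K a).ncard := by
    rw [← Set.ncard_coe_finset]
    congr 1
    ext x
    simp only [t, Finset.coe_filter, Finset.mem_univ, true_and, Set.mem_ofPred_eq]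
    exact ⟨fun h => hor x h, fun h => (card_stab h).trans ha⟩
  rw [h4, h5] at key
  rw [← key, mul_comm]

theorem order_of_60 (pa : PoleAction K Ω) (a b c : Ω)
    (ha : Nat.card (MulAction.stabilizer K a) = 2) (hb : Nat.card (MulAction.stabilizer K b) = 3)
    (hc : Nat.card (MulAction.stabilizer K c) = 5)
    (hall : ∀ x : Ω, x ∈ MulAction.orbit K a ∨ x ∈ MulAction.orbit K b ∨
      x ∈ MulAction.orbit K c) :
    (∀ g : K, g ≠ 1 → orderOf g = 2 ∨ orderOf g = 3 ∨ orderOf g = 5) ∧
      ∀ (g : K) (x : Ω), g ≠ 1 → g • x = x → Nat.card (MulAction.stabilizer K x) = orderOf g := by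
  have hx : ∀ x : Ω, Nat.card (MulAction.stabilizer K x) = 2 ∨
      Nat.card (MulAction.stabilizer K x) = 3 ∨ Nat.card (MulAction.stabilizer K x) = 5 := by
    intro x
    rcases hall x with h | h | h
    · exact Or.inl ((card_stab h).trans ha)
    · exact Or.inr (Or.inl ((card_stab h).trans hb))
    · exact Or.inr (Or.inr ((card_stab h).trans hc))
  have key : ∀ (g : K) (x : Ω), g ≠ 1 → g • x = x →
      Nat.card (MulAction.stabilizer K x) = orderOf g := by
    intro g x hg hgx
    rcases hx x with h | h | h
    · rw [h, order_prime hg hgx Nat.prime_two h]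
    · rw [h, order_prime hg hgx Nat.prime_three h]
    · rw [h, order_prime hg hgx Nat.prime_five h]
  refine ⟨fun g hg => ?_, key⟩
  obtain ⟨v, hv⟩ := pa.fix g hg
  rw [← key g v hg ((hv v).2 (Or.inl rfl))]
  exact hx v

theorem count_of_60 (pa : PoleAction K Ω) (h60 : Nat.card K = 60) (a b c : Ω)
    (ha : Nat.card (MulAction.stabilizer K a) = 2) (hb : Nat.card (MulAction.stabilizer K b) = 3)
    (hc : Nat.card (MulAction.stabilizer K c) = 5)
    (hall : ∀ x : Ω, x ∈ MulAction.orbit K a ∨ x ∈ MulAction.orbit K b ∨
      x ∈ MulAction.orbit K c) :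
    Nat.card {g : K // orderOf g = 2} = 15 ∧ Nat.card {g : K // orderOf g = 3} = 20 ∧
      Nat.card {g : K // orderOf g = 5} = 24 := by
  obtain ⟨-, ho⟩ := order_of_60 pa a b c ha hb hc hall
  have hn : ∀ x : Ω, Nat.card (MulAction.stabilizer K x) * (MulAction.orbit K x).ncard = 60 := by
    intro x
    rw [← MulAction.index_stabilizer, Subgroup.card_mul_index, h60]
  have na := hn a
  have nb := hn b
  have nc := hn c
  rw [ha] at na
  rw [hb] at nb
  rw [hc] at nc
  have c2 := count_aux pa (by norm_num) a ha (fun x hx => by
    rcases hall x with h | h | h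
    · exact h
    · rw [card_stab h, hb] at hx
      omega
    · rw [card_stab h, hc] at hx
      omega) ho
  have c3 := count_aux pa (by norm_num) b hb (fun x hx => by
    rcases hall x with h | h | h
    · rw [card_stab h, ha] at hx
      omega
    · exact h
    · rw [card_stab h, hc] at hx
      omega) ho
  have c5 := count_aux pa (by norm_num) c hc (fun x hx => by
    rcases hall x with h | h | h
    · rw [card_stab h, ha] at hx
      omega
    · rw [card_stab h, hb] at hx
      omega
    · exact h) ho
  refine ⟨?_, ?_, ?_⟩ <;> omega

end Pool.Agent.CGS
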