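import Pool.Agent.CGS.Base

/-!
# The group of order 60: centralizers

PACKAGE (statements frozen; auxiliary lemmas private; the imported files are black boxes, some
of them still contain sorry).

Let `v` be as in `pa.fix g`; `S = MulAction.stabilizer K v` has the order `p = orderOf g` (`hst`),
so `S` is generated by `g` and `S ≤ C` where `C = Subgroup.centralizer {g}`. For `h ∈ C` we have
`g • (h • v) = h • (g • v) = h • v`, so `h • v = v` or `h • v = neg v` (`pa.fix`). If all `h ∈ C`
fix `v` then `C = S`, of order `p`. Otherwise choose `h₀ ∈ C` with `h₀ • v = neg v`; for `h ∈ C`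
with `h • v = neg v` the element `h₀⁻¹ * h` fixes `v` (`h₀⁻¹ • neg v = neg (h₀⁻¹ • v)`, and `h₀ •
v = neg v` gives `h₀⁻¹ • neg v = v`), so `h ∈ h₀ S`; so `C = S ∪ h₀ S` has order at most `2 * p`.
This gives the claim for `p = 2`. For `p = 3, 5` this is impossible: `h₀ ≠ 1` has order `2`, `3`
or `5`. `h₀ ^ 2` fixes `v` (`pa.smul_neg`, `pa.neg_neg`). If the order of `h₀` is odd then `h₀` is
a power of `h₀ ^ 2` and fixes `v`, but `neg v ≠ v`. If the order is `2` then `g * h₀` has order `2
* p ∈ {6, 10}` (`Commute.orderOf_mul_eq_mul_orderOf_of_coprime`), it is not `1`, a contradiction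
to `hord`.
-/

set_option autoImplicit false

namespace Pool.Agent.CGS

open Matrix

private theorem cases_c {K Ω : Type} [Group K] [Finite K] [MulAction K Ω] [Finite Ω]
    (pa : PoleAction K Ω)
    (hst : ∀ (g : K) (x : Ω), g ≠ 1 → g • x = x →
      Nat.card (MulAction.stabilizer K x) = orderOf g) {g : K} (hg : g ≠ 1) :
    Nat.card (Subgroup.centralizer {g}) = orderOf g ∨
      (Nat.card (Subgroup.centralizer {g}) ≤ 2 * orderOf g ∧
        ∃ (h : K) (v : Ω), h * g = g * h ∧ h • v = pa.neg v) := by
  classical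
  obtain ⟨v, hv⟩ := pa.fix g hg
  have hgv : g • v = v := (hv v).2 (Or.inl rfl)
  have hS : Nat.card (MulAction.stabilizer K v) = orderOf g := hst g v hg hgv
  have hC : ∀ h : K, h ∈ Subgroup.centralizer {g} ↔ h * g = g * h := by
    intro h
    rw [Subgroup.mem_centralizer_singleton_iff]
  have hmv : ∀ h : K, h * g = g * h → h • v = v ∨ h • v = pa.neg v := by
    intro h hh
    rw [← hv, ← mul_smul, ← hh, mul_smul, hgv]
  by_cases hall : ∀ h : K, h * g = g * h → h • v = v
  · left
    apply le_antisymm
    · rw [← hS]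
      refine Subgroup.card_le_of_le ?_
      intro h hh
      rw [MulAction.mem_stabilizer_iff]
      exact hall h ((hC h).1 hh)
    · rw [← Nat.card_zpowers]
      refine Subgroup.card_le_of_le ?_
      rw [Subgroup.zpowers_le, hC]
  · right
    push Not at hall
    obtain ⟨h0, hh0, hn⟩ := hall
    have hnv : h0 • v = pa.neg v := (hmv h0 hh0).resolve_left hn
    refine ⟨?_, h0, v, hh0, hnv⟩
    have hsub : ((Subgroup.centralizer {g} : Subgroup K) : Set K) ⊆
        (MulAction.stabilizer K v : Set K) ∪
          (fun x => h0 * x) '' (MulAction.stabilizer K v : Set K) := by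
      intro h hh
      have hh' := (hC h).1 hh
      rcases hmv h hh' with h1 | h1
      · left
        exact h1
      · right
        refine ⟨h0⁻¹ * h, ?_, by group⟩
        change (h0⁻¹ * h) • v = v
        rw [mul_smul, h1, inv_smul_eq_iff, hnv]
    have e1 : Nat.card (Subgroup.centralizer {g}) =
        ((Subgroup.centralizer {g} : Subgroup K) : Set K).ncard := rfl
    have e2 : (MulAction.stabilizer K v : Set K).ncard = orderOf g := hS
    rw [e1]
    refine (Set.ncard_le_ncard hsub (Set.toFinite _)).trans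
      ((Set.ncard_union_le _ _).trans ?_)
    have e3 := Set.ncard_image_le (f := fun x => h0 * x)
      (Set.toFinite (MulAction.stabilizer K v : Set K))
    rw [e2] at e3 ⊢
    omega

private theorem no_swap {K Ω : Type} [Group K] [Finite K] [MulAction K Ω] [Finite Ω]
    (pa : PoleAction K Ω)
    (hord : ∀ g : K, g ≠ 1 → orderOf g = 2 ∨ orderOf g = 3 ∨ orderOf g = 5) {g h : K} {v : Ω}
    (hg : orderOf g = 3 ∨ orderOf g = 5) (hh : h * g = g * h) (hv : h • v = pa.neg v) :
    False := by
  have h1 : h ≠ 1 := by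
    rintro rfl
    rw [one_smul] at hv
    exact pa.neg_ne v hv.symm
  have h2 : (h ^ 2) • v = v := by
    rw [pow_two, mul_smul, hv, pa.smul_neg, hv, pa.neg_neg]
  have h4 : (h ^ 4) • v = v := by
    have e : h ^ 4 = h ^ 2 * h ^ 2 := by rw [← pow_add]
    rw [e, mul_smul, h2, h2]
  have h6 : (h ^ 6) • v = v := by
    have e : h ^ 6 = h ^ 2 * h ^ 4 := by rw [← pow_add]
    rw [e, mul_smul, h4, h2]
  rcases hord h h1 with h3 | h3 | h3
  · have hc : Commute g h := hh.symm
    have h5 : orderOf (g * h) = orderOf g * orderOf h := by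
      refine hc.orderOf_mul_eq_mul_orderOf_of_coprime ?_
      rw [h3]
      rcases hg with hg | hg <;> rw [hg] <;> decide
    have h7 : g * h ≠ 1 := by
      intro h8
      rw [h8, orderOf_one, h3] at h5
      omega
    have h8 := hord _ h7
    rw [h5, h3] at h8
    omega
  · have e : h ^ 4 = h := by
      have : h ^ 3 = 1 := by rw [← h3]; exact pow_orderOf_eq_one h
      rw [pow_succ, this, one_mul]
    rw [e, hv] at h4
    exact pa.neg_ne v h4
  · have e : h ^ 6 = h := by
      have : h ^ 5 = 1 := by rw [← h3]; exact pow_orderOf_eq_one h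
      rw [pow_succ, this, one_mul]
    rw [e, hv] at h6
    exact pa.neg_ne v h6

theorem centralizer_of_60 {K Ω : Type} [Group K] [Finite K] [MulAction K Ω] [Finite Ω]
    (pa : PoleAction K Ω)
    (hord : ∀ g : K, g ≠ 1 → orderOf g = 2 ∨ orderOf g = 3 ∨ orderOf g = 5)
    (hst : ∀ (g : K) (x : Ω), g ≠ 1 → g • x = x →
      Nat.card (MulAction.stabilizer K x) = orderOf g) (g : K) :
    (orderOf g = 2 → Nat.card (Subgroup.centralizer {g}) ≤ 4) ∧
      (orderOf g = 3 → Nat.card (Subgroup.centralizer {g}) = 3) ∧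
      (orderOf g = 5 → Nat.card (Subgroup.centralizer {g}) = 5) := by
  have hne : ∀ n, 1 < n → orderOf g = n → g ≠ 1 := by
    intro n hn h1 h2
    rw [h2, orderOf_one] at h1
    omega
  refine ⟨fun h => ?_, fun h => ?_, fun h => ?_⟩
  · rcases cases_c pa hst (hne 2 (by norm_num) h) with h1 | ⟨h1, -⟩
    · rw [h1, h]
      norm_num
    · rw [h] at h1
      exact h1
  · rcases cases_c pa hst (hne 3 (by norm_num) h) with h1 | ⟨-, x, v, hx, hv⟩
    · rw [h1, h]
    · exact (no_swap pa hord (Or.inl h) hx hv).elim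
  · rcases cases_c pa hst (hne 5 (by norm_num) h) with h1 | ⟨-, x, v, hx, hv⟩
    · rw [h1, h]
    · exact (no_swap pa hord (Or.inr h) hx hv).elim

end Pool.Agent.CGS
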