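import Mathlib

/-!
# The group of order 60: five conjugacy classes

PACKAGE (statements frozen; auxiliary lemmas private; the imported files are black boxes, some
of them still contain sorry).

For `g : K` the number of conjugates of `g` is `60 / Nat.card (centralizer {g})`
(`Subgroup.nat_card_centralizer_nat_card_stabilizer`, the conjugation action `ConjAct`,
orbit-stabilizer; or `ConjClasses` lemmas).

* `card_conjClasses_of_60`: the number of commuting pairs is `(number of classes) * 60`
  (`card_comm_eq_card_conjClasses_mul_card`), and it is `∑ g, Nat.card (centralizer {g})`. The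
  element `1` contributes `60`, the `20` elements of order three contribute `3` each, the `24`
  elements of order five contribute `5` each. For `t` of order two all conjugates of `t` have
  order two, so `60 / c ≤ 15` with `c = Nat.card (centralizer {t}) ≤ 4`, `c ∣ 60`, `c > 0`; so `c
  = 4`; they contribute `15 * 4 = 60`. The total is `60 + 60 + 60 + 120 = 300 = 5 * 60`.
* `card_normal_of_60`: take `g ∈ M`, `g ≠ 1`. All conjugates of `g` are in `M`, their number is
  `60 / c` with `c = Nat.card (centralizer {g}) ≤ 5`, so at least `12`.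
-/

set_option autoImplicit false

namespace Pool.Agent.CGS

open Finset

variable {K : Type} [Group K] [Finite K]

private lemma orb (g : K) :
    Nat.card {h : K // IsConj g h} * Nat.card (Subgroup.centralizer {g}) = Nat.card K := by
  classical
  have : Fintype K := Fintype.ofFinite K
  have h := MulAction.card_orbit_mul_card_stabilizer_eq_card_group (ConjAct K) g
  rw [Subgroup.nat_card_centralizer_nat_card_stabilizer, Nat.card_eq_fintype_card,
    Nat.card_eq_fintype_card, Nat.card_eq_fintype_card]
  rw [ConjAct.card] at h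
  rw [← h]
  congr 1
  refine Fintype.card_congr (Equiv.subtypeEquivRight fun x => ?_)
  rw [ConjAct.mem_orbit_conjAct]
  exact isConj_comm

private lemma count [Fintype K] :
    ∑ g : K, Nat.card (Subgroup.centralizer {g}) = Nat.card (ConjClasses K) * Nat.card K := by
  classical
  rw [← card_comm_eq_card_conjClasses_mul_card, Nat.card_congr
    (Equiv.subtypeProdEquivSigmaSubtype (fun a b : K => Commute a b)), Nat.card_sigma]
  refine Finset.sum_congr rfl fun g _ => ?_
  refine Nat.card_congr (Equiv.subtypeEquivRight fun x => ?_)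
  rw [Subgroup.mem_centralizer_singleton_iff]
  exact eq_comm

omit [Finite K] in
private lemma sum_ord [Fintype K] (n c m : ℕ) (h : Nat.card {g : K // orderOf g = n} = m) :
    ∑ g : K, (if orderOf g = n then c else 0) = m * c := by
  classical
  rw [← Finset.sum_filter, Finset.sum_const, smul_eq_mul, ← h, Nat.card_eq_fintype_card,
    Fintype.card_subtype]

omit [Finite K] in
private lemma orderOf_eq_of_isConj {g h : K} (e : IsConj g h) : orderOf h = orderOf g := by
  obtain ⟨c, hc⟩ := isConj_iff.1 e
  rw [← hc]
  exact orderOf_injective (MulAut.conj c).toMonoidHom (MulAut.conj c).injective g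

theorem card_conjClasses_of_60 (h60 : Nat.card K = 60)
    (hord : ∀ g : K, g ≠ 1 → orderOf g = 2 ∨ orderOf g = 3 ∨ orderOf g = 5)
    (h2 : Nat.card {g : K // orderOf g = 2} = 15) (h3 : Nat.card {g : K // orderOf g = 3} = 20)
    (h5 : Nat.card {g : K // orderOf g = 5} = 24)
    (hc2 : ∀ g : K, orderOf g = 2 → Nat.card (Subgroup.centralizer {g}) ≤ 4)
    (hc3 : ∀ g : K, orderOf g = 3 → Nat.card (Subgroup.centralizer {g}) = 3)
    (hc5 : ∀ g : K, orderOf g = 5 → Nat.card (Subgroup.centralizer {g}) = 5) :
    Nat.card (ConjClasses K) = 5 := by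
  classical
  have : Fintype K := Fintype.ofFinite K
  have hc4 : ∀ g : K, orderOf g = 2 → Nat.card (Subgroup.centralizer {g}) = 4 := by
    intro g hg
    have h := orb g
    rw [h60] at h
    have hle : Nat.card {h : K // IsConj g h} ≤ 15 := by
      rw [← h2]
      exact Nat.card_le_card_of_injective
        (fun x : {h : K // IsConj g h} => (⟨x.1, (orderOf_eq_of_isConj x.2).trans hg⟩ :
          {g : K // orderOf g = 2}))
        (fun x y e => Subtype.ext (congrArg (fun z : {g : K // orderOf g = 2} => z.1) e))
    have h4 := hc2 g hg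
    by_contra hne
    have hlt : Nat.card (Subgroup.centralizer {g}) ≤ 3 := by omega
    have := Nat.mul_le_mul hle hlt
    omega
  have hf : ∀ g : K, Nat.card (Subgroup.centralizer {g}) =
      (if orderOf g = 1 then 60 else 0) + (if orderOf g = 2 then 4 else 0) +
        (if orderOf g = 3 then 3 else 0) + (if orderOf g = 5 then 5 else 0) := by
    intro g
    by_cases hg : g = 1
    · subst hg
      rw [orderOf_one]
      have h := orb (1 : K)
      have h1 : Nat.card {h : K // IsConj 1 h} = 1 := by
        rw [Nat.card_eq_one_iff_unique]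
        refine ⟨⟨fun x y => Subtype.ext ?_⟩, ⟨⟨1, IsConj.refl 1⟩⟩⟩
        rw [isConj_one_right.1 x.2, isConj_one_right.1 y.2]
      rw [h1, one_mul] at h
      rw [h, h60]
      norm_num
    · rcases hord g hg with h | h | h
      · rw [hc4 g h, h]
        norm_num
      · rw [hc3 g h, h]
        norm_num
      · rw [hc5 g h, h]
        norm_num
  have h1 : Nat.card {g : K // orderOf g = 1} = 1 := by
    rw [Nat.card_eq_one_iff_unique]
    refine ⟨⟨fun x y => Subtype.ext ?_⟩, ⟨⟨1, orderOf_one⟩⟩⟩
    rw [orderOf_eq_one_iff.1 x.2, orderOf_eq_one_iff.1 y.2]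
  have hs := count (K := K)
  rw [Finset.sum_congr rfl fun g _ => hf g, Finset.sum_add_distrib, Finset.sum_add_distrib,
    Finset.sum_add_distrib, sum_ord 1 60 1 h1, sum_ord 2 4 15 h2, sum_ord 3 3 20 h3,
    sum_ord 5 5 24 h5, h60] at hs
  omega

theorem card_normal_of_60 (h60 : Nat.card K = 60)
    (hord : ∀ g : K, g ≠ 1 → orderOf g = 2 ∨ orderOf g = 3 ∨ orderOf g = 5)
    (hc2 : ∀ g : K, orderOf g = 2 → Nat.card (Subgroup.centralizer {g}) ≤ 4)
    (hc3 : ∀ g : K, orderOf g = 3 → Nat.card (Subgroup.centralizer {g}) = 3)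
    (hc5 : ∀ g : K, orderOf g = 5 → Nat.card (Subgroup.centralizer {g}) = 5)
    (M : Subgroup K) (hM : M.Normal) (hne : M ≠ ⊥) : 7 ≤ Nat.card M := by
  classical
  obtain ⟨x, hx⟩ := Subgroup.ne_bot_iff_exists_ne_one.1 hne
  obtain ⟨g, hgM, hg⟩ : ∃ g : K, g ∈ M ∧ g ≠ 1 := ⟨x.1, x.2, fun e => hx (Subtype.ext e)⟩
  have hc : Nat.card (Subgroup.centralizer {g}) ≤ 5 := by
    rcases hord g hg with h | h | h
    · exact (hc2 g h).trans (by norm_num)
    · rw [hc3 g h]
      norm_num
    · rw [hc5 g h]
  have h := orb g
  rw [h60] at h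
  have hle : Nat.card {h : K // IsConj g h} ≤ Nat.card M := by
    refine Nat.card_le_card_of_injective
      (fun x : {h : K // IsConj g h} => (⟨x.1, ?_⟩ : M))
      (fun x y e => Subtype.ext (congrArg (fun z : M => z.1) e))
    obtain ⟨c, hc⟩ := isConj_iff.1 x.2
    rw [← hc]
    exact hM.conj_mem g hgM c
  by_contra hlt
  have h6 : Nat.card {h : K // IsConj g h} ≤ 6 := by omega
  have := Nat.mul_le_mul h6 hc
  omega

end Pool.Agent.CGS
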