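import Pool.Agent.CGS.Base

/-!
# Linear characters

PACKAGE (statements frozen; auxiliary lemmas private; the imported files are black boxes, some
of them still contain sorry).

* `card_hom`: `(G →* ℂˣ) ≃ (Abelianization G →* ℂˣ)` (`Abelianization.lift`), and for the finite
  commutative group `Abelianization G` the number of homomorphisms into `ℂˣ` is its order
  (`CommGroup.card_monoidHom_of_hasEnoughRootsOfUnity`, file
  `Mathlib/GroupTheory/FiniteAbelian/Duality.lean`; `ℂ` has enough roots of unity); `Nat.card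
  (Abelianization G) = (commutator G).index` by definition of the index.
* `N_one`: a `ρ : Rep G 1` is determined by its determinant (or its entry), a homomorphism `G →*
  ℂˣ`; every `ρ : Rep G 1` is irreducible (`1 = mat ρ 1` spans the `1 × 1` matrices); similar
  representations of degree one are equal (1 × 1 matrices commute). So `Cls G 1 ≃ (G →* ℂˣ)`.
-/

set_option autoImplicit false

namespace Pool.Agent.CGS

open Matrix

private theorem irr_one {G : Type} [Group G] (ρ : Rep G 1) : IsIrr ρ := by
  refine ⟨Nat.one_pos, ?_⟩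
  rw [eq_top_iff]
  intro A _
  have h : A = A 0 0 • mat ρ 1 := by
    rw [mat_one]
    ext i j
    rw [Subsingleton.elim i 0, Subsingleton.elim j 0]
    simp
  rw [h]
  exact Submodule.smul_mem _ _ (Submodule.subset_span ⟨1, rfl⟩)

private theorem entry_one {G : Type} [Group G] (ρ : Rep G 1) (g : G) :
    mat ρ g 0 0 = ((Matrix.GeneralLinearGroup.det (ρ g) : ℂˣ) : ℂ) := by
  rw [Matrix.GeneralLinearGroup.val_det_apply, Matrix.det_fin_one]
  rfl

private theorem det_sim {G : Type} [Group G] {ρ σ : Rep G 1} (h : Sim ρ σ) :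
    Matrix.GeneralLinearGroup.det.comp ρ = Matrix.GeneralLinearGroup.det.comp σ := by
  obtain ⟨P, hP⟩ := h
  refine MonoidHom.ext fun g => Units.ext ?_
  have h1 := congrArg Matrix.det (hP g)
  rw [Matrix.det_mul, Matrix.det_mul, mul_comm] at h1
  exact mul_right_cancel₀ ((Matrix.isUnit_iff_isUnit_det _).1 P.isUnit).ne_zero h1

private theorem sim_det {G : Type} [Group G] {ρ σ : Rep G 1}
    (h : Matrix.GeneralLinearGroup.det.comp ρ = Matrix.GeneralLinearGroup.det.comp σ) :
    ρ = σ := by
  refine rep_ext fun g => ?_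
  ext i j
  rw [Subsingleton.elim i 0, Subsingleton.elim j 0, entry_one, entry_one]
  exact congrArg Units.val (DFunLike.congr_fun h g)

theorem card_hom (G : Type) [Group G] [Finite G] :
    Nat.card (G →* ℂˣ) = (commutator G).index := by
  have h1 : Nat.card (Abelianization G →* ℂˣ) = Nat.card (Abelianization G) :=
    CommGroup.card_monoidHom_of_hasEnoughRootsOfUnity (Abelianization G) ℂ
  rw [Nat.card_congr (Abelianization.lift (G := G) (A := ℂˣ)), h1]
  rfl

theorem N_one (G : Type) [Group G] [Finite G] : N G 1 = (commutator G).index := by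
  rw [← card_hom]
  unfold N
  let F : Cls G 1 → (G →* ℂˣ) :=
    Quotient.lift (s := irrSetoid G 1) (fun ρ => Matrix.GeneralLinearGroup.det.comp ρ.1)
      (fun _ _ h => det_sim h)
  have hF : ∀ ρ h, F (mk ρ h) = Matrix.GeneralLinearGroup.det.comp ρ := fun ρ h => rfl
  refine Nat.card_congr (Equiv.ofBijective F ⟨fun c => ?_, fun χ => ?_⟩)
  · refine cls_ind (q := fun c => ∀ ⦃c' : Cls G 1⦄, F c = F c' → c = c') (fun ρ hρ c' => ?_) c
    refine cls_ind (q := fun c' => F (mk ρ hρ) = F c' → mk ρ hρ = c') (fun σ hσ h => ?_) c'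
    rw [hF, hF] at h
    rw [mk_eq, sim_det h]
    exact Sim.refl _
  · let f : G →* Matrix (Fin 1) (Fin 1) ℂ :=
      ((Matrix.scalar (Fin 1) : ℂ →+* Matrix (Fin 1) (Fin 1) ℂ) :
        ℂ →* Matrix (Fin 1) (Fin 1) ℂ).comp
        ((Units.coeHom ℂ).comp χ)
    refine ⟨mk (ofMat f) (irr_one _), ?_⟩
    rw [hF]
    refine MonoidHom.ext fun g => Units.ext ?_
    have h1 := entry_one (ofMat f) g
    rw [mat_ofMat] at h1
    change ((Matrix.GeneralLinearGroup.det (ofMat f g) : ℂˣ) : ℂ) = _
    rw [← h1]
    simp [f]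

end Pool.Agent.CGS
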