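import Pool.Agent.CGS.Deg
import Pool.Agent.CGS.Lin

/-!
# A group of order 60 with five classes and an irreducible representation of degree three

PACKAGE (statements frozen; auxiliary lemmas private; the imported files are black boxes, some
of them still contain sorry).

Take `n, δ` from `exists_degrees`; `n = 5` (`subst` or `obtain rfl`), `∑ i : Fin 5, δ i ^ 2 = 60`,
all `δ i > 0`, some `δ i = 1` (`N K 1 = (commutator K).index ≠ 0` by `N_one`), some `δ j = 3`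
(`h3`). `N K 3 = Nat.card {i // δ i = 3}`. Pure arithmetic: the other three numbers `a, b, c ≥ 1`
satisfy `a ^ 2 + b ^ 2 + c ^ 2 = 50`, so all are `≤ 6` and they are `3, 4, 5` in some order
(finite check, `interval_cases` or `decide` on bounded numbers); so exactly two of the five
numbers are `3`.
-/

set_option autoImplicit false

namespace Pool.Agent.CGS

open Matrix

private def Ar (a b c d e : ℕ) : Prop :=
    a ^ 2 + b ^ 2 + c ^ 2 + d ^ 2 + e ^ 2 = 60 →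
    (0 < a ∧ 0 < b ∧ 0 < c ∧ 0 < d ∧ 0 < e) →
    (a = 1 ∨ b = 1 ∨ c = 1 ∨ d = 1 ∨ e = 1) → (a = 3 ∨ b = 3 ∨ c = 3 ∨ d = 3 ∨ e = 3) →
    (if a = 3 then 1 else 0) + (if b = 3 then 1 else 0) + (if c = 3 then 1 else 0) +
      (if d = 3 then 1 else 0) + (if e = 3 then 1 else 0) = 2

private instance (a b c d e : ℕ) : Decidable (Ar a b c d e) := by
  unfold Ar
  infer_instance

private theorem arith60' : ∀ a b c d e : Fin 8, Ar a b c d e := by
  decide +kernel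

private theorem arith60 (a : ℕ) (ha : a < 8) (b : ℕ) (hb : b < 8) (c : ℕ) (hc : c < 8) (d : ℕ)
    (hd : d < 8) (e : ℕ) (he : e < 8) : Ar a b c d e :=
  arith60' ⟨a, ha⟩ ⟨b, hb⟩ ⟨c, hc⟩ ⟨d, hd⟩ ⟨e, he⟩

theorem N_three_of_card_60 {K : Type} [Group K] [Finite K] (h60 : Nat.card K = 60)
    (h5 : Nat.card (ConjClasses K) = 5) (h3 : 0 < N K 3) : N K 3 = 2 := by
  classical
  obtain ⟨n, δ, hδ, hsum, hn, -, h⟩ := exists_degrees K
  have hn5 : n = 5 := by rw [hn, h5]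
  subst hn5
  obtain ⟨e3⟩ := h 3 (by norm_num)
  obtain ⟨e1⟩ := h 1 (by norm_num)
  have h8 : ∀ i, δ i < 8 := by
    intro i
    have h2 : δ i ^ 2 ≤ ∑ i, δ i ^ 2 :=
      Finset.single_le_sum (f := fun i => δ i ^ 2) (fun _ _ => Nat.zero_le _) (Finset.mem_univ i)
    rw [hsum, h60] at h2
    by_contra hcon
    push Not at hcon
    have h3 : 8 ^ 2 ≤ δ i ^ 2 := Nat.pow_le_pow_left hcon 2
    omega
  have hN1 : N K 1 ≠ 0 := by
    rw [N_one]
    exact Subgroup.index_ne_zero_of_finite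
  have hone : ∃ i, δ i = 1 := by
    have h1 : Nonempty (Cls K 1) := (Nat.card_ne_zero.1 hN1).1
    obtain ⟨i, hi⟩ := e1 h1.some
    exact ⟨i, hi⟩
  have hthree : ∃ i, δ i = 3 := by
    have h1 : Nonempty (Cls K 3) := (Nat.card_ne_zero.1 h3.ne').1
    obtain ⟨i, hi⟩ := e3 h1.some
    exact ⟨i, hi⟩
  rw [h60, Fin.sum_univ_five] at hsum
  have hone' : δ 0 = 1 ∨ δ 1 = 1 ∨ δ 2 = 1 ∨ δ 3 = 1 ∨ δ 4 = 1 := by
    obtain ⟨i, hi⟩ := hone
    fin_cases i <;> simp_all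
  have hthree' : δ 0 = 3 ∨ δ 1 = 3 ∨ δ 2 = 3 ∨ δ 3 = 3 ∨ δ 4 = 3 := by
    obtain ⟨i, hi⟩ := hthree
    fin_cases i <;> simp_all
  have key := arith60 (δ 0) (h8 0) (δ 1) (h8 1) (δ 2) (h8 2) (δ 3) (h8 3) (δ 4) (h8 4) hsum
    ⟨hδ 0, hδ 1, hδ 2, hδ 3, hδ 4⟩ hone' hthree'
  unfold N
  rw [Nat.card_congr e3, Nat.card_eq_fintype_card, Fintype.card_subtype, Finset.card_filter,
    Fin.sum_univ_five]
  exact key

end Pool.Agent.CGS
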