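import Pool.Agent.CGS.Irr

/-!
# A self-dual representation of odd degree is orthogonal

PACKAGE (statements frozen; auxiliary lemmas private; the imported files are black boxes, some
of them still contain sorry).

Let `P` be invertible with `ρ(g)ᵀ P ρ(g) = P` for all `g`. Taking transposes, `Pᵀ` has the same
property. Both `P` and `Pᵀ` intertwine `ρ` with the dual: `P ρ(g) = ρ(g⁻¹)ᵀ P`, `Pᵀ ρ(g) = ρ(g⁻¹)ᵀ
Pᵀ`, so `P⁻¹ Pᵀ` commutes with all `ρ(g)` and `Pᵀ = c P` (`schur`). Then `P = c Pᵀ = c ^ 2 P` so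
`c ^ 2 = 1` (`P ≠ 0` as `d > 0`), and `det P = det Pᵀ = c ^ d det P`, so `c ^ d = 1`; `d` is odd
so `c = 1` and `Pᵀ = P`.

`det ρ(g) ^ 2 = 1` by taking determinants. So `g ↦ det ρ(g)` is a homomorphism into `{1, -1}`; if
it is not trivial its kernel has index two (`Subgroup.index_ker`, the range has two elements),
contradicting `NoIdx2 X`.
-/

set_option autoImplicit false

namespace Pool.Agent.CGS

open Matrix

theorem orthogonal_of_selfDual {X : Type} [Group X] (hX : NoIdx2 X) {d : ℕ} (hd : Odd d)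
    {ρ : Rep X d} (h : IsIrr ρ) (hsd : SelfDual ρ) :
    ∃ P : Matrix (Fin d) (Fin d) ℂ, IsUnit P.det ∧ Pᵀ = P ∧
      (∀ g, (mat ρ g)ᵀ * P * mat ρ g = P) ∧ ∀ g, (mat ρ g).det = 1 := by
  obtain ⟨Q, hQ⟩ := hsd
  have hne : Nonempty (Fin d) := ⟨⟨0, h.pos⟩⟩
  obtain ⟨P, hP⟩ : ∃ P : Matrix (Fin d) (Fin d) ℂ, P = (Q : Matrix (Fin d) (Fin d) ℂ) := ⟨_, rfl⟩
  obtain ⟨P', hP'⟩ : ∃ P' : Matrix (Fin d) (Fin d) ℂ,
    P' = ((Q⁻¹ : GL (Fin d) ℂ) : Matrix (Fin d) (Fin d) ℂ) := ⟨_, rfl⟩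
  rw [← hP] at hQ
  have e1 : P * P' = 1 := by
    rw [hP, hP', ← Units.val_mul, mul_inv_cancel, Units.val_one]
  have e2 : P' * P = 1 := by
    rw [hP, hP', ← Units.val_mul, inv_mul_cancel, Units.val_one]
  have hdet : IsUnit P.det := by
    rw [hP]
    exact (Matrix.isUnit_iff_isUnit_det _).1 Q.isUnit
  have hT : ∀ g, (mat ρ g)ᵀ * Pᵀ * mat ρ g = Pᵀ := by
    intro g
    have h1 := congrArg Matrix.transpose (hQ g)
    rw [transpose_mul, transpose_mul, transpose_transpose, ← mul_assoc] at h1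
    exact h1
  have hinter : ∀ M : Matrix (Fin d) (Fin d) ℂ, (∀ g, (mat ρ g)ᵀ * M * mat ρ g = M) →
      ∀ g, M * mat ρ g = (mat ρ g⁻¹)ᵀ * M := by
    intro M hM g
    have h1 : (mat ρ g⁻¹)ᵀ * (mat ρ g)ᵀ = 1 := by
      rw [← transpose_mul, mat_mul_inv, transpose_one]
    calc M * mat ρ g = ((mat ρ g⁻¹)ᵀ * (mat ρ g)ᵀ) * (M * mat ρ g) := by rw [h1, one_mul]
      _ = (mat ρ g⁻¹)ᵀ * ((mat ρ g)ᵀ * M * mat ρ g) := by simp only [mul_assoc]
      _ = _ := by rw [hM g]
  have hcomm : ∀ g, (P' * Pᵀ) * mat ρ g = mat ρ g * (P' * Pᵀ) := by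
    intro g
    have h1 : mat ρ g * P' = P' * (mat ρ g⁻¹)ᵀ := by
      calc mat ρ g * P' = (P' * P) * (mat ρ g * P') := by rw [e2, one_mul]
        _ = P' * (P * mat ρ g) * P' := by simp only [mul_assoc]
        _ = P' * (mat ρ g⁻¹)ᵀ * (P * P') := by rw [hinter P hQ g]; simp only [mul_assoc]
        _ = _ := by rw [e1, mul_one]
    rw [mul_assoc, hinter _ hT g, ← mul_assoc, ← h1, mul_assoc]
  obtain ⟨c, hc⟩ := schur h _ hcomm
  have hPc : Pᵀ = c • P := by
    have h1 : P * (P' * Pᵀ) = Pᵀ := by rw [← mul_assoc, e1, one_mul]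
    rw [← h1, hc, mul_smul_comm, mul_one]
  have hc2 : c ^ 2 = 1 := by
    have h1 : P = c ^ 2 • P := by
      have h2 := congrArg Matrix.transpose hPc
      rw [transpose_transpose, transpose_smul, hPc, smul_smul] at h2
      rw [pow_two]
      exact h2
    have h2 : (c ^ 2 - 1) • P = 0 := by
      rw [sub_smul, one_smul, ← h1, sub_self]
    have h3 : P ≠ 0 := by
      intro h0
      rw [h0, zero_mul] at e1
      exact zero_ne_one e1
    exact sub_eq_zero.1 ((smul_eq_zero.1 h2).resolve_right h3)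
  have hcd : c ^ d = 1 := by
    have h1 := congrArg Matrix.det hPc
    rw [det_transpose, det_smul, Fintype.card_fin] at h1
    have h2 : (c ^ d - 1) * P.det = 0 := by linear_combination -h1
    exact sub_eq_zero.1 ((mul_eq_zero.1 h2).resolve_right hdet.ne_zero)
  have hc1 : c = 1 := by
    obtain ⟨k, hk⟩ := hd
    rw [hk, pow_succ, pow_mul, hc2, one_pow, one_mul] at hcd
    exact hcd
  rw [hc1, one_smul] at hPc
  refine ⟨P, hdet, hPc, hQ, fun g₀ => ?_⟩
  have hsq : ∀ g, (mat ρ g).det = 1 ∨ (mat ρ g).det = -1 := by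
    intro g
    have h1 := congrArg Matrix.det (hQ g)
    rw [det_mul, det_mul, det_transpose] at h1
    have h2 : ((mat ρ g).det ^ 2 - 1) * P.det = 0 := by linear_combination h1
    have h3 := sub_eq_zero.1 ((mul_eq_zero.1 h2).resolve_right hdet.ne_zero)
    exact sq_eq_one_iff.1 h3
  by_contra hne1
  have hm1 := (hsq g₀).resolve_left hne1
  let δ : X →* ℂˣ := Matrix.GeneralLinearGroup.det.comp ρ
  have hδ : ∀ g, g ∈ δ.ker ↔ (mat ρ g).det = 1 := by
    intro g
    rw [MonoidHom.mem_ker]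
    constructor
    · intro h1
      have h2 := congrArg Units.val h1
      exact h2
    · intro h1
      exact Units.ext h1
  refine hX δ.ker ?_
  rw [Subgroup.index_eq_two_iff]
  refine ⟨g₀, fun b => ?_⟩
  rw [hδ, hδ, mat_mul, det_mul, hm1]
  rcases hsq b with h1 | h1
  · rw [h1]
    right
    refine ⟨rfl, ?_⟩
    norm_num
  · rw [h1]
    left
    refine ⟨by norm_num, ?_⟩
    norm_num

end Pool.Agent.CGS
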