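import Pool.Agent.CGS.SOb
import Pool.Agent.CGS.Irr

/-!
# The action of a finite group of rotations on its poles

PACKAGE (statements frozen; auxiliary lemmas private; the imported files are black boxes, some
of them still contain sorry).

Let `Ω = {v : Fin 3 → ℂ // v ⬝ᵥ (P *ᵥ v) = 1 ∧ ∃ g : K, g ≠ 1 ∧ mat ρ g *ᵥ v = v}`.

* action: `g • v = mat ρ g *ᵥ v`: `(ρ(g) v) ⬝ᵥ (P ρ(g) v) = v ⬝ᵥ (ρ(g)ᵀ P ρ(g) v) = 1`
  (`Matrix.dotProduct_mulVec`, `Matrix.vecMul_transpose`), and if `k ≠ 1` fixes `v` then `g k g⁻¹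
  ≠ 1` fixes `g • v`. `one_smul`, `mul_smul` by `mat_one`, `mat_mul`.
* `neg v = -v`; `neg v ≠ v` because `v = -v` gives `v = 0`, but `v ⬝ᵥ (P *ᵥ v) = 1`.
* `fix`: for `g ≠ 1` apply `fixed_line` with `A = mat ρ g` (`A ≠ 1` by injectivity, `mem_ker_iff`;
  `A ^ m = 1` with `m = Nat.card K`, `pow_card_eq_one'`, `mat_pow`) and get `v`; it is a pole. If
  `g • x = x` then `x = c • v`, and `1 = x ⬝ᵥ (P *ᵥ x) = c ^ 2`, so `c = 1` or `c = -1`.
* `pole`: by definition of `Ω`.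
* `noinv`: otherwise `g • x ∈ {x, -x}` for all `g`, and `span {x}` is a stable subspace, not `⊥`,
  so `⊤` (`isIrr_iff`), but `finrank (Fin 3 → ℂ) = 3`.
* `Ω` is finite: every element of `Ω` is fixed by some `g ≠ 1`, and every `g ≠ 1` fixes at most
  two elements; `Set.Finite.subset` of a finite union, or an injection into `K × Bool`.
-/

set_option autoImplicit false

namespace Pool.Agent.CGS

open Matrix

private theorem form_smul {A P : Matrix (Fin 3) (Fin 3) ℂ} (hA : Aᵀ * P * A = P)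
    (v : Fin 3 → ℂ) : (A *ᵥ v) ⬝ᵥ (P *ᵥ (A *ᵥ v)) = v ⬝ᵥ (P *ᵥ v) := by
  have h1 : ∀ x : Fin 3 → ℂ, (A *ᵥ v) ⬝ᵥ x = v ⬝ᵥ (Aᵀ *ᵥ x) := by
    intro x
    rw [Matrix.dotProduct_mulVec, Matrix.vecMul_transpose]
  rw [h1, Matrix.mulVec_mulVec, Matrix.mulVec_mulVec, hA]

theorem exists_poleAction {K : Type} [Group K] [Finite K] {ρ : Rep K 3} (h : IsIrr ρ)
    (hinj : ρ.ker = ⊥) (P : Matrix (Fin 3) (Fin 3) ℂ) (hP : IsUnit P.det) (hPs : Pᵀ = P)
    (hinv : ∀ g, (mat ρ g)ᵀ * P * mat ρ g = P) (hdet : ∀ g, (mat ρ g).det = 1) :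
    ∃ (Ω : Type) (_ : MulAction K Ω) (_ : Finite Ω), Nonempty (PoleAction K Ω) := by
  classical
  have hA1 : ∀ g : K, g ≠ 1 → mat ρ g ≠ 1 := by
    intro g hg he
    apply hg
    have : g ∈ ρ.ker := (mem_ker_iff ρ g).2 he
    rw [hinj] at this
    exact Subgroup.mem_bot.1 this
  have hline : ∀ g : K, g ≠ 1 → ∃ v : Fin 3 → ℂ, mat ρ g *ᵥ v = v ∧ v ⬝ᵥ (P *ᵥ v) = 1 ∧
      ∀ w, mat ρ g *ᵥ w = w → ∃ c : ℂ, w = c • v := by
    intro g hg
    refine fixed_line P (mat ρ g) hP hPs (hinv g) (hdet g) (m := Nat.card K) Nat.card_pos ?_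
      (hA1 g hg)
    rw [← mat_pow, pow_card_eq_one', mat_one]
  have hact : ∀ (g : K) (v : Fin 3 → ℂ),
      (v ⬝ᵥ (P *ᵥ v) = 1 ∧ ∃ k : K, k ≠ 1 ∧ mat ρ k *ᵥ v = v) →
      ((mat ρ g *ᵥ v) ⬝ᵥ (P *ᵥ (mat ρ g *ᵥ v)) = 1 ∧
        ∃ k : K, k ≠ 1 ∧ mat ρ k *ᵥ (mat ρ g *ᵥ v) = mat ρ g *ᵥ v) := by
    rintro g v ⟨h1, k, hk, hkv⟩
    refine ⟨by rw [form_smul (hinv g), h1], g * k * g⁻¹, ?_, ?_⟩
    · intro he
      apply hk
      have h2 : g * k = g := by
        have h3 := congrArg (· * g) he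
        simpa using h3
      simpa using h2
    · rw [Matrix.mulVec_mulVec, ← mat_mul]
      have h2 : g * k * g⁻¹ * g = g * k := by group
      rw [h2, mat_mul, ← Matrix.mulVec_mulVec, hkv]
  let Ω : Type := {v : Fin 3 → ℂ // v ⬝ᵥ (P *ᵥ v) = 1 ∧ ∃ k : K, k ≠ 1 ∧ mat ρ k *ᵥ v = v}
  let act : MulAction K Ω :=
    { smul := fun g v => ⟨mat ρ g *ᵥ v.1, hact g v.1 v.2⟩
      one_smul := fun v => Subtype.ext (by
        change mat ρ 1 *ᵥ v.1 = v.1
        rw [mat_one, Matrix.one_mulVec])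
      mul_smul := fun g k v => Subtype.ext (by
        change mat ρ (g * k) *ᵥ v.1 = mat ρ g *ᵥ (mat ρ k *ᵥ v.1)
        rw [mat_mul, Matrix.mulVec_mulVec]) }
  have smul_val : ∀ (g : K) (x : Ω), (g • x).1 = mat ρ g *ᵥ x.1 := fun _ _ => rfl
  have hnegmem : ∀ v : Fin 3 → ℂ,
      (v ⬝ᵥ (P *ᵥ v) = 1 ∧ ∃ k : K, k ≠ 1 ∧ mat ρ k *ᵥ v = v) →
      ((-v) ⬝ᵥ (P *ᵥ (-v)) = 1 ∧ ∃ k : K, k ≠ 1 ∧ mat ρ k *ᵥ (-v) = -v) := by
    rintro v ⟨h1, k, hk, hkv⟩
    refine ⟨?_, k, hk, ?_⟩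
    · rw [Matrix.mulVec_neg, neg_dotProduct_neg, h1]
    · rw [Matrix.mulVec_neg, hkv]
  let ng : Ω → Ω := fun v => ⟨-v.1, hnegmem v.1 v.2⟩
  have ng_val : ∀ x : Ω, (ng x).1 = -x.1 := fun _ => rfl
  have hne0 : ∀ x : Ω, x.1 ≠ 0 := by
    intro x h0
    have h1 := x.2.1
    rw [h0] at h1
    simp at h1
  have hfix : ∀ g : K, g ≠ 1 → ∃ v : Ω, ∀ x : Ω, g • x = x ↔ x = v ∨ x = ng v := by
    intro g hg
    obtain ⟨v, hv, hv1, hl⟩ := hline g hg
    refine ⟨⟨v, hv1, g, hg, hv⟩, fun x => ⟨fun hx => ?_, ?_⟩⟩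
    · have hx' : mat ρ g *ᵥ x.1 = x.1 := by
        rw [← smul_val, hx]
      obtain ⟨c, hc⟩ := hl x.1 hx'
      have h1 := x.2.1
      rw [hc, Matrix.mulVec_smul, smul_dotProduct, dotProduct_smul, hv1] at h1
      have h2 : c * c = 1 := by simpa using h1
      rcases mul_self_eq_one_iff.1 h2 with h3 | h3
      · left
        apply Subtype.ext
        rw [hc, h3, one_smul]
      · right
        apply Subtype.ext
        rw [ng_val, hc, h3, neg_one_smul]
    · rintro (rfl | rfl)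
      · apply Subtype.ext
        rw [smul_val]
        exact hv
      · apply Subtype.ext
        rw [smul_val, ng_val, Matrix.mulVec_neg]
        exact congrArg (fun z => -z) hv
  have hpole : ∀ x : Ω, ∃ g : K, g ≠ 1 ∧ g • x = x := by
    intro x
    obtain ⟨g, hg, hgx⟩ := x.2.2
    exact ⟨g, hg, Subtype.ext (by rw [smul_val, hgx])⟩
  have hfin : Finite Ω := by
    have hsub : (Set.univ : Set Ω) ⊆ ⋃ g : {g : K // g ≠ 1}, {x : Ω | g.1 • x = x} := by
      intro x _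
      obtain ⟨g, hg, hgx⟩ := hpole x
      exact Set.mem_iUnion.2 ⟨⟨g, hg⟩, hgx⟩
    have hf : (⋃ g : {g : K // g ≠ 1}, {x : Ω | g.1 • x = x}).Finite := by
      refine Set.finite_iUnion fun g => ?_
      obtain ⟨v, hv⟩ := hfix g.1 g.2
      refine ((Set.finite_singleton v).union (Set.finite_singleton (ng v))).subset ?_
      intro x hx
      rcases (hv x).1 hx with h1 | h1
      · exact Or.inl h1
      · exact Or.inr h1
    exact Set.finite_univ_iff.1 (hf.subset hsub)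
  refine ⟨Ω, act, hfin, ⟨?_⟩⟩
  refine
    { neg := ng
      neg_neg := fun x => Subtype.ext (by rw [ng_val, ng_val, neg_neg])
      neg_ne := fun x hx => ?_
      smul_neg := fun g x => Subtype.ext (by
        rw [smul_val, ng_val, ng_val, smul_val, Matrix.mulVec_neg])
      fix := hfix
      pole := hpole
      noinv := fun x => ?_ }
  · apply hne0 x
    have h1 : -x.1 = x.1 := by rw [← ng_val, hx]
    funext i
    have h2 := congrFun h1 i
    rw [Pi.neg_apply] at h2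
    rw [Pi.zero_apply]
    exact self_eq_neg.1 h2.symm
  · by_contra hcon
    push Not at hcon
    have hall : ∀ g : K, mat ρ g *ᵥ x.1 = x.1 ∨ mat ρ g *ᵥ x.1 = -x.1 := by
      intro g
      by_cases h1 : g • x = x
      · left
        rw [← smul_val, h1]
      · right
        rw [← smul_val, hcon g h1, ng_val]
    obtain ⟨-, hW⟩ := (isIrr_iff ρ).1 h
    have hst : Stable ρ (Submodule.span ℂ {x.1}) := by
      intro g w hw
      obtain ⟨c, rfl⟩ := Submodule.mem_span_singleton.1 hw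
      rw [Matrix.mulVec_smul]
      refine Submodule.smul_mem _ _ ?_
      rcases hall g with h1 | h1
      · rw [h1]; exact Submodule.mem_span_singleton_self _
      · rw [h1]; exact Submodule.neg_mem _ (Submodule.mem_span_singleton_self _)
    rcases hW _ hst with h1 | h1
    · exact hne0 x (Submodule.span_singleton_eq_bot.1 h1)
    · have h2 : Module.finrank ℂ (Submodule.span ℂ {x.1}) ≤ 1 := (finrank_span_singleton (K := ℂ) (hne0 x)).le
      rw [h1, finrank_top, Module.finrank_fin_fun] at h2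
      omega

end Pool.Agent.CGS
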