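import Pool.Agent.CGS.Infl
import Pool.Agent.CGS.SOa
import Pool.Agent.CGS.SOc
import Pool.Agent.CGS.PAb
import Pool.Agent.CGS.PAc
import Pool.Agent.CGS.PAd
import Pool.Agent.CGS.PAe
import Pool.Agent.CGS.R60
import Pool.Agent.CGS.Dual
import Pool.Agent.CGS.NoIdx

/-!
# The kernel of a self-dual class of degree three

PACKAGE (statements frozen; auxiliary lemmas private; the imported files are black boxes, some
of them still contain sorry).

Let `M = kerC c` and `K = X ⧸ M`, so `M.index = Nat.card K`. By `exists_faithful` there is `c' :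
Cls K 3` with `kerC c' = ⊥` and `Has SelfDual c'`; write `c' = mk ρ h` (`cls_ind`), so `ρ.ker = ⊥`
(`kerC_mk`) and `SelfDual ρ` (`has_mk`, `SelfDual.of_sim`). `K` has no subgroup of index two
(`NoIdx2.quotient`). Take `P` from `orthogonal_of_selfDual` and the action on poles from
`exists_poleAction`. `K` is nontrivial: otherwise the span of the matrices of `ρ` is at most
one-dimensional, but the space of `3 × 3` matrices has dimension nine. By `pole_classification`
`Nat.card K = 12` or `24` or (`60` and the points `a, b, c`). In the last case `order_of_60`,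
`count_of_60`, `centralizer_of_60` give the hypotheses of `card_conjClasses_of_60` and
`card_normal_of_60`; `N K 3 > 0` (the class `c'` exists and `Cls K 3` is finite, `finite_cls`), so
`N K 3 = 2` (`N_three_of_card_60`) and `SD K 3 ≡ 2` modulo 2 (`N_modEq_SD`) is even. Let `c'' :
Cls K 3` with `kerC c'' = M' ≠ ⊥`; then `7 ≤ Nat.card M'`. By `exists_faithful` the group `K ⧸ M'`
has a class of degree three, so by `exists_degrees` (some `δ i = 3`) `9 ≤ Nat.card (K ⧸ M')`, and
`60 = Nat.card M' * Nat.card (K ⧸ M') ≥ 63`, a contradiction. So `kerC c'' = ⊥`.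
-/

set_option autoImplicit false

namespace Pool.Agent.CGS

open Matrix

private theorem nontriv {K : Type} [Group K] {ρ : Rep K 3} (h : IsIrr ρ) : Nontrivial K := by
  by_contra hK
  rw [not_nontrivial_iff_subsingleton] at hK
  have h1 : ∀ A ∈ Submodule.span ℂ (Set.range (mat ρ)), A 0 1 = 0 := by
    intro A hA
    induction hA using Submodule.span_induction with
    | mem x hx =>
      obtain ⟨g, rfl⟩ := hx
      rw [Subsingleton.elim g 1, mat_one]
      simp
    | zero => rfl
    | add x y _ _ hx hy => rw [Matrix.add_apply, hx, hy, add_zero]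
    | smul c x _ hx => rw [Matrix.smul_apply, hx, smul_zero]
  have h2 := h1 (Matrix.of fun _ _ => 1) (by rw [h.span]; exact Submodule.mem_top)
  simp at h2

private theorem nine_le {K : Type} [Group K] [Finite K] (c : Cls K 3) : 9 ≤ Nat.card K := by
  obtain ⟨n, δ, -, hs, -, -, hcl⟩ := exists_degrees K
  obtain ⟨E⟩ := hcl 3 (by norm_num)
  have h1 : δ (E c).1 = 3 := (E c).2
  rw [← hs]
  have h2 := Finset.single_le_sum (f := fun i => δ i ^ 2) (s := Finset.univ)
    (fun j _ => Nat.zero_le _) (Finset.mem_univ (E c).1)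
  simp only [h1] at h2
  exact h2

private theorem key {K : Type} [Group K] [Finite K] (hK : NoIdx2 K) (c : Cls K 3)
    (hker : kerC c = ⊥) (hsd : Has SelfDual c) :
    (Nat.card K = 12 ∨ Nat.card K = 24) ∨ (Even (SD K 3) ∧ ∀ c' : Cls K 3, kerC c' = ⊥) := by
  have hN : 0 < N K 3 := by
    have := finite_cls K 3
    have : Nonempty (Cls K 3) := ⟨c⟩
    exact Nat.card_pos
  revert hker hsd
  refine cls_ind (q := fun c => kerC c = ⊥ → Has SelfDual c →
    (Nat.card K = 12 ∨ Nat.card K = 24) ∨
      (Even (SD K 3) ∧ ∀ c' : Cls K 3, kerC c' = ⊥)) (fun ρ h hker hsd => ?_) c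
  rw [kerC_mk] at hker
  rw [has_mk (fun _ _ => SelfDual.of_sim)] at hsd
  obtain ⟨P, hP, hPs, hinv, hdet⟩ := orthogonal_of_selfDual hK (by decide : Odd 3) h hsd
  obtain ⟨Ω, i1, i2, ⟨pa⟩⟩ := exists_poleAction h hker P hP hPs hinv hdet
  have := nontriv h
  rcases pole_classification pa with h12 | h24 | ⟨h60, a, b, c, ha, hb, hc, hall⟩
  · exact Or.inl (Or.inl h12)
  · exact Or.inl (Or.inr h24)
  right
  obtain ⟨hord, hst⟩ := order_of_60 pa a b c ha hb hc hall
  obtain ⟨n2, n3, n5⟩ := count_of_60 pa h60 a b c ha hb hc hall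
  have hcen := centralizer_of_60 pa hord hst
  have hcc : Nat.card (ConjClasses K) = 5 :=
    card_conjClasses_of_60 h60 hord n2 n3 n5 (fun g => (hcen g).1) (fun g => (hcen g).2.1)
      (fun g => (hcen g).2.2)
  have hN2 := N_three_of_card_60 h60 hcc hN
  refine ⟨?_, ?_⟩
  · have h1 := N_modEq_SD K 3
    rw [hN2] at h1
    rw [Nat.even_iff]
    exact h1.symm
  · intro c'
    by_contra hne
    have h7 := card_normal_of_60 h60 hord (fun g => (hcen g).1) (fun g => (hcen g).2.1)
      (fun g => (hcen g).2.2) (kerC c') (kerC_normal c') hne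
    obtain ⟨c3, -, -⟩ := exists_faithful c'
    have h9 := nine_le c3
    have h63 := Subgroup.card_eq_card_quotient_mul_card_subgroup (kerC c')
    rw [h60] at h63
    nlinarith

theorem kernel_cases {X : Type} [Group X] [Finite X] (hX : NoIdx2 X) (c : Cls X 3)
    (hc : Has SelfDual c) :
    ((kerC c).index = 12 ∨ (kerC c).index = 24) ∨
      (Even (SD (X ⧸ kerC c) 3) ∧ ∀ c' : Cls (X ⧸ kerC c) 3, kerC c' = ⊥) := by
  obtain ⟨c', hker, hsd⟩ := exists_faithful c
  exact key (hX.quotient (kerC c)) c' hker (hsd hc)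

end Pool.Agent.CGS
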