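import Pool.Agent.CGS.KerA

/-!
# An odd number of classes of degree three gives a normal subgroup of index 12 or 24

PACKAGE (statements frozen; auxiliary lemmas private; the imported files are black boxes, some
of them still contain sorry).

Suppose there is no such `M`. Then for every `c` with `Has SelfDual c` the second alternative of
`kernel_cases` holds. Claim: for every subgroup `M` of `X` the number of `c : Cls X 3` with `Has
SelfDual c ∧ kerC c = M` is even. If there is none this is clear. Otherwise let `c₀` be one of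
them, `M = kerC c₀` (subst), and let `e : Cls (X ⧸ M) 3 → Cls X 3` be as in `exists_infl`. It
restricts to a bijection of `{c' // Has SelfDual c'}` onto `{c // Has SelfDual c ∧ kerC c = M}`:
`kerC (e c') = (kerC c').comap (mk' M) = (⊥).comap (mk' M) = M` (`MonoidHom.comap_bot`,
`QuotientGroup.ker_mk'`), injective, and if `kerC c = M` then `c = e c'`. So the number is `SD (X
⧸ M) 3`, even. Summing over all `M` (`Subgroup X` is finite; `Finset.sum_fiberwise`, or `Nat.card`
of the sigma type `Σ M, {c // Has SelfDual c ∧ kerC c = M} ≃ {c // Has SelfDual c}`), `SD X 3` is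
even, so `N X 3` is even (`N_modEq_SD`), a contradiction.
-/

set_option autoImplicit false

namespace Pool.Agent.CGS

open Matrix

private theorem even_fiber {X : Type} [Group X] [Finite X] (hX : NoIdx2 X)
    (hno : ∀ M : Subgroup X, M.Normal → ¬ (M.index = 12 ∨ M.index = 24)) (c₀ : Cls X 3)
    (h₀ : Has SelfDual c₀) :
    Even (Nat.card {s : {c : Cls X 3 // Has SelfDual c} // kerC s.1 = kerC c₀}) := by
  have h1 := (kernel_cases hX c₀ h₀).resolve_left (hno (kerC c₀) (kerC_normal c₀))
  obtain ⟨e, he, hd, hk, hs⟩ := exists_infl (kerC c₀) 3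
  have hker : ∀ c, kerC (e c) = kerC c₀ := by
    intro c
    rw [hk, h1.2 c, MonoidHom.comap_bot, QuotientGroup.ker_mk']
  let f : {c : Cls (X ⧸ kerC c₀) 3 // Has SelfDual c} →
      {s : {c : Cls X 3 // Has SelfDual c} // kerC s.1 = kerC c₀} :=
    fun c => ⟨⟨e c.1, (hd c.1).2 c.2⟩, hker c.1⟩
  have hf : Function.Bijective f := by
    constructor
    · intro a b hab
      have h2 : e a.1 = e b.1 := congrArg (fun s => s.1.1) hab
      exact Subtype.ext (he h2)
    · rintro ⟨⟨c, hc⟩, hc'⟩
      obtain ⟨c', rfl⟩ := hs c (le_of_eq hc'.symm)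
      exact ⟨⟨c', (hd c').1 hc⟩, rfl⟩
  rw [← Nat.card_congr (Equiv.ofBijective f hf)]
  exact h1.1

theorem exists_kernel {X : Type} [Group X] [Finite X] (hX : NoIdx2 X) (hN : Odd (N X 3)) :
    ∃ M : Subgroup X, M.Normal ∧ (M.index = 12 ∨ M.index = 24) := by
  classical
  by_contra hcon
  have hno : ∀ M : Subgroup X, M.Normal → ¬ (M.index = 12 ∨ M.index = 24) :=
    fun M hM h => hcon ⟨M, hM, h⟩
  have : Finite (Cls X 3) := finite_cls X 3
  have : Fintype (Subgroup X) := Fintype.ofFinite _
  have hsum : SD X 3 = ∑ M : Subgroup X,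
      Nat.card {s : {c : Cls X 3 // Has SelfDual c} // kerC s.1 = M} := by
    unfold SD
    rw [← Nat.card_sigma]
    exact (Nat.card_congr (Equiv.sigmaFiberEquiv
      (fun s : {c : Cls X 3 // Has SelfDual c} => kerC s.1))).symm
  have hev : Even (SD X 3) := by
    rw [hsum]
    refine Finset.even_sum _ fun M _ => ?_
    by_cases hM : Nonempty {s : {c : Cls X 3 // Has SelfDual c} // kerC s.1 = M}
    · obtain ⟨⟨⟨c₀, h₀⟩, hc⟩⟩ := hM
      change kerC c₀ = M at hc
      subst hc
      exact even_fiber hX hno c₀ h₀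
    · rw [not_nonempty_iff] at hM
      rw [Nat.card_of_isEmpty]
      exact Even.zero
  have h2 := N_modEq_SD X 3
  rw [Nat.odd_iff] at hN
  rw [Nat.even_iff] at hev
  have h3 : N X 3 % 2 = SD X 3 % 2 := h2
  omega

end Pool.Agent.CGS
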