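import Pool.Agent.CGS.Base

/-!
# Groups with a derived subgroup of odd order

PACKAGE (statements frozen; auxiliary lemmas private; the imported files are black boxes, some
of them still contain sorry).

`S2 G` says that `Nat.card (derivedSeries G m)` is odd for some `m`. The derived series is
decreasing, so then all later terms have odd order too (their orders divide).

* `of_isSolvable`: some `derivedSeries G m = ⊥`, of order one.
* `quotient`: the image of `derivedSeries G m` is `derivedSeries (G ⧸ M) m`
  (`map_derivedSeries_eq` for the surjective projection), its order divides the order of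
  `derivedSeries G m` (`Subgroup.card_map_dvd` or `Subgroup.card_dvd_of_surjective`).
* `of_injective`: `(derivedSeries A m).map f ≤ derivedSeries G m`
  (`map_derivedSeries_le_derivedSeries`), and the order of a subgroup divides; `f` is injective so
  the orders of `derivedSeries A m` and of its image agree.
* `of_derivedSeries_le`: if `derivedSeries G m ≤ f.range` then by induction on `k` `derivedSeries
  G (m + k) ≤ (derivedSeries A k).map f` (`derivedSeries_succ`, `Subgroup.map_commutator`,
  `Subgroup.commutator_mono`; for `k = 0` `(⊤).map f = f.range`). So the order of `derivedSeries G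
  (m + k)` divides the order of `derivedSeries A k`.
* `of_le`: same with a normal subgroup: if `derivedSeries G m ≤ S` and `Nat.card S` is odd then
  `S2 G`.
* `of_normal`: `derivedSeries (G ⧸ S) m = ⊥` for some `m`, so `derivedSeries G m ≤ S` (its image
  is trivial).
* `isSolvable`: `derivedSeries G m` is normal (characteristic) of odd order, so it is `⊥` by
  `NoOdd`, and `G` is solvable.
-/

set_option autoImplicit false

namespace Pool.Agent.CGS

open Matrix

variable {G A : Type} [Group G] [Group A]

theorem S2.of_isSolvable (h : IsSolvable G) : S2 G := by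
  obtain ⟨m, hm⟩ := h.solvable
  exact ⟨m, by rw [hm, Subgroup.card_bot]; exact odd_one⟩

theorem S2.quotient [Finite G] (h : S2 G) (M : Subgroup G) [M.Normal] : S2 (G ⧸ M) := by
  obtain ⟨m, hm⟩ := h
  refine ⟨m, ?_⟩
  rw [← map_derivedSeries_eq (QuotientGroup.mk'_surjective M)]
  exact hm.of_dvd_nat (Subgroup.card_map_dvd _ _)

theorem S2.of_injective [Finite G] (f : A →* G) (hf : Function.Injective f) (h : S2 G) :
    S2 A := by
  obtain ⟨m, hm⟩ := h
  refine ⟨m, ?_⟩
  have h1 : Nat.card ((derivedSeries A m).map f) = Nat.card (derivedSeries A m) :=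
    Nat.card_congr ((derivedSeries A m).equivMapOfInjective f hf).toEquiv.symm
  rw [← h1]
  exact hm.of_dvd_nat (Subgroup.card_dvd_of_le (map_derivedSeries_le_derivedSeries f m))

theorem S2.of_derivedSeries_le [Finite G] (f : A →* G) (hm : ∃ m, derivedSeries G m ≤ f.range)
    (h : S2 A) : S2 G := by
  obtain ⟨m, hm⟩ := hm
  obtain ⟨k, hk⟩ := h
  have key : ∀ k, derivedSeries G (m + k) ≤ (derivedSeries A k).map f := by
    intro k
    induction k with
    | zero =>
      rw [derivedSeries_zero, ← MonoidHom.range_eq_map]
      exact hm
    | succ k ih =>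
      rw [← Nat.add_assoc, derivedSeries_succ, derivedSeries_succ, Subgroup.map_commutator]
      exact Subgroup.commutator_mono ih ih
  exact ⟨m + k, hk.of_dvd_nat ((Subgroup.card_dvd_of_le (key k)).trans
    (Subgroup.card_map_dvd _ _))⟩

theorem S2.of_le [Finite G] (S : Subgroup G) (hS : Odd (Nat.card S)) {m : ℕ}
    (hm : derivedSeries G m ≤ S) : S2 G :=
  ⟨m, hS.of_dvd_nat (Subgroup.card_dvd_of_le hm)⟩

theorem S2.of_normal [Finite G] (S : Subgroup G) [S.Normal] (hS : Odd (Nat.card S))
    (h : IsSolvable (G ⧸ S)) : S2 G := by
  obtain ⟨m, hm⟩ := h.solvable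
  rw [← map_derivedSeries_eq (QuotientGroup.mk'_surjective S), Subgroup.map_eq_bot_iff,
    QuotientGroup.ker_mk'] at hm
  exact S2.of_le S hS hm

theorem S2.isSolvable (h : S2 G) (hno : NoOdd G) : IsSolvable G := by
  obtain ⟨m, hm⟩ := h
  exact ⟨⟨m, hno _ inferInstance hm⟩⟩

end Pool.Agent.CGS
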