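import Pool.Agent.CGS.NoIdx

/-!
# Groups of order three times a power of two

PACKAGE (statements frozen; auxiliary lemmas private; the imported files are black boxes, some
of them still contain sorry).

* `exists_normal_two_subgroup`: let `P` be a Sylow 2-subgroup; `Nat.card P = 2 ^ k`
  (`Sylow.card_eq_multiplicity` or `Sylow.exists_subgroup_card_pow_prime` to get a subgroup of
  order `2 ^ k`), so `P.index = 3`. Let `R = P.normalCore`: it is normal and `R ≤ P`, so its order
  is a power of two. `R` is the kernel of the action on the three cosets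
  (`Subgroup.normalCore_eq_ker`), so `R.index` divides `Nat.card (Equiv.Perm (Y ⧸ P)) = 6`; and
  `P.index = 3` divides `R.index` (`Subgroup.index_dvd_of_le`). So `R.index ∈ {3, 6}`.
* `isSolvable_of_card`: `R` is a 2-group (`IsPGroup.of_card`, nilpotent, solvable); `Y ⧸ R` has
  order three or six. A group of order three is cyclic; a group `Z` of order six has a subgroup of
  order three (Cauchy, `zpowers`), of index two, so normal, with commutative kernel and quotient
  (prime orders). So `Y ⧸ R` is solvable and `Y` is solvable (`solvable_of_ker_le_range` or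
  `solvable_of_solvable_quotient`-type lemma).
* `exists_of_noIdx2`: if `R.index = 6` then `Y ⧸ R` has order six and a subgroup of order three
  (Cauchy), of index two; its preimage in `Y` has index two (`NoIdx2.quotient`), a contradiction.
* `has23_of_card`: `Z = X ⧸ S` has order `3 * 2 ^ a` and no subgroup of index two
  (`NoIdx2.quotient`). Take `R` for `Z` and let `Q = R.comap (QuotientGroup.mk' S)`: normal of
  index three, `S ≤ Q`, and `S.relIndex Q = Nat.card R`, a power of two
  (`Subgroup.card_mul_index`, multiplicativity of orders: `Nat.card Q = Nat.card S * Nat.card R`).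
-/

set_option autoImplicit false

namespace Pool.Agent.CGS

open Matrix

private theorem isSolvable_of_prime {Z : Type} [Group Z] {p : ℕ} (hp : p.Prime)
    (h : Nat.card Z = p) : Group.IsSolvable Z := by
  have : Fact p.Prime := ⟨hp⟩
  have : IsCyclic Z := isCyclic_of_prime_card h
  have h1 : IsMulCommutative Z := inferInstance
  exact Group.isSolvable_of_comm fun a b => h1.is_comm.comm a b

private theorem isSolvable_of_ext {Z : Type} [Group Z] (C : Subgroup Z) [C.Normal]
    (h1 : Group.IsSolvable C) (h2 : Group.IsSolvable (Z ⧸ C)) : Group.IsSolvable Z :=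
  Group.isSolvable_of_ker_le_range C.subtype (QuotientGroup.mk' C) (by
    rw [QuotientGroup.ker_mk', Subgroup.range_subtype])

private theorem exists_index_two_of_six {Z : Type} [Group Z] [Finite Z] (h : Nat.card Z = 6) :
    ∃ C : Subgroup Z, Nat.card C = 3 ∧ C.index = 2 := by
  have : Fact (Nat.Prime 3) := ⟨Nat.prime_three⟩
  obtain ⟨C, hC⟩ := Sylow.exists_subgroup_card_pow_prime (G := Z) 3 (n := 1)
    (by rw [h]; norm_num)
  rw [pow_one] at hC
  refine ⟨C, hC, ?_⟩
  have h1 := C.card_mul_index
  rw [hC, h] at h1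
  omega

theorem exists_normal_two_subgroup {Y : Type} [Group Y] [Finite Y] {k : ℕ}
    (h : Nat.card Y = 3 * 2 ^ k) :
    ∃ R : Subgroup Y, R.Normal ∧ (∃ j, Nat.card R = 2 ^ j) ∧ (R.index = 3 ∨ R.index = 6) := by
  have : Fact (Nat.Prime 2) := ⟨Nat.prime_two⟩
  obtain ⟨P, hP⟩ := Sylow.exists_subgroup_card_pow_prime (G := Y) 2 (n := k)
    (by rw [h]; exact Dvd.intro_left 3 rfl)
  have hi : P.index = 3 := by
    have h1 := P.card_mul_index
    rw [hP, h, mul_comm 3] at h1
    exact Nat.eq_of_mul_eq_mul_left (by positivity) h1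
  refine ⟨P.normalCore, inferInstance, ?_, ?_⟩
  · have h1 : Nat.card P.normalCore ∣ 2 ^ k := by
      rw [← hP]
      exact Subgroup.card_dvd_of_le P.normalCore_le
    obtain ⟨j, -, hj⟩ := (Nat.dvd_prime_pow Nat.prime_two).1 h1
    exact ⟨j, hj⟩
  · have h1 : 3 ∣ P.normalCore.index := by
      rw [← hi]
      exact Subgroup.index_dvd_of_le P.normalCore_le
    have h2 : P.normalCore.index ∣ 6 := by
      rw [Subgroup.normalCore_eq_ker, Subgroup.index_ker]
      have h3 : Nat.card (Equiv.Perm (Y ⧸ P)) = 6 := by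
        have h4 : Nat.card (Y ⧸ P) = 3 := hi
        rw [Nat.card_perm, h4]
        rfl
      rw [← h3]
      exact Subgroup.card_subgroup_dvd_card _
    obtain ⟨c, hc⟩ := h1
    rw [hc] at h2 ⊢
    have h5 : c ∣ 2 := by
      have h6 : 3 * c ∣ 3 * 2 := h2
      exact (Nat.mul_dvd_mul_iff_left (by norm_num)).1 h6
    rcases (Nat.dvd_prime Nat.prime_two).1 h5 with rfl | rfl
    · exact Or.inl rfl
    · exact Or.inr rfl

theorem isSolvable_of_card {Y : Type} [Group Y] [Finite Y] {k : ℕ}
    (h : Nat.card Y = 3 * 2 ^ k) : IsSolvable Y := by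
  obtain ⟨R, hR, ⟨j, hj⟩, hi⟩ := exists_normal_two_subgroup h
  have : Fact (Nat.Prime 2) := ⟨Nat.prime_two⟩
  have h1 : IsPGroup 2 R := IsPGroup.of_card hj
  have h2 : Group.IsNilpotent R := h1.isNilpotent
  refine isSolvable_of_ext R IsNilpotent.to_isSolvable ?_
  rcases hi with hi | hi
  · exact isSolvable_of_prime Nat.prime_three hi
  · obtain ⟨C, hC3, hC2⟩ := exists_index_two_of_six (Z := Y ⧸ R) hi
    have : C.Normal := Subgroup.normal_of_index_eq_two hC2
    exact isSolvable_of_ext C (isSolvable_of_prime Nat.prime_three hC3)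
      (isSolvable_of_prime Nat.prime_two hC2)

theorem exists_of_noIdx2 {Y : Type} [Group Y] [Finite Y] (hY : NoIdx2 Y) {k : ℕ}
    (h : Nat.card Y = 3 * 2 ^ k) :
    ∃ R : Subgroup Y, R.Normal ∧ (∃ j, Nat.card R = 2 ^ j) ∧ R.index = 3 := by
  obtain ⟨R, hR, hj, hi⟩ := exists_normal_two_subgroup h
  refine ⟨R, hR, hj, ?_⟩
  rcases hi with hi | hi
  · exact hi
  · obtain ⟨C, -, hC2⟩ := exists_index_two_of_six (Z := Y ⧸ R) hi
    exact absurd hC2 (hY.quotient R C)

theorem has23_of_card {X : Type} [Group X] [Finite X] (hX : NoIdx2 X) (S : Subgroup X)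
    [S.Normal] (hS : Odd (Nat.card S)) {a : ℕ} (hi : S.index = 3 * 2 ^ a) : Has23 X := by
  obtain ⟨R, hR, -, hR3⟩ := exists_of_noIdx2 (hX.quotient S) (k := a) hi
  have hQ : (R.comap (QuotientGroup.mk' S)).index = 3 := by
    rw [Subgroup.index_comap_of_surjective R (QuotientGroup.mk'_surjective S), hR3]
  have hle : S ≤ R.comap (QuotientGroup.mk' S) := by
    intro x hx
    rw [Subgroup.mem_comap, QuotientGroup.mk'_apply, (QuotientGroup.eq_one_iff x).2 hx]
    exact one_mem R
  refine ⟨S, R.comap (QuotientGroup.mk' S), inferInstance, hR.comap _, hle, hS, hQ, a, ?_⟩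
  have h1 := Subgroup.relIndex_mul_index hle
  rw [hQ, hi, mul_comm] at h1
  exact Nat.eq_of_mul_eq_mul_left (by norm_num) h1

end Pool.Agent.CGS
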