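import Pool.Agent.CGS.FE
import Pool.Agent.CGS.Sol3
import Pool.Agent.CGS.S2lem

/-!
# The other side: a normal subgroup of index 12 or 24

PACKAGE (statements frozen; auxiliary lemmas private; the imported files are black boxes, some
of them still contain sorry).

Let `L = (commutator H).comap f`, `D = M ⊓ L`, both normal in `B`. `Nat.card D` divides `Nat.card
M` and divides `Nat.card (commutator H)` (`f` maps `D` injectively into `commutator H`).

* `D` is harmless: let `p ≠ 2` be a prime divisor of `Nat.card D`, `i ≥ 1`, `2 ^ i ∣ Nat.card D`.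
  `Nat.card B = Nat.card M * M.index` and `4 ∣ M.index`, so `2 ^ (i + 2) ∣ Nat.card B` and `i + 2
  ≤ n` (otherwise `2 ^ (n + 1) ∣ 2 ^ (i + 2) ∣ Nat.card B`). If `n ≤ 3` then `i = 1` and `2 ^ i -
  1 = 1` is not divisible by `p`. Otherwise we are in the second case of `GoodH`. If `p = 3`: in
  the case `¬ 9 ∣ Nat.card H`: `3 ∣ Nat.card M` and `3 ∣ M.index` give `9 ∣ Nat.card B ∣ Nat.card
  H` (`f` is injective), a contradiction; in the case `¬ 3 ∣ Nat.card (commutator H)`: `3 ∣
  Nat.card D ∣ Nat.card (commutator H)`, a contradiction. If `p ≠ 3` then `p ≥ 5` (`p` is an odd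
  prime) and `p ∣ Nat.card (commutator H)`, so `¬ p ∣ 2 ^ i - 1` by `GoodH`.
* by `exists_complement` `D` has a characteristic subgroup `K` of odd order and index `2 ^ k`. `K'
  = K.map D.subtype` has odd order.
* `B ⧸ M` has order `12 = 3 * 2 ^ 2` or `24 = 3 * 2 ^ 3` so it is solvable (`isSolvable_of_card`)
  and `derivedSeries B a ≤ M` for some `a`. Also `derivedSeries B 1 ≤ L` (`f` maps commutators to
  commutators, `map_derivedSeries_le_derivedSeries`, `derivedSeries_one`). So `derivedSeries B (a
  + 1) ≤ M ⊓ L = D` (`derivedSeries_antitone`). The group `D ⧸ K` (`K` is normal in `D`) is a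
  2-group, so solvable, so `derivedSeries D b ≤ K` for some `b`. By induction on `j`
  `derivedSeries B (a + 1 + j) ≤ (derivedSeries D j).map D.subtype` (`Subgroup.map_commutator`,
  `Subgroup.commutator_mono`). So `derivedSeries B (a + 1 + b) ≤ K'`, and `S2.of_le`.
-/

set_option autoImplicit false

namespace Pool.Agent.CGS

open Matrix

private theorem derivedSeries_quot {B : Type} [Group B] (M : Subgroup B) [M.Normal]
    (h : IsSolvable (B ⧸ M)) : ∃ a, derivedSeries B a ≤ M := by
  obtain ⟨a, ha⟩ := h.solvable
  refine ⟨a, fun x hx => ?_⟩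
  have h0 := map_derivedSeries_le_derivedSeries (QuotientGroup.mk' M) a
  have h1 : QuotientGroup.mk' M x ∈ derivedSeries (B ⧸ M) a := h0 ⟨x, hx, rfl⟩
  rw [ha, Subgroup.mem_bot] at h1
  exact (QuotientGroup.eq_one_iff x).1 h1

theorem s2_of_kernel {H B : Type} [Group H] [Group B] [Finite H] [Finite B] (f : B →* H)
    (hf : Function.Injective f) {n : ℕ} (hn : ¬ 2 ^ (n + 1) ∣ Nat.card B)
    (hG : GoodH n (Nat.card H) (Nat.card (commutator H))) (M : Subgroup B) [M.Normal]
    (hM : M.index = 12 ∨ M.index = 24) : S2 B := by
  classical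
  let L : Subgroup B := (commutator H).comap f
  let D : Subgroup B := M ⊓ L
  have hDM : Nat.card D ∣ Nat.card M := Subgroup.card_dvd_of_le inf_le_left
  have hDc : Nat.card D ∣ Nat.card (commutator H) := by
    have h1 : Nat.card (D.map f) = Nat.card D :=
      Nat.card_congr (D.equivMapOfInjective f hf).symm.toEquiv
    rw [← h1]
    exact Subgroup.card_dvd_of_le (Subgroup.map_le_iff_le_comap.2 inf_le_right)
  have hBH : Nat.card B ∣ Nat.card H := Subgroup.card_dvd_of_injective f hf
  have hMB : Nat.card M * M.index = Nat.card B := Subgroup.card_mul_index M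
  have hH : Harmless D := by
    intro p hp hp2 hpD i hi hiD
    have h4 : 2 ^ 2 ∣ M.index := by rcases hM with h | h <;> rw [h] <;> norm_num
    have hi2 : 2 ^ (i + 2) ∣ Nat.card B := by
      rw [← hMB, pow_add]
      exact mul_dvd_mul (hiD.trans hDM) h4
    have hin : i + 2 ≤ n := by
      by_contra hcon
      exact hn ((pow_dvd_pow 2 (by omega)).trans hi2)
    rcases hG with hG | ⟨hG9, hG⟩
    · have h1 : i = 1 := by omega
      subst h1
      intro h
      have h2 := Nat.le_of_dvd (by norm_num) h
      have h3 := hp.two_le
      omega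
    · rcases eq_or_ne p 3 with rfl | hp3
      · exfalso
        rcases hG9 with h9 | h3
        · apply h9
          have h3' : 3 ∣ M.index := by rcases hM with h | h <;> rw [h] <;> norm_num
          have h5 := mul_dvd_mul (hpD.trans hDM) h3'
          rw [hMB] at h5
          exact h5.trans hBH
        · exact h3 (hpD.trans hDc)
      · have h5 : 5 ≤ p := by
          have h2 := hp.two_le
          rcases (show p = 2 ∨ p = 3 ∨ p = 4 ∨ 5 ≤ p by omega) with h | h | h | h
          · exact absurd h hp2
          · exact absurd h hp3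
          · subst h
            norm_num at hp
          · exact h
        exact hG p i hp h5 (hpD.trans hDc) hi hin
  obtain ⟨K, hK, hKo, k, hKk⟩ := exists_complement hH
  have hK' : K.Normal := inferInstance
  obtain ⟨a, ha⟩ : ∃ a, derivedSeries B a ≤ M := by
    refine derivedSeries_quot M ?_
    rcases hM with h | h
    · exact isSolvable_of_card (k := 2) (h.trans (by norm_num))
    · exact isSolvable_of_card (k := 3) (h.trans (by norm_num))
  obtain ⟨b, hb⟩ : ∃ b, derivedSeries D b ≤ K := by
    refine derivedSeries_quot K ?_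
    have h2 : Fact (Nat.Prime 2) := ⟨Nat.prime_two⟩
    have h3 : IsPGroup 2 (D ⧸ K) := IsPGroup.of_card (n := k) hKk
    have h4 := h3.isNilpotent
    exact (inferInstance : Group.IsSolvable (D ⧸ K))
  have hKc : Odd (Nat.card (K.map D.subtype)) := by
    rwa [Nat.card_congr (K.equivMapOfInjective D.subtype D.subtype_injective).symm.toEquiv]
  refine S2.of_le (K.map D.subtype) hKc (m := a + 1 + b) ?_
  have hj : ∀ j, derivedSeries B (a + 1 + j) ≤ (derivedSeries D j).map D.subtype := by
    intro j
    induction j with
    | zero =>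
      rw [derivedSeries_zero, ← MonoidHom.range_eq_map, Subgroup.range_subtype]
      refine le_inf ((derivedSeries_antitone B (by omega)).trans ha) ?_
      refine (derivedSeries_antitone B (show 1 ≤ a + 1 + 0 by omega)).trans ?_
      refine Subgroup.map_le_iff_le_comap.1 ?_
      rw [← derivedSeries_one]
      exact map_derivedSeries_le_derivedSeries f 1
    | succ j ih =>
      rw [← add_assoc, derivedSeries_succ, derivedSeries_succ, Subgroup.map_commutator]
      exact Subgroup.commutator_mono ih ih
  exact (hj b).trans (Subgroup.map_mono hb)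

end Pool.Agent.CGS
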