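import Pool.Agent.CGS.OddB
import Pool.Agent.CGS.Infl
import Pool.Agent.CGS.Dual

/-!
# Passing to the quotient by a normal subgroup of odd order

PACKAGE (statements frozen; auxiliary lemmas private; the imported files are black boxes, some
of them still contain sorry).

Let `e : Cls (X ⧸ S) d → Cls X d` be as in `exists_infl`. It restricts to a map from the classes
with `Has SelfDual` to the classes with `Has SelfDual`, which is injective, and surjective: if
`Has SelfDual c` then `S ≤ kerC c` (`c = mk ρ h`, `SelfDual ρ` by `has_mk`, `le_ker_of_odd`,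
`kerC_mk`), so `c = e c'`. So `SD (X ⧸ S) d = SD X d` (`Nat.card_congr`, `Equiv.ofBijective`). Now
`N X d ≡ SD X d = SD (X ⧸ S) d ≡ N (X ⧸ S) d` by `N_modEq_SD`.
-/

set_option autoImplicit false

namespace Pool.Agent.CGS

open Matrix

theorem N_quotient_modEq (X : Type) [Group X] [Finite X] {d : ℕ} (hd : Odd d) (S : Subgroup X)
    [S.Normal] (hS : Odd (Nat.card S)) : N X d ≡ N (X ⧸ S) d [MOD 2] := by
  obtain ⟨e, he, hsd, _, hsurj⟩ := exists_infl S d
  have h1 : SD (X ⧸ S) d = SD X d := by
    refine Nat.card_congr (Equiv.ofBijective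
      (fun c : {c : Cls (X ⧸ S) d // Has SelfDual c} =>
        (⟨e c.1, (hsd c.1).2 c.2⟩ : {c : Cls X d // Has SelfDual c})) ⟨?_, ?_⟩)
    · intro c c' h
      exact Subtype.ext (he (congrArg Subtype.val h))
    · rintro ⟨c, hc⟩
      have hk : S ≤ kerC c := by
        revert hc
        refine cls_ind (q := fun c => Has SelfDual c → S ≤ kerC c) (fun ρ h hc => ?_) c
        rw [kerC_mk]
        exact le_ker_of_odd hd h ((has_mk fun _ _ => SelfDual.of_sim).1 hc) S hS
      obtain ⟨c', rfl⟩ := hsurj c hk
      exact ⟨⟨c', (hsd c').1 hc⟩, rfl⟩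
  refine (N_modEq_SD X d).trans ?_
  rw [← h1]
  exact (N_modEq_SD (X ⧸ S) d).symm

end Pool.Agent.CGS
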