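import Pool.Agent.CGS.Deg

/-!
# The number of irreducible representations of odd degree modulo two

PACKAGE (statements frozen; auxiliary lemmas private; the imported files are black boxes, some
of them still contain sorry).

`sum_sq` gives `∑ d ∈ range (|G| + 1), d ^ 2 * N G d = |G|`. The terms with `|G| < d` vanish
(`N_eq_zero`), so the sum may be taken over `range (M + 1)`. Modulo `2` the terms with `d` even
vanish and `d ^ 2 = 1` for `d` odd.
-/

set_option autoImplicit false

namespace Pool.Agent.CGS

open Matrix

theorem sum_odd (G : Type) [Group G] [Finite G] {M : ℕ} (hM : Nat.card G ≤ M) :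
    ∑ d ∈ (Finset.range (M + 1)).filter (fun d => Odd d), N G d ≡ Nat.card G [MOD 2] := by
  have h1 : ∑ d ∈ Finset.range (M + 1), d ^ 2 * N G d = Nat.card G := by
    rw [← sum_sq G]
    symm
    apply Finset.sum_subset
    · intro d hd
      rw [Finset.mem_range] at hd ⊢
      omega
    · intro d _ hd
      rw [Finset.mem_range] at hd
      rw [N_eq_zero G (by omega), mul_zero]
  rw [← h1, Finset.sum_filter, ← ZMod.natCast_eq_natCast_iff]
  push_cast
  refine Finset.sum_congr rfl fun d _ => ?_
  split_ifs with h
  · have h2 : (d : ZMod 2) = 1 := by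
      obtain ⟨m, rfl⟩ := h
      push_cast
      have h4 : (2 : ZMod 2) = 0 := rfl
      rw [h4, zero_mul, zero_add]
    rw [h2, one_pow, one_mul]
  · have h2 : (d : ZMod 2) = 0 := by
      obtain ⟨m, rfl⟩ := Nat.not_odd_iff_even.1 h
      push_cast
      exact CharTwo.add_self_eq_zero _
    rw [h2, zero_pow two_ne_zero, zero_mul]

end Pool.Agent.CGS
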