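import Pool.Agent.CGS.Q3
import Pool.Agent.CGS.OddC
import Pool.Agent.CGS.SumOdd
import Pool.Agent.CGS.NoIdx
import Pool.Agent.CGS.Lin

/-!
# The number of irreducible representations of degree three is odd

PACKAGE (statements frozen; auxiliary lemmas private; the imported files are black boxes, some
of them still contain sorry).

Let `S, Q` be as in `Has23 X`. `Z = X ⧸ S` has no subgroup of index two (`NoIdx2.quotient`), `Q' =
Q.map (QuotientGroup.mk' S)` is normal of index three in `Z`
(`Subgroup.index_map_of_surjective`-type lemma, `S ≤ Q`) and is a 2-group: its order is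
`S.relIndex Q = 2 ^ k` (`Nat.card Q = Nat.card S * S.relIndex Q`, and `Nat.card Q = Nat.card S *
Nat.card Q'`), `IsPGroup.of_card`. By `deg_of_index_three` `N Z d = 0` for odd `d ≠ 1, 3` (the
type `Cls Z d` is empty). `Nat.card Z` is even because `Nat.card X = Nat.card Z * Nat.card S` is
even and `Nat.card S` is odd. By `sum_odd` with `M = Nat.card Z + 3` (so `1, 3 ∈ range (M + 1)`):
`N Z 1 + N Z 3 ≡ Nat.card Z ≡ 0` modulo 2. `N Z 1 = (commutator Z).index` is odd (`N_one`,
`NoIdx2.odd_index_commutator`). So `N Z 3` is odd, and `N X 3 ≡ N Z 3` modulo 2 by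
`N_quotient_modEq`.
-/

set_option autoImplicit false

namespace Pool.Agent.CGS

open Matrix

theorem odd_N_three {X : Type} [Group X] [Finite X] (h : Has23 X) (hX : NoIdx2 X)
    (he : 2 ∣ Nat.card X) : Odd (N X 3) := by
  obtain ⟨S, Q, hS, hQ, hSQ, hSo, hQ3, k, hk⟩ := h
  have hZ : NoIdx2 (X ⧸ S) := hX.quotient S
  have hsurj := QuotientGroup.mk'_surjective S
  have hQ'n : (Q.map (QuotientGroup.mk' S)).Normal := hQ.map _ hsurj
  have hQ'3 : (Q.map (QuotientGroup.mk' S)).index = 3 := by
    rw [← Subgroup.index_comap_of_surjective (Q.map (QuotientGroup.mk' S)) hsurj,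
      Subgroup.comap_map_eq, QuotientGroup.ker_mk', sup_eq_left.2 hSQ]
    exact hQ3
  have hcard : Nat.card (Q.map (QuotientGroup.mk' S)) = 2 ^ k := by
    have h1 : Nat.card (Q.map (QuotientGroup.mk' S)) * (Q.map (QuotientGroup.mk' S)).index =
        Nat.card (X ⧸ S) := Subgroup.card_mul_index _
    have h2 : S.relIndex Q * Q.index = S.index := Subgroup.relIndex_mul_index hSQ
    have h3 : Nat.card (X ⧸ S) = S.index := rfl
    rw [hQ'3, h3, ← h2, hk, hQ3] at h1
    exact Nat.eq_of_mul_eq_mul_right (by norm_num) h1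
  have hp : IsPGroup 2 (Q.map (QuotientGroup.mk' S)) := IsPGroup.of_card (n := k) hcard
  have hN0 : ∀ d, Odd d → d ≠ 1 → d ≠ 3 → N (X ⧸ S) d = 0 := by
    intro d hd h1 h3
    have : IsEmpty (Cls (X ⧸ S) d) := ⟨fun c => cls_ind (q := fun _ => False) (fun ρ hρ => by
      rcases deg_of_index_three (Q.map (QuotientGroup.mk' S)) hp hQ'3 hd hρ with h4 | h4
      · exact h1 h4
      · exact h3 h4) c⟩
    exact Nat.card_of_isEmpty
  have heZ : Even (Nat.card (X ⧸ S)) := by
    have h1 : Nat.card X = Nat.card (X ⧸ S) * Nat.card S :=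
      Subgroup.card_eq_card_quotient_mul_card_subgroup S
    have h2 : Even (Nat.card (X ⧸ S) * Nat.card S) := by
      rw [← h1]
      exact even_iff_two_dvd.2 he
    rcases Nat.even_mul.1 h2 with h3 | h3
    · exact h3
    · exact absurd h3 (Nat.not_even_iff_odd.2 hSo)
  have hs := sum_odd (X ⧸ S) (M := Nat.card (X ⧸ S) + 3) (Nat.le_add_right _ _)
  have hsum : ∑ d ∈ (Finset.range (Nat.card (X ⧸ S) + 3 + 1)).filter (fun d => Odd d),
      N (X ⧸ S) d = N (X ⧸ S) 1 + N (X ⧸ S) 3 := by
    rw [← Finset.sum_pair (f := fun d => N (X ⧸ S) d) (show (1 : ℕ) ≠ 3 by norm_num)]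
    symm
    refine Finset.sum_subset (fun d hd => ?_) fun d hd hd' => ?_
    · rw [Finset.mem_insert, Finset.mem_singleton] at hd
      rw [Finset.mem_filter, Finset.mem_range]
      rcases hd with rfl | rfl
      · exact ⟨by omega, by decide⟩
      · exact ⟨by omega, by decide⟩
    · rw [Finset.mem_insert, Finset.mem_singleton, not_or] at hd'
      exact hN0 d (Finset.mem_filter.1 hd).2 hd'.1 hd'.2
  rw [hsum] at hs
  have h1 : Odd (N (X ⧸ S) 1) := by
    rw [N_one]
    exact hZ.odd_index_commutator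
  have h3 : Odd (N (X ⧸ S) 3) := by
    rw [Nat.odd_iff] at h1 ⊢
    rw [Nat.even_iff] at heZ
    unfold Nat.ModEq at hs
    omega
  have h4 := N_quotient_modEq X (d := 3) (by decide) S hSo
  rw [Nat.odd_iff] at h3 ⊢
  unfold Nat.ModEq at h4
  omega

end Pool.Agent.CGS
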