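import Pool.Agent.CGS.Base

/-!
# Structure: passing to quotients, and an elementary abelian normal 2-subgroup

Statements frozen; auxiliary lemmas private; the imported files are black boxes.

* `has23_of_quotient`: let `S', Q'` be as in `Has23 (X ⧸ S₀)`, `π = QuotientGroup.mk' S₀`. Take `S
  = S'.comap π`, `Q = Q'.comap π`: normal, `S ≤ Q`, `Nat.card S = Nat.card S₀ * Nat.card S'` is
  odd, `Q.index = Q'.index = 3` (`Subgroup.index_comap_of_surjective`), `S.relIndex Q =
  S'.relIndex Q' = 2 ^ k` (`Subgroup.relIndex_comap`; or by counting: `relIndex` is the quotient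
  of the orders).
* `exists_T`: let `A` be the last nontrivial term of the derived series (`X` is solvable and
  nontrivial: take the least `m` with `derivedSeries X m = ⊥`, `m ≥ 1`, `A = derivedSeries X (m -
  1)`). `A` is normal, commutative (`⁅A, A⁆ = ⊥`), not trivial. The elements of odd order of `A`
  form a subgroup which is normal in `X` (characteristic in `A`; for instance `{a ∈ A | a ^ k =
  1}` with `k` the odd part of `Nat.card A`) and has odd order (Cauchy), so it is trivial. So
  `Nat.card A` is a power of two, `> 1`. Let `T = {a ∈ A | a * a = 1}`: a subgroup as `A` is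
  commutative, normal in `X`, and not trivial by Cauchy.
-/

set_option autoImplicit false

namespace Pool.Agent.CGS

open Matrix

theorem has23_of_quotient {X : Type} [Group X] [Finite X] (S₀ : Subgroup X) [S₀.Normal]
    (h₀ : Odd (Nat.card S₀)) (h : Has23 (X ⧸ S₀)) : Has23 X := by
  obtain ⟨S, Q, hS, hQ, hSQ, hodd, hidx, k, hk⟩ := h
  have hsurj := QuotientGroup.mk'_surjective S₀
  refine ⟨S.comap (QuotientGroup.mk' S₀), Q.comap (QuotientGroup.mk' S₀), hS.comap _,
    hQ.comap _, Subgroup.comap_mono hSQ, ?_, ?_, k, ?_⟩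
  · have h1 := (S.comap (QuotientGroup.mk' S₀)).card_mul_index
    rw [Subgroup.index_comap_of_surjective _ hsurj] at h1
    have h2 := S.card_mul_index
    have h3 := Subgroup.card_eq_card_quotient_mul_card_subgroup S₀
    have h4 : 0 < S.index := Nat.pos_of_ne_zero Subgroup.index_ne_zero_of_finite
    have h5 : Nat.card (S.comap (QuotientGroup.mk' S₀)) = Nat.card S * Nat.card S₀ := by
      refine Nat.eq_of_mul_eq_mul_right h4 ?_
      rw [h1, h3, ← h2]
      ring
    rw [h5]
    exact hodd.mul h₀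
  · rw [Subgroup.index_comap_of_surjective _ hsurj, hidx]
  · rw [Subgroup.relIndex_comap, Subgroup.map_comap_eq_self_of_surjective hsurj, hk]

/-- the elements of `A` killed by `n` -/
private def tn {X : Type} [Group X] (A : Subgroup X)
    (hc : ∀ a ∈ A, ∀ b ∈ A, a * b = b * a) (n : ℕ) : Subgroup X where
  carrier := {a | a ∈ A ∧ a ^ n = 1}
  one_mem' := ⟨A.one_mem, one_pow n⟩
  mul_mem' := by
    rintro a b ⟨ha, ha'⟩ ⟨hb, hb'⟩
    have h : Commute a b := hc a ha b hb
    exact ⟨A.mul_mem ha hb, by rw [h.mul_pow, ha', hb', one_mul]⟩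
  inv_mem' := by
    rintro a ⟨ha, ha'⟩
    exact ⟨A.inv_mem ha, by rw [inv_pow, ha', inv_one]⟩

private theorem tn_normal {X : Type} [Group X] (A : Subgroup X) (hA : A.Normal)
    (hc : ∀ a ∈ A, ∀ b ∈ A, a * b = b * a) (n : ℕ) : (tn A hc n).Normal := by
  refine ⟨fun a ha g => ⟨hA.conj_mem a ha.1 g, ?_⟩⟩
  rw [conj_pow, ha.2, mul_one, mul_inv_cancel]

theorem exists_T {X : Type} [Group X] [Finite X] [Nontrivial X] (hs : IsSolvable X)
    (hno : NoOdd X) : ∃ T : Subgroup X, T.Normal ∧ T ≠ ⊥ ∧ ∀ t ∈ T, t * t = 1 := by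
  classical
  obtain ⟨A, hA, hA1, hc⟩ : ∃ A : Subgroup X, A.Normal ∧ A ≠ ⊥ ∧
      ∀ a ∈ A, ∀ b ∈ A, a * b = b * a := by
    have hex : ∃ n, derivedSeries X n = ⊥ := hs.solvable
    have hm := Nat.find_spec hex
    have hmin := fun k (hk : k < Nat.find hex) => Nat.find_min hex hk
    rcases hme : Nat.find hex with _ | k
    · rw [hme, derivedSeries_zero] at hm
      exact absurd hm top_ne_bot
    · rw [hme] at hm hmin
      refine ⟨derivedSeries X k, inferInstance, hmin k (Nat.lt_succ_self k), ?_⟩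
      rw [derivedSeries_succ, Subgroup.commutator_eq_bot_iff_le_centralizer] at hm
      intro a ha b hb
      exact (Subgroup.mem_centralizer_iff.1 (hm ha) b hb).symm
  have hcauchy : ∀ (B : Subgroup X) (p : ℕ), p.Prime → p ∣ Nat.card B →
      ∃ x ∈ B, x ^ p = 1 ∧ x ≠ 1 := by
    intro B p hp hd
    haveI : Fact p.Prime := ⟨hp⟩
    obtain ⟨x, hx⟩ := exists_prime_orderOf_dvd_card' p hd
    refine ⟨x, x.2, ?_, fun h => ?_⟩
    · have h1 := pow_orderOf_eq_one x
      rw [hx] at h1
      have h2 := congrArg Subtype.val h1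
      simpa using h2
    · have h1 : x = 1 := Subtype.ext h
      rw [h1, orderOf_one] at hx
      exact hp.one_lt.ne hx
  have hcard : Nat.card A ≠ 1 := fun h => hA1 (Subgroup.card_eq_one.1 h)
  set p := (Nat.card A).minFac with hp
  have hpp : p.Prime := Nat.minFac_prime hcard
  have hpd : p ∣ Nat.card A := Nat.minFac_dvd _
  have hp2 : p = 2 := by
    by_contra hne
    have hpo : Odd p := hpp.odd_of_ne_two hne
    have h1 : Odd (Nat.card (tn A hc p)) := by
      by_contra h2
      rw [Nat.not_odd_iff_even, even_iff_two_dvd] at h2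
      obtain ⟨x, hx, hx2, hx1⟩ := hcauchy _ 2 Nat.prime_two h2
      obtain ⟨c, hc'⟩ := hpo
      have h3 : x ^ p = 1 := hx.2
      rw [hc', pow_succ, pow_mul, hx2, one_pow, one_mul] at h3
      exact hx1 h3
    have h2 := hno _ (tn_normal A hA hc p) h1
    obtain ⟨x, hx, hxp, hx1⟩ := hcauchy A p hpp hpd
    have h3 : x ∈ tn A hc p := ⟨hx, hxp⟩
    rw [h2, Subgroup.mem_bot] at h3
    exact hx1 h3
  obtain ⟨x, hx, hxp, hx1⟩ := hcauchy A p hpp hpd
  refine ⟨tn A hc 2, tn_normal A hA hc 2, fun h => hx1 ?_, fun t ht => ?_⟩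
  · have h3 : x ∈ tn A hc 2 := ⟨hx, by rw [← hp2]; exact hxp⟩
    rw [h, Subgroup.mem_bot] at h3
    exact h3
  · rw [← pow_two]
    exact ht.2

end Pool.Agent.CGS
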