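import Pool.Agent.CGS.ST2
import Pool.Agent.CGS.NoIdx

/-!
# Structure: the case of odd index, small 2-part

PACKAGE (statements frozen; auxiliary lemmas private; the imported files are black boxes, some
of them still contain sorry).

`T` is a commutative 2-group. Let `C = Subgroup.centralizer (T : Set X)`, a normal subgroup (`T`
is normal) with `T ≤ C`; `T.relIndex C` divides `T.index`, so it is odd, and `T` is central in
`C`. So `C = T` by `eq_of_central`. `Nat.card T = 2 ^ j` with `1 ≤ j`, and `j ≤ 3` because `16`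
does not divide `Nat.card X`. Note that `X ≠ T`, that is `T.index ≠ 1`: otherwise `X` is a
nontrivial 2-group and has a subgroup of index two (`exists_index_two_of_isPGroup`).

* `j = 1`: `T = {1, t}` and every conjugate of `t` is in `T` and not `1`, so `t` is central, `C =
  ⊤ = T`, impossible.
* `j = 2`: `X` acts by conjugation on the set of the three nontrivial elements of `T`; the kernel
  of this homomorphism `X → Equiv.Perm {t : T // t ≠ 1}` is `C = T`. So `T.index` divides `3! =
  6`; it is odd and not `1`, so it is `3`.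
* `j = 3`: we show that some `v ∈ T`, `v ≠ 1`, is central in `X` (then `4 ∣ 8 = Nat.card T`). `X`
  acts by conjugation on the seven nontrivial elements of `T`. The size of every orbit divides
  `T.index` (`T` is commutative so it is contained in the stabilizer: `Subgroup.index_dvd_of_le`),
  so it is odd, at most `7`, and not `7` (otherwise `7 ∣ Nat.card X`, but `8 ∣ Nat.card X`). If no
  orbit has size one then all sizes are `3` or `5`, and their sum is `7`, impossible (`3 a + 5 b ≠
  7`). So there is an orbit of size one.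
-/

set_option autoImplicit false

namespace Pool.Agent.CGS

open Matrix

/-- the conjugation action on a normal subgroup, as permutations -/
private def cjT {X : Type} [Group X] (T : Subgroup X) [T.Normal] : X →* Equiv.Perm T :=
  (MulAut.toPerm T).comp MulAut.conjNormal

private theorem cjT_coe {X : Type} [Group X] (T : Subgroup X) [T.Normal] (x : X) (t : T) :
    ((cjT T x t : T) : X) = x * t * x⁻¹ := by
  change ((MulAut.conjNormal x t : T) : X) = x * t * x⁻¹
  exact MulAut.conjNormal_apply x t

private theorem cjT_ker {X : Type} [Group X] (T : Subgroup X) [T.Normal] :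
    (cjT T).ker = Subgroup.centralizer (T : Set X) := by
  ext x
  rw [MonoidHom.mem_ker, Subgroup.mem_centralizer_iff]
  constructor
  · intro h t ht
    have h1 := cjT_coe T x ⟨t, ht⟩
    rw [h] at h1
    change t = x * t * x⁻¹ at h1
    exact (eq_mul_inv_iff_mul_eq.1 h1)
  · intro h
    ext t
    rw [cjT_coe, ← h t t.2, mul_inv_cancel_right]
    rfl

private theorem seven {X : Type} [Group X] [Finite X] (T : Subgroup X) [T.Normal]
    (hcomm : ∀ s ∈ T, ∀ t ∈ T, s * t = t * s) (hodd : Odd T.index) (h8 : Nat.card T = 8)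
    (h7 : ¬ 7 ∣ Nat.card X) : ∃ v ∈ T, v ≠ 1 ∧ ∀ x : X, x * v = v * x := by
  classical
  by_contra hno
  push Not at hno
  let _ : MulAction X T := MulAction.compHom T (cjT T)
  have hsm : ∀ (x : X) (t : T), x • t = cjT T x t := fun x t => rfl
  -- sizes of the orbits
  have hidx : ∀ t : T, (MulAction.orbit X t).ncard ∣ T.index := by
    intro t
    rw [← MulAction.index_stabilizer]
    apply Subgroup.index_dvd_of_le
    intro s hs
    rw [MulAction.mem_stabilizer_iff, hsm]
    ext
    rw [cjT_coe, hcomm s hs t t.2, mul_inv_cancel_right]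
  have hone : ∀ t : T, t ≠ 1 → ∀ s ∈ MulAction.orbit X t, s ≠ 1 := by
    rintro t ht _ ⟨x, rfl⟩ h
    apply ht
    have h1 : (cjT T x t : T) = 1 := h
    have h2 := cjT_coe T x t
    rw [h1] at h2
    ext
    have h3 : x * (t : X) * x⁻¹ = 1 := h2.symm
    rw [mul_inv_eq_one] at h3
    exact mul_eq_left.1 h3
  have hthree : ∀ t : T, t ≠ 1 → 3 ≤ (MulAction.orbit X t).ncard := by
    intro t ht
    have h1 : Odd (MulAction.orbit X t).ncard := hodd.of_dvd_nat (hidx t)
    have h2 : (MulAction.orbit X t).ncard ≠ 1 := by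
      intro h3
      obtain ⟨a, ha⟩ := Set.ncard_eq_one.1 h3
      obtain ⟨x, hx⟩ := hno t t.2 (fun h => ht (Subtype.ext h))
      apply hx
      have h4 : t ∈ MulAction.orbit X t := MulAction.mem_orbit_self t
      have h5 : x • t ∈ MulAction.orbit X t := MulAction.mem_orbit t x
      rw [ha, Set.mem_singleton_iff] at h4 h5
      have h6 : (cjT T x t : T) = t := by rw [← hsm, h5, h4]
      have h7 := cjT_coe T x t
      rw [h6] at h7
      exact (eq_mul_inv_iff_mul_eq.1 h7).symm
    obtain ⟨r, hr⟩ := h1
    omega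
  have hc7 : ({1}ᶜ : Set T).ncard = 7 := by
    rw [Set.ncard_compl, Set.ncard_singleton, h8]
  have hle : ∀ A : Set T, (∀ s ∈ A, s ≠ 1) → A.ncard ≤ 7 := by
    intro A hA
    rw [← hc7]
    exact Set.ncard_le_ncard (fun s hs => hA s hs) (Set.toFinite _)
  have hex : ∀ A : Set T, A.ncard < 7 → ∃ s, s ∉ A ∧ s ≠ 1 := by
    intro A hA
    by_contra h
    push Not at h
    have h1 : ({1}ᶜ : Set T) ⊆ A := by
      intro s hs
      by_contra h2
      exact hs (h s h2)
    have h2 := Set.ncard_le_ncard h1 (Set.toFinite _)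
    omega
  have hdis : ∀ s t : T, s ∉ MulAction.orbit X t →
      Disjoint (MulAction.orbit X t) (MulAction.orbit X s) := by
    intro s t hst
    rcases MulAction.orbit.eq_or_disjoint (G := X) t s with h | h
    · exact absurd (h ▸ MulAction.mem_orbit_self s) hst
    · exact h
  have hnt : ∃ t : T, t ≠ 1 := by
    obtain ⟨t, _, ht⟩ := hex ∅ (by simp)
    exact ⟨t, ht⟩
  obtain ⟨t, ht⟩ := hnt
  have ha := hthree t ht
  have ha7 := hle _ (hone t ht)
  have ha7' : (MulAction.orbit X t).ncard ≠ 7 := by
    intro h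
    exact h7 (h ▸ (hidx t).trans T.index_dvd_card)
  obtain ⟨s, hs, hs1⟩ := hex _ (lt_of_le_of_ne ha7 ha7')
  have hb := hthree s hs1
  have hab := Set.ncard_union_eq (hdis s t hs) (Set.toFinite _) (Set.toFinite _)
  have hab7 := hle (MulAction.orbit X t ∪ MulAction.orbit X s) (by
    rintro r (hr | hr)
    · exact hone t ht r hr
    · exact hone s hs1 r hr)
  have hoa : Odd (MulAction.orbit X t).ncard := hodd.of_dvd_nat (hidx t)
  have hob : Odd (MulAction.orbit X s).ncard := hodd.of_dvd_nat (hidx s)
  obtain ⟨u, hu, hu1⟩ := hex (MulAction.orbit X t ∪ MulAction.orbit X s) (by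
    obtain ⟨p, hp⟩ := hoa
    obtain ⟨q, hq⟩ := hob
    omega)
  have hc := hthree u hu1
  have hd : Disjoint (MulAction.orbit X t ∪ MulAction.orbit X s) (MulAction.orbit X u) := by
    rw [Set.disjoint_union_left]
    exact ⟨hdis u t fun h => hu (Or.inl h), hdis u s fun h => hu (Or.inr h)⟩
  have habc := Set.ncard_union_eq hd (Set.toFinite _) (Set.toFinite _)
  have habc7 := hle (MulAction.orbit X t ∪ MulAction.orbit X s ∪ MulAction.orbit X u) (by
    rintro r ((hr | hr) | hr)
    · exact hone t ht r hr
    · exact hone s hs1 r hr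
    · exact hone u hu1 r hr)
  omega

theorem case_small {X : Type} [Group X] [Finite X] (hX : NoIdx2 X) (hno : NoOdd X)
    (h16 : ¬ 16 ∣ Nat.card X) (h7 : 8 ∣ Nat.card X → ¬ 7 ∣ Nat.card X) (T : Subgroup X)
    [T.Normal] (hT : ∀ t ∈ T, t * t = 1) (hne : T ≠ ⊥) (hodd : Odd T.index) :
    T.index = 3 ∨ ∃ v ∈ T, v ≠ 1 ∧ (∀ x : X, x * v = v * x) ∧ 4 ∣ Nat.card T := by
  have hp : IsPGroup 2 T := by
    intro t
    refine ⟨1, ?_⟩
    ext
    rw [pow_one, pow_two]
    exact hT t t.2
  have hinv : ∀ t ∈ T, t⁻¹ = t := fun t ht => inv_eq_of_mul_eq_one_right (hT t ht)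
  have hcomm : ∀ s ∈ T, ∀ t ∈ T, s * t = t * s := by
    intro s hs t ht
    have h1 := hinv _ (T.mul_mem hs ht)
    rw [_root_.mul_inv_rev, hinv s hs, hinv t ht] at h1
    exact h1.symm
  have hTC : T ≤ Subgroup.centralizer (T : Set X) := by
    intro s hs
    rw [Subgroup.mem_centralizer_iff]
    intro t ht
    exact hcomm t ht s hs
  have hC : Subgroup.centralizer (T : Set X) = T := by
    have hn : (Subgroup.centralizer (T : Set X)).Normal := inferInstance
    refine eq_of_central hno T _ hTC hp ?_ ?_
    · intro t ht u hu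
      exact (Subgroup.mem_centralizer_iff.1 hu) t ht
    · have h1 := Subgroup.relIndex_mul_index hTC
      exact hodd.of_dvd_nat ⟨_, h1.symm⟩
  have hnt : Nontrivial T := by
    rw [Subgroup.nontrivial_iff_ne_bot]
    exact hne
  have hidx1 : T.index ≠ 1 := by
    intro h
    have h1 : T = ⊤ := Subgroup.index_eq_one.1 h
    have h2 : IsPGroup 2 X := by
      intro x
      refine ⟨1, ?_⟩
      rw [pow_one, pow_two]
      exact hT x (h1 ▸ Subgroup.mem_top x)
    have h3 : Nontrivial X := by
      obtain ⟨a, b, hab⟩ := hnt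
      exact ⟨a, b, fun h => hab (Subtype.ext h)⟩
    obtain ⟨Y, hY⟩ := exists_index_two_of_isPGroup h2
    exact hX Y hY
  obtain ⟨j, hj⟩ := IsPGroup.iff_card.1 hp
  have hcard := T.card_mul_index
  have hj0 : j ≠ 0 := by
    rintro rfl
    have h1 : 1 < Nat.card T := Finite.one_lt_card
    rw [hj, pow_zero] at h1
    exact absurd h1 (lt_irrefl 1)
  have hj4 : j < 4 := by
    by_contra h
    push Not at h
    apply h16
    rw [← hcard, hj]
    exact (pow_dvd_pow 2 h).trans (Dvd.intro _ rfl)
  have hker : (cjT T).ker = T := by rw [cjT_ker, hC]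
  have hdvd : T.index ∣ (Nat.card T).factorial := by
    have h1 : Nat.card (cjT T).range ∣ Nat.card (Equiv.Perm T) :=
      Subgroup.card_subgroup_dvd_card _
    rw [Nat.card_perm, ← Subgroup.index_ker, hker] at h1
    exact h1
  interval_cases j
  · exact absurd rfl hj0
  · -- order two
    exfalso
    rw [hj] at hdvd
    have h1 : T.index ∣ 2 := hdvd
    have h2 := (Nat.dvd_prime Nat.prime_two).1 h1
    rcases h2 with h2 | h2
    · exact hidx1 h2
    · rw [h2] at hodd
      exact absurd hodd (by decide)
  · -- order four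
    left
    rw [hj] at hdvd
    have h1 : T.index ∣ 24 := hdvd
    have h2 : T.index ≤ 24 := Nat.le_of_dvd (by norm_num) h1
    generalize T.index = m at *
    interval_cases m <;> first | rfl | (exfalso; revert hodd; decide) |
      (exfalso; revert h1; decide) | (exfalso; exact hidx1 rfl)
  · -- order eight
    right
    have h8 : Nat.card T = 8 := hj
    have h8' : 8 ∣ Nat.card X := by
      rw [← h8]
      exact T.card_subgroup_dvd_card
    obtain ⟨v, hv, hv1, hvc⟩ := seven T hcomm hodd h8 (h7 h8')
    exact ⟨v, hv, hv1, hvc, by rw [h8]; norm_num⟩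

end Pool.Agent.CGS
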