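import Pool.Agent.CGS.ST2
import Pool.Agent.CGS.FA
import Pool.Agent.CGS.NoIdx

/-!
# Structure: the case of odd index, harmless primes

PACKAGE (statements frozen; auxiliary lemmas private; the imported files are black boxes, some
of them still contain sorry).

`T` is a commutative 2-group. As in file `ST3`: `C = Subgroup.centralizer (T : Set X)` is normal,
`T ≤ C`, `T.relIndex C` is odd, so `C = T` by `eq_of_central`. Let `p ≥ 5` be a prime divisor of
`T.index`; let `P` be a Sylow `p`-subgroup of `X` (nontrivial). Every `g ∈ P` has `p`-power order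
and normalises `T`, so it commutes with all elements of `T` by `commute_of_harmless` (`hh`, since
`2 ^ i ∣ Nat.card T` implies `2 ^ i ∣ Nat.card X`). So `P ≤ C = T`, a 2-group: a contradiction. So
the only prime divisor of `T.index` is `3` (`T.index` is odd), `T.index = 3 ^ k`
(`Nat.eq_prime_pow_of_unique_prime_dvd`), and `k ≤ 1` because `9` does not divide `Nat.card X`. If
`k = 0` then `X = T` is a nontrivial 2-group, which has a subgroup of index two
(`exists_index_two_of_isPGroup`), a contradiction. So `T.index = 3`.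
-/

set_option autoImplicit false

namespace Pool.Agent.CGS

open Matrix

theorem case_harmless {X : Type} [Group X] [Finite X] (hX : NoIdx2 X) (hno : NoOdd X)
    (h9 : ¬ 9 ∣ Nat.card X)
    (hh : ∀ p i : ℕ, p.Prime → 5 ≤ p → p ∣ Nat.card X → 1 ≤ i → 2 ^ i ∣ Nat.card X →
      ¬ p ∣ 2 ^ i - 1) (T : Subgroup X) [T.Normal] (hT : ∀ t ∈ T, t * t = 1) (hne : T ≠ ⊥)
    (hodd : Odd T.index) : T.index = 3 := by
  have hT2 : IsPGroup 2 T := by
    rintro ⟨t, ht⟩
    refine ⟨1, Subtype.ext ?_⟩
    change t ^ 2 ^ 1 = 1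
    rw [pow_one, pow_two]
    exact hT t ht
  have hcomm : ∀ t ∈ T, ∀ u ∈ T, t * u = u * t := by
    intro t ht u hu
    have h1 := hT (t * u) (T.mul_mem ht hu)
    have h2 : t * u = (t * u)⁻¹ := eq_inv_of_mul_eq_one_left h1
    rw [h2, _root_.mul_inv_rev, inv_eq_of_mul_eq_one_left (hT u hu), inv_eq_of_mul_eq_one_left (hT t ht)]
  have hTC : T ≤ Subgroup.centralizer (T : Set X) := by
    intro t ht
    rw [Subgroup.mem_centralizer_iff]
    exact fun u hu => hcomm u hu t ht
  have hCo : Odd (T.relIndex (Subgroup.centralizer (T : Set X))) := by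
    have h1 := Subgroup.relIndex_mul_index hTC
    rw [← h1] at hodd
    exact (Nat.odd_mul.1 hodd).1
  have hCT : Subgroup.centralizer (T : Set X) = T := by
    refine eq_of_central hno T _ hTC hT2 (fun t ht u hu => ?_) hCo
    exact Subgroup.mem_centralizer_iff.1 hu t ht
  have hdvd : T.index ∣ Nat.card X := T.index_dvd_card
  have hp3 : ∀ {p : ℕ}, p.Prime → p ∣ T.index → p = 3 := by
    intro p hp hpi
    have hp2 : p ≠ 2 := by
      rintro rfl
      exact (Nat.not_even_iff_odd.2 hodd) (even_iff_two_dvd.2 hpi)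
    by_contra hp3
    have h5 : 5 ≤ p := by
      have h1 := hp.two_le
      have h4 : p ≠ 4 := by
        rintro rfl
        exact absurd hp (by norm_num)
      omega
    have hpX : p ∣ Nat.card X := hpi.trans hdvd
    have : Fact p.Prime := ⟨hp⟩
    obtain ⟨g, hg⟩ := exists_prime_orderOf_dvd_card' (G := X) p hpX
    have h6 := commute_of_harmless T hT2 hp hp2 g ⟨1, by rw [pow_one]; exact hg⟩
      (fun r hr => Subgroup.Normal.conj_mem inferInstance r hr g)
      (fun i hi h2 => hh p i hp h5 hpX hi (h2.trans T.card_subgroup_dvd_card))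
    have h7 : g ∈ T := by
      rw [← hCT, Subgroup.mem_centralizer_iff]
      exact fun r hr => (h6 r hr).symm
    have h8 : orderOf g ∣ 2 := orderOf_dvd_of_pow_eq_one (by rw [pow_two]; exact hT g h7)
    rw [hg] at h8
    exact hp2 ((Nat.prime_dvd_prime_iff_eq hp Nat.prime_two).1 h8)
  have hne0 : T.index ≠ 0 := Subgroup.index_ne_zero_of_finite
  obtain ⟨k, hk⟩ : ∃ k, T.index = 3 ^ k := ⟨_, Nat.eq_prime_pow_of_unique_prime_dvd hne0 hp3⟩
  rcases k with _ | _ | k
  · exfalso
    rw [pow_zero, Subgroup.index_eq_one] at hk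
    have hX2 : IsPGroup 2 X := by
      intro x
      have hx : x ∈ T := by rw [hk]; exact Subgroup.mem_top x
      obtain ⟨j, hj⟩ := hT2 ⟨x, hx⟩
      exact ⟨j, congrArg Subtype.val hj⟩
    have : Nontrivial X := by
      obtain ⟨t, ht1⟩ := Subgroup.ne_bot_iff_exists_ne_one.1 hne
      exact ⟨⟨(t : X), 1, fun h => ht1 (Subtype.ext h)⟩⟩
    obtain ⟨Y, hY⟩ := exists_index_two_of_isPGroup hX2
    exact hX Y hY
  · rw [hk]
    norm_num
  · exfalso
    apply h9
    rw [hk] at hdvd
    exact (Dvd.intro_left (3 ^ k) (by rw [pow_succ, pow_succ]; ring)).trans hdvd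

end Pool.Agent.CGS
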