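import Pool.Agent.CGS.ST2
import Pool.Agent.CGS.FA
import Pool.Agent.CGS.NoIdx

/-!
# Structure: the case of even index

PACKAGE (statements frozen; auxiliary lemmas private; the imported files are black boxes, some
of them still contain sorry).

Let `S', Q'` be as in `Has23 (X ⧸ T)`, `π = QuotientGroup.mk' T`, `U = S'.comap π`, `Q = Q'.comap
π`. `U`, `Q` are normal, `T ≤ U ≤ Q`, `T.relIndex U = Nat.card S'` is odd, `Q.index = 3`,
`U.relIndex Q = 2 ^ k`. `Nat.card T = 2 ^ j`, `j ≥ 1` (all elements have square one, `T ≠ ⊥`).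

Claim: `T` is central in `U`. Then `U = T` by `eq_of_central`, so `Nat.card Q = 2 ^ (j + k)`, and
`S = ⊥` and `Q` show `Has23 X` (`(⊥ : Subgroup X).relIndex Q = Nat.card Q`).

* if `n ≤ 3` (first two cases of `Good`): `X ⧸ T` has even order and no subgroup of index two
  (`NoIdx2.quotient`), so `4 ∣ T.index` (`NoIdx2.four_dvd`); `2 ^ (n + 1) ∤ Nat.card X = 2 ^ j *
  T.index`, so `j + 2 ≤ n ≤ 3` and `j = 1`, `T = {1, t}`; every conjugate of `t` is in `T` and not
  `1`, so `t` is central in `X`.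
* third case: apply `centralize_of_odd_index`. Let `p` be a prime divisor of `T.relIndex U`; it is
  odd. `3 * T.relIndex U` divides `Nat.card X` (`Nat.card X = Nat.card T * T.relIndex U *
  U.relIndex Q * 3`), so `p ≠ 3` because `9 ∤ Nat.card X`. So `p ≥ 5`, and if `1 ≤ i` and `2 ^ i ∣
  Nat.card T` then `2 ^ i ∣ Nat.card X` and `i ≤ n` (otherwise `2 ^ (n + 1) ∣ Nat.card X`), so `¬
  p ∣ 2 ^ i - 1` by `Good`.
-/

set_option autoImplicit false

namespace Pool.Agent.CGS

open Matrix

theorem case_even {X : Type} [Group X] [Finite X] {n : ℕ} (hX : NoIdx2 X) (hno : NoOdd X)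
    (hn : ¬ 2 ^ (n + 1) ∣ Nat.card X) (hG : Good n (Nat.card X)) (T : Subgroup X) [T.Normal]
    (hT : ∀ t ∈ T, t * t = 1) (hne : T ≠ ⊥) (heven : 2 ∣ T.index) (hind : Has23 (X ⧸ T)) :
    Has23 X := by
  classical
  have : Fact (Nat.Prime 2) := ⟨Nat.prime_two⟩
  obtain ⟨S', Q', hS', hQ', hSQ, hoddS, hidx, k, hk⟩ := hind
  have hsurj : Function.Surjective (QuotientGroup.mk' T) := QuotientGroup.mk'_surjective T
  have hTcomap : (⊥ : Subgroup (X ⧸ T)).comap (QuotientGroup.mk' T) = T := by
    rw [MonoidHom.comap_bot, QuotientGroup.ker_mk']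
  obtain ⟨U, hU⟩ : ∃ U, U = S'.comap (QuotientGroup.mk' T) := ⟨_, rfl⟩
  obtain ⟨Q, hQ⟩ : ∃ Q, Q = Q'.comap (QuotientGroup.mk' T) := ⟨_, rfl⟩
  have hUn : U.Normal := hU ▸ hS'.comap (QuotientGroup.mk' T)
  have hQn : Q.Normal := hQ ▸ hQ'.comap (QuotientGroup.mk' T)
  have hTU : T ≤ U := by
    rw [hU]
    exact hTcomap.symm.le.trans (Subgroup.comap_mono bot_le)
  have hUQ : U ≤ Q := by
    rw [hU, hQ]
    exact Subgroup.comap_mono hSQ
  have hrTU : T.relIndex U = Nat.card S' := by
    have h := Subgroup.relIndex_comap (⊥ : Subgroup (X ⧸ T)) (QuotientGroup.mk' T) U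
    rw [hTcomap, hU, Subgroup.map_comap_eq_self_of_surjective hsurj,
      Subgroup.relIndex_bot_left] at h
    rw [hU]
    exact h
  have hrUQ : U.relIndex Q = 2 ^ k := by
    rw [hU, Subgroup.relIndex_comap, hQ, Subgroup.map_comap_eq_self_of_surjective hsurj, hk]
  have hQ3 : Q.index = 3 := by
    rw [hQ, Subgroup.index_comap_of_surjective _ hsurj, hidx]
  have hT2 : IsPGroup 2 T := fun t => ⟨1, Subtype.ext (by
    rw [pow_one, pow_two]
    exact hT t.1 t.2)⟩
  obtain ⟨j, hj⟩ := IsPGroup.iff_card.1 hT2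
  have hj1 : 1 ≤ j := by
    by_contra h0
    have h0' : j = 0 := by omega
    rw [h0', pow_zero] at hj
    exact hne (Subgroup.card_eq_one.1 hj)
  have hodd : Odd (T.relIndex U) := by
    rw [hrTU]
    exact hoddS
  have hcQ : Nat.card Q = Nat.card T * T.relIndex U * U.relIndex Q := by
    rw [← Subgroup.relIndex_bot_left T, Subgroup.relIndex_mul_relIndex ⊥ T U bot_le hTU,
      Subgroup.relIndex_mul_relIndex ⊥ U Q bot_le hUQ, Subgroup.relIndex_bot_left]
  have hcX : Nat.card X = Nat.card T * T.relIndex U * U.relIndex Q * 3 := by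
    rw [← hcQ, ← hQ3, Subgroup.card_mul_index]
  have hsmall : n ≤ 3 → ∀ t ∈ T, ∀ u ∈ U, t * u = u * t := by
    intro hn3
    have h4 : 4 ∣ T.index := by
      rw [Subgroup.index_eq_card]
      refine (hX.quotient T).four_dvd ?_
      rw [← Subgroup.index_eq_card]
      exact heven
    have hj2 : j < 2 := by
      by_contra hj2
      refine hn (dvd_trans (pow_dvd_pow 2 (show n + 1 ≤ j + 2 by omega)) ?_)
      rw [← Subgroup.card_mul_index T, hj, pow_add]
      exact mul_dvd_mul_left _ h4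
    have hj' : j = 1 := by omega
    rw [hj', pow_one] at hj
    obtain ⟨y, hy, hy'⟩ := (Nat.card_eq_two_iff' (1 : T)).1 hj
    intro t ht u _
    by_cases h1 : t = 1
    · rw [h1, one_mul, mul_one]
    · have hut : u * t * u⁻¹ ∈ T := Subgroup.Normal.conj_mem inferInstance t ht u
      have e1 : (⟨t, ht⟩ : T) = y := hy' _ fun e => h1 (congrArg Subtype.val e)
      have e2 : (⟨u * t * u⁻¹, hut⟩ : T) = y := hy' _ fun e => h1 (by
        have e' : u * t * u⁻¹ = 1 := congrArg Subtype.val e
        rw [mul_inv_eq_one] at e'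
        exact mul_eq_left.1 e')
      have e3 : t = u * t * u⁻¹ := congrArg Subtype.val (e1.trans e2.symm)
      exact eq_mul_inv_iff_mul_eq.1 e3
  have hc : ∀ t ∈ T, ∀ u ∈ U, t * u = u * t := by
    rcases hG with h | ⟨h, _⟩ | ⟨h9, hG⟩
    · exact hsmall (by omega)
    · exact hsmall (by omega)
    · refine centralize_of_odd_index T U hTU hT hodd fun p hp hpd i hi hid => ?_
      have h3 : 3 * T.relIndex U ∣ Nat.card X := by
        rw [hcX]
        exact ⟨Nat.card T * U.relIndex Q, by ring⟩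
      have hp2 : p ≠ 2 := by
        rintro rfl
        exact (Nat.not_even_iff_odd.2 hodd) (even_iff_two_dvd.2 hpd)
      have hp3 : p ≠ 3 := by
        rintro rfl
        exact h9 ((mul_dvd_mul_left 3 hpd).trans h3)
      have hp5 : 5 ≤ p := by
        by_contra h5
        have := hp.two_le
        have h4 : p = 4 := by omega
        rw [h4] at hp
        exact absurd hp (by norm_num)
      refine hG p i hp hp5 ((dvd_mul_of_dvd_right hpd 3).trans h3) hi ?_
      by_contra hin
      exact hn ((pow_dvd_pow 2 (show n + 1 ≤ i by omega)).trans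
        (hid.trans (Subgroup.card_subgroup_dvd_card T)))
  have hUT : U = T := eq_of_central hno T U hTU hT2 hc hodd
  refine ⟨⊥, Q, inferInstance, hQn, bot_le, ?_, hQ3, j + k, ?_⟩
  · rw [Subgroup.card_bot]
    exact odd_one
  · rw [Subgroup.relIndex_bot_left, hcQ, hrUQ, hUT, Subgroup.relIndex_self, hj, mul_one, pow_add]

end Pool.Agent.CGS
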