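import Pool.Agent.CGS.S2lem
import Pool.Agent.CGS.ST1
import Pool.Agent.CGS.ST3
import Pool.Agent.CGS.ST4
import Pool.Agent.CGS.ST5

/-!
# The structure of the 2-residual on the soluble side

PACKAGE (statements frozen; auxiliary lemmas private; the imported files are black boxes, some
of them still contain sorry).

Strong induction on `Nat.card X` (for all `X`).

* if there is a normal `S₀ ≠ ⊥` of odd order: `X ⧸ S₀` is smaller, `S2.quotient`,
  `NoIdx2.quotient`; its order is even (`Nat.card X = Nat.card (X ⧸ S₀) * Nat.card S₀`) and
  divides `Nat.card X`, so `2 ^ (n + 1)` does not divide it and `Good.of_dvd` applies. By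
  induction `Has23 (X ⧸ S₀)`, and `Has23 X` by `has23_of_quotient`.
* otherwise `NoOdd X`; `X` is nontrivial (even order) and solvable (`S2.isSolvable`). Take `T`
  from `exists_T`.
* if `T.index` is even: `X ⧸ T` is smaller (`T ≠ ⊥`) and satisfies all hypotheses (order
  `T.index`), so `Has23 (X ⧸ T)` by induction, and `case_even`.
* if `T.index` is odd: if `T.index = 3` then `Has23 X` with `S = ⊥`, `Q = T` (`(⊥ : Subgroup
  X).relIndex T = Nat.card T = 2 ^ j`). In the third case of `Good` this follows from
  `case_harmless` (`2 ^ i ∣ Nat.card X` implies `i ≤ n`). In the first two cases use `case_small`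
  (`16 ∤ Nat.card X` because `n ≤ 3`; if `8 ∣ Nat.card X` then `n = 3`, so `7 ∤ Nat.card X`):
  either `T.index = 3`, or there is `v ∈ T`, `v ≠ 1`, central in `X`, and `4 ∣ Nat.card T`. In the
  latter case let `T' = Subgroup.zpowers v = {1, v}`: normal (central), `v * v = 1`, `≠ ⊥`, and
  `T'.index = Nat.card X / 2` is even since `4 ∣ Nat.card T ∣ Nat.card X`. Now apply the previous
  case (induction for `X ⧸ T'` and `case_even`) to `T'`.
-/

set_option autoImplicit false

namespace Pool.Agent.CGS

open Matrix

theorem structure_two {X : Type} [Group X] [Finite X] {n : ℕ} (hs : S2 X) (hX : NoIdx2 X)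
    (h2 : 2 ∣ Nat.card X) (hn : ¬ 2 ^ (n + 1) ∣ Nat.card X) (hG : Good n (Nat.card X)) :
    Has23 X := by
  obtain ⟨N, hN⟩ : ∃ N, N = Nat.card X := ⟨_, rfl⟩
  induction N using Nat.strong_induction_on generalizing X with
  | _ N ih =>
    subst hN
    have quot : ∀ (M : Subgroup X) [M.Normal], M ≠ ⊥ → 2 ∣ M.index → Has23 (X ⧸ M) := by
      intro M hM hne h2'
      have h1 : Nat.card M * M.index = Nat.card X := M.card_mul_index
      have hcard : 1 < Nat.card M := (Subgroup.one_lt_card_iff_ne_bot M).2 hne
      have hpos : 0 < M.index := Nat.pos_of_ne_zero M.index_ne_zero_of_finite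
      have hlt : M.index < Nat.card X := by
        rw [← h1]
        nlinarith
      have hdvd : M.index ∣ Nat.card X := ⟨Nat.card M, by rw [← h1, mul_comm]⟩
      exact ih M.index hlt (X := X ⧸ M) (hs.quotient M) (hX.quotient M) h2'
        (fun h => hn (h.trans hdvd)) (hG.of_dvd hdvd) rfl
    by_cases hno : NoOdd X
    · have hnt : Nontrivial X := by
        rw [← Finite.one_lt_card_iff_nontrivial]
        exact Nat.lt_of_succ_le (Nat.le_of_dvd Nat.card_pos h2)
      obtain ⟨T, hTn, hT0, hT⟩ := exists_T (hs.isSolvable hno) hno
      have hev : ∀ (T' : Subgroup X) [T'.Normal], T' ≠ ⊥ → (∀ t ∈ T', t * t = 1) →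
          2 ∣ T'.index → Has23 X := by
        intro T' _ hne hT' h2'
        exact case_even hX hno hn hG T' hT' hne h2' (quot T' hne h2')
      rcases Nat.even_or_odd T.index with he | ho
      · exact hev T hT0 hT he.two_dvd
      · have h3 : T.index = 3 → Has23 X := by
          intro h3
          have hp : IsPGroup 2 T := fun g => ⟨1, by
            apply Subtype.ext
            rw [pow_one, pow_two]
            exact hT g g.2⟩
          obtain ⟨k, hk⟩ := IsPGroup.iff_card.1 hp
          refine ⟨⊥, T, inferInstance, hTn, bot_le, ?_, h3, k, ?_⟩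
          · rw [Subgroup.card_bot]
            exact odd_one
          · rw [Subgroup.relIndex_bot_left]
            exact hk
        have hsmall : n ≤ 3 → (8 ∣ Nat.card X → ¬ 7 ∣ Nat.card X) → Has23 X := by
          intro hn3 h7
          have h16 : ¬ 16 ∣ Nat.card X := by
            intro h
            refine hn (dvd_trans ?_ h)
            exact pow_dvd_pow 2 (show n + 1 ≤ 4 by omega)
          rcases case_small hX hno h16 h7 T hT hT0 ho with h | ⟨v, hvT, hv1, hvc, h4⟩
          · exact h3 h
          · have hle : Subgroup.zpowers v ≤ Subgroup.center X := by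
              rw [Subgroup.zpowers_le]
              exact Subgroup.mem_center_iff.2 hvc
            have : (Subgroup.zpowers v).Normal := ⟨fun a ha g => by
              have h5 := Subgroup.mem_center_iff.1 (hle ha) g
              rw [h5, mul_assoc, mul_inv_cancel, mul_one]
              exact ha⟩
            refine hev (Subgroup.zpowers v) ?_ ?_ ?_
            · rw [Ne, Subgroup.zpowers_eq_bot]
              exact hv1
            · rintro t ⟨k, rfl⟩
              have h5 := (Commute.refl v).mul_zpow k
              rw [hT v hvT, _root_.one_zpow] at h5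
              exact h5.symm
            · have h5 : Nat.card (Subgroup.zpowers v) = 2 := by
                rw [Nat.card_zpowers]
                exact orderOf_eq_prime (by rw [pow_two]; exact hT v hvT) hv1
              have h6 := (Subgroup.zpowers v).card_mul_index
              rw [h5] at h6
              have h7 : 4 ∣ Nat.card X := h4.trans (Subgroup.card_subgroup_dvd_card T)
              omega
        rcases hG with h | ⟨hn3, h7⟩ | ⟨h9, hp⟩
        · refine hsmall (by omega) fun h8 => absurd ?_ hn
          refine dvd_trans ?_ h8
          exact pow_dvd_pow 2 (show n + 1 ≤ 3 by omega)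
        · exact hsmall hn3.le fun _ => h7
        · refine h3 (case_harmless hX hno h9 ?_ T hT hT0 ho)
          intro p i hpp h5 hpd h1 hi
          refine hp p i hpp h5 hpd h1 ?_
          by_contra hcon
          exact hn (dvd_trans (pow_dvd_pow 2 (by omega)) hi)
    · unfold NoOdd at hno
      push Not at hno
      obtain ⟨S₀, hS, hodd, hne⟩ := hno
      have h1 : Nat.card S₀ * S₀.index = Nat.card X := S₀.card_mul_index
      have h3 : 2 ∣ S₀.index := by
        rw [← h1] at h2
        exact (Nat.Coprime.dvd_of_dvd_mul_left (Nat.coprime_two_left.2 hodd) h2)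
      exact has23_of_quotient S₀ hodd (quot S₀ hne h3)

end Pool.Agent.CGS
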