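import Pool.Agent.CGS.ResB
import Pool.Agent.CGS.Q3N
import Pool.Agent.CGS.KerB
import Pool.Agent.CGS.Struct
import Pool.Agent.CGS.CaseA
import Pool.Agent.CGS.MainH

/-!
# The theorem

PACKAGE (statements frozen; auxiliary lemmas private; the imported files are black boxes, some
of them still contain sorry).

Take `A, f` and `B, g` from `residual_congr`. `f.range ≤ K` by `range_le` (file `NoIdx`), so
`Nat.card A = Nat.card f.range` divides `Nat.card K` and `Nat.card G`, and `2 ^ (n + 1)` does not
divide `Nat.card A = Nat.card B`. `Nat.card H = Nat.card G` (`card_congr`) and `Nat.card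
(commutator H) = Nat.card (commutator G)` (`N_congr` for `d = 1`, `N_one`,
`Subgroup.card_mul_index`).

* if `Nat.card A` is odd then `Nat.card B` is odd, `S2 B` with `m = 0` (`derivedSeries B 0 = ⊤`),
  and `S2 H` by `S2.of_derivedSeries_le`.
* otherwise `2 ∣ Nat.card A` and `Has23 A`: in the first case of `h` by `structure_two`
  (`S2.of_injective`, `Good.of_dvd`), in the second case by `has23_of_case_A`. So `N A 3` is odd
  (`odd_N_three`), and `N B 3 ≡ N A 3` modulo 4, so `N B 3` is odd, and `exists_kernel` gives a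
  normal subgroup `M` of `B` of index `12` or `24`. `GoodH n (Nat.card H) (Nat.card (commutator
  H))` holds: in the first case by `Good.goodH` (the order of the commutator subgroup divides the
  order), in the second case by assumption, using the equalities of orders. So `S2 B` by
  `s2_of_kernel`, and `S2 H` by `S2.of_derivedSeries_le`.
-/

set_option autoImplicit false

namespace Pool.Agent.CGS

open Matrix

theorem main_theorem {G H : Type} [Group G] [Group H] [Finite G] [Finite H]
    (e : Nonempty (MonoidAlgebra ℂ G ≃ₐ[ℂ] MonoidAlgebra ℂ H)) (K : Subgroup G) [K.Normal]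
    {a n : ℕ} (hK : K.index = 2 ^ a) (hn : ¬ 2 ^ (n + 1) ∣ Nat.card K)
    (h : (S2 G ∧ Good n (Nat.card G)) ∨
      ((∃ S : Subgroup G, S.Normal ∧ Odd (Nat.card S) ∧ ∃ b, S.index = 3 * 2 ^ b) ∧
        GoodH n (Nat.card G) (Nat.card (commutator G)))) : S2 H := by
  obtain ⟨A, iA, iAF, f, B, iB, iBF, g, hf, hg, hA, hB, hAB, hm, hcong⟩ := residual_congr e
  have hfK : f.range ≤ K := range_le f hA K hK
  have hcA : Nat.card f.range = Nat.card A :=
    (Nat.card_congr (MonoidHom.ofInjective hf).toEquiv).symm
  have hAK : Nat.card A ∣ Nat.card K := by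
    rw [← hcA]
    exact Subgroup.card_dvd_of_le hfK
  have hAG : Nat.card A ∣ Nat.card G := hAK.trans (Subgroup.card_subgroup_dvd_card K)
  have hnA : ¬ 2 ^ (n + 1) ∣ Nat.card A := fun hh => hn (hh.trans hAK)
  have hnB : ¬ 2 ^ (n + 1) ∣ Nat.card B := by rwa [← hAB]
  have hGH : Nat.card G = Nat.card H := card_congr e
  have hcG : Nat.card (commutator G) = Nat.card (commutator H) := by
    have h1 : (commutator G).index = (commutator H).index := by
      rw [← N_one, ← N_one]
      exact N_congr e 1
    have h2 := (commutator G).card_mul_index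
    have h3 := (commutator H).card_mul_index
    have h4 : 0 < (commutator H).index := Nat.pos_of_ne_zero Subgroup.index_ne_zero_of_finite
    refine Nat.eq_of_mul_eq_mul_right h4 ?_
    rw [h3, ← hGH, ← h2, h1]
  refine S2.of_derivedSeries_le g hm ?_
  by_cases hodd : 2 ∣ Nat.card A
  · have h23 : Has23 A := by
      rcases h with ⟨hs, hG⟩ | ⟨⟨S, hS, hSo, b, hSb⟩, -⟩
      · exact structure_two (S2.of_injective f hf hs) hA hodd hnA (hG.of_dvd hAG)
      · exact has23_of_case_A f hf hA hodd S hSo hSb
    have h3 : Odd (N A 3) := odd_N_three h23 hA hodd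
    have h4 : Odd (N B 3) := by
      have h5 : N A 3 ≡ N B 3 [MOD 2] := (hcong 3 (by decide)).of_dvd (by norm_num)
      rw [Nat.odd_iff] at h3 ⊢
      exact (show N A 3 % 2 = N B 3 % 2 from h5).symm.trans h3
    obtain ⟨M, hM, hMi⟩ := exists_kernel hB h4
    have hGH' : GoodH n (Nat.card H) (Nat.card (commutator H)) := by
      rw [← hGH, ← hcG]
      rcases h with ⟨-, hG⟩ | ⟨-, hG⟩
      · exact hG.goodH (Subgroup.card_subgroup_dvd_card _)
      · exact hG
    exact s2_of_kernel g hg hnB hGH' M hMi
  · refine ⟨0, ?_⟩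
    rw [derivedSeries_zero, Subgroup.card_top, ← hAB]
    rwa [← Nat.not_even_iff_odd, even_iff_two_dvd]

end Pool.Agent.CGS
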