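import Pool.Agent.CGS.Base

/-!
# A group of odd order acting with real traces on a space of odd dimension has a fixed vector

PACKAGE (statements frozen; auxiliary lemmas private; the imported files are black boxes, some
of them still contain sorry).

Let `m = Nat.card S` (odd), `f s = (mat ρ s).trace`, `E = (1 / m) • ∑ s, mat ρ s`.

* (1) `mat ρ u * E = E` for all `u`, so `E * E = E`. The trace of the idempotent `E` is its rank
  `r`, a natural number (`LinearMap.IsProj.trace`, `LinearMap.IsIdempotentElem`/`Matrix` versions;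
  `Matrix.trace` is `LinearMap.trace` of `Matrix.toLin'`). So `m * r = ∑ s, f s`.
* (2) every `f s` is an algebraic integer: `(mat ρ s) ^ m = 1`; the trace is the sum of the roots
  of the characteristic polynomial (`Matrix.trace_eq_sum_roots_charpoly`), every root `μ` is an
  eigenvalue, so `μ ^ m = 1` and `μ` is integral over `ℤ` (root of `X ^ m - 1`); sums of integral
  elements are integral.
* (3) for `s ≠ 1` we have `s⁻¹ ≠ s` (otherwise `s ^ 2 = 1`, but `m` is odd, so `s = 1`). Choose a
  linear order on `S` (an injection into `Fin m`). Let `α = ∑ s with s < s⁻¹, f s`. By `f s⁻¹ = f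
  s` and reindexing with `s ↦ s⁻¹`: `∑ s, f s = f 1 + 2 * α = d + 2 * α`.
* (4) so `2 * α = m * r - d`, `α` is a rational number and an algebraic integer, so an integer
  (`IsIntegrallyClosed ℤ`, for instance `IsIntegrallyClosed.algebraMap_eq_of_integral` or
  `IsInteger_of_is_root_of_monic`; `α` is the image of a rational number in `ℂ`,
  `isIntegral_algebraMap_iff`). Hence `m * r - d` is even, `m * r` is odd, `r ≠ 0`, `E ≠ 0`. A
  nonzero column `v` of `E` satisfies `mat ρ u *ᵥ v = v` for all `u` by (1).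
-/

set_option autoImplicit false

namespace Pool.Agent.CGS

open Matrix

/-- the trace of a matrix of finite order is an algebraic integer -/
private theorem isIntegral_trace {d : ℕ} (A : Matrix (Fin d) (Fin d) ℂ) {m : ℕ} (hm : 0 < m)
    (hA : A ^ m = 1) : IsIntegral ℤ A.trace := by
  rw [Matrix.trace_eq_sum_roots_charpoly]
  refine IsIntegral.multiset_sum fun μ hμ => ?_
  have h0 : A.charpoly.IsRoot μ := (Polynomial.mem_roots'.1 hμ).2
  have h1 : μ ∈ spectrum ℂ A := by
    rwa [Matrix.mem_spectrum_iff_isRoot_charpoly]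
  have h2 : μ ^ m ∈ spectrum ℂ (A ^ m) := spectrum.pow_mem_pow A m h1
  have h3 : μ ^ m = 1 := by
    rw [hA] at h2
    have hne : Nontrivial (Matrix (Fin d) (Fin d) ℂ) := by
      by_contra hcon
      rw [not_nontrivial_iff_subsingleton] at hcon
      rw [spectrum.of_subsingleton] at h2
      exact h2
    rw [spectrum.one_eq] at h2
    exact h2
  exact IsIntegral.of_pow hm (by rw [h3]; exact isIntegral_one)

theorem exists_fixed {S : Type} [Group S] [Finite S] (hS : Odd (Nat.card S)) {d : ℕ}
    (hd : Odd d) (ρ : Rep S d) (htr : ∀ s, (mat ρ s⁻¹).trace = (mat ρ s).trace) :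
    ∃ v : Fin d → ℂ, v ≠ 0 ∧ ∀ s, mat ρ s *ᵥ v = v := by
  classical
  have : Fintype S := Fintype.ofFinite S
  have hcard : Nat.card S = Fintype.card S := Nat.card_eq_fintype_card
  have hm0 : (Fintype.card S : ℂ) ≠ 0 := by exact_mod_cast Fintype.card_ne_zero
  have : Invertible (Fintype.card S : ℂ) := invertibleOfNonzero hm0
  by_contra hcon
  have hinv : (toRepr ρ).invariants = ⊥ := by
    rw [eq_bot_iff]
    intro v hv
    rw [Submodule.mem_bot]
    by_contra hv0
    exact hcon ⟨v, hv0, fun s => (toRepr ρ).mem_invariants v |>.1 hv s⟩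
  -- the average has trace zero
  have hproj := (toRepr ρ).isProj_averageMap
  have htr0 : LinearMap.trace ℂ (Fin d → ℂ) (toRepr ρ).averageMap = 0 := by
    rw [hproj.trace, hinv, finrank_bot, Nat.cast_zero]
  have hsum : ∑ s, (mat ρ s).trace = 0 := by
    have h1 : (toRepr ρ).averageMap = ⅟(Fintype.card S : ℂ) • ∑ s, toRepr ρ s := by
      simp [Representation.averageMap, GroupAlgebra.average]
    rw [h1, map_smul, map_sum] at htr0
    have h2 : ∑ s, LinearMap.trace ℂ (Fin d → ℂ) (toRepr ρ s) = 0 := by
      rcases smul_eq_zero.1 htr0 with h | h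
      · exact absurd h (Invertible.ne_zero _)
      · exact h
    rw [← h2]
    refine Finset.sum_congr rfl fun s _ => ?_
    exact (Matrix.trace_toLin'_eq (mat ρ s)).symm
  have hint : ∀ s, IsIntegral ℤ (mat ρ s).trace := fun s => by
    refine isIntegral_trace (mat ρ s) (m := Fintype.card S) Fintype.card_pos ?_
    rw [← mat_pow, pow_card_eq_one, mat_one]
  let F : S → integralClosure ℤ ℂ := fun s => ⟨(mat ρ s).trace, hint s⟩
  have hF : ∀ s, F s⁻¹ = F s := fun s => Subtype.ext (htr s)
  obtain ⟨α, hα⟩ : ∃ α : integralClosure ℤ ℂ, ∑ s ∈ Finset.univ.erase 1, F s = 2 * α := by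
    have h1 : Ideal.Quotient.mk (Ideal.span {(2 : integralClosure ℤ ℂ)})
        (∑ s ∈ Finset.univ.erase 1, F s) = 0 := by
      rw [map_sum]
      refine Finset.sum_involution (fun s _ => s⁻¹) (fun s _ => ?_) (fun s hs _ => ?_)
        (fun s hs => ?_) (fun s _ => inv_inv s)
      · rw [hF, ← map_add, Ideal.Quotient.eq_zero_iff_mem, Ideal.mem_span_singleton]
        exact ⟨F s, (two_mul _).symm⟩
      · intro h
        have h2 : s ^ 2 = 1 := by
          rw [pow_two]
          nth_rewrite 1 [← h]
          exact inv_mul_cancel s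
        have h3 : orderOf s ∣ 2 := orderOf_dvd_of_pow_eq_one h2
        have h4 : orderOf s ∣ Nat.card S := orderOf_dvd_natCard s
        have h5 : Nat.Coprime 2 (Nat.card S) := Nat.coprime_two_left.2 hS
        have h6 : orderOf s = 1 := Nat.eq_one_of_dvd_coprimes h5 h3 h4
        exact (Finset.mem_erase.1 hs).1 (orderOf_eq_one_iff.1 h6)
      · refine Finset.mem_erase.2 ⟨fun h => ?_, Finset.mem_univ _⟩
        exact (Finset.mem_erase.1 hs).1 (inv_eq_one.1 h)
    rw [Ideal.Quotient.eq_zero_iff_mem, Ideal.mem_span_singleton] at h1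
    exact h1
  have h1 : ∑ s, (mat ρ s).trace = d + 2 * (α : ℂ) := by
    rw [← Finset.add_sum_erase Finset.univ _ (Finset.mem_univ (1 : S))]
    have h2 := congrArg (fun x : integralClosure ℤ ℂ => (x : ℂ)) hα
    simp only [AddSubmonoidClass.coe_finsetSum, MulMemClass.coe_mul] at h2
    have h3 : ((2 : integralClosure ℤ ℂ) : ℂ) = 2 := rfl
    rw [h3] at h2
    rw [← h2, mat_one, Matrix.trace_one, Fintype.card_fin]
  rw [hsum] at h1
  have h2 : (α : ℂ) = algebraMap ℚ ℂ (-(d : ℚ) / 2) := by
    rw [map_div₀, map_neg, map_natCast, map_ofNat]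
    linear_combination -h1 / 2
  have h3 : IsIntegral ℤ (algebraMap ℚ ℂ (-(d : ℚ) / 2)) := by
    rw [← h2]
    exact α.2
  rw [isIntegral_algebraMap_iff (algebraMap ℚ ℂ).injective,
    IsIntegrallyClosed.isIntegral_iff] at h3
  obtain ⟨y, hy⟩ := h3
  have h4 : (d : ℚ) = ((-2 * y : ℤ) : ℚ) := by
    rw [eq_intCast] at hy
    push_cast
    rw [hy]
    ring
  have h5 : (d : ℤ) = -2 * y := by exact_mod_cast h4
  obtain ⟨e, he⟩ := hd
  omega

end Pool.Agent.CGS
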