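import Pool.Agent.CGS.OddA
import Pool.Agent.CGS.Irr

/-!
# Normal subgroups of odd order act trivially in self-dual representations of odd degree

PACKAGE (statements frozen; auxiliary lemmas private; the imported files are black boxes, some
of them still contain sorry).

Let `P` be the invariant form. From `ρ(g)ᵀ P ρ(g) = P` we get `ρ(g)ᵀ = P ρ(g⁻¹) P⁻¹`, so `(mat ρ
g⁻¹).trace = (mat ρ g).trace` (`Matrix.trace_mul_comm`, `Matrix.trace_transpose`). By
`exists_fixed` for `res S ρ` there is `v ≠ 0` with `ρ(s) v = v` for `s ∈ S`. The subspace `W = {w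
| ∀ s ∈ S, mat ρ s *ᵥ w = w}` is stable because `S` is normal (`ρ(s) ρ(g) w = ρ(g) ρ(g⁻¹ s g) w =
ρ(g) w`) and not `⊥`, so `W = ⊤` (`isIrr_iff`). So `mat ρ s = 1` for `s ∈ S`
(`Matrix.ext_of_mulVec_single` or similar) and `s ∈ ρ.ker` (`mem_ker_iff`).
-/

set_option autoImplicit false

namespace Pool.Agent.CGS

open Matrix

private theorem trace_inv {X : Type} [Group X] {d : ℕ} {ρ : Rep X d} (hsd : SelfDual ρ) (g : X) :
    (mat ρ g⁻¹).trace = (mat ρ g).trace := by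
  obtain ⟨P, hP⟩ := hsd
  have h1 : (mat ρ g)ᵀ * (P : Matrix (Fin d) (Fin d) ℂ) =
      (P : Matrix (Fin d) (Fin d) ℂ) * mat ρ g⁻¹ := by
    calc (mat ρ g)ᵀ * (P : Matrix (Fin d) (Fin d) ℂ)
        = (mat ρ g)ᵀ * (P : Matrix (Fin d) (Fin d) ℂ) * (mat ρ g * mat ρ g⁻¹) := by
          rw [mat_mul_inv, mul_one]
      _ = ((mat ρ g)ᵀ * (P : Matrix (Fin d) (Fin d) ℂ) * mat ρ g) * mat ρ g⁻¹ := by
          rw [mul_assoc, mul_assoc, mul_assoc]
      _ = _ := by rw [hP g]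
  have e1 : ((P⁻¹ : GL (Fin d) ℂ) : Matrix (Fin d) (Fin d) ℂ) *
      (P : Matrix (Fin d) (Fin d) ℂ) = 1 := by
    rw [← Units.val_mul, inv_mul_cancel, Units.val_one]
  have e2 : (P : Matrix (Fin d) (Fin d) ℂ) *
      ((P⁻¹ : GL (Fin d) ℂ) : Matrix (Fin d) (Fin d) ℂ) = 1 := by
    rw [← Units.val_mul, mul_inv_cancel, Units.val_one]
  have h2 : mat ρ g⁻¹ = ((P⁻¹ : GL (Fin d) ℂ) : Matrix (Fin d) (Fin d) ℂ) *
      ((mat ρ g)ᵀ * (P : Matrix (Fin d) (Fin d) ℂ)) := by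
    rw [h1, ← mul_assoc, e1, one_mul]
  rw [h2, Matrix.trace_mul_comm, mul_assoc, e2, mul_one, Matrix.trace_transpose]

theorem le_ker_of_odd {X : Type} [Group X] [Finite X] {d : ℕ} (hd : Odd d) {ρ : Rep X d}
    (h : IsIrr ρ) (hsd : SelfDual ρ) (S : Subgroup X) [S.Normal] (hS : Odd (Nat.card S)) :
    S ≤ ρ.ker := by
  obtain ⟨v, hv0, hv⟩ := exists_fixed hS hd (res S ρ) (fun s => by
    rw [mat_res, mat_res, InvMemClass.coe_inv]
    exact trace_inv hsd (s : X))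
  obtain ⟨W, hW⟩ : ∃ W : Submodule ℂ (Fin d → ℂ), ∀ w, w ∈ W ↔ ∀ s : S, mat ρ (s : X) *ᵥ w = w := by
    refine ⟨{ carrier := {w | ∀ s : S, mat ρ (s : X) *ᵥ w = w}
              add_mem' := ?_
              zero_mem' := ?_
              smul_mem' := ?_ }, fun w => Iff.rfl⟩
    · intro a b ha hb s
      rw [Matrix.mulVec_add, ha s, hb s]
    · intro s
      rw [Matrix.mulVec_zero]
    · intro c x hx s
      rw [Matrix.mulVec_smul, hx s]
  have hst : Stable ρ W := by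
    intro g w hw
    rw [hW] at hw ⊢
    intro s
    have h1 : g⁻¹ * (s : X) * g ∈ S := by
      have := (inferInstance : S.Normal).conj_mem (s : X) s.2 g⁻¹
      simpa using this
    have h2 := hw ⟨_, h1⟩
    rw [Matrix.mulVec_mulVec, ← mat_mul]
    have h3 : (s : X) * g = g * (g⁻¹ * (s : X) * g) := by group
    rw [h3, mat_mul, ← Matrix.mulVec_mulVec, h2]
  have hne : W ≠ ⊥ := by
    intro h0
    have h1 : v ∈ W := (hW v).2 hv
    rw [h0, Submodule.mem_bot] at h1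
    exact hv0 h1
  have htop : W = ⊤ := (((isIrr_iff ρ).1 h).2 W hst).resolve_left hne
  intro s hs
  rw [mem_ker_iff]
  apply Matrix.ext_of_mulVec_single
  intro i
  have h1 : (Pi.single i 1 : Fin d → ℂ) ∈ W := by
    rw [htop]
    exact Submodule.mem_top
  rw [(hW _).1 h1 ⟨s, hs⟩, Matrix.one_mulVec]

end Pool.Agent.CGS
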