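import Pool.Agent.CGS.Base

/-!
# Operations on irreducible representations

PACKAGE (statements frozen; auxiliary lemmas private; the imported files are black boxes, some
of them still contain placeholders).

All statements are immediate from the definitions (`IsIrr`: the span of the matrices is
everything; `Sim`: an intertwining invertible matrix; see `mat_pull`, `mat_res`, `mat_dual`).

* `isIrr_pull`: the set of matrices of `pull f ρ` is the set of matrices of `ρ` (f surjective).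
* `isIrr_dual`: the span of the matrices `(mat ρ g⁻¹)ᵀ` is the image of the span of the `mat ρ g`
  under the linear bijection transpose (`Matrix.transposeLinearEquiv`).
* `isIrr_of_res`: the matrices of the restriction are among the matrices of `ρ`.
* `sim_pull`, `sim_res`: the same intertwining matrix `P`.
* `sim_dual`: from `P ρ(g) = σ(g) P` we get `(P⁻¹)ᵀ ρ(g⁻¹)ᵀ = σ(g⁻¹)ᵀ (P⁻¹)ᵀ`: take the transpose
  of `ρ(g⁻¹) P⁻¹ = P⁻¹ σ(g⁻¹)`. The matrix `(P⁻¹)ᵀ` is invertible with inverse `Pᵀ`.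
* `dual_dual`: `((mat ρ g⁻¹⁻¹)ᵀ)ᵀ = mat ρ g`.
* `dual_sim_iff`: `ρ ~ dual ρ` iff there is `P` with `ρ(g)ᵀ P ρ(g) = P`: from `P ρ(g) = ρ(g⁻¹)ᵀ P`
  multiply on the left by `ρ(g)ᵀ`, using `ρ(g)ᵀ ρ(g⁻¹)ᵀ = (ρ(g⁻¹) ρ(g))ᵀ = 1`; and conversely.
* `N_congr_mulEquiv`, `SD_congr_mulEquiv`: pull back along the isomorphism (`clsMap`).
-/

set_option autoImplicit false

namespace Pool.Agent.CGS

open Matrix

variable {G H : Type} [Group G] [Group H] {d : ℕ}

theorem isIrr_pull {f : H →* G} (hf : Function.Surjective f) {ρ : Rep G d} :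
    IsIrr (pull f ρ) ↔ IsIrr ρ := by
  have h : Set.range (mat (pull f ρ)) = Set.range (mat ρ) := hf.range_comp (mat ρ)
  constructor
  · intro h1
    exact ⟨h1.pos, by rw [← h]; exact h1.span⟩
  · intro h1
    exact ⟨h1.pos, by rw [h]; exact h1.span⟩

theorem isIrr_dual {ρ : Rep G d} (h : IsIrr ρ) : IsIrr (dual ρ) := by
  refine ⟨h.pos, ?_⟩
  have h1 : Set.range (mat (dual ρ)) =
      (Matrix.transposeLinearEquiv (Fin d) (Fin d) ℂ ℂ).toLinearMap '' Set.range (mat ρ) := by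
    ext A
    constructor
    · rintro ⟨g, rfl⟩
      exact ⟨mat ρ g⁻¹, ⟨g⁻¹, rfl⟩, rfl⟩
    · rintro ⟨B, ⟨g, rfl⟩, rfl⟩
      refine ⟨g⁻¹, ?_⟩
      rw [mat_dual, inv_inv]
      rfl
  rw [h1, ← Submodule.map_span, h.span, Submodule.map_top]
  exact LinearMap.range_eq_top.2 (Matrix.transposeLinearEquiv (Fin d) (Fin d) ℂ ℂ).surjective

theorem isIrr_of_res (Y : Subgroup G) {ρ : Rep G d} (h : IsIrr (res Y ρ)) : IsIrr ρ := by
  refine ⟨h.pos, ?_⟩
  rw [eq_top_iff, ← h.span]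
  refine Submodule.span_mono ?_
  rintro _ ⟨y, rfl⟩
  exact ⟨(y : G), rfl⟩

theorem sim_pull (f : H →* G) {ρ σ : Rep G d} (h : Sim ρ σ) : Sim (pull f ρ) (pull f σ) := by
  obtain ⟨P, hP⟩ := h
  exact ⟨P, fun g => hP (f g)⟩

theorem sim_res (Y : Subgroup G) {ρ σ : Rep G d} (h : Sim ρ σ) : Sim (res Y ρ) (res Y σ) := by
  obtain ⟨P, hP⟩ := h
  exact ⟨P, fun g => hP (g : G)⟩

theorem sim_dual {ρ σ : Rep G d} (h : Sim ρ σ) : Sim (dual ρ) (dual σ) := by
  obtain ⟨P, hP⟩ := h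
  have e1 : (P : Matrix (Fin d) (Fin d) ℂ) *
      ((P⁻¹ : GL (Fin d) ℂ) : Matrix (Fin d) (Fin d) ℂ) = 1 := by
    rw [← Units.val_mul, mul_inv_cancel, Units.val_one]
  have e2 : ((P⁻¹ : GL (Fin d) ℂ) : Matrix (Fin d) (Fin d) ℂ) *
      (P : Matrix (Fin d) (Fin d) ℂ) = 1 := by
    rw [← Units.val_mul, inv_mul_cancel, Units.val_one]
  refine ⟨⟨((P⁻¹ : GL (Fin d) ℂ) : Matrix (Fin d) (Fin d) ℂ)ᵀ,
    (P : Matrix (Fin d) (Fin d) ℂ)ᵀ, ?_, ?_⟩, fun g => ?_⟩
  · rw [← transpose_mul, e1, transpose_one]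
  · rw [← transpose_mul, e2, transpose_one]
  · change ((P⁻¹ : GL (Fin d) ℂ) : Matrix (Fin d) (Fin d) ℂ)ᵀ * (mat ρ g⁻¹)ᵀ =
      (mat σ g⁻¹)ᵀ * ((P⁻¹ : GL (Fin d) ℂ) : Matrix (Fin d) (Fin d) ℂ)ᵀ
    rw [← transpose_mul, ← transpose_mul]
    congr 1
    calc mat ρ g⁻¹ * ((P⁻¹ : GL (Fin d) ℂ) : Matrix (Fin d) (Fin d) ℂ)
        = (((P⁻¹ : GL (Fin d) ℂ) : Matrix (Fin d) (Fin d) ℂ) *
          (P : Matrix (Fin d) (Fin d) ℂ)) * mat ρ g⁻¹ *
          ((P⁻¹ : GL (Fin d) ℂ) : Matrix (Fin d) (Fin d) ℂ) := by rw [e2, one_mul]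
      _ = ((P⁻¹ : GL (Fin d) ℂ) : Matrix (Fin d) (Fin d) ℂ) *
          ((P : Matrix (Fin d) (Fin d) ℂ) * mat ρ g⁻¹) *
          ((P⁻¹ : GL (Fin d) ℂ) : Matrix (Fin d) (Fin d) ℂ) := by rw [mul_assoc _ _ (mat ρ g⁻¹)]
      _ = ((P⁻¹ : GL (Fin d) ℂ) : Matrix (Fin d) (Fin d) ℂ) * mat σ g⁻¹ *
          ((P : Matrix (Fin d) (Fin d) ℂ) *
          ((P⁻¹ : GL (Fin d) ℂ) : Matrix (Fin d) (Fin d) ℂ)) := by rw [hP g⁻¹]; noncomm_ring
      _ = _ := by rw [e1, mul_one]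

theorem dual_dual (ρ : Rep G d) : dual (dual ρ) = ρ := by
  refine rep_ext fun g => ?_
  rw [mat_dual, mat_dual, inv_inv, transpose_transpose]

theorem dual_sim_iff (ρ : Rep G d) : Sim ρ (dual ρ) ↔ SelfDual ρ := by
  constructor
  · rintro ⟨P, hP⟩
    refine ⟨P, fun g => ?_⟩
    rw [mul_assoc, hP g, mat_dual, ← mul_assoc, ← transpose_mul, mat_inv_mul, transpose_one,
      one_mul]
  · rintro ⟨P, hP⟩
    refine ⟨P, fun g => ?_⟩
    have h1 : (mat ρ g⁻¹)ᵀ * (mat ρ g)ᵀ = 1 := by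
      rw [← transpose_mul, mat_mul_inv, transpose_one]
    rw [mat_dual]
    calc (P : Matrix (Fin d) (Fin d) ℂ) * mat ρ g
        = ((mat ρ g⁻¹)ᵀ * (mat ρ g)ᵀ) * ((P : Matrix (Fin d) (Fin d) ℂ) * mat ρ g) := by
          rw [h1, one_mul]
      _ = (mat ρ g⁻¹)ᵀ * ((mat ρ g)ᵀ * (P : Matrix (Fin d) (Fin d) ℂ) * mat ρ g) := by
          noncomm_ring
      _ = _ := by rw [hP g]

/-- pull back of classes along an isomorphism -/
private noncomputable def clsEquiv (e : H ≃* G) (d : ℕ) : Cls G d ≃ Cls H d where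
  toFun := clsMap (pull e.toMonoidHom) (fun _ h => (isIrr_pull e.surjective).2 h)
    (fun _ _ h => sim_pull _ h)
  invFun := clsMap (pull e.symm.toMonoidHom) (fun _ h => (isIrr_pull e.symm.surjective).2 h)
    (fun _ _ h => sim_pull _ h)
  left_inv c := by
    refine cls_ind (q := fun c => clsMap (pull e.symm.toMonoidHom) _ _
      (clsMap (pull e.toMonoidHom) _ _ c) = c) (fun ρ hρ => ?_) c
    change mk (pull e.symm.toMonoidHom (pull e.toMonoidHom ρ)) _ = mk ρ hρ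
    rw [mk_eq]
    have h : pull e.symm.toMonoidHom (pull e.toMonoidHom ρ) = ρ := by
      refine rep_ext fun g => ?_
      rw [mat_pull, mat_pull]
      exact congrArg (mat ρ) (e.apply_symm_apply g)
    rw [h]
    exact Sim.refl ρ
  right_inv c := by
    refine cls_ind (q := fun c => clsMap (pull e.toMonoidHom) _ _
      (clsMap (pull e.symm.toMonoidHom) _ _ c) = c) (fun ρ hρ => ?_) c
    change mk (pull e.toMonoidHom (pull e.symm.toMonoidHom ρ)) _ = mk ρ hρ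
    rw [mk_eq]
    have h : pull e.toMonoidHom (pull e.symm.toMonoidHom ρ) = ρ := by
      refine rep_ext fun g => ?_
      rw [mat_pull, mat_pull]
      exact congrArg (mat ρ) (e.symm_apply_apply g)
    rw [h]
    exact Sim.refl ρ

theorem N_congr_mulEquiv (e : H ≃* G) (d : ℕ) : N G d = N H d := by
  exact Nat.card_congr (clsEquiv e d)

theorem SD_congr_mulEquiv (e : H ≃* G) (d : ℕ) : SD G d = SD H d := by
  refine Nat.card_congr (Equiv.subtypeEquiv (clsEquiv e d) fun c => ?_)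
  refine cls_ind (q := fun c => Has SelfDual c ↔ Has SelfDual (clsEquiv e d c))
    (fun ρ hρ => ?_) c
  change Has SelfDual (mk ρ hρ) ↔ Has SelfDual (mk (pull e.toMonoidHom ρ) _)
  rw [has_mk (fun _ _ h => SelfDual.of_sim h), has_mk (fun _ _ h => SelfDual.of_sim h)]
  constructor
  · rintro ⟨P, hP⟩
    exact ⟨P, fun g => hP (e g)⟩
  · rintro ⟨P, hP⟩
    refine ⟨P, fun g => ?_⟩
    have h1 := hP (e.symm g)
    rw [mat_pull] at h1
    have h2 : e.toMonoidHom (e.symm g) = g := e.apply_symm_apply g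
    rwa [h2] at h1

end Pool.Agent.CGS
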