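import Pool.Agent.CGS.TwoB
import Pool.Agent.CGS.Irr

/-!
# Odd degrees of a group with a normal 2-subgroup of index three

PACKAGE (statements frozen; auxiliary lemmas private; the imported files are black boxes, some
of them still contain sorry).

By `exists_eigenvector` for the restriction of `toRepr ρ` to `Q` (`(toRepr ρ).comp Q.subtype`,
`finrank (Fin d → ℂ) = d` odd) there is `v ≠ 0` with `mat ρ q *ᵥ v ∈ ℂ v` for all `q ∈ Q`. The
quotient `Z ⧸ Q` has order three (`Subgroup.index`), so it is cyclic, generated by the image of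
some `s` (`isCyclic_of_prime_card`), and every `z : Z` is of the form `s ^ i * q` with `i < 3`, `q
∈ Q`. Let `W = span {v, ρ(s) v, ρ(s ^ 2) v}`. It is stable: for `z : Z` and `i < 3` write `z * s ^
i = s ^ j * q` with `j < 3`, `q ∈ Q`, so `ρ(z) ρ(s ^ i) v = ρ(s ^ j) ρ(q) v ∈ ℂ ρ(s ^ j) v`. `W ≠
⊥`, so `W = ⊤` (`isIrr_iff`), and `d = finrank W ≤ 3` (`finrank_span_le_card` or
`finrank_range_le_card`). `d` is odd, so `d = 1` or `d = 3`.
-/

set_option autoImplicit false

namespace Pool.Agent.CGS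

open Matrix

theorem deg_of_index_three {Z : Type} [Group Z] [Finite Z] (Q : Subgroup Z) [Q.Normal]
    (hQ : IsPGroup 2 Q) (h3 : Q.index = 3) {d : ℕ} (hd : Odd d) {ρ : Rep Z d} (h : IsIrr ρ) :
    d = 1 ∨ d = 3 := by
  have hfd : Odd (Module.finrank ℂ (Fin d → ℂ)) := by
    rw [Module.finrank_fin_fun]
    exact hd
  obtain ⟨v, hv0, hv⟩ := exists_eigenvector hQ ((toRepr ρ).comp Q.subtype) hfd
  have : Fintype (Z ⧸ Q) := Fintype.ofFinite _
  let b : Z ⧸ Q → (Fin d → ℂ) := fun x => mat ρ x.out *ᵥ v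
  have hv' : ∀ q : Q, ∃ c : ℂ, mat ρ (q : Z) *ᵥ v = c • v := fun q => hv q
  have hst : Stable ρ (Submodule.span ℂ (Set.range b)) := by
    intro g w hw
    induction hw using Submodule.span_induction with
    | mem x hx =>
      obtain ⟨x, rfl⟩ := hx
      obtain ⟨n, hn⟩ := QuotientGroup.mk_out_eq_mul Q (g * x.out)
      obtain ⟨c, hc⟩ := hv' n⁻¹
      have e1 : g * x.out = (QuotientGroup.mk (g * x.out) : Z ⧸ Q).out * ((n⁻¹ : Q) : Z) := by
        rw [hn, Subgroup.coe_inv, mul_inv_cancel_right]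
      have e2 : mat ρ g *ᵥ b x = c • b (QuotientGroup.mk (g * x.out)) := by
        change mat ρ g *ᵥ (mat ρ x.out *ᵥ v) =
          c • (mat ρ (QuotientGroup.mk (g * x.out) : Z ⧸ Q).out *ᵥ v)
        rw [Matrix.mulVec_mulVec, ← mat_mul]
        conv_lhs => rw [e1]
        rw [mat_mul, ← Matrix.mulVec_mulVec, hc, Matrix.mulVec_smul]
      rw [e2]
      exact Submodule.smul_mem _ _ (Submodule.subset_span ⟨_, rfl⟩)
    | zero => rw [Matrix.mulVec_zero]; exact Submodule.zero_mem _
    | add x y _ _ hx hy => rw [Matrix.mulVec_add]; exact Submodule.add_mem _ hx hy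
    | smul c x _ hx => rw [Matrix.mulVec_smul]; exact Submodule.smul_mem _ _ hx
  have htop : Submodule.span ℂ (Set.range b) = ⊤ := by
    rcases ((isIrr_iff ρ).1 h).2 _ hst with h0 | h1
    · exfalso
      have h2 : b (QuotientGroup.mk 1) = 0 := by
        have h3 : b (QuotientGroup.mk 1) ∈ Submodule.span ℂ (Set.range b) :=
          Submodule.subset_span ⟨_, rfl⟩
        rw [h0] at h3
        exact h3
      have h4 : mat ρ ((QuotientGroup.mk 1 : Z ⧸ Q).out)⁻¹ *ᵥ
          (mat ρ (QuotientGroup.mk 1 : Z ⧸ Q).out *ᵥ v) = v := by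
        rw [Matrix.mulVec_mulVec, mat_inv_mul, Matrix.one_mulVec]
      have h5 : mat ρ (QuotientGroup.mk 1 : Z ⧸ Q).out *ᵥ v = 0 := h2
      rw [h5, Matrix.mulVec_zero] at h4
      exact hv0 h4.symm
    · exact h1
  have hle : d ≤ 3 := by
    have h6 := finrank_range_le_card (R := ℂ) b
    rw [Set.finrank, htop, finrank_top, Module.finrank_fin_fun, ← Nat.card_eq_fintype_card] at h6
    have h7 : Nat.card (Z ⧸ Q) = 3 := h3
    rwa [h7] at h6
  obtain ⟨k, hk⟩ := hd
  omega

end Pool.Agent.CGS
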