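import Pool.Agent.CGS.ZRes
import Pool.Agent.CGS.NoIdx
import Pool.Agent.CGS.Lin

/-!
# The 2-residual of a finite group

PACKAGE (statements frozen; auxiliary lemmas private; the imported files are black boxes, some
of them still contain sorry).

* `exists_residual`: strong induction on `Nat.card G`. If `NoIdx2 G` take `B = G`, `f = id`, `a =
  0`, `m = 0` (`derivedSeries G 0 = ⊤`). Otherwise let `Y` be a subgroup of index two (so
  `Nat.card G = 2 * Nat.card Y`), and take `B, f, a, m` for `Y`; then `B`, `Y.subtype.comp f`, `a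
  + 1` work: `MS G e = 2 * MS Y e` by `MS_index_two`, and `derivedSeries G (m + 1) ≤
  (Y.subtype.comp f).range`: `derivedSeries G 1 ≤ Y` (the quotient by a subgroup of index two is
  commutative: `g * h * g⁻¹ * h⁻¹ ∈ Y` by `Subgroup.mul_mem_iff_of_index_two`), and by induction
  on `k` `derivedSeries G (k + 1) ≤ (derivedSeries Y k).map Y.subtype` (`derivedSeries_succ`,
  `Subgroup.map_commutator`, `Subgroup.commutator_mono`).
* `MS_modEq`: modulo `4` every term of `MS B e` with `d` even vanishes (`4 ∣ d ^ 2`), and the only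
  odd `d` with odd part `e` is `d = e`, with `e ^ 2 = 1` modulo `4`; if `e > Nat.card B` the term
  is missing but `N B e = 0` (`N_eq_zero`).
* `residual_congr`: take the residuals `A` of `G` and `B` of `H`, with exponents `a` and `b`. `MS
  G e = MS H e` because `N G d = N H d` (`N_congr`) and `Nat.card G = Nat.card H` (`card_congr`).
  `N A 1 = (commutator A).index` is odd (`N_one`, `NoIdx2.odd_index_commutator`), so `MS A 1` is
  odd (`MS_modEq`), same for `B`; and `2 ^ a * MS A 1 = MS G 1 = MS H 1 = 2 ^ b * MS B 1`, so `a =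
  b` (compare `Nat.factorization` at `2`, or `padicValNat`). So `Nat.card A = Nat.card B` and `MS
  A e = MS B e` for all odd `e`, which gives the congruence modulo `4`.
-/

set_option autoImplicit false

namespace Pool.Agent.CGS

open Matrix

private theorem derived_le (G : Type) [Group G] (Y : Subgroup G) (hY : Y.index = 2) (k : ℕ) :
    derivedSeries G (k + 1) ≤ (derivedSeries Y k).map Y.subtype := by
  induction k with
  | zero =>
    rw [derivedSeries_zero, ← MonoidHom.range_eq_map, Subgroup.range_subtype, zero_add,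
      derivedSeries_one, commutator_def, Subgroup.commutator_le]
    intro g _ h _
    rw [commutatorElement_def, Subgroup.mul_mem_iff_of_index_two hY,
      Subgroup.mul_mem_iff_of_index_two hY, Subgroup.mul_mem_iff_of_index_two hY, inv_mem_iff,
      inv_mem_iff]
    tauto
  | succ k ih =>
    rw [derivedSeries_succ G (k + 1), derivedSeries_succ Y k, Subgroup.map_commutator]
    exact Subgroup.commutator_mono ih ih

private theorem exists_residual_aux (n : ℕ) : ∀ (G : Type) [Group G] [Finite G], Nat.card G = n →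
    ∃ (B : Type) (_ : Group B) (_ : Finite B) (f : B →* G) (a : ℕ), Function.Injective f ∧
      NoIdx2 B ∧ Nat.card G = 2 ^ a * Nat.card B ∧ (∃ m, derivedSeries G m ≤ f.range) ∧
      ∀ e, Odd e → MS G e = 2 ^ a * MS B e := by
  induction n using Nat.strong_induction_on with
  | _ n ih =>
    intro G _ _ hG
    by_cases hN : NoIdx2 G
    · refine ⟨G, inferInstance, inferInstance, MonoidHom.id G, 0, Function.injective_id, hN, ?_,
        ⟨0, ?_⟩, fun e _ => ?_⟩
      · rw [pow_zero, one_mul]
      · rw [derivedSeries_zero]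
        intro x _
        exact ⟨x, rfl⟩
      · rw [pow_zero, one_mul]
    · unfold NoIdx2 at hN
      push Not at hN
      obtain ⟨Y, hY⟩ := hN
      have hc : Nat.card Y * 2 = Nat.card G := by
        rw [← hY]
        exact Y.card_mul_index
      have hpos : 0 < Nat.card Y := Nat.card_pos
      obtain ⟨B, iB, iF, f, a, hf, hB, hcard, ⟨m, hm⟩, hMS⟩ :=
        ih (Nat.card Y) (by omega) Y rfl
      refine ⟨B, iB, iF, Y.subtype.comp f, a + 1, ?_, hB, ?_, ⟨m + 1, ?_⟩, fun e he => ?_⟩
      · exact Y.subtype_injective.comp hf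
      · rw [← hc, hcard, pow_succ]
        ring
      · rw [MonoidHom.range_comp]
        exact (derived_le G Y hY m).trans (Subgroup.map_mono hm)
      · rw [MS_index_two Y hY he, hMS e he, pow_succ]
        ring

/-- the 2-residual, reached by subgroups of index two -/
theorem exists_residual (G : Type) [Group G] [Finite G] :
    ∃ (B : Type) (_ : Group B) (_ : Finite B) (f : B →* G) (a : ℕ), Function.Injective f ∧
      NoIdx2 B ∧ Nat.card G = 2 ^ a * Nat.card B ∧ (∃ m, derivedSeries G m ≤ f.range) ∧
      ∀ e, Odd e → MS G e = 2 ^ a * MS B e :=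
  exists_residual_aux (Nat.card G) G rfl

private theorem odd_part_of_odd {d : ℕ} (hd : Odd d) : d / 2 ^ d.factorization 2 = d := by
  have h1 : d.factorization 2 = 0 :=
    Nat.factorization_eq_zero_of_not_dvd (fun h => (Nat.not_even_iff_odd.2 hd) (even_iff_two_dvd.2 h))
  rw [h1, pow_zero, Nat.div_one]

theorem MS_modEq (B : Type) [Group B] [Finite B] {e : ℕ} (he : Odd e) :
    MS B e ≡ N B e [MOD 4] := by
  rw [← ZMod.natCast_eq_natCast_iff]
  unfold MS
  rw [Nat.cast_sum]
  have h4 : (4 : ZMod 4) = 0 := rfl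
  have h1 : ∀ d ∈ (Finset.range (Nat.card B + 1)).filter
      (fun d => d / 2 ^ d.factorization 2 = e), ((d ^ 2 * N B d : ℕ) : ZMod 4) =
        if d = e then ((N B e : ℕ) : ZMod 4) else 0 := by
    intro d hd
    rw [Finset.mem_filter] at hd
    rcases Nat.even_or_odd d with hev | hod
    · have hne : d ≠ e := by
        rintro rfl
        exact (Nat.not_even_iff_odd.2 he) hev
      rw [if_neg hne]
      obtain ⟨c, rfl⟩ := hev
      push_cast
      have h2 : ((c : ZMod 4) + c) ^ 2 = 4 * (c : ZMod 4) ^ 2 := by ring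
      rw [h2, h4, zero_mul, zero_mul]
    · have hde : d = e := by
        rw [← hd.2, odd_part_of_odd hod]
      rw [if_pos hde, hde]
      obtain ⟨c, rfl⟩ := he
      push_cast
      have h2 : (2 * (c : ZMod 4) + 1) ^ 2 = 4 * ((c : ZMod 4) ^ 2 + c) + 1 := by ring
      rw [h2, h4, zero_mul, zero_add, one_mul]
  rw [Finset.sum_congr rfl h1, Finset.sum_ite_eq']
  split_ifs with h
  · rfl
  · rw [Finset.mem_filter, Finset.mem_range, not_and_or] at h
    rcases h with h | h
    · rw [N_eq_zero B (by omega), Nat.cast_zero]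
    · exact absurd (odd_part_of_odd he) h

private theorem pow_odd_unique {a b x y : ℕ} (hx : Odd x) (hy : Odd y)
    (h : 2 ^ a * x = 2 ^ b * y) : a = b := by
  have key : ∀ {a b x y : ℕ}, Odd x → 2 ^ a * x = 2 ^ b * y → ¬ a < b := by
    intro a b x y hx h hab
    obtain ⟨c, rfl⟩ := Nat.exists_eq_add_of_lt hab
    have h1 : x = 2 * (2 ^ c * y) := by
      refine Nat.eq_of_mul_eq_mul_left (Nat.two_pow_pos a) ?_
      rw [h, pow_succ, pow_add]
      ring
    exact (Nat.not_even_iff_odd.2 hx) (even_iff_two_dvd.2 ⟨_, h1⟩)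
  rcases lt_trichotomy a b with h1 | h1 | h1
  · exact absurd h1 (key hx h)
  · exact h1
  · exact absurd h1 (key hy h.symm)

/-- the complex group algebra determines the numbers of characters of odd degree of the
2-residual modulo four -/
theorem residual_congr {G H : Type} [Group G] [Group H] [Finite G] [Finite H]
    (e : Nonempty (MonoidAlgebra ℂ G ≃ₐ[ℂ] MonoidAlgebra ℂ H)) :
    ∃ (A : Type) (_ : Group A) (_ : Finite A) (f : A →* G)
      (B : Type) (_ : Group B) (_ : Finite B) (g : B →* H),
      Function.Injective f ∧ Function.Injective g ∧ NoIdx2 A ∧ NoIdx2 B ∧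
      Nat.card A = Nat.card B ∧ (∃ m, derivedSeries H m ≤ g.range) ∧
      ∀ d, Odd d → N A d ≡ N B d [MOD 4] := by
  have hcard : Nat.card G = Nat.card H := card_congr e
  have hMS : ∀ d, MS G d = MS H d := by
    intro d
    unfold MS
    rw [hcard]
    exact Finset.sum_congr rfl fun i _ => by rw [N_congr e]
  obtain ⟨A, iA, iAF, f, a, hf, hA, hcA, -, hMA⟩ := exists_residual G
  obtain ⟨B, iB, iBF, g, b, hg, hB, hcB, hmB, hMB⟩ := exists_residual H
  have hodd : ∀ (C : Type) [Group C] [Finite C], NoIdx2 C → Odd (MS C 1) := by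
    intro C _ _ hC
    have h1 : MS C 1 ≡ N C 1 [MOD 4] := MS_modEq C odd_one
    rw [N_one] at h1
    have h2 := hC.odd_index_commutator
    have h3 : MS C 1 ≡ (commutator C).index [MOD 2] := h1.of_dvd (by norm_num)
    rw [Nat.odd_iff] at h2 ⊢
    exact (show MS C 1 % 2 = (commutator C).index % 2 from h3).trans h2
  have hab : a = b := by
    refine pow_odd_unique (hodd A hA) (hodd B hB) ?_
    rw [← hMA 1 odd_one, ← hMB 1 odd_one, hMS 1]
  subst hab
  refine ⟨A, iA, iAF, f, B, iB, iBF, g, hf, hg, hA, hB, ?_, hmB, fun d hd => ?_⟩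
  · refine Nat.eq_of_mul_eq_mul_left (Nat.two_pow_pos a) ?_
    rw [← hcA, ← hcB, hcard]
  · have h1 : MS A d = MS B d := by
      refine Nat.eq_of_mul_eq_mul_left (Nat.two_pow_pos a) ?_
      rw [← hMA d hd, ← hMB d hd, hMS d]
    have h2 := MS_modEq A hd
    have h3 := MS_modEq B hd
    rw [h1] at h2
    exact h2.symm.trans h3

end Pool.Agent.CGS
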