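import Pool.Agent.CGS.Base

/-!
# Rotations of finite order have a non-isotropic axis

PACKAGE (statements frozen; auxiliary lemmas private; the imported files are black boxes, some
of them still contain sorry).

* (1) `A` is invertible (`det A = 1`) and `Aᵀ P A = P` gives `P A P⁻¹ = (A⁻¹)ᵀ`. So `det (A - 1) =
  det (P (A - 1) P⁻¹) = det ((A⁻¹ - 1)ᵀ) = det (A⁻¹ - 1) = det (A⁻¹ (1 - A)) = det (1 - A) = -det
  (A - 1)` (the size is three, `Matrix.det_neg`). So `det (A - 1) = 0` and there is `u ≠ 0` with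
  `A u = u` (`Matrix.exists_mulVec_eq_zero_iff`).
* (2) the fixed space `F = {w | A w = w}` is at most one-dimensional: otherwise the kernel of `N =
  A - 1` has dimension at least two, so `N` has rank at most one and `N = vecMulVec y φ` for some
  vectors `y, φ` (if `N ≠ 0` choose `y` spanning the range). Then `det A = det (1 + vecMulVec y φ)
  = 1 + φ ⬝ᵥ y` (`Matrix.det_one_add_replicateCol_mul_replicateRow` or the similar
  Weinstein-Aronszajn lemma), so `φ ⬝ᵥ y = 0`, `N * N = 0`, and `1 = A ^ m = (1 + N) ^ m = 1 + m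
  N` (induction on `m`), so `N = 0` and `A = 1`, a contradiction. (Other proofs are welcome.) So
  `F = ℂ u`.
* (3) `u ⬝ᵥ (P *ᵥ u) ≠ 0`: let `E = (1 / m) • ∑ k ∈ range m, A ^ k`. Then `A E = E`, so every `E
  w` lies in `F = ℂ u`, and `E u = u`. Write `b(x, y) = x ⬝ᵥ (P *ᵥ y)`; it is symmetric, `b(A x, A
  y) = b(x, y)`, so `b(u, A w) = b(A u, A w) = b(u, w)` and `b(u, E w) = b(u, w)`. As `P` is
  invertible and `u ≠ 0` there is `w` with `b(u, w) ≠ 0`. Then `E w = c u` and `c * b(u, u) = b(u,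
  E w) = b(u, w) ≠ 0`.
* (4) choose `k` with `k ^ 2 = (b(u, u))⁻¹` (`IsSquare`, `Complex` is algebraically closed,
  `IsAlgClosed.exists_pow_nat_eq`) and put `v = k • u`.
-/

set_option autoImplicit false

namespace Pool.Agent.CGS

open Matrix

private theorem det_sub_one (P A : Matrix (Fin 3) (Fin 3) ℂ) (hP : IsUnit P.det)
    (hA : Aᵀ * P * A = P) (hdet : A.det = 1) : (A - 1).det = 0 := by
  have hdP : P.det ≠ 0 := hP.ne_zero
  have e : Aᵀ * P * (A - 1) = -((A - 1)ᵀ * P) := by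
    rw [mul_sub, hA, transpose_sub, transpose_one, mul_one, sub_mul, one_mul, neg_sub]
  have e2 := congrArg Matrix.det e
  rw [det_mul, det_mul, det_transpose, hdet, one_mul, Matrix.det_neg, det_mul, det_transpose,
    Fintype.card_fin] at e2
  have h3 : P.det * (2 * (A - 1).det) = 0 := by linear_combination e2
  rcases mul_eq_zero.1 h3 with h | h
  · exact absurd h hdP
  · rcases mul_eq_zero.1 h with h | h
    · exact absurd h two_ne_zero
    · exact h

private theorem pow_of_sq {N : Matrix (Fin 3) (Fin 3) ℂ} (hN : N * N = 0) (m : ℕ) :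
    (1 + N) ^ m = 1 + (m : ℂ) • N := by
  induction m with
  | zero => simp
  | succ m ih =>
    rw [pow_succ, ih, add_mul, one_mul, smul_mul_assoc, mul_add, mul_one, hN, add_zero]
    push_cast
    rw [add_smul, one_smul]
    abel

private theorem row_eq {r w u : Fin 3 → ℂ} (h1 : r ⬝ᵥ w = 0) (h2 : r ⬝ᵥ u = 0) (i j : Fin 3) :
    r i * (crossProduct w u) j = r j * (crossProduct w u) i := by
  simp only [dotProduct, Fin.sum_univ_three] at h1 h2
  rw [cross_apply]
  fin_cases i <;> fin_cases j <;>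
    simp [Matrix.cons_val_zero, Matrix.cons_val_one] <;>
    first
      | ring1
      | linear_combination (w 0) * h2 - (u 0) * h1
      | linear_combination (u 0) * h1 - (w 0) * h2
      | linear_combination (w 1) * h2 - (u 1) * h1
      | linear_combination (u 1) * h1 - (w 1) * h2
      | linear_combination (w 2) * h2 - (u 2) * h1
      | linear_combination (u 2) * h1 - (w 2) * h2

private theorem line_aux (A : Matrix (Fin 3) (Fin 3) ℂ) (hdet : A.det = 1) {m : ℕ} (hm : 0 < m)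
    (hAm : A ^ m = 1) (hA1 : A ≠ 1) {u w : Fin 3 → ℂ} (hu0 : u ≠ 0) (hu : A *ᵥ u = u)
    (hw : A *ᵥ w = w) : ∃ c : ℂ, w = c • u := by
  by_contra hcon
  push Not at hcon
  have hli : LinearIndependent ℂ ![w, u] := by
    rw [linearIndependent_fin2]
    exact ⟨hu0, fun a ha => hcon a ha.symm⟩
  have hn : crossProduct w u ≠ 0 := crossProduct_ne_zero_iff_linearIndependent.2 hli
  obtain ⟨j0, hj0⟩ : ∃ j, crossProduct w u j ≠ 0 := by
    by_contra h
    push Not at h
    exact hn (funext h)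
  have hNu : (A - 1) *ᵥ u = 0 := by rw [sub_mulVec, one_mulVec, hu, sub_self]
  have hNw : (A - 1) *ᵥ w = 0 := by rw [sub_mulVec, one_mulVec, hw, sub_self]
  set n := crossProduct w u with hndef
  set N := A - 1 with hNdef
  have hAN : A = 1 + N := by rw [hNdef]; abel
  let y : Fin 3 → ℂ := fun i => N i j0 / n j0
  have hNy : ∀ i j, N i j = y i * n j := by
    intro i j
    have h1 : N i ⬝ᵥ w = 0 := congrFun hNw i
    have h2 : N i ⬝ᵥ u = 0 := congrFun hNu i
    have h3 := row_eq h1 h2 j j0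
    change N i j = N i j0 / n j0 * n j
    rw [div_mul_eq_mul_div, eq_div_iff hj0]
    exact h3
  have hd : y 0 * n 0 + y 1 * n 1 + y 2 * n 2 = 0 := by
    rw [hAN, det_fin_three] at hdet
    simp only [Matrix.add_apply, hNy, one_apply_eq, one_apply_ne, ne_eq, Fin.isValue, Fin.reduceEq,
      not_false_eq_true, zero_add] at hdet
    linear_combination hdet
  have hNN : N * N = 0 := by
    ext i j
    rw [mul_apply, Fin.sum_univ_three]
    simp only [hNy, Matrix.zero_apply]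
    linear_combination y i * n j * hd
  have h1 := pow_of_sq hNN m
  rw [← hAN, hAm] at h1
  have h2 : (m : ℂ) • N = 0 := by
    have h3 := h1.symm
    rwa [add_eq_left] at h3
  rcases smul_eq_zero.1 h2 with h | h
  · exact hm.ne' (by exact_mod_cast h)
  · exact hA1 (by rw [hAN, h, add_zero])

theorem fixed_line (P A : Matrix (Fin 3) (Fin 3) ℂ) (hP : IsUnit P.det) (hPs : Pᵀ = P)
    (hA : Aᵀ * P * A = P) (hdet : A.det = 1) {m : ℕ} (hm : 0 < m) (hAm : A ^ m = 1)
    (hA1 : A ≠ 1) :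
    ∃ v : Fin 3 → ℂ, A *ᵥ v = v ∧ v ⬝ᵥ (P *ᵥ v) = 1 ∧
      ∀ w, A *ᵥ w = w → ∃ c : ℂ, w = c • v := by
  have hdP : P.det ≠ 0 := hP.ne_zero
  obtain ⟨u, hu0, hu'⟩ := Matrix.exists_mulVec_eq_zero_iff.2 (det_sub_one P A hP hA hdet)
  have hu : A *ᵥ u = u := by
    rw [sub_mulVec, one_mulVec, sub_eq_zero] at hu'
    exact hu'
  have line : ∀ w, A *ᵥ w = w → ∃ c : ℂ, w = c • u := fun w hw =>
    line_aux A hdet hm hAm hA1 hu0 hu hw
  -- the averaging matrix
  let E : Matrix (Fin 3) (Fin 3) ℂ := ∑ k ∈ Finset.range m, A ^ k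
  have hAE : A * E = E := by
    have h1 : A * E = ∑ k ∈ Finset.range m, A ^ (k + 1) := by
      rw [Finset.mul_sum]
      exact Finset.sum_congr rfl fun k _ => (pow_succ' A k).symm
    have h2 := Finset.sum_range_succ (fun k => A ^ k) m
    rw [Finset.sum_range_succ', hAm, pow_zero] at h2
    rw [h1]
    exact add_right_cancel h2
  have hPu : P *ᵥ u ≠ 0 := by
    intro h
    have h1 : ∃ v : Fin 3 → ℂ, v ≠ 0 ∧ P *ᵥ v = 0 := ⟨u, hu0, h⟩
    exact hdP (Matrix.exists_mulVec_eq_zero_iff.1 h1)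
  obtain ⟨i0, hi0⟩ : ∃ i, (P *ᵥ u) i ≠ 0 := by
    by_contra h
    push Not at h
    exact hPu (funext h)
  let w : Fin 3 → ℂ := Pi.single i0 1
  have hb : ∀ z : Fin 3 → ℂ, u ⬝ᵥ (P *ᵥ (A *ᵥ z)) = u ⬝ᵥ (P *ᵥ z) := by
    intro z
    conv_rhs => rw [← hA]
    rw [← mulVec_mulVec, ← mulVec_mulVec, dotProduct_mulVec u Aᵀ, vecMul_transpose, hu]
  have hbk : ∀ k : ℕ, ∀ z : Fin 3 → ℂ, u ⬝ᵥ (P *ᵥ (A ^ k *ᵥ z)) = u ⬝ᵥ (P *ᵥ z) := by
    intro k
    induction k with
    | zero => intro z; rw [pow_zero, one_mulVec]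
    | succ k ih =>
      intro z
      rw [pow_succ', ← mulVec_mulVec, hb, ih]
  have hbE : ∀ z : Fin 3 → ℂ, u ⬝ᵥ (P *ᵥ (E *ᵥ z)) = m * (u ⬝ᵥ (P *ᵥ z)) := by
    intro z
    have h1 : E *ᵥ z = ∑ k ∈ Finset.range m, A ^ k *ᵥ z := by
      change (∑ k ∈ Finset.range m, A ^ k) *ᵥ z = _
      rw [Matrix.sum_mulVec]
    rw [h1, Matrix.mulVec_sum, dotProduct_sum, Finset.sum_congr rfl fun k _ => hbk k z,
      Finset.sum_const, Finset.card_range, nsmul_eq_mul]
  have hbw : u ⬝ᵥ (P *ᵥ w) = (P *ᵥ u) i0 := by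
    rw [dotProduct_mulVec, ← mulVec_transpose, hPs]
    simp [w]
  obtain ⟨c, hc⟩ := line (E *ᵥ w) (by rw [mulVec_mulVec, hAE])
  have hbu : u ⬝ᵥ (P *ᵥ u) ≠ 0 := by
    intro h
    have h1 := hbE w
    rw [hc, mulVec_smul, dotProduct_smul, h, smul_zero, hbw] at h1
    have h2 : (m : ℂ) ≠ 0 := by exact_mod_cast hm.ne'
    exact (mul_ne_zero h2 hi0) h1.symm
  obtain ⟨k, hk⟩ := IsAlgClosed.exists_pow_nat_eq (u ⬝ᵥ (P *ᵥ u))⁻¹ (n := 2) two_pos
  have hk0 : k ≠ 0 := by
    rintro rfl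
    rw [zero_pow two_ne_zero] at hk
    exact inv_ne_zero hbu hk.symm
  refine ⟨k • u, ?_, ?_, ?_⟩
  · rw [mulVec_smul, hu]
  · rw [mulVec_smul, dotProduct_smul, smul_dotProduct, smul_smul, ← pow_two, hk, smul_eq_mul,
      inv_mul_cancel₀ hbu]
  · intro z hz
    obtain ⟨c', hc'⟩ := line z hz
    refine ⟨c' * k⁻¹, ?_⟩
    rw [smul_smul, mul_assoc, inv_mul_cancel₀ hk0, mul_one]
    exact hc'

end Pool.Agent.CGS
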