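import Pool.Agent.CGS.Base

/-!
# Structure: a central 2-subgroup of odd index in a normal subgroup

Inside the group `U` the subgroup `T' = T.subgroupOf U` is central (`hc`), a 2-group, of odd index
(`hodd`; `Subgroup.relIndex`). Its order is a power of two and coprime to its index, so by
Schur-Zassenhaus (`Subgroup.exists_right_complement'_of_coprime`) there is a complement `K'` of
`T'` in `U`, of odd order `k = T.relIndex U`. As `T'` is central, every `u ∈ U` is `t * κ` with `t
∈ T'`, `κ ∈ K'` commuting, and `u ^ k = t ^ k`, which is `1` iff `t = 1` (`k` is odd, `t` has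
2-power order). So `K' = {u ∈ U | u ^ k = 1}`. This set is invariant under conjugation by elements
of `X` (`U` is normal), so the subgroup `K = K'.map U.subtype` of `X` is normal, of odd order, so
`K = ⊥` (`hno`), so `k = 1` and `U = T`.
-/

set_option autoImplicit false

namespace Pool.Agent.CGS

open Matrix

theorem eq_of_central {X : Type} [Group X] [Finite X] (hno : NoOdd X) (T U : Subgroup X)
    [U.Normal] (hTU : T ≤ U) (hT : IsPGroup 2 T) (hc : ∀ t ∈ T, ∀ u ∈ U, t * u = u * t)
    (hodd : Odd (T.relIndex U)) : U = T := by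
  classical
  have : (T.subgroupOf U).Normal := ⟨fun t ht g => by
    have h1 := hc (t : X) (Subgroup.mem_subgroupOf.1 ht) (g : X) g.2
    have h2 : g * t * g⁻¹ = t := by
      apply Subtype.ext
      rw [Subgroup.coe_mul, Subgroup.coe_mul, Subgroup.coe_inv, ← h1, mul_inv_cancel_right]
    rw [h2]
    exact ht⟩
  have : Fact (Nat.Prime 2) := ⟨Nat.prime_two⟩
  obtain ⟨n, hn⟩ := IsPGroup.iff_card.1 hT
  have hcard : Nat.card (T.subgroupOf U) = 2 ^ n := by
    rw [← hn]
    exact Nat.card_congr (Subgroup.subgroupOfEquivOfLe hTU).toEquiv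
  have hidx : (T.subgroupOf U).index = T.relIndex U := rfl
  have hcop : Nat.Coprime (Nat.card (T.subgroupOf U)) (T.subgroupOf U).index := by
    rw [hcard, hidx]
    exact Nat.Coprime.pow_left n (Nat.coprime_two_left.2 hodd)
  obtain ⟨K', hK⟩ := Subgroup.exists_right_complement'_of_coprime hcop
  have hKc : Nat.card K' = T.relIndex U := by
    rw [← hidx]
    exact hK.symm.index_eq_card.symm
  have key : ∀ u : U, u ^ T.relIndex U = 1 → u ∈ K' := by
    intro u hu
    obtain ⟨⟨t, κ⟩, h⟩ := hK.2 u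
    have h : (t : U) * (κ : U) = u := h
    have hcomm : Commute (t : U) (κ : U) := by
      apply Subtype.ext
      exact hc ((t : U) : X) (Subgroup.mem_subgroupOf.1 t.2) ((κ : U) : X) (κ : U).2
    have hκ : (κ : U) ^ T.relIndex U = 1 := by
      have h1 : κ ^ T.relIndex U = 1 := by
        rw [← hKc]
        exact pow_card_eq_one'
      exact congrArg (Subtype.val) h1
    rw [← h, hcomm.mul_pow, hκ, mul_one] at hu
    have h2 : (t : U) ^ (2 ^ n) = 1 := by
      have h1 : t ^ (2 ^ n) = 1 := by
        rw [← hcard]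
        exact pow_card_eq_one'
      exact congrArg (Subtype.val) h1
    have h3 : orderOf (t : U) ∣ 1 := by
      have h4 : Nat.Coprime (2 ^ n) (T.relIndex U) := by
        rw [hcard, hidx] at hcop
        exact hcop
      rw [← Nat.coprime_iff_gcd_eq_one.1 h4]
      exact Nat.dvd_gcd (orderOf_dvd_of_pow_eq_one h2) (orderOf_dvd_of_pow_eq_one hu)
    have h5 : (t : U) = 1 := orderOf_eq_one_iff.1 (Nat.dvd_one.1 h3)
    rw [← h, h5, one_mul]
    exact κ.2
  have hpow : ∀ u ∈ K', u ^ T.relIndex U = 1 := by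
    intro u hu
    have h1 : (⟨u, hu⟩ : K') ^ T.relIndex U = 1 := by
      rw [← hKc]
      exact pow_card_eq_one'
    exact congrArg (Subtype.val) h1
  have hKn : (K'.map U.subtype).Normal := by
    refine ⟨?_⟩
    rintro _ ⟨u, hu, rfl⟩ g
    have hu' : u ∈ K' := hu
    have hmem : g * (u : X) * g⁻¹ ∈ U := ‹U.Normal›.conj_mem _ u.2 g
    refine ⟨⟨g * (u : X) * g⁻¹, hmem⟩, key _ ?_, rfl⟩
    apply Subtype.ext
    have h1 := congrArg (Subtype.val) (hpow u hu')
    rw [Subgroup.coe_pow, Subgroup.coe_one] at h1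
    rw [Subgroup.coe_pow, Subgroup.coe_one]
    show (g * (u : X) * g⁻¹) ^ T.relIndex U = 1
    rw [conj_pow, h1, mul_one, mul_inv_cancel]
  have hKo : Odd (Nat.card (K'.map U.subtype)) := by
    rw [Nat.card_congr (K'.equivMapOfInjective U.subtype U.subtype_injective).symm.toEquiv, hKc]
    exact hodd
  have hbot := hno _ hKn hKo
  refine le_antisymm (fun u hu => ?_) hTU
  obtain ⟨⟨t, κ⟩, h⟩ := hK.2 ⟨u, hu⟩
  have h : (t : U) * (κ : U) = ⟨u, hu⟩ := h
  have h1 : ((κ : U) : X) ∈ K'.map U.subtype := ⟨κ, κ.2, rfl⟩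
  rw [hbot, Subgroup.mem_bot] at h1
  have h2 : (κ : U) = 1 := Subtype.ext h1
  rw [h2, mul_one] at h
  have h3 : ((t : U) : X) = u := congrArg (Subtype.val) h
  rw [← h3]
  exact Subgroup.mem_subgroupOf.1 t.2

end Pool.Agent.CGS
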