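import Pool.Agent.CGS.I2abs
import Pool.Agent.CGS.NoIdx

/-!
# Irreducible representations of odd dimension of a 2-group

PACKAGE (statements frozen; auxiliary lemmas private; the imported files are black boxes, some
of them are not finished yet).

Strong induction on `Nat.card Q` (for all `Q`, `V`, `r`). If `Q` is trivial (subsingleton) every
subspace is stable; take `v ≠ 0` (`finrank` is odd, so positive) and `W = span {v}`: `W = ⊤`, so
`finrank = 1` (`finrank_span_singleton`). Otherwise `Q` is nontrivial, so it has a subgroup `Y` of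
index two (`exists_index_two_of_isPGroup`), `Nat.card Y < Nat.card Q`, `Y` is a 2-group
(`IsPGroup.to_subgroup`), and the restriction `r.comp Y.subtype` is irreducible by
`irr_res_of_odd`. Apply the induction hypothesis.
-/

set_option autoImplicit false

namespace Pool.Agent.CGS

open Matrix

private theorem two_aux (n : ℕ) : ∀ (Q : Type) [Group Q] [Finite Q], IsPGroup 2 Q →
    Nat.card Q = n → ∀ (V : Type) [AddCommGroup V] [Module ℂ V] [FiniteDimensional ℂ V]
    (r : Representation ℂ Q V), Odd (Module.finrank ℂ V) →
    (∀ W : Submodule ℂ V, (∀ g : Q, ∀ w ∈ W, r g w ∈ W) → W = ⊥ ∨ W = ⊤) →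
    Module.finrank ℂ V = 1 := by
  induction n using Nat.strong_induction_on with
  | _ n ih =>
    intro Q _ _ hQ hn V _ _ _ r hodd hirr
    rcases subsingleton_or_nontrivial Q with hs | hs
    · have hV : ∃ v : V, v ≠ 0 := by
        by_contra hcon
        push Not at hcon
        have : Subsingleton V := ⟨fun a b => by rw [hcon a, hcon b]⟩
        rw [Module.finrank_zero_of_subsingleton] at hodd
        exact absurd hodd (by decide)
      obtain ⟨v, hv⟩ := hV
      have h1 := hirr (Submodule.span ℂ {v}) (by
        intro g w hw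
        rw [Subsingleton.elim g 1, map_one]
        exact hw)
      rcases h1 with h1 | h1
      · exact absurd (Submodule.span_singleton_eq_bot.1 h1) hv
      · rw [← finrank_top (R := ℂ) (M := V), ← h1]
        exact finrank_span_singleton hv
    · obtain ⟨Y, hY⟩ := exists_index_two_of_isPGroup hQ
      have hlt : Nat.card Y < n := by
        have h2 := Y.card_mul_index
        rw [hY, hn] at h2
        have h3 : 0 < Nat.card Y := Nat.card_pos
        omega
      exact ih (Nat.card Y) hlt Y (hQ.to_subgroup Y) rfl V (r.comp Y.subtype) hodd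
        (fun W hW => irr_res_of_odd r Y hY hodd hirr W fun y hy w hw => hW ⟨y, hy⟩ w hw)

theorem finrank_eq_one_of_irr {Q V : Type} [Group Q] [Finite Q] (hQ : IsPGroup 2 Q)
    [AddCommGroup V] [Module ℂ V] [FiniteDimensional ℂ V] (r : Representation ℂ Q V)
    (hodd : Odd (Module.finrank ℂ V))
    (hirr : ∀ W : Submodule ℂ V, (∀ g : Q, ∀ w ∈ W, r g w ∈ W) → W = ⊥ ∨ W = ⊤) :
    Module.finrank ℂ V = 1 :=
  two_aux (Nat.card Q) Q hQ rfl V r hodd hirr

end Pool.Agent.CGS
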