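import Pool.Agent.CGS.TwoA

/-!
# A 2-group acting on a space of odd dimension has a common eigenvector

PACKAGE (statements frozen; auxiliary lemmas private; the imported files are black boxes, some
of them still contain sorry).

* `exists_stable_compl` (Maschke): via `MonoidAlgebra.Submodule.exists_isCompl` for `r.asModule`,
  or directly: choose a linear projection `π` of `V` onto `W` (`Submodule.exists_isCompl`,
  `LinearMap.exists_leftInverse...`, `W.subtype`), put `π' v = (1 / |G|) ∑ g, r g (π (r g⁻¹ v))`;
  it maps into `W`, is the identity on `W` and commutes with all `r g`; its kernel is a stable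
  complement (`LinearMap.isCompl_of_proj`).
* `exists_eigenvector`: strong induction on `finrank V` (for all `V`, `r`). If `V` is irreducible
  (every stable subspace is `⊥` or `⊤`) then `finrank V = 1` (`finrank_eq_one_of_irr`), so `V =
  span {v}` for any `v ≠ 0` and every `r q v` is a multiple of `v`
  (`finrank_eq_one_iff_of_nonzero'`). Otherwise take a stable `W ≠ ⊥, ⊤` and a stable complement
  `W'`, also `≠ ⊥, ⊤`. `finrank W + finrank W' = finrank V` is odd, so one of them is odd; both
  are smaller than `finrank V`. Apply the induction hypothesis to the restriction of `r` to this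
  subspace (the representation `q ↦ (r q).restrict _` on the subspace).
-/

set_option autoImplicit false

namespace Pool.Agent.CGS

open Matrix

theorem exists_stable_compl {G V : Type} [Group G] [Finite G] [AddCommGroup V] [Module ℂ V]
    [FiniteDimensional ℂ V] (r : Representation ℂ G V) (W : Submodule ℂ V)
    (hW : ∀ g : G, ∀ w ∈ W, r g w ∈ W) :
    ∃ W' : Submodule ℂ V, (∀ g : G, ∀ w ∈ W', r g w ∈ W') ∧ IsCompl W W' := by
  haveI : NeZero (Nat.card G : ℂ) := ⟨by exact_mod_cast Nat.card_pos.ne'⟩
  have hs : ComplementedLattice (Subrepresentation r) :=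
    (inferInstance : Representation.IsSemisimpleRepresentation r)
  obtain ⟨σ, hσ⟩ := hs.exists_isCompl (⟨W, fun g v hv => hW g v hv⟩ : Subrepresentation r)
  refine ⟨σ.toSubmodule, fun g w hw => σ.apply_mem_toSubmodule g hw, ?_⟩
  refine ⟨disjoint_iff.2 ?_, codisjoint_iff.2 ?_⟩
  · exact congrArg Subrepresentation.toSubmodule hσ.inf_eq_bot
  · exact congrArg Subrepresentation.toSubmodule hσ.sup_eq_top

theorem exists_eigenvector {Q V : Type} [Group Q] [Finite Q] (hQ : IsPGroup 2 Q)
    [AddCommGroup V] [Module ℂ V] [FiniteDimensional ℂ V] (r : Representation ℂ Q V)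
    (hodd : Odd (Module.finrank ℂ V)) :
    ∃ v : V, v ≠ 0 ∧ ∀ q : Q, ∃ c : ℂ, r q v = c • v := by
  obtain ⟨n, hn⟩ : ∃ n, Module.finrank ℂ V = n := ⟨_, rfl⟩
  induction n using Nat.strong_induction_on generalizing V with
  | _ n ih =>
    by_cases hirr : ∀ W : Submodule ℂ V, (∀ g : Q, ∀ w ∈ W, r g w ∈ W) → W = ⊥ ∨ W = ⊤
    · have h1 := finrank_eq_one_of_irr hQ r hodd hirr
      obtain ⟨v, hv0, hv⟩ := finrank_eq_one_iff'.1 h1
      refine ⟨v, hv0, fun q => ?_⟩
      obtain ⟨c, hc⟩ := hv (r q v)
      exact ⟨c, hc.symm⟩
    · push Not at hirr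
      obtain ⟨W, hW, hW0, hW1⟩ := hirr
      obtain ⟨W', hW', hc⟩ := exists_stable_compl r W hW
      have key : ∀ X : Submodule ℂ V, (∀ g : Q, ∀ w ∈ X, r g w ∈ X) → X ≠ ⊤ →
          Odd (Module.finrank ℂ X) → ∃ v : V, v ≠ 0 ∧ ∀ q : Q, ∃ c : ℂ, r q v = c • v := by
        intro X hX hX1 hXo
        have hlt : Module.finrank ℂ X < n := by
          rw [← hn]
          exact Submodule.finrank_lt hX1
        obtain ⟨v, hv0, hv⟩ := ih _ hlt
          (Subrepresentation.toRepresentation (⟨X, fun g v hv => hX g v hv⟩ : Subrepresentation r))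
          hXo rfl
        refine ⟨(v : V), fun h => hv0 (Subtype.ext h), fun q => ?_⟩
        obtain ⟨c, hc⟩ := hv q
        exact ⟨c, congrArg Subtype.val hc⟩
      have hsum := Submodule.finrank_add_eq_of_isCompl hc
      rcases Nat.even_or_odd (Module.finrank ℂ W) with he | ho
      · have ho' : Odd (Module.finrank ℂ W') := by
          rw [← hsum] at hodd
          rcases Nat.even_or_odd (Module.finrank ℂ W') with h | h
          · exact absurd hodd (Nat.not_odd_iff_even.2 (he.add h))
          · exact h
        refine key W' hW' ?_ ho'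
        rintro rfl
        exact hW0 (by simpa using hc.disjoint)
      · exact key W hW hW1 ho

end Pool.Agent.CGS
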