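import Pool.Agent.CGS.VE3
import Pool.Agent.CGS.Deg

/-!
# Classes with irreducible restriction to a subgroup of index three

PACKAGE (statements frozen; auxiliary lemmas private; the imported files are black boxes, some
of them were not finished yet).

Let `μ : B →* ℂˣ` be a character of order three with kernel `L` (the quotient `B ⧸ L` is cyclic of
order three; compose with an injection into `ℂˣ`, for instance via `zmod` powers of a primitive
cube root of unity, `IsPrimitiveRoot`, or `CommGroup` duality). The map `c ↦` class of the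
restriction, from `{c : Cls B d // Has (ResIrr L) c}` to `{c : Cls L d // InvC L c}`: the
restriction of `ρ` is invariant since `ρ(b)` intertwines `res L ρ` and `cj L b (res L ρ)`
(`mat_cj`). It is surjective by `exists_ext_three` (an extension of an irreducible representation
is irreducible, `isIrr_of_res`). Claim: every fibre has exactly three elements, so the first type
has three times as many elements (`Nat.card` of a sigma type over the fibres, or
`Finset.card_eq_sum_card_fiberwise`; all types are finite, `finite_cls`). Fix `ρ` with `res L ρ`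
irreducible. The classes of `twist (μ ^ j) ρ`, `j = 0, 1, 2`, are in the fibre of `ρ` (same
restriction; the twist is irreducible). They are different: if `P (μ ^ i)(b) ρ(b) = (μ ^ j)(b)
ρ(b) P` for all `b` then `P` commutes with `ρ(x)`, `x ∈ L`, so `P` is a scalar (`schur` for `res L
ρ`), not zero, and `(μ ^ i)(b) = (μ ^ j)(b)` for all `b`, so `i = j`. They are all: if `P ρ(x) =
σ(x) P` for `x ∈ L`, then for `b ∈ B` the matrix `P⁻¹ σ(b)⁻¹ P ρ(b)` commutes with `ρ(x)`, `x ∈ L`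
(same computation as in file `VDet`), so it is a scalar `ν(b)`; `P ρ(b) = ν(b) σ(b) P`; `ν` is
multiplicative and trivial on `L`, so it is a power `μ ^ j` (the homomorphisms of the cyclic group
`B ⧸ L` of order three into `ℂˣ` are the three powers of `μ`: `ν(s)` is a cube root of unity), and
`ρ ~ twist (μ ^ j) σ`, so `σ ~ twist (μ ^ (3 - j)) ρ`.
-/

set_option autoImplicit false

namespace Pool.Agent.CGS

open Matrix

private theorem va3_top {B : Type} [Group B] (L K : Subgroup B) (h3 : L.index = 3)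
    (hLK : L ≤ K) {s : B} (hs : s ∉ L) (hK : s ∈ K) : K = ⊤ := by
  have h1 := Subgroup.relIndex_mul_index hLK
  rw [h3] at h1
  have h2 : K.index ∣ 3 := Dvd.intro_left _ h1
  rcases (Nat.dvd_prime Nat.prime_three).1 h2 with h | h
  · exact Subgroup.index_eq_one.1 h
  · rw [h] at h1
    have h4 : L.relIndex K = 1 := by omega
    exact absurd (Subgroup.relIndex_eq_one.1 h4 hK) hs

private theorem va3_mu {B : Type} [Group B] (L : Subgroup B) [L.Normal] (h3 : L.index = 3) :
    ∃ μ : B →* ℂˣ, ∀ b, μ b = 1 ↔ b ∈ L := by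
  have hc : Nat.card (B ⧸ L) = 3 := h3
  have hr : Nat.card (rootsOfUnity 3 ℂ) = 3 := Complex.card_rootsOfUnity 3
  have hF : Fact (Nat.Prime 3) := ⟨Nat.prime_three⟩
  let e : B ⧸ L ≃* rootsOfUnity 3 ℂ := mulEquivOfPrimeCardEq hc hr
  refine ⟨(rootsOfUnity 3 ℂ).subtype.comp (e.toMonoidHom.comp (QuotientGroup.mk' L)),
    fun b => ?_⟩
  change ((e (b : B ⧸ L) : rootsOfUnity 3 ℂ) : ℂˣ) = 1 ↔ b ∈ L
  rw [← QuotientGroup.eq_one_iff, ← map_eq_one_iff e e.injective]
  exact OneMemClass.coe_eq_one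

private theorem va3_smul {d : ℕ} (hd : 0 < d) {M N : Matrix (Fin d) (Fin d) ℂ}
    (h : M * N = 1) {c c' : ℂ} (e : c • M = c' • M) : c = c' := by
  have h1 : (c • M) * N = (c' • M) * N := by rw [e]
  rw [smul_mul_assoc, smul_mul_assoc, h] at h1
  have h2 := congrFun (congrFun h1 ⟨0, hd⟩) ⟨0, hd⟩
  rw [Matrix.smul_apply, Matrix.smul_apply, Matrix.one_apply_eq, smul_eq_mul, smul_eq_mul,
    mul_one, mul_one] at h2
  exact h2

private theorem va3_conj {B : Type} [Group B] (L : Subgroup B) [L.Normal] {d : ℕ}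
    {ρ σ : Rep B d} (hρ : IsIrr (res L ρ)) (P : GL (Fin d) ℂ)
    (hP : ∀ x : L, (P : Matrix (Fin d) (Fin d) ℂ) * mat (res L ρ) x =
      mat (res L σ) x * (P : Matrix (Fin d) (Fin d) ℂ)) (s : B) :
    ∃ c : ℂ, mat σ s * (P : Matrix (Fin d) (Fin d) ℂ) =
      c • ((P : Matrix (Fin d) (Fin d) ℂ) * mat ρ s) := by
  obtain ⟨Q, hQ⟩ : ∃ Q, Q = ((P⁻¹ : GL (Fin d) ℂ) : Matrix (Fin d) (Fin d) ℂ) := ⟨_, rfl⟩
  have e1 : (P : Matrix (Fin d) (Fin d) ℂ) * Q = 1 := by
    rw [hQ, ← Units.val_mul, mul_inv_cancel, Units.val_one]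
  have e2 : Q * (P : Matrix (Fin d) (Fin d) ℂ) = 1 := by
    rw [hQ, ← Units.val_mul, inv_mul_cancel, Units.val_one]
  have h1 : ∀ x : L, Q * mat σ x = mat ρ x * Q := by
    intro x
    have h2 : (P : Matrix (Fin d) (Fin d) ℂ) * mat ρ x =
      mat σ x * (P : Matrix (Fin d) (Fin d) ℂ) := hP x
    calc Q * mat σ x = Q * (mat σ x * ((P : Matrix (Fin d) (Fin d) ℂ) * Q)) := by
          rw [e1, mul_one]
      _ = Q * (mat σ x * (P : Matrix (Fin d) (Fin d) ℂ)) * Q := by noncomm_ring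
      _ = Q * ((P : Matrix (Fin d) (Fin d) ℂ) * mat ρ x) * Q := by rw [h2]
      _ = (Q * (P : Matrix (Fin d) (Fin d) ℂ)) * mat ρ x * Q := by noncomm_ring
      _ = mat ρ x * Q := by rw [e2, one_mul]
  have h2 : ∀ x : L, (Q * mat σ s * (P : Matrix (Fin d) (Fin d) ℂ) * mat ρ s⁻¹) *
      mat (res L ρ) x = mat (res L ρ) x *
        (Q * mat σ s * (P : Matrix (Fin d) (Fin d) ℂ) * mat ρ s⁻¹) := by
    intro x
    have hn : s⁻¹ * (x : B) * s ∈ L := by
      have h3 := Subgroup.Normal.conj_mem (H := L) inferInstance _ x.2 s⁻¹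
      rwa [inv_inv] at h3
    have h3 : mat ρ s⁻¹ * mat ρ (x : B) = mat ρ (s⁻¹ * x * s) * mat ρ s⁻¹ := by
      rw [← mat_mul, ← mat_mul]
      congr 1
      group
    have h4 : (P : Matrix (Fin d) (Fin d) ℂ) * mat ρ (s⁻¹ * x * s) =
        mat σ (s⁻¹ * x * s) * (P : Matrix (Fin d) (Fin d) ℂ) := hP ⟨_, hn⟩
    have h5 : mat σ s * mat σ (s⁻¹ * x * s) = mat σ (x : B) * mat σ s := by
      rw [← mat_mul, ← mat_mul]
      congr 1
      group
    rw [mat_res]
    calc (Q * mat σ s * (P : Matrix (Fin d) (Fin d) ℂ) * mat ρ s⁻¹) * mat ρ (x : B)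
        = Q * mat σ s * (P : Matrix (Fin d) (Fin d) ℂ) * (mat ρ s⁻¹ * mat ρ (x : B)) := by
          noncomm_ring
      _ = Q * mat σ s * ((P : Matrix (Fin d) (Fin d) ℂ) * mat ρ (s⁻¹ * x * s)) * mat ρ s⁻¹ := by
          rw [h3]
          noncomm_ring
      _ = Q * (mat σ s * mat σ (s⁻¹ * x * s)) * (P : Matrix (Fin d) (Fin d) ℂ) * mat ρ s⁻¹ := by
          rw [h4]
          noncomm_ring
      _ = (Q * mat σ (x : B)) * mat σ s * (P : Matrix (Fin d) (Fin d) ℂ) * mat ρ s⁻¹ := by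
          rw [h5]
          noncomm_ring
      _ = mat ρ (x : B) * (Q * mat σ s * (P : Matrix (Fin d) (Fin d) ℂ) * mat ρ s⁻¹) := by
          rw [h1]
          noncomm_ring
  obtain ⟨c, hc⟩ := schur hρ _ h2
  refine ⟨c, ?_⟩
  calc mat σ s * (P : Matrix (Fin d) (Fin d) ℂ)
      = ((P : Matrix (Fin d) (Fin d) ℂ) * Q) * (mat σ s * (P : Matrix (Fin d) (Fin d) ℂ)) *
        (mat ρ s⁻¹ * mat ρ s) := by rw [e1, one_mul, mat_inv_mul, mul_one]
    _ = (P : Matrix (Fin d) (Fin d) ℂ) *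
        (Q * mat σ s * (P : Matrix (Fin d) (Fin d) ℂ) * mat ρ s⁻¹) * mat ρ s := by noncomm_ring
    _ = c • ((P : Matrix (Fin d) (Fin d) ℂ) * mat ρ s) := by
        rw [hc, mul_smul_comm, mul_one, smul_mul_assoc]

private theorem va3_all {B : Type} [Group B] (L : Subgroup B) (h3 : L.index = 3) {d : ℕ}
    {ρ σ : Rep B d} {s : B} (hs : s ∉ L) (P : GL (Fin d) ℂ)
    (hL : ∀ x ∈ L, (P : Matrix (Fin d) (Fin d) ℂ) * mat ρ x =
      mat σ x * (P : Matrix (Fin d) (Fin d) ℂ))
    (h : (P : Matrix (Fin d) (Fin d) ℂ) * mat ρ s = mat σ s * (P : Matrix (Fin d) (Fin d) ℂ))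
    (b : B) : (P : Matrix (Fin d) (Fin d) ℂ) * mat ρ b =
      mat σ b * (P : Matrix (Fin d) (Fin d) ℂ) := by
  let K : Subgroup B :=
    { carrier := {b | (P : Matrix (Fin d) (Fin d) ℂ) * mat ρ b =
        mat σ b * (P : Matrix (Fin d) (Fin d) ℂ)}
      mul_mem' := fun {x y} hx hy => by
        change (P : Matrix (Fin d) (Fin d) ℂ) * mat ρ (x * y) = mat σ (x * y) * _
        have hx' : (P : Matrix (Fin d) (Fin d) ℂ) * mat ρ x = mat σ x * _ := hx
        have hy' : (P : Matrix (Fin d) (Fin d) ℂ) * mat ρ y = mat σ y * _ := hy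
        rw [mat_mul, mat_mul, ← mul_assoc, hx', mul_assoc, hy', mul_assoc]
      one_mem' := by
        change (P : Matrix (Fin d) (Fin d) ℂ) * mat ρ 1 = mat σ 1 * _
        rw [mat_one, mat_one, mul_one, one_mul]
      inv_mem' := fun {x} hx => by
        change (P : Matrix (Fin d) (Fin d) ℂ) * mat ρ x⁻¹ = mat σ x⁻¹ * _
        have hx' : (P : Matrix (Fin d) (Fin d) ℂ) * mat ρ x = mat σ x * _ := hx
        calc (P : Matrix (Fin d) (Fin d) ℂ) * mat ρ x⁻¹
            = (mat σ x⁻¹ * mat σ x) * ((P : Matrix (Fin d) (Fin d) ℂ) * mat ρ x⁻¹) := by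
              rw [mat_inv_mul, one_mul]
          _ = mat σ x⁻¹ * (mat σ x * (P : Matrix (Fin d) (Fin d) ℂ)) * mat ρ x⁻¹ := by
              noncomm_ring
          _ = mat σ x⁻¹ * ((P : Matrix (Fin d) (Fin d) ℂ) * (mat ρ x * mat ρ x⁻¹)) := by
              rw [← hx']
              noncomm_ring
          _ = mat σ x⁻¹ * (P : Matrix (Fin d) (Fin d) ℂ) := by rw [mat_mul_inv, mul_one] }
  have hK : K = ⊤ := va3_top L K h3 (fun x hx => hL x hx) hs h
  have hb : b ∈ K := by
    rw [hK]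
    exact Subgroup.mem_top b
  exact hb

theorem card_resIrr {B : Type} [Group B] [Finite B] (L : Subgroup B) [L.Normal]
    (h3 : L.index = 3) (d : ℕ) :
    Nat.card {c : Cls B d // Has (ResIrr L) c} = 3 * NI L d := by
  obtain ⟨μ, hμ⟩ := va3_mu L h3
  obtain ⟨s, hs⟩ : ∃ s, s ∉ L := by
    by_contra hcon
    push Not at hcon
    have h1 : L = ⊤ := (Subgroup.eq_top_iff' L).2 hcon
    rw [h1, Subgroup.index_top] at h3
    exact absurd h3 (by norm_num)
  have hs3 : s ^ 3 ∈ L := by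
    have h1 := L.pow_index_mem s
    rwa [h3] at h1
  have hprim : IsPrimitiveRoot (μ s : ℂ) 3 := by
    have hF : Fact (Nat.Prime 3) := ⟨Nat.prime_three⟩
    have h1 : orderOf (μ s) = 3 := by
      refine orderOf_eq_prime ?_ fun h => hs ((hμ s).1 h)
      rw [← map_pow]
      exact (hμ _).2 hs3
    have h2 : IsPrimitiveRoot (μ s) 3 := h1 ▸ IsPrimitiveRoot.orderOf (μ s)
    exact IsPrimitiveRoot.coe_units_iff.2 h2
  have hL : ∀ x : L, μ (x : B) = 1 := fun x => (hμ _).2 x.2
  have hres : ∀ (j : ℕ) (ρ : Rep B d), res L (twist (μ ^ j) ρ) = res L ρ := by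
    intro j ρ
    refine rep_ext fun x => ?_
    rw [mat_res, mat_twist, MonoidHom.pow_apply, hL x, one_pow, Units.val_one, one_smul, mat_res]
  -- representatives
  have hex : ∀ y : {c : Cls L d // InvC L c}, ∃ ρ : Rep B d, ∃ h : IsIrr (res L ρ),
      mk (res L ρ) h = y.1 := by
    rintro ⟨c, hc⟩
    revert hc
    refine cls_ind (q := fun c => InvC L c → ∃ ρ : Rep B d, ∃ h : IsIrr (res L ρ),
      mk (res L ρ) h = c) (fun τ hτ hc => ?_) c
    obtain ⟨ρ, rfl⟩ := exists_ext_three L h3 hτ ((invC_mk L τ hτ).1 hc)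
    exact ⟨ρ, hτ, rfl⟩
  choose R hR hmk using hex
  have hirr : ∀ (y : {c : Cls L d // InvC L c}) (j : ℕ), ResIrr L (twist (μ ^ j) (R y)) := by
    intro y j
    rw [ResIrr, hres]
    exact hR y
  let F : {c : Cls L d // InvC L c} × Fin 3 → {c : Cls B d // Has (ResIrr L) c} := fun z =>
    ⟨mk (twist (μ ^ (z.2 : ℕ)) (R z.1)) (isIrr_of_res L (hirr z.1 z.2)),
      twist (μ ^ (z.2 : ℕ)) (R z.1), isIrr_of_res L (hirr z.1 z.2), rfl, hirr z.1 z.2⟩
  have hF : Function.Bijective F := by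
    constructor
    · rintro ⟨y, i⟩ ⟨y', j⟩ h
      have h1 : Sim (twist (μ ^ (i : ℕ)) (R y)) (twist (μ ^ (j : ℕ)) (R y')) :=
        mk_eq.1 (congrArg Subtype.val h)
      have h2 := sim_res L h1
      rw [hres, hres] at h2
      have h4 : y = y' := by
        apply Subtype.ext
        rw [← hmk y, ← hmk y']
        exact mk_eq.2 h2
      subst h4
      obtain ⟨P, hP⟩ := h1
      have h5 : ∀ x : L, (P : Matrix (Fin d) (Fin d) ℂ) * mat (res L (R y)) x =
          mat (res L (R y)) x * (P : Matrix (Fin d) (Fin d) ℂ) := by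
        intro x
        have h6 := hP (x : B)
        rw [mat_twist, mat_twist, MonoidHom.pow_apply, MonoidHom.pow_apply, hL x, one_pow,
          one_pow, Units.val_one, one_smul] at h6
        exact h6
      obtain ⟨c, hc⟩ := schur (hR y) _ h5
      have hPi : (P : Matrix (Fin d) (Fin d) ℂ) *
          ((P⁻¹ : GL (Fin d) ℂ) : Matrix (Fin d) (Fin d) ℂ) = 1 := by
        rw [← Units.val_mul, mul_inv_cancel, Units.val_one]
      have h7 := hP s
      rw [mat_twist, mat_twist, MonoidHom.pow_apply, MonoidHom.pow_apply, Units.val_pow_eq_pow_val,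
        Units.val_pow_eq_pow_val, hc, smul_mul_assoc, one_mul, mul_smul_comm, mul_one,
        smul_comm c ((μ s : ℂ) ^ (j : ℕ)) _] at h7
      have hc0 : c ≠ 0 := by
        rintro rfl
        rw [zero_smul] at hc
        rw [hc, zero_mul] at hPi
        have h8 := congrFun (congrFun hPi ⟨0, (hR y).pos⟩) ⟨0, (hR y).pos⟩
        simp at h8
      have h8 : (c * (μ s : ℂ) ^ (i : ℕ)) • mat (R y) s =
          (c * (μ s : ℂ) ^ (j : ℕ)) • mat (R y) s := by
        rw [mul_smul, mul_smul, h7, smul_comm]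
      have h9 := mul_left_cancel₀ hc0 (va3_smul (hR y).pos (mat_mul_inv (R y) s) h8)
      have h10 : (i : ℕ) = (j : ℕ) := hprim.pow_inj i.2 j.2 h9
      rw [Fin.ext h10]
    · rintro ⟨c, σ, hσ, rfl, hrs⟩
      have hinv : InvC L (mk (res L σ) hrs) := by
        rw [invC_mk]
        intro b
        refine ⟨σ b⁻¹, fun x => ?_⟩
        have h1 : mat (cj L b (res L σ)) x = mat σ (b * x * b⁻¹) := by
          have hn : b * (x : B) * b⁻¹ ∈ L := Subgroup.Normal.conj_mem inferInstance _ x.2 b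
          exact mat_cj L b (res L σ) x ⟨_, hn⟩ rfl
        rw [h1]
        change mat σ b⁻¹ * mat σ (b * x * b⁻¹) = mat σ x * mat σ b⁻¹
        rw [← mat_mul, ← mat_mul]
        congr 1
        group
      have h1 : Sim (res L (R ⟨_, hinv⟩)) (res L σ) := mk_eq.1 (hmk ⟨_, hinv⟩)
      obtain ⟨P, hP⟩ := h1
      obtain ⟨c, hc⟩ := va3_conj L (hR ⟨_, hinv⟩) P hP s
      have hc3 : c ^ 3 = 1 := by
        have e1 : ∀ n : ℕ, mat σ (s ^ n) * (P : Matrix (Fin d) (Fin d) ℂ) =
            c ^ n • ((P : Matrix (Fin d) (Fin d) ℂ) * mat (R ⟨_, hinv⟩) (s ^ n)) := by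
          intro n
          induction n with
          | zero => rw [pow_zero, pow_zero, mat_one, mat_one, one_mul, mul_one, one_smul]
          | succ n ih =>
            rw [pow_succ', mat_mul, mul_assoc, ih, mul_smul_comm, ← mul_assoc, hc,
              smul_mul_assoc, smul_smul, mul_assoc, ← mat_mul, ← pow_succ]
        have e2 := e1 3
        have e3 : mat σ (s ^ 3) * (P : Matrix (Fin d) (Fin d) ℂ) =
            (P : Matrix (Fin d) (Fin d) ℂ) * mat (R ⟨_, hinv⟩) (s ^ 3) := (hP ⟨_, hs3⟩).symm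
        rw [e3] at e2
        have e4 : ((P : Matrix (Fin d) (Fin d) ℂ) * mat (R ⟨_, hinv⟩) (s ^ 3)) *
            (mat (R ⟨_, hinv⟩) (s ^ 3)⁻¹ *
              ((P⁻¹ : GL (Fin d) ℂ) : Matrix (Fin d) (Fin d) ℂ)) = 1 := by
          rw [mul_assoc, ← mul_assoc (mat (R ⟨_, hinv⟩) (s ^ 3)), mat_mul_inv, one_mul,
            ← Units.val_mul, mul_inv_cancel, Units.val_one]
        exact (va3_smul hrs.pos e4 (c := 1) (by rw [one_smul]; exact e2)).symm
      obtain ⟨j, hj, hjc⟩ := hprim.eq_pow_of_pow_eq_one hc3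
      refine ⟨(⟨_, hinv⟩, ⟨j, hj⟩), Subtype.ext (mk_eq.2 ⟨P, ?_⟩)⟩
      change ∀ g, (P : Matrix (Fin d) (Fin d) ℂ) * mat (twist (μ ^ j) (R ⟨_, hinv⟩)) g =
        mat σ g * (P : Matrix (Fin d) (Fin d) ℂ)
      refine va3_all L h3 hs P ?_ ?_
      · intro x hx
        rw [mat_twist, MonoidHom.pow_apply, hL ⟨x, hx⟩, one_pow, Units.val_one, one_smul]
        exact hP ⟨x, hx⟩
      · rw [mat_twist, MonoidHom.pow_apply, Units.val_pow_eq_pow_val, hjc, mul_smul_comm]
        exact hc.symm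
  rw [← Nat.card_congr (Equiv.ofBijective F hF), Nat.card_prod,
    Nat.card_eq_fintype_card (α := Fin 3), Fintype.card_fin, mul_comm]
  rfl

end Pool.Agent.CGS
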