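import Pool.Agent.CGS.VE3
import Pool.Agent.CGS.Irr

/-!
# Clifford theory for a subgroup of index three

PACKAGE (statements frozen; auxiliary lemmas private; the imported files are black boxes, some
of them still contain sorry).

If `IsIrr (res L ρ)` take `d' = d`, `τ = res L ρ`, `T = 1`. Otherwise let `V = Fin d → ℂ`, `s ∉ L`
(so `B = L ∪ L s ∪ L s²`, `s ^ 3 ∈ L`), and let `W ≠ ⊥` be an `L`-stable subspace of minimal
dimension `d'`; `W ≠ ⊤` (otherwise `res L ρ` would be irreducible). Let `sW`, `ssW` be the images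
of `W` under `ρ(s)`, `ρ(s ^ 2)`: `L`-stable of dimension `d'`, and `ρ(s)` maps `ssW` onto `W`. `W
⊔ sW ⊔ ssW` is stable under `B`, so it is `⊤`. By minimality an `L`-stable subspace of `W`, `sW`
or `ssW` is `⊥` or the whole. `W ⊓ sW = ⊥`: otherwise `W = sW = ssW` and `W = ⊤`. If `ssW ⊓ (W ⊔
sW) = ⊥` then `d = 3 * d'`, and we are done (choose a basis of `W` for `T`, `τ` = matrix of the
restriction; `τ` is irreducible by `isIrr_iff` and minimality, as in file `Cliff`). Otherwise `ssW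
≤ W ⊔ sW`, `d = 2 * d'`; we derive a contradiction. Choose bases: `τ : Rep L d'` (matrix of the
action on `W`), irreducible, with an injective intertwiner `T : ℂ^{d'} → V` onto `W`. The action
on `sW` in the basis `ρ(s) b j` is `x ↦ τ(s⁻¹ x s)`, that is `cj L s⁻¹ τ`; on `ssW` it is `cj L
(s⁻¹)² τ`.

* the `L`-projections of `ssW` to `W` and `sW` along the decomposition `V = W ⊕ sW` are not both
  zero; so `cj L (s⁻²) τ` is similar to `τ` or to `cj L s⁻¹ τ` (a nonzero intertwiner between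
  irreducible representations of the same degree is invertible: its kernel and its range are
  stable). In both cases (apply `cj`, use that `cj L x τ ~ τ` for `x ∈ L`, `s ^ 3 ∈ L`) `cj L s τ
  ~ τ`, and `τ` is invariant under `B`.
* by `exists_ext_three` there is `τ' : Rep B d'` with `res L τ' = τ`. Let `E` be the space of
  matrices `h : d × d'` with `ρ(x) h = h τ(x)` for all `x ∈ L`; it contains `T ≠ 0`. The map `h ↦
  ρ(s) h τ'(s)⁻¹` is a linear automorphism of `E` (`ρ(x) ρ(s) h τ'(s)⁻¹ = ρ(s) ρ(s⁻¹ x s) h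
  τ'(s)⁻¹ = ρ(s) h τ(s⁻¹ x s) τ'(s)⁻¹ = ρ(s) h τ'(s)⁻¹ τ(x)`), so it has an eigenvector `h ≠ 0`
  (`Module.End.exists_eigenvalue`): `ρ(s) h = ω h τ'(s)`. So the range of `h` is stable under
  `ρ(s)` and `ρ(x)`, `x ∈ L`, so under `B`, and not `⊥`; so it is `⊤` and `d ≤ d'`, but `d = 2 *
  d' > d'`, a contradiction.
-/

set_option autoImplicit false

namespace Pool.Agent.CGS

open Matrix

private theorem exists_min3 {V : Type} [AddCommGroup V] [Module ℂ V] [FiniteDimensional ℂ V]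
    (P : Submodule ℂ V → Prop) (hP : ∃ W, P W ∧ W ≠ ⊥) :
    ∃ W, P W ∧ W ≠ ⊥ ∧ ∀ W', P W' → W' ≤ W → W' = ⊥ ∨ W' = W := by
  classical
  have hex : ∃ n, ∃ W, (P W ∧ W ≠ ⊥) ∧ Module.finrank ℂ W = n := by
    obtain ⟨W, hW⟩ := hP
    exact ⟨_, W, hW, rfl⟩
  obtain ⟨W, ⟨h1, h2⟩, h3⟩ := Nat.find_spec hex
  refine ⟨W, h1, h2, fun W' hW' hle => ?_⟩
  by_cases hb : W' = ⊥
  · exact Or.inl hb
  · right
    have h4 : Nat.find hex ≤ Module.finrank ℂ W' := Nat.find_min' hex ⟨W', ⟨hW', hb⟩, rfl⟩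
    exact Submodule.eq_of_le_of_finrank_le hle (by rw [h3]; exact h4)

/-- the representation on a minimal stable subspace -/
private theorem exists_rep_on {B : Type} [Group B] (L : Subgroup B) {d : ℕ} (ρ : Rep B d)
    (W : Submodule ℂ (Fin d → ℂ)) (hW : ∀ y : L, ∀ w ∈ W, mat ρ (y : B) *ᵥ w ∈ W) (hW0 : W ≠ ⊥)
    (hmin : ∀ W' : Submodule ℂ (Fin d → ℂ), (∀ y : L, ∀ w ∈ W', mat ρ (y : B) *ᵥ w ∈ W') →
      W' ≤ W → W' = ⊥ ∨ W' = W) :
    ∃ (τ : Rep L (Module.finrank ℂ W)) (T : Matrix (Fin d) (Fin (Module.finrank ℂ W)) ℂ),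
      IsIrr τ ∧ (∀ x : L, mat ρ (x : B) * T = T * mat τ x) ∧
      (∀ u v, T *ᵥ u = T *ᵥ v → u = v) ∧ (∀ w, w ∈ W ↔ ∃ v, T *ᵥ v = w) := by
  classical
  have hmm : ∀ v : Fin d → ℂ, ∀ g g' : B, mat ρ g *ᵥ (mat ρ g' *ᵥ v) = mat ρ (g * g') *ᵥ v := by
    intro v g g'
    rw [Matrix.mulVec_mulVec, mat_mul]
  let b := Module.finBasis ℂ W
  let T : Matrix (Fin d) (Fin (Module.finrank ℂ W)) ℂ := fun i j => (b j : Fin d → ℂ) i
  have hT : ∀ v, T *ᵥ v = ((b.equivFun.symm v : W) : Fin d → ℂ) := by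
    intro v
    rw [Module.Basis.equivFun_symm_apply]
    funext i
    simp only [Matrix.mulVec, dotProduct, Submodule.coe_sum, Submodule.coe_smul, Finset.sum_apply,
      Pi.smul_apply, smul_eq_mul, T]
    exact Finset.sum_congr rfl fun j _ => mul_comm _ _
  let ψ : L →* Module.End ℂ W :=
    { toFun := fun y => (mat ρ (y : B)).mulVecLin.restrict (hW y)
      map_one' := by
        refine LinearMap.ext fun w => Subtype.ext ?_
        change mat ρ ((1 : L) : B) *ᵥ (w : Fin d → ℂ) = w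
        rw [OneMemClass.coe_one, mat_one, Matrix.one_mulVec]
      map_mul' := fun y y' => by
        refine LinearMap.ext fun w => Subtype.ext ?_
        change mat ρ ((y * y' : L) : B) *ᵥ (w : Fin d → ℂ) =
          mat ρ (y : B) *ᵥ (mat ρ (y' : B) *ᵥ (w : Fin d → ℂ))
        rw [hmm]
        rfl }
  have hψ : ∀ (y : L) (w : W), ((ψ y w : W) : Fin d → ℂ) = mat ρ (y : B) *ᵥ (w : Fin d → ℂ) :=
    fun y w => rfl
  let τ : Rep L (Module.finrank ℂ W) :=
    ofMat (((LinearMap.toMatrixAlgEquiv b : Module.End ℂ W ≃ₐ[ℂ] _) :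
      Module.End ℂ W →* Matrix (Fin (Module.finrank ℂ W)) (Fin (Module.finrank ℂ W)) ℂ).comp ψ)
  have hτ : ∀ y, mat τ y = LinearMap.toMatrix b b (ψ y) := fun y => rfl
  have hτv : ∀ (y : L) (v : Fin (Module.finrank ℂ W) → ℂ),
      b.equivFun.symm (mat τ y *ᵥ v) = ψ y (b.equivFun.symm v) := by
    intro y v
    rw [LinearEquiv.symm_apply_eq, hτ]
    have h1 := LinearMap.toMatrix_mulVec_repr b b (ψ y) (b.equivFun.symm v)
    have h2 : (b.repr (b.equivFun.symm v) : Fin (Module.finrank ℂ W) → ℂ) = v :=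
      b.equivFun.apply_symm_apply v
    rw [h2] at h1
    rw [h1]
    rfl
  have hint : ∀ (y : L) (v : Fin (Module.finrank ℂ W) → ℂ),
      mat ρ (y : B) *ᵥ (T *ᵥ v) = T *ᵥ (mat τ y *ᵥ v) := by
    intro y v
    rw [hT, hT, hτv, hψ]
  have hinj : ∀ u v, T *ᵥ u = T *ᵥ v → u = v := by
    intro u v huv
    rw [hT, hT] at huv
    exact b.equivFun.symm.injective (Subtype.ext huv)
  have hsurj : ∀ w ∈ W, ∃ v, T *ᵥ v = w := by
    intro w hw
    refine ⟨b.equivFun ⟨w, hw⟩, ?_⟩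
    rw [hT, LinearEquiv.symm_apply_apply]
  have hpos : 0 < Module.finrank ℂ W := by
    rw [Nat.pos_iff_ne_zero]
    intro h0
    exact hW0 (Submodule.finrank_eq_zero.1 h0)
  refine ⟨τ, T, ?_, ?_, hinj, ?_⟩
  · rw [isIrr_iff]
    refine ⟨hpos, fun U hU => ?_⟩
    have hPU : ∀ y : L, ∀ w ∈ U.map T.mulVecLin, mat ρ (y : B) *ᵥ w ∈ U.map T.mulVecLin := by
      intro y w hw
      obtain ⟨u, hu, rfl⟩ := Submodule.mem_map.1 hw
      refine Submodule.mem_map.2 ⟨mat τ y *ᵥ u, hU y u hu, ?_⟩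
      exact (hint y u).symm
    have hle : U.map T.mulVecLin ≤ W := by
      intro w hw
      obtain ⟨u, hu, rfl⟩ := Submodule.mem_map.1 hw
      rw [Matrix.mulVecLin_apply, hT]
      exact Subtype.coe_prop _
    rcases hmin _ hPU hle with h0 | h0
    · left
      rw [eq_bot_iff]
      intro u hu
      have h1 : T *ᵥ u ∈ (⊥ : Submodule ℂ (Fin d → ℂ)) := by
        rw [← h0]
        exact Submodule.mem_map.2 ⟨u, hu, rfl⟩
      rw [Submodule.mem_bot] at h1
      rw [Submodule.mem_bot]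
      exact hinj _ _ (by rw [h1, Matrix.mulVec_zero])
    · right
      rw [eq_top_iff]
      intro v _
      have h1 : T *ᵥ v ∈ U.map T.mulVecLin := by
        rw [h0, hT]
        exact Subtype.coe_prop _
      obtain ⟨u, hu, h2⟩ := Submodule.mem_map.1 h1
      have : u = v := hinj _ _ h2
      rw [← this]
      exact hu
  · intro y
    apply Matrix.toLin'.injective
    refine LinearMap.ext fun v => ?_
    rw [Matrix.toLin'_apply, Matrix.toLin'_apply, ← Matrix.mulVec_mulVec, ← Matrix.mulVec_mulVec]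
    exact hint y v
  · intro w
    constructor
    · exact hsurj w
    · rintro ⟨v, rfl⟩
      rw [hT]
      exact Subtype.coe_prop _

/-- a nonzero intertwiner of irreducible representations of the same degree -/
private theorem sim_of_inter {G : Type} [Group G] {d : ℕ} {ρ σ : Rep G d} (hρ : IsIrr ρ)
    (A : Matrix (Fin d) (Fin d) ℂ) (hA : A ≠ 0) (h : ∀ g, A * mat ρ g = mat σ g * A) :
    Sim ρ σ := by
  classical
  have hk : Stable ρ (LinearMap.ker A.mulVecLin) := by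
    intro g w hw
    rw [LinearMap.mem_ker, Matrix.mulVecLin_apply] at hw ⊢
    rw [Matrix.mulVec_mulVec, h g, ← Matrix.mulVec_mulVec, hw, Matrix.mulVec_zero]
  rcases ((isIrr_iff ρ).1 hρ).2 _ hk with h0 | h0
  · have hinj : Function.Injective A.mulVecLin := LinearMap.ker_eq_bot.1 h0
    have hu : IsUnit A := by
      rw [← Matrix.mulVec_injective_iff_isUnit]
      exact hinj
    refine ⟨hu.unit, fun g => ?_⟩
    rw [IsUnit.unit_spec]
    exact h g
  · exfalso
    apply hA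
    have h1 : A.mulVecLin = 0 := LinearMap.ker_eq_top.1 h0
    have h2 : Matrix.toLin' A = Matrix.toLin' 0 := by
      rw [map_zero]
      exact h1
    exact Matrix.toLin'.injective h2

private theorem cj_cj {B : Type} [Group B] (L : Subgroup B) [L.Normal] {d : ℕ} (a b : B)
    (τ : Rep L d) : cj L a (cj L b τ) = cj L (b * a) τ := by
  refine rep_ext fun y => ?_
  have h1 : a * (y : B) * a⁻¹ ∈ L := (inferInstance : L.Normal).conj_mem _ y.2 a
  have h2 : b * (a * (y : B) * a⁻¹) * b⁻¹ ∈ L := (inferInstance : L.Normal).conj_mem _ h1 b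
  rw [mat_cj L a _ y ⟨_, h1⟩ rfl, mat_cj L b _ _ ⟨_, h2⟩ rfl, mat_cj L (b * a) _ y ⟨_, h2⟩]
  simp only [_root_.mul_inv_rev, mul_assoc]

private theorem cj_one {B : Type} [Group B] (L : Subgroup B) [L.Normal] {d : ℕ}
    (τ : Rep L d) : cj L 1 τ = τ := by
  refine rep_ext fun y => ?_
  rw [mat_cj L 1 _ y y (by simp)]

private theorem sim_cj {B : Type} [Group B] (L : Subgroup B) [L.Normal] {d : ℕ} (a : B)
    {τ σ : Rep L d} (h : Sim τ σ) : Sim (cj L a τ) (cj L a σ) := sim_pull _ h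

private theorem sim_cj_mem {B : Type} [Group B] (L : Subgroup B) [L.Normal] {d : ℕ} (x : L)
    (τ : Rep L d) : Sim (cj L (x : B) τ) τ := by
  -- τ(x y x⁻¹) = τ(x) τ(y) τ(x)⁻¹
  have h : Sim τ (cj L (x : B) τ) := by
    refine ⟨τ x, fun y => ?_⟩
    rw [mat_cj L (x : B) _ y (x * y * x⁻¹) rfl]
    change mat τ x * mat τ y = mat τ (x * y * x⁻¹) * mat τ x
    rw [← mat_mul, ← mat_mul, inv_mul_cancel_right]
  exact h.symm

theorem exists_sub_three {B : Type} [Group B] [Finite B] (L : Subgroup B) [L.Normal]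
    (h3 : L.index = 3) {d : ℕ} {ρ : Rep B d} (h : IsIrr ρ) :
    ∃ (d' : ℕ) (τ : Rep L d') (T : Matrix (Fin d) (Fin d') ℂ), IsIrr τ ∧ T ≠ 0 ∧
      (∀ x : L, mat ρ (x : B) * T = T * mat τ x) ∧
      ((d = d' ∧ ResIrr L ρ) ∨ (d = 3 * d' ∧ ¬ ResIrr L ρ)) := by
  classical
  have hn : L.Normal := inferInstance
  have hd := h.pos
  have hirr := ((isIrr_iff ρ).1 h).2
  by_cases hR : ResIrr L ρ
  · refine ⟨d, res L ρ, 1, hR, ?_, fun x => ?_, Or.inl ⟨rfl, hR⟩⟩
    · have : Nonempty (Fin d) := ⟨⟨0, hd⟩⟩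
      exact one_ne_zero
    · rw [mul_one, one_mul, mat_res]
  have hmm : ∀ v : Fin d → ℂ, ∀ g g' : B, mat ρ g *ᵥ (mat ρ g' *ᵥ v) = mat ρ (g * g') *ᵥ v := by
    intro v g g'
    rw [Matrix.mulVec_mulVec, mat_mul]
  obtain ⟨s, hs⟩ : ∃ s : B, s ∉ L := by
    by_contra hcon
    push Not at hcon
    have : L = ⊤ := (Subgroup.eq_top_iff' L).2 hcon
    rw [this, Subgroup.index_top] at h3
    omega
  have hs3 : s * s * s ∈ L := by
    have h1 := Subgroup.pow_index_mem L s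
    rw [h3, pow_succ, pow_two] at h1
    exact h1
  -- every element is `s ^ i y`
  have hcov : ∀ g : B, g ∈ L ∨ s⁻¹ * g ∈ L ∨ (s * s)⁻¹ * g ∈ L := by
    intro g
    have : Fact (Nat.Prime 3) := ⟨Nat.prime_three⟩
    have hcard : Nat.card (B ⧸ L) = 3 := h3
    have hne : (QuotientGroup.mk s : B ⧸ L) ≠ 1 := by
      intro h0
      exact hs ((QuotientGroup.eq_one_iff s).1 h0)
    obtain ⟨n, hn'⟩ := mem_powers_of_prime_card (g' := (QuotientGroup.mk g : B ⧸ L)) hcard hne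
    have hn'' : (QuotientGroup.mk s : B ⧸ L) ^ n = QuotientGroup.mk g := hn'
    have h31 : (QuotientGroup.mk s : B ⧸ L) ^ 3 = 1 := by
      rw [← QuotientGroup.mk_pow, QuotientGroup.eq_one_iff, pow_succ, pow_two]
      exact hs3
    have hmod : (QuotientGroup.mk s : B ⧸ L) ^ (n % 3) = QuotientGroup.mk g := by
      rw [← hn'', ← Nat.div_add_mod n 3, pow_add, pow_mul, h31, one_pow, one_mul,
        Nat.div_add_mod]
    have hlt : n % 3 < 3 := Nat.mod_lt _ (by norm_num)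
    obtain ⟨m, hm⟩ : ∃ m, m = n % 3 := ⟨_, rfl⟩
    rw [← hm] at hmod hlt
    interval_cases m
    · left
      rw [pow_zero] at hmod
      exact (QuotientGroup.eq_one_iff g).1 hmod.symm
    · right; left
      rw [pow_one] at hmod
      exact QuotientGroup.eq.1 hmod
    · right; right
      rw [pow_two, ← QuotientGroup.mk_mul] at hmod
      exact QuotientGroup.eq.1 hmod
  let P : Submodule ℂ (Fin d → ℂ) → Prop := fun W => ∀ y : L, ∀ w ∈ W, mat ρ (y : B) *ᵥ w ∈ W
  have hPdef : ∀ W : Submodule ℂ (Fin d → ℂ), P W ↔ ∀ y : L, ∀ w ∈ W, mat ρ (y : B) *ᵥ w ∈ W :=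
    fun W => Iff.rfl
  have hstable : ∀ U : Submodule ℂ (Fin d → ℂ), P U → (∀ w ∈ U, mat ρ s *ᵥ w ∈ U) →
      Stable ρ U := by
    intro U hU hsU g w hw
    rcases hcov g with hg | hg | hg
    · exact hU ⟨g, hg⟩ w hw
    · have h1 := hsU _ (hU ⟨_, hg⟩ w hw)
      rw [hmm] at h1
      have h2 : s * (s⁻¹ * g) = g := by group
      rwa [h2] at h1
    · have h1 := hsU _ (hsU _ (hU ⟨_, hg⟩ w hw))
      rw [hmm, hmm] at h1
      have h2 : s * s * ((s * s)⁻¹ * g) = g := by group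
      rwa [h2] at h1
  -- translates
  let e : B → (Fin d → ℂ) ≃ₗ[ℂ] (Fin d → ℂ) := fun g =>
    LinearEquiv.ofLinear (mat ρ g).mulVecLin (mat ρ g⁻¹).mulVecLin
      (by
        rw [← Matrix.mulVecLin_mul, mat_mul_inv, Matrix.mulVecLin_one])
      (by
        rw [← Matrix.mulVecLin_mul, mat_inv_mul, Matrix.mulVecLin_one])
  have he : ∀ g v, e g v = mat ρ g *ᵥ v := fun g v => rfl
  obtain ⟨mp, hmp⟩ : ∃ mp : B → Submodule ℂ (Fin d → ℂ) → Submodule ℂ (Fin d → ℂ),
      ∀ g W, mp g W = W.map (e g : (Fin d → ℂ) →ₗ[ℂ] (Fin d → ℂ)) := ⟨_, fun _ _ => rfl⟩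
  have hmem : ∀ g W w, w ∈ mp g W ↔ ∃ w' ∈ W, mat ρ g *ᵥ w' = w := by
    intro g W w
    rw [hmp, Submodule.mem_map]
    rfl
  have hmpfin : ∀ g W, Module.finrank ℂ (mp g W) = Module.finrank ℂ W := by
    intro g W
    rw [hmp]
    exact LinearEquiv.finrank_map_eq (e g) W
  have hmpP : ∀ g W, P W → P (mp g W) := by
    intro g W hW y w hw
    obtain ⟨w', hw', rfl⟩ := (hmem g W w).1 hw
    have h1 : g⁻¹ * (y : B) * g ∈ L := by
      have := hn.conj_mem (y : B) y.2 g⁻¹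
      simpa using this
    refine (hmem _ _ _).2 ⟨_, hW ⟨_, h1⟩ w' hw', ?_⟩
    rw [hmm, hmm]
    congr 2
    group
  have hmpmul : ∀ g g' W, mp g (mp g' W) = mp (g * g') W := by
    intro g g' W
    ext w
    rw [hmem, hmem]
    constructor
    · rintro ⟨w', hw', rfl⟩
      obtain ⟨w'', hw'', rfl⟩ := (hmem _ _ _).1 hw'
      exact ⟨w'', hw'', (hmm _ _ _).symm⟩
    · rintro ⟨w', hw', rfl⟩
      exact ⟨mat ρ g' *ᵥ w', (hmem _ _ _).2 ⟨w', hw', rfl⟩, hmm _ _ _⟩
  have hmpone : ∀ W, mp 1 W = W := by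
    intro W
    ext w
    rw [hmem]
    constructor
    · rintro ⟨w', hw', rfl⟩
      rwa [mat_one, Matrix.one_mulVec]
    · intro hw
      exact ⟨w, hw, by rw [mat_one, Matrix.one_mulVec]⟩
  have hmpmono : ∀ g W W', W ≤ W' → mp g W ≤ mp g W' := by
    intro g W W' hle w hw
    obtain ⟨w', hw', rfl⟩ := (hmem g W w).1 hw
    exact (hmem _ _ _).2 ⟨w', hle hw', rfl⟩
  have hmpbot : ∀ g, mp g ⊥ = ⊥ := by
    intro g
    rw [hmp, Submodule.map_bot]
  have hnt : (⊤ : Submodule ℂ (Fin d → ℂ)) ≠ ⊥ := by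
    intro h0
    have h1 := congrArg (fun W : Submodule ℂ (Fin d → ℂ) => Module.finrank ℂ W) h0
    simp only [finrank_top, Module.finrank_fin_fun, finrank_bot] at h1
    omega
  obtain ⟨W, hW, hW0, hmin⟩ := exists_min3 P ⟨⊤, fun _ _ _ => Submodule.mem_top, hnt⟩
  have hWtop : W ≠ ⊤ := by
    intro h0
    apply hR
    refine (isIrr_iff _).2 ⟨hd, fun U hU => ?_⟩
    have h1 := hmin U (fun y w hw => hU y w hw) (by rw [h0]; exact le_top)
    rw [h0] at h1
    exact h1
  -- minimality of the translates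
  have hmins : ∀ g, ∀ W', P W' → W' ≤ mp g W → W' = ⊥ ∨ W' = mp g W := by
    intro g W' hW' hle
    have h1 : mp g⁻¹ W' ≤ W := by
      have h2 := hmpmono g⁻¹ _ _ hle
      rwa [hmpmul, inv_mul_cancel, hmpone] at h2
    have h3 : mp g (mp g⁻¹ W') = W' := by
      rw [hmpmul, mul_inv_cancel, hmpone]
    rcases hmin _ (hmpP g⁻¹ _ hW') h1 with h0 | h0
    · left
      rw [← h3, h0, hmpbot]
    · right
      rw [← h3, h0]
  have hL1 : ∀ x : B, x ∈ L → mp x W = W := by
    intro x hx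
    refine Submodule.eq_of_le_of_finrank_le ?_ (hmpfin x W).symm.le
    intro w hw
    obtain ⟨w', hw', rfl⟩ := (hmem _ _ _).1 hw
    exact hW ⟨x, hx⟩ w' hw'
  -- `W` is not stable under `s`
  have hnot : mp s W ≠ W := by
    intro h0
    have h1 : Stable ρ W := by
      refine hstable W hW fun w hw => ?_
      have h2 : mat ρ s *ᵥ w ∈ mp s W := (hmem _ _ _).2 ⟨w, hw, rfl⟩
      rwa [h0] at h2
    rcases hirr _ h1 with h2 | h2
    · exact hW0 h2
    · exact hWtop h2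
  have hinf1 : W ⊓ mp s W = ⊥ := by
    have hPi : P (W ⊓ mp s W) := fun y w hw => ⟨hW y w hw.1, hmpP s W hW y w hw.2⟩
    rcases hmin _ hPi inf_le_left with h0 | h0
    · exact h0
    · exfalso
      have h1 : W ≤ mp s W := h0.symm.le.trans inf_le_right
      have h2 : W = mp s W := Submodule.eq_of_le_of_finrank_le h1 (hmpfin s W).le
      exact hnot h2.symm
  have htop : W ⊔ mp s W ⊔ mp (s * s) W = ⊤ := by
    have hst : Stable ρ (W ⊔ mp s W ⊔ mp (s * s) W) := by
      refine hstable _ ?_ ?_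
      · intro y w hw
        obtain ⟨w1, h1, w2, h2, rfl⟩ := Submodule.mem_sup.1 hw
        obtain ⟨w3, h3', w4, h4, rfl⟩ := Submodule.mem_sup.1 h1
        rw [Matrix.mulVec_add, Matrix.mulVec_add]
        exact Submodule.add_mem _ (Submodule.mem_sup_left (Submodule.add_mem _
          (Submodule.mem_sup_left (hW y w3 h3'))
          (Submodule.mem_sup_right (hmpP s W hW y w4 h4))))
          (Submodule.mem_sup_right (hmpP (s * s) W hW y w2 h2))
      · intro w hw
        obtain ⟨w1, h1, w2, h2, rfl⟩ := Submodule.mem_sup.1 hw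
        obtain ⟨w3, h3', w4, h4, rfl⟩ := Submodule.mem_sup.1 h1
        rw [Matrix.mulVec_add, Matrix.mulVec_add]
        have k3 : mat ρ s *ᵥ w3 ∈ mp s W := (hmem _ _ _).2 ⟨w3, h3', rfl⟩
        have k4 : mat ρ s *ᵥ w4 ∈ mp (s * s) W := by
          rw [← hmpmul]
          exact (hmem _ _ _).2 ⟨w4, h4, rfl⟩
        have k2 : mat ρ s *ᵥ w2 ∈ W := by
          obtain ⟨w', hw', rfl⟩ := (hmem _ _ _).1 h2
          rw [hmm, ← mul_assoc]
          exact hW ⟨_, hs3⟩ w' hw'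
        exact Submodule.add_mem _ (Submodule.add_mem _
          (Submodule.mem_sup_left (Submodule.mem_sup_right k3))
          (Submodule.mem_sup_right k4))
          (Submodule.mem_sup_left (Submodule.mem_sup_left k2))
    rcases hirr _ hst with h0 | h0
    · exact absurd (le_bot_iff.1 ((le_sup_left.trans le_sup_left).trans h0.le)) hW0
    · exact h0
  have hdim1 := Submodule.finrank_sup_add_finrank_inf_eq W (mp s W)
  rw [hinf1, finrank_bot, hmpfin] at hdim1
  obtain ⟨τ, T, hτ, hTint, hTinj, hTW⟩ := exists_rep_on L ρ W hW hW0 hmin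
  have hpos := hτ.pos
  have hT0 : T ≠ 0 := by
    intro h0
    obtain ⟨w, hw, hw0⟩ := Submodule.exists_mem_ne_zero_of_ne_bot hW0
    obtain ⟨v, hv⟩ := (hTW w).1 hw
    rw [h0, Matrix.zero_mulVec] at hv
    exact hw0 hv.symm
  refine ⟨Module.finrank ℂ W, τ, T, hτ, hT0, hTint, Or.inr ⟨?_, hR⟩⟩
  -- the third translate
  have hPi : P (mp (s * s) W ⊓ (W ⊔ mp s W)) := by
    intro y w hw
    refine ⟨hmpP (s * s) W hW y w hw.1, ?_⟩
    obtain ⟨w3, h3', w4, h4, h5⟩ := Submodule.mem_sup.1 hw.2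
    rw [← h5, Matrix.mulVec_add]
    exact Submodule.add_mem _ (Submodule.mem_sup_left (hW y w3 h3'))
      (Submodule.mem_sup_right (hmpP s W hW y w4 h4))
  rcases hmins (s * s) _ hPi inf_le_left with h0 | h0
  · have hdim2 := Submodule.finrank_sup_add_finrank_inf_eq (W ⊔ mp s W) (mp (s * s) W)
    rw [htop, finrank_top, Module.finrank_fin_fun, inf_comm, h0, finrank_bot, hmpfin] at hdim2
    omega
  exfalso
  have hle2 : mp (s * s) W ≤ W ⊔ mp s W := by
    rw [← h0]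
    exact inf_le_right
  have htop2 : W ⊔ mp s W = ⊤ := by
    rw [← htop]
    exact (sup_eq_left.2 hle2).symm
  rw [htop2, finrank_top, Module.finrank_fin_fun] at hdim1
  -- coordinates with respect to `W` and `s W`
  obtain ⟨S, hS⟩ : ∃ S, S = mat ρ s := ⟨_, rfl⟩
  have hconj : ∀ y : L, s⁻¹ * (y : B) * s ∈ L := by
    intro y
    have := hn.conj_mem (y : B) y.2 s⁻¹
    simpa using this
  have hSy : ∀ y : L, mat ρ (y : B) * S = S * mat ρ (s⁻¹ * (y : B) * s) := by
    intro y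
    rw [hS, ← mat_mul, ← mat_mul]
    congr 1
    group
  have hcj1 : ∀ y : L, mat (cj L s⁻¹ τ) y = mat τ ⟨_, hconj y⟩ := by
    intro y
    exact mat_cj L s⁻¹ τ y ⟨_, hconj y⟩ (by simp)
  have hT1 : ∀ y : L, mat ρ (y : B) * (S * T) = (S * T) * mat (cj L s⁻¹ τ) y := by
    intro y
    have h1 := hTint ⟨_, hconj y⟩
    rw [hcj1, Matrix.mul_assoc, ← h1, ← Matrix.mul_assoc, ← Matrix.mul_assoc, hSy]
  have hT2 : ∀ y : L, mat ρ (y : B) * (S * (S * T)) =
      (S * (S * T)) * mat (cj L s⁻¹ (cj L s⁻¹ τ)) y := by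
    intro y
    have h1 := hT1 ⟨_, hconj y⟩
    have h2 : mat (cj L s⁻¹ (cj L s⁻¹ τ)) y = mat (cj L s⁻¹ τ) ⟨_, hconj y⟩ :=
      mat_cj L s⁻¹ _ y ⟨_, hconj y⟩ (by simp)
    rw [h2, Matrix.mul_assoc, ← h1, ← Matrix.mul_assoc, ← Matrix.mul_assoc, hSy]
    simp only [Matrix.mul_assoc]
  have hdec : ∀ v : Fin d → ℂ, ∃ a b : Fin (Module.finrank ℂ W) → ℂ,
      v = T *ᵥ a + (S * T) *ᵥ b := by
    intro v
    have hv : v ∈ W ⊔ mp s W := by
      rw [htop2]
      exact Submodule.mem_top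
    obtain ⟨w1, k1, w2, k2, k3⟩ := Submodule.mem_sup.1 hv
    obtain ⟨w', hw', k4⟩ := (hmem _ _ _).1 k2
    obtain ⟨a, k5⟩ := (hTW _).1 k1
    obtain ⟨b, k6⟩ := (hTW _).1 hw'
    exact ⟨a, b, by rw [← Matrix.mulVec_mulVec, hS, k5, k6, k4, k3]⟩
  have hSinj : ∀ u v : Fin d → ℂ, S *ᵥ u = S *ᵥ v → u = v := by
    intro u v huv
    rw [hS] at huv
    exact (e s).injective huv
  have hindep : ∀ a b a' b' : Fin (Module.finrank ℂ W) → ℂ,
      T *ᵥ a + (S * T) *ᵥ b = T *ᵥ a' + (S * T) *ᵥ b' → a = a' ∧ b = b' := by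
    intro a b a' b' heq
    have h1 : T *ᵥ (a - a') = (S * T) *ᵥ (b' - b) := by
      rw [Matrix.mulVec_sub, Matrix.mulVec_sub]
      have h5 := sub_eq_sub_iff_add_eq_add.2 (heq.trans (add_comm _ _))
      exact h5
    have h2 : T *ᵥ (a - a') ∈ W ⊓ mp s W := by
      refine ⟨(hTW _).2 ⟨_, rfl⟩, ?_⟩
      rw [SetLike.mem_coe, h1, hmem]
      exact ⟨T *ᵥ (b' - b), (hTW _).2 ⟨_, rfl⟩, by rw [← Matrix.mulVec_mulVec, hS]⟩
    rw [hinf1, Submodule.mem_bot] at h2
    have h3 : a - a' = 0 := hTinj _ _ (by rw [h2, Matrix.mulVec_zero])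
    have h4 : b' - b = 0 := by
      refine hTinj _ _ (hSinj _ _ ?_)
      rw [Matrix.mulVec_mulVec, ← h1, h2, Matrix.mulVec_zero, Matrix.mulVec_zero]
    exact ⟨sub_eq_zero.1 h3, (sub_eq_zero.1 h4).symm⟩
  -- matrices `A`, `C` with `S S T = T A + S T C`
  have hAC : ∃ A C : Matrix (Fin (Module.finrank ℂ W)) (Fin (Module.finrank ℂ W)) ℂ,
      S * (S * T) = T * A + (S * T) * C := by
    choose fa fb hfab using fun j : Fin (Module.finrank ℂ W) =>
      hdec (fun i => (S * (S * T)) i j)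
    refine ⟨fun i j => fa j i, fun i j => fb j i, ?_⟩
    ext i j
    have h1 := congrFun (hfab j) i
    rw [h1]
    rfl
  obtain ⟨A, C, hAC⟩ := hAC
  have hsep : ∀ X Y X' Y' : Matrix (Fin (Module.finrank ℂ W)) (Fin (Module.finrank ℂ W)) ℂ,
      T * X + (S * T) * Y = T * X' + (S * T) * Y' → X = X' ∧ Y = Y' := by
    intro X Y X' Y' heq
    have key : ∀ j, (fun i => X i j) = (fun i => X' i j) ∧ (fun i => Y i j) = fun i => Y' i j := by
      intro j
      refine hindep _ _ _ _ ?_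
      funext i
      exact congrFun (congrFun heq i) j
    refine ⟨?_, ?_⟩
    · ext i j
      exact congrFun (key j).1 i
    · ext i j
      exact congrFun (key j).2 i
  have hinter : ∀ y : L, A * mat (cj L s⁻¹ (cj L s⁻¹ τ)) y = mat τ y * A ∧
      C * mat (cj L s⁻¹ (cj L s⁻¹ τ)) y = mat (cj L s⁻¹ τ) y * C := by
    intro y
    have h1 := hT2 y
    have e1 : mat ρ (y : B) * (T * A) = T * (mat τ y * A) := by
      rw [← Matrix.mul_assoc, hTint, Matrix.mul_assoc]
    have e2 : mat ρ (y : B) * ((S * T) * C) = (S * T) * (mat (cj L s⁻¹ τ) y * C) := by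
      rw [← Matrix.mul_assoc, hT1, Matrix.mul_assoc]
    rw [hAC, Matrix.mul_add, Matrix.add_mul, e1, e2, Matrix.mul_assoc T A,
      Matrix.mul_assoc (S * T) C] at h1
    have h2 := hsep _ _ _ _ h1
    exact ⟨h2.1.symm, h2.2.symm⟩
  have hirr1 : ∀ (g : B) (σ : Rep L (Module.finrank ℂ W)), IsIrr σ → IsIrr (cj L g σ) := by
    intro g σ hσ
    exact (isIrr_pull (f := (MulAut.conjNormal g : L ≃* L).toMonoidHom)
      (MulAut.conjNormal g : L ≃* L).surjective).2 hσ
  have hirr2 : IsIrr (cj L s⁻¹ (cj L s⁻¹ τ)) := hirr1 _ _ (hirr1 _ _ hτ)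
  have hsinv : Sim (cj L s τ) τ := by
    by_cases hA : A = 0
    · have hC : C ≠ 0 := by
        intro hC
        rw [hA, hC, Matrix.mul_zero, Matrix.mul_zero, add_zero] at hAC
        obtain ⟨w, hw, hw0⟩ := Submodule.exists_mem_ne_zero_of_ne_bot hW0
        obtain ⟨v, hv⟩ := (hTW w).1 hw
        apply hw0
        refine hSinj _ _ (hSinj _ _ ?_)
        rw [← hv, Matrix.mulVec_mulVec, Matrix.mulVec_mulVec, Matrix.mul_assoc, hAC,
          Matrix.zero_mulVec, Matrix.mulVec_zero, Matrix.mulVec_zero]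
      have h1 := sim_of_inter hirr2 C hC fun y => (hinter y).2
      -- cj s⁻¹ cj s⁻¹ τ ~ cj s⁻¹ τ
      have h2 := sim_cj L s h1
      rw [cj_cj L s s⁻¹ (cj L s⁻¹ τ), cj_cj L s s⁻¹ τ, inv_mul_cancel, cj_one, cj_one] at h2
      have h3 := sim_cj L s h2
      rw [cj_cj, inv_mul_cancel, cj_one] at h3
      exact h3.symm
    · have h1 := sim_of_inter hirr2 A hA fun y => (hinter y).1
      rw [cj_cj] at h1
      -- cj (s⁻¹ s⁻¹) τ ~ τ; apply cj (s s s) then cancel
      have h2 := sim_cj L (s * s * s) h1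
      rw [cj_cj] at h2
      have h4 : s⁻¹ * s⁻¹ * (s * s * s) = s := by group
      rw [h4] at h2
      exact h2.trans (sim_cj_mem L ⟨_, hs3⟩ τ)
  have hinv : ∀ b : B, Sim (cj L b τ) τ := by
    intro b
    rcases hcov b with hb | hb | hb
    · exact sim_cj_mem L ⟨b, hb⟩ τ
    · have h1 := sim_cj L (s⁻¹ * b) hsinv
      rw [cj_cj] at h1
      have h2 : s * (s⁻¹ * b) = b := by group
      rw [h2] at h1
      exact h1.trans (sim_cj_mem L ⟨_, hb⟩ τ)
    · have h1 := sim_cj L ((s * s)⁻¹ * b) ((sim_cj L s hsinv).trans hsinv)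
      rw [cj_cj, cj_cj] at h1
      have h2 : s * s * ((s * s)⁻¹ * b) = b := by group
      have h3 : s * (s * ((s * s)⁻¹ * b)) = b := by group
      first
        | rw [h2] at h1
        | rw [h3] at h1
      exact h1.trans (sim_cj_mem L ⟨_, hb⟩ τ)
  obtain ⟨τ', hτ'⟩ := exists_ext_three L h3 hτ hinv
  have hτ'y : ∀ y : L, mat τ' (y : B) = mat τ y := by
    intro y
    rw [← mat_res, hτ']
  -- the space of intertwiners
  let E : Submodule ℂ (Matrix (Fin d) (Fin (Module.finrank ℂ W)) ℂ) :=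
    { carrier := {X | ∀ y : L, mat ρ (y : B) * X = X * mat τ y}
      add_mem' := fun {X Y} hX hY y => by
        rw [Matrix.mul_add, Matrix.add_mul, hX y, hY y]
      zero_mem' := fun y => by
        rw [Matrix.mul_zero, Matrix.zero_mul]
      smul_mem' := fun c X hX y => by
        rw [Matrix.mul_smul, Matrix.smul_mul, hX y] }
  have hE : ∀ X, X ∈ E ↔ ∀ y : L, mat ρ (y : B) * X = X * mat τ y := fun X => Iff.rfl
  let F : Module.End ℂ (Matrix (Fin d) (Fin (Module.finrank ℂ W)) ℂ) :=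
    { toFun := fun X => S * X * mat τ' s⁻¹
      map_add' := fun X Y => by
        rw [Matrix.mul_add, Matrix.add_mul]
      map_smul' := fun c X => by
        rw [Matrix.mul_smul, Matrix.smul_mul, RingHom.id_apply] }
  have hF : ∀ X, F X = S * X * mat τ' s⁻¹ := fun X => rfl
  have hFE : ∀ X ∈ E, F X ∈ E := by
    intro X hX y
    have h1 := hX ⟨_, hconj y⟩
    have h2 : mat ρ (s⁻¹ * (y : B) * s) * X = X * mat τ' (s⁻¹ * (y : B) * s) := by
      rw [show mat τ' (s⁻¹ * (y : B) * s) = mat τ ⟨_, hconj y⟩ from hτ'y ⟨_, hconj y⟩]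
      exact h1
    rw [hF]
    calc mat ρ (y : B) * (S * X * mat τ' s⁻¹)
        = (mat ρ (y : B) * S) * X * mat τ' s⁻¹ := by simp only [Matrix.mul_assoc]
      _ = S * (mat ρ (s⁻¹ * (y : B) * s) * X) * mat τ' s⁻¹ := by
          rw [hSy]
          simp only [Matrix.mul_assoc]
      _ = S * X * (mat τ' (s⁻¹ * (y : B) * s) * mat τ' s⁻¹) := by
          rw [h2]
          simp only [Matrix.mul_assoc]
      _ = S * X * (mat τ' s⁻¹ * mat τ' (y : B)) := by
          rw [← mat_mul, ← mat_mul]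
          congr 2
          group
      _ = S * X * mat τ' s⁻¹ * mat τ y := by
          rw [hτ'y]
          simp only [Matrix.mul_assoc]
  have hTE : T ∈ E := fun y => hTint y
  have hNE : Nontrivial E := ⟨⟨⟨T, hTE⟩, 0, fun h0 => hT0 (congrArg Subtype.val h0)⟩⟩
  obtain ⟨ω, hω⟩ := Module.End.exists_eigenvalue (F.restrict hFE : Module.End ℂ E)
  obtain ⟨X, hX⟩ := hω.exists_hasEigenvector
  have hX1 : (F.restrict hFE : Module.End ℂ E) X = ω • X := hX.apply_eq_smul
  have hX0 : (X : Matrix (Fin d) (Fin (Module.finrank ℂ W)) ℂ) ≠ 0 := by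
    intro h0
    exact hX.2 (Subtype.ext h0)
  obtain ⟨Y, hY⟩ : ∃ Y, Y = (X : Matrix (Fin d) (Fin (Module.finrank ℂ W)) ℂ) := ⟨_, rfl⟩
  have hYeq : S * Y * mat τ' s⁻¹ = ω • Y := by
    have h1 := congrArg Subtype.val hX1
    rw [hY]
    exact h1
  have hYs : S * Y = ω • (Y * mat τ' s) := by
    have h1 := congrArg (fun Z => Z * mat τ' s) hYeq
    simp only [Matrix.mul_assoc, mat_inv_mul, Matrix.mul_one, Matrix.smul_mul] at h1
    rw [h1]
  have hYE : ∀ y : L, mat ρ (y : B) * Y = Y * mat τ y := by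
    rw [hY]
    exact X.2
  have hst : Stable ρ (LinearMap.range Y.mulVecLin) := by
    refine hstable _ ?_ ?_
    · rintro y _ ⟨v, rfl⟩
      refine ⟨mat τ y *ᵥ v, ?_⟩
      rw [Matrix.mulVecLin_apply, Matrix.mulVecLin_apply, Matrix.mulVec_mulVec,
        Matrix.mulVec_mulVec, hYE]
    · rintro _ ⟨v, rfl⟩
      refine ⟨ω • (mat τ' s *ᵥ v), ?_⟩
      rw [Matrix.mulVecLin_apply, Matrix.mulVecLin_apply, Matrix.mulVec_smul,
        Matrix.mulVec_mulVec, Matrix.mulVec_mulVec, ← hS, hYs, Matrix.smul_mulVec]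
  rcases hirr _ hst with h1 | h1
  · apply hX0
    rw [← hY]
    have h2 : Y.mulVecLin = 0 := LinearMap.range_eq_bot.1 h1
    have h3' : Matrix.toLin' Y = Matrix.toLin' 0 := by
      rw [map_zero]
      exact h2
    exact Matrix.toLin'.injective h3'
  · have h2 := LinearMap.finrank_range_le Y.mulVecLin
    rw [h1, finrank_top, Module.finrank_fin_fun, Module.finrank_fin_fun] at h2
    omega

end Pool.Agent.CGS
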