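import Pool.Agent.CGS.VInt

/-!
# The 2-singular trace function: duality and automorphisms

PACKAGE (statements frozen; auxiliary lemmas private; the imported files are black boxes, some
of them still contain sorry).

* `aC_dual`: `chiA (dualA c) g = chiA c g⁻¹` (`Matrix.trace_transpose`, `mat_dual`). So `aC w O
  (dualA c) = (1 / |O|) ∑ y, chiA c (w y)⁻¹`, and `(w y)⁻¹ = w⁻¹ y⁻¹` (they commute), so it is `aC
  w⁻¹ O c` (reindex `y ↦ y⁻¹`), which equals `aC w O c` by `aC_int`.
* `aC_cj`: `chiA (cjA R b c) x = chiA c (b x b⁻¹)` (`mat_cj`; write `φ = MulAut.conjNormal b : R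
  ≃* R`, so it is `chiA c (φ x)`). By `hinv` `φ w = r w r⁻¹` for some `r ∈ R`. `φ` maps `O` onto
  the set of elements of odd order commuting with `φ w` (`mem_iff` characterises `O`), and so does
  conjugation by `r`; so `{φ y | y ∈ O} = {r y r⁻¹ | y ∈ O}`. So `∑ y ∈ O, chiA c (φ w * φ y) = ∑
  y ∈ O, chiA c (r w r⁻¹ * r y r⁻¹) = ∑ y ∈ O, chiA c (w y)` (the character is a class function).
* `chi_conj`, `dualA_dualA`, `cjA` facts: `chi c (g x g⁻¹) = chi c x`; `dualA (dualA c) = c`
  (`dual_dual`); `cjA` commutes with `dualA` (`cj` and `dual` commute on representations: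
  `rep_ext`); `Has SelfDual c.2 ↔ dualA c = c` (`dual_sim_iff`, `mk_eq`).
-/

set_option autoImplicit false

namespace Pool.Agent.CGS

open Matrix

theorem chi_conj {G : Type} [Group G] {d : ℕ} (c : Cls G d) (g x : G) :
    chi c (g * x * g⁻¹) = chi c x := by
  refine cls_ind (q := fun c => chi c (g * x * g⁻¹) = chi c x) (fun ρ hρ => ?_) c
  rw [chi_mk, chi_mk, mat_mul, Matrix.trace_mul_comm, ← mat_mul, ← mul_assoc, inv_mul_cancel,
    one_mul]

theorem dualC_dualC {G : Type} [Group G] {d : ℕ} (c : Cls G d) : dualC (dualC c) = c := by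
  refine cls_ind (q := fun c => dualC (dualC c) = c) (fun ρ hρ => ?_) c
  refine mk_eq.2 ?_
  rw [dual_dual]
  exact Sim.refl ρ

theorem selfDual_iff {G : Type} [Group G] {d : ℕ} (c : Cls G d) :
    Has SelfDual c ↔ dualC c = c := by
  refine cls_ind (q := fun c => Has SelfDual c ↔ dualC c = c) (fun ρ hρ => ?_) c
  rw [has_mk (fun _ _ h => SelfDual.of_sim h), ← dual_sim_iff]
  constructor
  · intro h
    exact mk_eq.2 h.symm
  · intro h
    exact (mk_eq.1 h).symm

theorem cjC_dualC {B : Type} [Group B] (R : Subgroup B) [R.Normal] (b : B) {d : ℕ}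
    (c : Cls R d) : cjC R b (dualC c) = dualC (cjC R b c) := by
  refine cls_ind (q := fun c => cjC R b (dualC c) = dualC (cjC R b c)) (fun ρ hρ => ?_) c
  refine mk_eq.2 ?_
  have h : cj R b (dual ρ) = dual (cj R b ρ) := by
    refine rep_ext fun g => ?_
    change (mat ρ ((MulAut.conjNormal b : R ≃* R) g)⁻¹)ᵀ =
      (mat ρ ((MulAut.conjNormal b : R ≃* R) g⁻¹))ᵀ
    rw [map_inv]
  rw [h]
  exact Sim.refl _

theorem cjC_mul {B : Type} [Group B] (R : Subgroup B) [R.Normal] (a b : B) {d : ℕ}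
    (c : Cls R d) : cjC R (a * b) c = cjC R b (cjC R a c) := by
  refine cls_ind (q := fun c => cjC R (a * b) c = cjC R b (cjC R a c)) (fun ρ hρ => ?_) c
  refine mk_eq.2 ?_
  have h : cj R (a * b) ρ = cj R b (cj R a ρ) := by
    refine rep_ext fun g => ?_
    change mat ρ ((MulAut.conjNormal (a * b) : R ≃* R) g) =
      mat ρ ((MulAut.conjNormal a : R ≃* R) ((MulAut.conjNormal b : R ≃* R) g))
    rw [map_mul]
    rfl
  rw [h]
  exact Sim.refl _

theorem cjC_one {B : Type} [Group B] (R : Subgroup B) [R.Normal] {d : ℕ} (c : Cls R d) :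
    cjC R 1 c = c := by
  refine cls_ind (q := fun c => cjC R 1 c = c) (fun ρ hρ => ?_) c
  refine mk_eq.2 ?_
  have h : cj R 1 ρ = ρ := by
    refine rep_ext fun g => ?_
    change mat ρ ((MulAut.conjNormal (1 : B) : R ≃* R) g) = mat ρ g
    rw [map_one]
    rfl
  rw [h]
  exact Sim.refl _

private theorem chi_dualC {G : Type} [Group G] {d : ℕ} (c : Cls G d) (g : G) :
    chi (dualC c) g = chi c g⁻¹ := by
  refine cls_ind (q := fun c => chi (dualC c) g = chi c g⁻¹) (fun ρ hρ => ?_) c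
  change (mat (dual ρ) g).trace = (mat ρ g⁻¹).trace
  rw [mat_dual, Matrix.trace_transpose]

private theorem chi_cjC {B : Type} [Group B] (R : Subgroup B) [R.Normal] (b : B) {d : ℕ}
    (c : Cls R d) (x : R) :
    chi (cjC R b c) x = chi c ((MulAut.conjNormal b : R ≃* R) x) := by
  refine cls_ind (q := fun c => chi (cjC R b c) x =
    chi c ((MulAut.conjNormal b : R ≃* R) x)) (fun ρ hρ => ?_) c
  rfl

theorem aC_dual {R : Type} [Group R] [Finite R] {w : R} {O : Subgroup R} (h : WData w O)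
    (c : AC R) : aC w O (dualA c) = aC w O c := by
  obtain ⟨k, h1, h2, -⟩ := aC_int h c
  rw [h1, ← h2]
  unfold aC
  congr 1
  refine Eq.trans (finsum_congr fun y => ?_)
    (finsum_comp_equiv (Equiv.inv O) (f := fun y : O => chiA c (w⁻¹ * (y : R))))
  change chi (dualC c.2) (w * (y : R)) = chi c.2 (w⁻¹ * (y : R)⁻¹)
  rw [chi_dualC, ((h.mem_iff y).1 y.2).1, _root_.mul_inv_rev]

theorem aC_cj {B : Type} [Group B] [Finite B] (R : Subgroup B) [R.Normal] {w : R}
    {O : Subgroup R} (h : WData w O) (b : B)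
    (hinv : IsConj ((MulAut.conjNormal b : R ≃* R) w) w) (c : AC R) :
    aC w O (cjA R b c) = aC w O c := by
  obtain ⟨r, hr⟩ := isConj_iff.1 hinv
  obtain ⟨ψ, hψ⟩ : ∃ ψ : R ≃* R, ∀ x, ψ x = r * (MulAut.conjNormal b : R ≃* R) x * r⁻¹ :=
    ⟨(MulAut.conjNormal b : R ≃* R).trans (MulAut.conj r), fun x => rfl⟩
  have hw : ψ w = w := by rw [hψ, hr]
  have hO : ∀ y : R, y ∈ O ↔ ψ y ∈ O := by
    intro y
    rw [h.mem_iff, h.mem_iff, ψ.orderOf_eq]
    refine and_congr_left fun _ => ?_
    constructor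
    · intro h1
      have h2 := congrArg ψ h1
      rwa [map_mul, map_mul, hw] at h2
    · intro h1
      apply ψ.injective
      rw [map_mul, map_mul, hw]
      exact h1
  unfold aC
  congr 1
  refine Eq.trans (finsum_congr fun y => ?_) (finsum_comp_equiv
    (ψ.toEquiv.subtypeEquiv hO : O ≃ O) (f := fun y : O => chiA c (w * (y : R))))
  change chi (cjC R b c.2) (w * (y : R)) = chi c.2 (w * ψ (y : R))
  have h3 : w * ψ (y : R) = r * (MulAut.conjNormal b : R ≃* R) (w * (y : R)) * r⁻¹ := by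
    rw [← hψ, map_mul, hw]
  rw [chi_cjC, h3, chi_conj]

end Pool.Agent.CGS
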