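import Pool.Agent.CGS.VNorm
import Pool.Agent.CGS.VInvar
import Pool.Agent.CGS.NoIdx

/-!
# An odd number of invariant classes

PACKAGE (statements frozen; auxiliary lemmas private; the imported files are black boxes, some
of them still contain sorry).

Let `k : AC R → ℤ` be the integers of `aC_int`. `AC R` is finite (`finite_AC`). By `aC_norm` `∑ k
c ^ 2 = 4`, by `aC_deg` `∑ k c * c.1 = 0`, and `k c₁ = 1` for the trivial class `c₁` (`aC_one`).
So the other values satisfy `∑ k c ^ 2 = 3`, so each `|k c| ≤ 1` and the set `S` of nontrivial `c`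
with `k c ≠ 0` has exactly three elements, with `k c = 1` or `-1`. `k` is invariant under duality
and under `cjA R b` (`aC_dual`, `aC_cj`), so these maps permute `S` (they are bijections of `AC R`
fixing the trivial class).

* every `c ∈ S` is invariant under all `cjA R b`: `B` acts on `S` through the homomorphism into
  `Equiv.Perm S` (`cjC_mul`: it is a right action, so use `b ↦ cjA R b⁻¹`), whose image `Γ` is a
  subgroup of a group of order six without subgroup of index two (`NoIdx2.of_surjective`), so its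
  order is odd: `1` or `3` (a group of order `2` or `6` has a subgroup of index two; `Nat.card Γ ∣
  6`). If it is `3` then `Γ` is transitive on the three elements of `S` (an orbit of a group of
  order three has one or three elements; if all orbits have one element then `Γ` is trivial), and
  then all `c ∈ S` have the same degree `d` and the same value `k`, so `0 = ∑ k c * c.1 = 1 + 3 k
  d`, impossible. So `Γ = 1`.
* let `S' = {c ∈ S | Has SelfDual c.2}`; duality is an involution of `S` with fixed points `S'`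
  (`selfDual_iff`), so `Nat.card S'` is odd. For `c ∈ S'` the degree `c.1` is odd (`aC_int`: `k c`
  is odd), and `c.1 ≠ 1`: a self-dual `ρ : Rep R 1` satisfies `ρ(g) ^ 2 = 1` for all `g`, so it is
  trivial or its kernel has index two; but `R` has no subgroup of index two and `c` is not
  trivial.
* conversely every `c ≠ c₁` with `Has SelfDual c.2` and `c.1` odd is in `S'` (`k c` is odd, so not
  zero).
* for odd `e ≠ 1`: `NI R e ≡ Nat.card {c : Cls R e // InvC R c ∧ Has SelfDual c}` modulo 2,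
  because duality acts on the invariant classes (`cjC_dualC`) with the self-dual ones as fixed
  points; by the above the latter type is in bijection with `{c ∈ S' | c.1 = e}`. If `NI R e` were
  even for all odd `e ≠ 1`, summing over `e` (finitely many degrees occur) `Nat.card S'` would be
  even, a contradiction.
-/

set_option autoImplicit false

namespace Pool.Agent.CGS

open Matrix

/-- the nonfixed points of an involution are even in number -/
private theorem even_moved {α : Type} [DecidableEq α] (s : Finset α) (D : α → α)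
    (hD : ∀ c, D (D c) = c) (hs : ∀ c ∈ s, D c ∈ s) :
    Even (s.filter fun c => D c ≠ c).card := by
  have h1 : ∑ _c ∈ s.filter (fun c => D c ≠ c), (1 : ZMod 2) = 0 := by
    refine Finset.sum_involution (fun a _ => D a) (fun a _ => by decide) (fun a ha _ => ?_)
      (fun a ha => ?_) (fun a _ => hD a)
    · exact (Finset.mem_filter.1 ha).2
    · rw [Finset.mem_filter] at ha ⊢
      exact ⟨hs a ha.1, fun h => ha.2 (by rw [hD] at h; exact h.symm)⟩
  rw [Finset.sum_const, nsmul_eq_mul, mul_one] at h1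
  exact (ZMod.natCast_eq_zero_iff_even).1 h1

private theorem isIrr_triv (R : Type) [Group R] : IsIrr (1 : Rep R 1) := by
  refine ⟨Nat.one_pos, ?_⟩
  rw [eq_top_iff]
  intro A _
  have h1 : A = A 0 0 • (1 : Matrix (Fin 1) (Fin 1) ℂ) := by
    ext i j
    rw [Subsingleton.elim i 0, Subsingleton.elim j 0]
    simp
  rw [h1]
  exact Submodule.smul_mem _ _ (Submodule.subset_span ⟨1, mat_one _⟩)

/-- a self-dual representation of degree one of a group without subgroups of index two -/
private theorem triv_of_selfDual {R : Type} [Group R] [Finite R] (hR : NoIdx2 R) (ρ : Rep R 1)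
    (h : SelfDual ρ) : ρ = 1 := by
  obtain ⟨P, hP⟩ := h
  have hP0 : (P : Matrix (Fin 1) (Fin 1) ℂ) 0 0 ≠ 0 := by
    have h1 := (Matrix.isUnit_iff_isUnit_det _).1 P.isUnit
    rw [Matrix.det_fin_one] at h1
    exact h1.ne_zero
  have hsq : ∀ g, mat ρ g 0 0 = 1 ∨ mat ρ g 0 0 = -1 := by
    intro g
    have h1 := congrFun (congrFun (hP g) 0) 0
    rw [Matrix.mul_apply] at h1
    simp only [Finset.univ_unique, Finset.sum_singleton, Fin.default_eq_zero,
      Matrix.transpose_apply, Matrix.mul_apply] at h1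
    have h2 : mat ρ g 0 0 * mat ρ g 0 0 = 1 := by
      apply mul_right_cancel₀ hP0
      linear_combination h1
    exact mul_self_eq_one_iff.1 h2
  have hr : (ρ.range : Set (GL (Fin 1) ℂ)) ⊆ {1, -1} := by
    rintro _ ⟨g, rfl⟩
    rcases hsq g with h1 | h1
    · left
      apply Units.ext
      ext i j
      rw [Subsingleton.elim i 0, Subsingleton.elim j 0]
      simpa [mat] using h1
    · right
      rw [Set.mem_singleton_iff]
      apply Units.ext
      ext i j
      rw [Subsingleton.elim i 0, Subsingleton.elim j 0]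
      simpa [mat] using h1
  have hc : Nat.card ρ.range ≤ 2 := by
    have h1 : (ρ.range : Set (GL (Fin 1) ℂ)).ncard ≤ ({1, -1} : Set (GL (Fin 1) ℂ)).ncard :=
      Set.ncard_le_ncard hr (by simp)
    have h2 : ({1, -1} : Set (GL (Fin 1) ℂ)).ncard ≤ 2 := by
      refine (Set.ncard_insert_le _ _).trans ?_
      rw [Set.ncard_singleton]
    exact h1.trans h2
  have hi : ρ.ker.index ≤ 2 := by
    rw [Subgroup.index_ker]
    exact hc
  have hi2 : ρ.ker.index ≠ 2 := hR _
  have hi0 : ρ.ker.index ≠ 0 := Subgroup.index_ne_zero_of_finite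
  have hi1 : ρ.ker.index = 1 := by omega
  have h3 : ρ.ker = ⊤ := Subgroup.index_eq_one.1 hi1
  exact (MonoidHom.ker_eq_top_iff).1 h3

/-- a permutation of three elements of order three is transitive -/
private theorem three_cycle {α : Type} [DecidableEq α] [Fintype α] (h3 : Fintype.card α = 3)
    (σ : Equiv.Perm α) (hσ : σ ^ 3 = 1) {x : α} (hx : σ x ≠ x) (y : α) :
    y = x ∨ y = σ x ∨ y = σ (σ x) := by
  have h1 : σ (σ (σ x)) = x := by
    have h2 := congrArg (fun τ : Equiv.Perm α => τ x) hσ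
    simpa [pow_succ] using h2
  have h4 : σ (σ x) ≠ x := by
    intro h5
    rw [h5] at h1
    exact hx h1
  have h5 : σ (σ x) ≠ σ x := fun h => hx (σ.injective h)
  have h6 : ({x, σ x, σ (σ x)} : Finset α) = Finset.univ := by
    apply Finset.eq_univ_of_card
    rw [h3, Finset.card_insert_of_notMem, Finset.card_insert_of_notMem, Finset.card_singleton]
    · simpa using h5.symm
    · simp only [Finset.mem_insert, Finset.mem_singleton, not_or]
      exact ⟨hx.symm, h4.symm⟩
  have h7 : y ∈ ({x, σ x, σ (σ x)} : Finset α) := by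
    rw [h6]
    exact Finset.mem_univ _
  simpa using h7

/-- a homomorphism from a group without subgroups of index two to the permutations of three
elements -/
private theorem range_cube {B : Type} [Group B] [Finite B] (hB : NoIdx2 B) {α : Type}
    [Fintype α] (h3 : Fintype.card α = 3) (ψ : B →* Equiv.Perm α) (b : B) : ψ b ^ 3 = 1 := by
  have h1 : NoIdx2 ψ.range := hB.of_surjective ψ.rangeRestrict ψ.rangeRestrict_surjective
  have h2 : Nat.card ψ.range ∣ 6 := by
    have h4 := Subgroup.card_subgroup_dvd_card ψ.range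
    have h4' : Nat.card (Equiv.Perm α) = 6 := by
      rw [Nat.card_perm, Nat.card_eq_fintype_card, h3]
      rfl
    rwa [h4'] at h4
  have h5 : ¬ 2 ∣ Nat.card ψ.range := by
    intro h6
    have h7 := h1.four_dvd h6
    exact absurd (h7.trans h2) (by norm_num)
  have h8 : Nat.card ψ.range ∣ 3 := by
    have hco : Nat.Coprime (Nat.card ψ.range) 2 :=
      ((Nat.prime_two.coprime_iff_not_dvd).2 h5).symm
    exact hco.dvd_of_dvd_mul_left (by simpa using h2)
  obtain ⟨m, hm⟩ := h8
  have h9 : (⟨ψ b, b, rfl⟩ : ψ.range) ^ 3 = 1 := by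
    rw [hm, pow_mul, pow_card_eq_one', one_pow]
  exact congrArg Subtype.val h9

theorem exists_odd_NI_of_WData {B : Type} [Group B] [Finite B] (hB : NoIdx2 B)
    (R : Subgroup B) [R.Normal] (hR : NoIdx2 R) (w : R) (O : Subgroup R) (hw : WData w O)
    (hinv : ∀ b : B, IsConj ((MulAut.conjNormal b : R ≃* R) w) w) :
    ∃ e, Odd e ∧ e ≠ 1 ∧ Odd (NI R e) := by
  classical
  have hfin : Finite (AC R) := finite_AC R
  have : Fintype (AC R) := Fintype.ofFinite _
  choose k hk1 hk2 hk3 using fun c : AC R => aC_int hw c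
  have h1 : IsIrr (1 : Rep R 1) := isIrr_triv R
  let c₁ : AC R := ⟨1, mk 1 h1⟩
  have hkc : k c₁ = 1 := by
    have h2 := aC_one w O h1
    have h3 := hk1 c₁
    rw [h2] at h3
    exact_mod_cast h3.symm
  have hnorm : ∑ c, k c ^ 2 = 4 := by
    have h2 := aC_norm hw
    rw [finsum_eq_sum_of_fintype] at h2
    have h3 : ∑ c, (k c : ℂ) ^ 2 = 4 := by
      rw [← h2]
      refine Finset.sum_congr rfl fun c _ => ?_
      rw [hk1 c, hk2 c, sq]
    exact_mod_cast h3
  have hdeg : ∑ c, k c * (c.1 : ℤ) = 0 := by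
    have h2 := aC_deg hw
    rw [finsum_eq_sum_of_fintype] at h2
    have h3 : ∑ c, (k c : ℂ) * (c.1 : ℂ) = 0 := by
      rw [← h2]
      refine Finset.sum_congr rfl fun c _ => ?_
      rw [hk1 c]
    exact_mod_cast h3
  -- the nontrivial classes with nonzero value
  let S : Finset (AC R) := Finset.univ.filter fun c => c ≠ c₁ ∧ k c ≠ 0
  have hmS : ∀ c, c ∈ S ↔ c ≠ c₁ ∧ k c ≠ 0 := fun c => by simp [S]
  have hsplit : ∀ f : AC R → ℤ, (∀ c, k c = 0 → f c = 0) → ∑ c, f c = f c₁ + ∑ c ∈ S, f c := by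
    intro f hf
    have h2 : c₁ ∉ S := fun h => ((hmS c₁).1 h).1 rfl
    rw [← Finset.sum_insert h2]
    symm
    apply Finset.sum_subset (Finset.subset_univ _)
    intro c _ hc
    rw [Finset.mem_insert, not_or, hmS, not_and, not_not] at hc
    exact hf c (hc.2 hc.1)
  have hS2 : ∑ c ∈ S, k c ^ 2 = 3 := by
    have h2 := hsplit (fun c => k c ^ 2) (fun c hc => by simp [hc])
    rw [hnorm, hkc] at h2
    linarith
  have hSd : ∑ c ∈ S, k c * (c.1 : ℤ) = -1 := by
    have h2 := hsplit (fun c => k c * (c.1 : ℤ)) (fun c hc => by simp [hc])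
    rw [hdeg, hkc] at h2
    have h3 : (c₁.1 : ℤ) = 1 := by norm_num [c₁]
    rw [h3] at h2
    linarith
  have hk4 : ∀ c ∈ S, k c ^ 2 = 1 := by
    intro c hc
    have h2 : k c ^ 2 ≤ 3 := by
      rw [← hS2]
      exact Finset.single_le_sum (f := fun c => k c ^ 2) (fun i _ => sq_nonneg (k i)) hc
    have h3 := ((hmS c).1 hc).2
    have h4 : k c ≤ 1 := by nlinarith
    have h5 : -1 ≤ k c := by nlinarith
    have h6 : k c = 1 ∨ k c = -1 := by omega
    rcases h6 with h6 | h6 <;> rw [h6] <;> norm_num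
  have hScard : S.card = 3 := by
    have h2 : ∑ c ∈ S, k c ^ 2 = ∑ _c ∈ S, (1 : ℤ) := Finset.sum_congr rfl hk4
    rw [hS2, Finset.sum_const, nsmul_eq_mul, mul_one] at h2
    exact_mod_cast h2.symm
  -- duality
  have hDD : ∀ c : AC R, dualA (dualA c) = c := by
    rintro ⟨d, c⟩
    simp only [dualA, dualC_dualC]
  have hkD : ∀ c, k (dualA c) = k c := by
    intro c
    have h2 := aC_dual hw c
    rw [hk1, hk1] at h2
    exact_mod_cast h2
  have hDc : dualA c₁ = c₁ := by
    have h2 : dual (1 : Rep R 1) = 1 := rep_ext fun g => by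
      rw [mat_dual]
      simp [mat]
    change (⟨1, dualC (mk 1 h1)⟩ : AC R) = ⟨1, mk 1 h1⟩
    have h3 : dualC (mk (1 : Rep R 1) h1) = mk 1 h1 := by
      rw [dualC, clsMap_mk, mk_eq, h2]
      exact Sim.refl _
    rw [h3]
  have hDS : ∀ c ∈ S, dualA c ∈ S := by
    intro c hc
    rw [hmS] at hc ⊢
    refine ⟨fun h => hc.1 ?_, by rw [hkD]; exact hc.2⟩
    rw [← hDD c, h, hDc]
  -- conjugation
  have hcc : ∀ (b : B), cjA R b c₁ = c₁ := by
    intro b
    have h2 : cj R b (1 : Rep R 1) = 1 := rep_ext fun g => by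
      rw [cj, mat_pull]
      simp [mat]
    change (⟨1, cjC R b (mk 1 h1)⟩ : AC R) = ⟨1, mk 1 h1⟩
    have h3 : cjC R b (mk (1 : Rep R 1) h1) = mk 1 h1 := by
      obtain ⟨h', h4⟩ := cjC_mk R b (1 : Rep R 1) h1
      rw [h4, mk_eq, h2]
      exact Sim.refl _
    rw [h3]
  have hkcj : ∀ b c, k (cjA R b c) = k c := by
    intro b c
    have h2 := aC_cj R hw b (hinv b) c
    rw [hk1, hk1] at h2
    exact_mod_cast h2
  let act : MulAction B (AC R) :=
    { smul := fun b c => cjA R b⁻¹ c
      one_smul := fun c => by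
        change cjA R (1 : B)⁻¹ c = c
        rcases c with ⟨d, c⟩
        simp only [cjA, inv_one, cjC_one]
      mul_smul := fun a b c => by
        change cjA R (a * b)⁻¹ c = cjA R a⁻¹ (cjA R b⁻¹ c)
        rcases c with ⟨d, c⟩
        simp only [cjA, _root_.mul_inv_rev, cjC_mul] }
  have hact : ∀ (b : B) (c : AC R), b • c = cjA R b⁻¹ c := fun _ _ => rfl
  let φ : B →* Equiv.Perm (AC R) := MulAction.toPermHom B (AC R)
  have hφ : ∀ b c, φ b c = cjA R b⁻¹ c := fun _ _ => rfl
  have hφS1 : ∀ b c, c ∈ S → φ b c ∈ S := by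
    intro b c hc
    rw [hmS] at hc ⊢
    refine ⟨fun h => hc.1 ?_, by rw [hφ, hkcj]; exact hc.2⟩
    apply (φ b).injective
    rw [h, hφ, hcc]
  have hφS : ∀ b c, φ b c ∈ S ↔ c ∈ S := by
    intro b c
    refine ⟨fun hc => ?_, hφS1 b c⟩
    have h2 := hφS1 b⁻¹ _ hc
    rwa [← Equiv.Perm.mul_apply, ← map_mul, inv_mul_cancel, map_one, Equiv.Perm.one_apply] at h2
  let ψ : B →* Equiv.Perm {c // c ∈ S} := MonoidHom.mk' (fun b => (φ b).subtypePerm (hφS b))
    (fun a b => by
      ext c
      simp [map_mul])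
  have hψ : ∀ b c, ((ψ b c : {c // c ∈ S}) : AC R) = cjA R b⁻¹ c.1 := fun b c => rfl
  have hcS : Fintype.card {c // c ∈ S} = 3 := by
    rw [Fintype.card_coe, hScard]
  have hfix : ∀ b, ∀ c ∈ S, cjA R b c = c := by
    intro b c hc
    by_contra hne
    have h2 : ψ b⁻¹ ⟨c, hc⟩ ≠ ⟨c, hc⟩ := by
      intro h
      apply hne
      have h3 := congrArg Subtype.val h
      rw [hψ, inv_inv] at h3
      exact h3
    have h3 := three_cycle hcS (ψ b⁻¹) (range_cube hB hcS ψ b⁻¹) h2
    have h4 : ∀ x ∈ S, k x * (x.1 : ℤ) = k c * (c.1 : ℤ) := by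
      intro x hx
      have h5 : ∀ y : {c // c ∈ S}, k (ψ b⁻¹ y).1 * ((ψ b⁻¹ y).1.1 : ℤ) = k y.1 * (y.1.1 : ℤ) := by
        intro y
        rw [hψ, hkcj]
        rfl
      rcases h3 ⟨x, hx⟩ with h6 | h6 | h6
      · rw [show x = c from congrArg Subtype.val h6]
      · rw [show x = (ψ b⁻¹ ⟨c, hc⟩).1 from congrArg Subtype.val h6, h5]
      · rw [show x = (ψ b⁻¹ (ψ b⁻¹ ⟨c, hc⟩)).1 from congrArg Subtype.val h6, h5, h5]
    have h7 : ∑ x ∈ S, k x * (x.1 : ℤ) = 3 * (k c * (c.1 : ℤ)) := by
      rw [Finset.sum_congr rfl h4, Finset.sum_const, hScard]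
      simp
    rw [hSd] at h7
    omega
  have hInv : ∀ c ∈ S, InvC R c.2 := by
    intro c hc b
    have h2 := hfix b c hc
    rcases c with ⟨d, c⟩
    exact eq_of_heq (Sigma.mk.inj h2).2
  -- self-dual classes
  have hsd : ∀ c : AC R, dualA c = c ↔ Has SelfDual c.2 := by
    rintro ⟨d, c⟩
    rw [selfDual_iff]
    constructor
    · intro h
      exact eq_of_heq (Sigma.mk.inj h).2
    · intro h
      change (⟨d, dualC c⟩ : AC R) = ⟨d, c⟩
      rw [h]
  have hone : ∀ c : AC R, dualA c = c → c.1 = 1 → c = c₁ := by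
    rintro ⟨d, c⟩ h2 h3
    change d = 1 at h3
    subst h3
    have h4 := (hsd _).1 h2
    obtain ⟨ρ, hρ, h5, h6⟩ := h4
    have h7 := triv_of_selfDual hR ρ h6
    subst h7
    change mk 1 hρ = c at h5
    rw [← h5]
  let U : Finset (AC R) := Finset.univ.filter fun c => c.1 ≠ 1 ∧ Odd c.1 ∧ InvC R c.2
  have hmU : ∀ c, c ∈ U ↔ c.1 ≠ 1 ∧ Odd c.1 ∧ InvC R c.2 := fun c => by simp [U]
  have hUD : ∀ c ∈ U, dualA c ∈ U := by
    intro c hc
    rw [hmU] at hc ⊢
    refine ⟨hc.1, hc.2.1, fun b => ?_⟩
    change cjC R b (dualC c.2) = dualC c.2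
    rw [cjC_dualC, hc.2.2 b]
  have heq : S.filter (fun c => dualA c = c) = U.filter (fun c => dualA c = c) := by
    ext c
    simp only [Finset.mem_filter]
    constructor
    · rintro ⟨hc, hd⟩
      refine ⟨(hmU c).2 ⟨fun h => ((hmS c).1 hc).1 (hone c hd h), ?_, hInv c hc⟩, hd⟩
      rw [← hk3 c ((hsd c).1 hd)]
      have h2 := hk4 c hc
      by_contra h3
      rw [Int.not_odd_iff_even] at h3
      obtain ⟨m, hm⟩ := h3
      rw [hm] at h2
      have h4 : (2 : ℤ) ∣ 1 := ⟨2 * m ^ 2, by rw [← h2]; ring⟩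
      exact absurd h4 (by norm_num)
    · rintro ⟨hc, hd⟩
      rw [hmU] at hc
      refine ⟨(hmS c).2 ⟨fun h => hc.1 (by rw [h]), fun h => ?_⟩, hd⟩
      have h2 := (hk3 c ((hsd c).1 hd)).2 hc.2.1
      rw [h] at h2
      exact absurd h2 (by decide)
  have hparS := even_moved S dualA hDD hDS
  have hparU := even_moved U dualA hDD hUD
  have hUodd : Odd U.card := by
    have h2 := Finset.card_filter_add_card_filter_not (s := S) (fun c => dualA c = c)
    have h3 := Finset.card_filter_add_card_filter_not (s := U) (fun c => dualA c = c)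
    rw [hScard] at h2
    rw [heq] at h2
    rw [← h3]
    have h4 : Odd (U.filter fun c => dualA c = c).card := by
      by_contra h5
      rw [Nat.not_odd_iff_even] at h5
      have h6 := h5.add hparS
      rw [h2] at h6
      exact absurd h6 (by decide)
    exact h4.add_even hparU
  by_contra hcon
  push Not at hcon
  have heven : ∀ e, Odd e → e ≠ 1 → Even (NI R e) := fun e he he1 =>
    Nat.not_odd_iff_even.1 (hcon e he he1)
  have h2 := Finset.card_eq_sum_card_image (fun c : AC R => c.1) U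
  have h3 : Even U.card := by
    rw [h2]
    refine Finset.even_sum _ fun e he => ?_
    obtain ⟨c, hc, rfl⟩ := Finset.mem_image.1 he
    rw [hmU] at hc
    have h4 : (U.filter fun a => a.1 = c.1).card = NI R c.1 := by
      rw [NI, ← Nat.card_eq_finsetCard]
      symm
      let f : {c' : Cls R c.1 // InvC R c'} → {a // a ∈ U.filter fun a => a.1 = c.1} := fun c' =>
        ⟨⟨c.1, c'.1⟩, Finset.mem_filter.2 ⟨(hmU _).2 ⟨hc.1, hc.2.1, c'.2⟩, rfl⟩⟩
      refine Nat.card_congr (Equiv.ofBijective f ⟨?_, ?_⟩)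
      · intro x y hxy
        have h5 : (⟨c.1, x.1⟩ : AC R) = ⟨c.1, y.1⟩ := congrArg Subtype.val hxy
        exact Subtype.ext (eq_of_heq (Sigma.mk.inj h5).2)
      · rintro ⟨⟨d, x⟩, hx⟩
        have hx' := Finset.mem_filter.1 hx
        have hd : d = c.1 := hx'.2
        subst hd
        exact ⟨⟨x, ((hmU _).1 hx'.1).2.2⟩, rfl⟩
    rw [h4]
    exact heven _ hc.2.1 hc.1
  exact (Nat.not_even_iff_odd.2 hUodd) h3

end Pool.Agent.CGS
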