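import Pool.Agent.CGS.BaseV
import Pool.Agent.CGS.Irr

/-!
# Odd determinants: uniqueness of the extension in index two

PACKAGE (statements frozen; auxiliary lemmas private; the imported files are black boxes, some
of them still contain sorry).

Let `N = f.range`, a normal subgroup of index two, `s ∉ N`; every element of `G` is in `N` or of
the form `s * n`, and `s * s ∈ N` (`Subgroup.mul_self_mem_of_index_two`,
`Subgroup.mul_mem_iff_of_index_two`).

`sim_of_sim_pull`: let `P ρ(f y) = σ(f y) P` for all `y`. Put `A = P⁻¹ σ(s)⁻¹ P ρ(s)`. For `n ∈ N`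
we have `P ρ(s) ρ(n) = P ρ(s n s⁻¹) ρ(s) = σ(s n s⁻¹) P ρ(s) = σ(s) σ(n) σ(s)⁻¹ P ρ(s)`, so `A`
commutes with all `ρ(n)`, `n ∈ N`, and `A = c • 1` by `schur` for `pull f ρ`. So `P ρ(s) = c •
σ(s) P`. Applying this twice, `P ρ(s * s) = c ^ 2 • σ(s * s) P`, and it is `σ(s * s) P`, so `c ^ 2
= 1` (the matrices are invertible and `d > 0`). Taking determinants `det ρ(s) = c ^ d * det σ(s)`.
If `c = -1` then `det ρ(s) = -det σ(s)` (`d` odd); raise to an odd power `m` with `det ρ(s) ^ m =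
1 = det σ(s) ^ m` (product of the two odd exponents): `1 = -1`, a contradiction. So `c = 1`, `P
ρ(s) = σ(s) P`, and `P ρ(g) = σ(g) P` for all `g`.

`even_N_of_index_two`: let `ε : G →* ℂˣ` be the sign character with kernel `Y` (values `1` on `Y`,
`-1` outside). The map `c ↦ twist ε c` on `Cls G d` (`clsMap`; irreducibility: the span of the
matrices does not change; similarity: same `P`) is an involution (`ε ^ 2 = 1`) without fixed
points: if `twist ε ρ ~ ρ` then for `s ∉ Y` the determinants give `(-1) ^ d * det ρ(s) = det ρ(s)`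
(`det_sim`, `Matrix.det_smul`), impossible for `d` odd. So the number of elements of the finite
type `Cls G d` is even (`finite_cls` from file `Deg`; `Equiv.Perm.card_fixedPoints_modEq` or
`Function.Involutive.card...`).
-/

set_option autoImplicit false

namespace Pool.Agent.CGS

open Matrix

private theorem det_mat_ne {G : Type} [Group G] {d : ℕ} (ρ : Rep G d) (g : G) :
    (mat ρ g).det ≠ 0 :=
  ((Matrix.isUnit_iff_isUnit_det _).1 (ρ g).isUnit).ne_zero

theorem sim_of_sim_pull {G Y : Type} [Group G] [Group Y] (f : Y →* G) (hf : f.range.index = 2)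
    {d : ℕ} (hd : Odd d) {ρ σ : Rep G d} (hi : IsIrr (pull f ρ)) (h1 : OddDet ρ)
    (h2 : OddDet σ) (h : Sim (pull f ρ) (pull f σ)) : Sim ρ σ := by
  obtain ⟨P, hP⟩ := h
  have hP' : ∀ y, P * ρ (f y) = σ (f y) * P := fun y => Units.ext (hP y)
  obtain ⟨s, hs'⟩ := Subgroup.index_eq_two_iff.1 hf
  have hs : s ∉ f.range := by
    rcases hs' 1 with ⟨-, h3⟩ | ⟨-, h3⟩
    · exact absurd (one_mem _) h3
    · rwa [one_mul] at h3
  have hcomm : ∀ y, (P⁻¹ * (σ s)⁻¹ * P * ρ s) * ρ (f y) =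
      ρ (f y) * (P⁻¹ * (σ s)⁻¹ * P * ρ s) := by
    intro y
    obtain ⟨y', hy'⟩ : s * f y * s⁻¹ ∈ f.range :=
      (Subgroup.normal_of_index_eq_two hf).conj_mem _ ⟨y, rfl⟩ s
    have e1 : ρ s * ρ (f y) = ρ (f y') * ρ s := by
      rw [← map_mul, ← map_mul, hy', inv_mul_cancel_right]
    have e2 : (σ s)⁻¹ * σ (f y') = σ (f y) * (σ s)⁻¹ := by
      rw [← map_inv, ← map_mul, ← map_mul, hy']
      congr 1
      group
    have e3 : P⁻¹ * σ (f y) = ρ (f y) * P⁻¹ := by
      rw [inv_mul_eq_iff_eq_mul, ← mul_assoc, hP' y, mul_inv_cancel_right]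
    calc (P⁻¹ * (σ s)⁻¹ * P * ρ s) * ρ (f y) = P⁻¹ * (σ s)⁻¹ * P * (ρ s * ρ (f y)) := by
          rw [mul_assoc (P⁻¹ * (σ s)⁻¹ * P)]
      _ = P⁻¹ * (σ s)⁻¹ * (P * ρ (f y')) * ρ s := by rw [e1]; simp only [mul_assoc]
      _ = P⁻¹ * ((σ s)⁻¹ * σ (f y')) * P * ρ s := by rw [hP' y']; simp only [mul_assoc]
      _ = (P⁻¹ * σ (f y)) * (σ s)⁻¹ * P * ρ s := by rw [e2]; simp only [mul_assoc]
      _ = _ := by rw [e3]; simp only [mul_assoc]
  obtain ⟨c, hc⟩ := schur hi ((P⁻¹ * (σ s)⁻¹ * P * ρ s : GL (Fin d) ℂ) :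
    Matrix (Fin d) (Fin d) ℂ) fun y => by
      have := congrArg (fun A : GL (Fin d) ℂ => (A : Matrix (Fin d) (Fin d) ℂ)) (hcomm y)
      exact this
  -- the key relation `P ρ(s) = c σ(s) P`
  have key : (P : Matrix (Fin d) (Fin d) ℂ) * mat ρ s =
      c • (mat σ s * (P : Matrix (Fin d) (Fin d) ℂ)) := by
    have e1 : P * ρ s = σ s * P * (P⁻¹ * (σ s)⁻¹ * P * ρ s) := by group
    have e2 := congrArg (fun A : GL (Fin d) ℂ => (A : Matrix (Fin d) (Fin d) ℂ)) e1
    change (P : Matrix (Fin d) (Fin d) ℂ) * mat ρ s =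
      (mat σ s * (P : Matrix (Fin d) (Fin d) ℂ)) *
      ((P⁻¹ * (σ s)⁻¹ * P * ρ s : GL (Fin d) ℂ) : Matrix (Fin d) (Fin d) ℂ) at e2
    rw [e2, hc, mul_smul_comm, mul_one]
  have hss : s * s ∈ f.range := Subgroup.mul_self_mem_of_index_two hf s
  obtain ⟨y, hy⟩ := hss
  have e4 : (P : Matrix (Fin d) (Fin d) ℂ) * mat ρ (s * s) =
      mat σ (s * s) * (P : Matrix (Fin d) (Fin d) ℂ) := by
    have := hP y
    rwa [mat_pull, mat_pull, hy] at this
  have e5 : (P : Matrix (Fin d) (Fin d) ℂ) * mat ρ (s * s) =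
      (c * c) • (mat σ (s * s) * (P : Matrix (Fin d) (Fin d) ℂ)) := by
    rw [mat_mul, mat_mul, ← mul_assoc, key, smul_mul_assoc, mul_assoc, key, mul_smul_comm,
      smul_smul, mul_assoc]
  have hdetP : (P : Matrix (Fin d) (Fin d) ℂ).det ≠ 0 :=
    ((Matrix.isUnit_iff_isUnit_det _).1 P.isUnit).ne_zero
  have hcc : c * c = 1 := by
    rw [e4] at e5
    have e6 : (c * c - 1) • (mat σ (s * s) * (P : Matrix (Fin d) (Fin d) ℂ)) = 0 := by
      rw [sub_smul, one_smul, ← e5, sub_self]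
    rcases smul_eq_zero.1 e6 with e7 | e7
    · exact sub_eq_zero.1 e7
    · exfalso
      have e8 := congrArg Matrix.det e7
      have : Nonempty (Fin d) := ⟨⟨0, hd.pos⟩⟩
      rw [det_mul, det_zero] at e8
      exact mul_ne_zero (det_mat_ne σ _) hdetP e8
  have hdet : (mat ρ s).det = c ^ d * (mat σ s).det := by
    have e6 := congrArg Matrix.det key
    rw [det_mul, det_smul, det_mul, Fintype.card_fin] at e6
    refine mul_left_cancel₀ hdetP ?_
    rw [e6]
    ring
  rcases mul_self_eq_one_iff.1 hcc with rfl | rfl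
  · rw [one_smul] at key
    refine ⟨P, fun g => ?_⟩
    by_cases hg : g ∈ f.range
    · obtain ⟨y, rfl⟩ := hg
      exact hP y
    · have hsg : s⁻¹ * g ∈ f.range := by
        rw [Subgroup.mul_mem_iff_of_index_two hf, inv_mem_iff]
        exact iff_of_false hs hg
      obtain ⟨y, hy⟩ := hsg
      have hg' : g = s * f y := by rw [hy, mul_inv_cancel_left]
      have e6 : (P : Matrix (Fin d) (Fin d) ℂ) * mat ρ (f y) =
        mat σ (f y) * (P : Matrix (Fin d) (Fin d) ℂ) := hP y
      rw [hg', mat_mul, mat_mul, ← mul_assoc, key, mul_assoc, e6, mul_assoc]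
  · exfalso
    rw [hd.neg_one_pow] at hdet
    obtain ⟨m1, hm1, k1⟩ := h1
    obtain ⟨m2, hm2, k2⟩ := h2
    have e6 : (mat ρ s).det ^ (m1 * m2) = 1 := by rw [pow_mul, k1 s, one_pow]
    have e7 : (mat σ s).det ^ (m1 * m2) = 1 := by rw [mul_comm, pow_mul, k2 s, one_pow]
    rw [hdet, mul_pow, e7, (hm1.mul hm2).neg_one_pow] at e6
    norm_num at e6

/-- the sign character of a subgroup of index two -/
private noncomputable def sgn {G : Type} [Group G] (Y : Subgroup G) (hY : Y.index = 2) :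
    G →* ℂˣ := by
  classical
  exact
    { toFun := fun g => if g ∈ Y then 1 else -1
      map_one' := if_pos (one_mem _)
      map_mul' := fun a b => by
        have h := Subgroup.mul_mem_iff_of_index_two hY (a := a) (b := b)
        by_cases ha : a ∈ Y <;> by_cases hb : b ∈ Y <;> simp [h, ha, hb] }

private theorem sgn_mem {G : Type} [Group G] (Y : Subgroup G) (hY : Y.index = 2) {g : G}
    (h : g ∈ Y) : sgn Y hY g = 1 := by
  classical
  exact if_pos h

private theorem sgn_not_mem {G : Type} [Group G] (Y : Subgroup G) (hY : Y.index = 2) {g : G}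
    (h : g ∉ Y) : sgn Y hY g = -1 := by
  classical
  exact if_neg h

private theorem sgn_sq {G : Type} [Group G] (Y : Subgroup G) (hY : Y.index = 2) (g : G) :
    (sgn Y hY g : ℂ) * (sgn Y hY g : ℂ) = 1 := by
  by_cases h : g ∈ Y
  · rw [sgn_mem Y hY h]
    simp
  · rw [sgn_not_mem Y hY h]
    simp

private theorem sim_twist {G : Type} [Group G] {d : ℕ} (χ : G →* ℂˣ) {ρ σ : Rep G d}
    (h : Sim ρ σ) : Sim (twist χ ρ) (twist χ σ) := by
  obtain ⟨P, hP⟩ := h
  refine ⟨P, fun g => ?_⟩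
  rw [mat_twist, mat_twist, mul_smul_comm, smul_mul_assoc, hP g]

private theorem isIrr_twist {G : Type} [Group G] {d : ℕ} (χ : G →* ℂˣ) {ρ : Rep G d}
    (h : IsIrr ρ) : IsIrr (twist χ ρ) := by
  refine ⟨h.pos, ?_⟩
  rw [eq_top_iff, ← h.span, Submodule.span_le]
  rintro _ ⟨g, rfl⟩
  have e1 : mat ρ g = ((χ g)⁻¹ : ℂˣ) • mat (twist χ ρ) g := by
    rw [mat_twist, Units.smul_def, smul_smul, ← Units.val_mul, inv_mul_cancel, Units.val_one,
      one_smul]
  rw [e1, Units.smul_def]
  exact Submodule.smul_mem _ _ (Submodule.subset_span ⟨g, rfl⟩)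

private theorem even_card {T : Type} (F : T → T) (hF : ∀ c, F (F c) = c) (hne : ∀ c, F c ≠ c) :
    Even (Nat.card T) := by
  classical
  rcases finite_or_infinite T with hT | hT
  · have := Fintype.ofFinite T
    have h1 : ∑ x : T, (1 : ZMod 2) = 0 :=
      Finset.sum_involution (fun x _ => F x) (fun _ _ => by decide) (fun x _ _ => hne x)
        (fun _ _ => Finset.mem_univ _) (fun x _ => hF x)
    rw [Finset.sum_const, nsmul_eq_mul, mul_one, Finset.card_univ] at h1
    rw [Nat.card_eq_fintype_card]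
    exact (ZMod.natCast_eq_zero_iff_even).1 h1
  · rw [Nat.card_eq_zero_of_infinite]
    exact Even.zero

theorem even_N_of_index_two {G : Type} [Group G] [Finite G] (Y : Subgroup G) (hY : Y.index = 2)
    {d : ℕ} (hd : Odd d) : Even (N G d) := by
  obtain ⟨s, hs'⟩ := Subgroup.index_eq_two_iff.1 hY
  have hs : s ∉ Y := by
    rcases hs' 1 with ⟨-, h3⟩ | ⟨-, h3⟩
    · exact absurd (one_mem _) h3
    · rwa [one_mul] at h3
  refine even_card (clsMap (twist (sgn Y hY)) (fun _ h => isIrr_twist _ h)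
    (fun _ _ h => sim_twist _ h)) ?_ ?_
  · intro c
    refine cls_ind (q := fun c => clsMap (twist (sgn Y hY)) (fun _ h => isIrr_twist _ h)
      (fun _ _ h => sim_twist _ h) (clsMap (twist (sgn Y hY)) (fun _ h => isIrr_twist _ h)
      (fun _ _ h => sim_twist _ h) c) = c) (fun ρ hρ => ?_) c
    rw [clsMap_mk, clsMap_mk, mk_eq]
    have h : twist (sgn Y hY) (twist (sgn Y hY) ρ) = ρ := by
      refine rep_ext fun g => ?_
      rw [mat_twist, mat_twist, smul_smul, sgn_sq, one_smul]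
    rw [h]
    exact Sim.refl ρ
  · intro c
    refine cls_ind (q := fun c => clsMap (twist (sgn Y hY)) (fun _ h => isIrr_twist _ h)
      (fun _ _ h => sim_twist _ h) c ≠ c) (fun ρ hρ => ?_) c
    rw [clsMap_mk, ne_eq, mk_eq]
    intro h
    have h1 := det_sim h s
    rw [mat_twist, sgn_not_mem Y hY hs, det_smul, Fintype.card_fin, Units.val_neg,
      Units.val_one, hd.neg_one_pow, neg_one_mul] at h1
    exact det_mat_ne ρ s (by linear_combination (-1 / 2) * h1)

end Pool.Agent.CGS
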