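import Pool.Agent.CGS.BaseV
import Pool.Agent.CGS.Irr

/-!
# Extension of an invariant representation in index three

PACKAGE (statements frozen; auxiliary lemmas private; the imported files are black boxes, some
of them still contain sorry).

Choose `s ∉ L`. `B ⧸ L` is cyclic of order three generated by the image of `s`
(`isCyclic_of_prime_card`), so every `b : B` is uniquely `x * s ^ i` with `x ∈ L`, `i < 3`, and `s
^ 3 ∈ L`. By `hinv s` there is `Q` with `Q τ(s x s⁻¹) = τ(x) Q`; put `R = Q⁻¹`, so `R τ(x) R⁻¹ =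
τ(s x s⁻¹)`. Let `x₀ = s ^ 3 ∈ L`. `R ^ 3 τ(x) R⁻³ = τ(s³ x s⁻³) = τ(x₀) τ(x) τ(x₀)⁻¹`, so
`τ(x₀)⁻¹ R ^ 3` is a scalar `c ≠ 0` (`schur`). Choose `κ` with `κ ^ 3 = c⁻¹` and replace `R` by `κ
R`, so `R ^ 3 = τ(x₀)`. Define `ρ (x * s ^ i) = τ(x) R ^ i` for `x ∈ L`, `i < 3`.
Multiplicativity: `(x s ^ i)(x' s ^ j) = x (s ^ i x' s ^ (-i)) s ^ (i + j)`, and `R ^ i τ(x') =
τ(s ^ i x' s ^ (-i)) R ^ i`; if `i + j ≥ 3` use `s ^ (i + j) = x₀ * s ^ (i + j - 3)` and `R ^ (i +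
j) = τ(x₀) R ^ (i + j - 3)`. A convenient way: `ρ (x * s ^ i) = τ(x) R ^ i` for all `i : ℕ` (or `i
: ℤ`) and `x ∈ L` is well defined: `x s ^ i = x' s ^ j` implies `3 ∣ i - j`. Then `res L ρ = τ`
(take `i = 0`).
-/

set_option autoImplicit false

namespace Pool.Agent.CGS

open Matrix

private theorem ve3_group {B Γ : Type} [Group B] [Group Γ] (L : Subgroup B) [L.Normal]
    (h3 : L.index = 3) (T : L →* Γ) (s : B) (hs : s ∉ L) (R : Γ)
    (hR : ∀ x : L, R * T x * R⁻¹ = T (MulAut.conjNormal s x)) (x₀ : L) (hx₀ : (x₀ : B) = s ^ 3)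
    (hR3 : R ^ 3 = T x₀) : ∃ ρ : B →* Γ, ρ.comp L.subtype = T := by
  -- powers
  have hRz : ∀ i : ℤ, ∀ x : L, R ^ i * T x * (R ^ i)⁻¹ = T (MulAut.conjNormal (s ^ i) x) := by
    have hRinv : ∀ x : L, R⁻¹ * T x * R = T (MulAut.conjNormal s⁻¹ x) := by
      intro x
      have h1 := hR (MulAut.conjNormal s⁻¹ x)
      have h2 : (MulAut.conjNormal s : L ≃* L) (MulAut.conjNormal s⁻¹ x) = x := by
        rw [← MulAut.mul_apply, ← map_mul, mul_inv_cancel, map_one, MulAut.one_apply]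
      rw [h2] at h1
      rw [← h1]
      group
    intro i
    induction i using Int.induction_on with
    | zero =>
      intro x
      simp
    | succ i ih =>
      intro x
      have h1 : R ^ ((i : ℤ) + 1) * T x * (R ^ ((i : ℤ) + 1))⁻¹ =
          R ^ (i : ℤ) * (R * T x * R⁻¹) * (R ^ (i : ℤ))⁻¹ := by
        rw [_root_.zpow_add, zpow_one]
        group
      rw [h1, hR, ih, ← MulAut.mul_apply, ← map_mul, _root_.zpow_add, zpow_one]
    | pred i ih =>
      intro x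
      have h1 : R ^ (-(i : ℤ) - 1) * T x * (R ^ (-(i : ℤ) - 1))⁻¹ =
          R ^ (-(i : ℤ)) * (R⁻¹ * T x * R) * (R ^ (-(i : ℤ)))⁻¹ := by
        rw [_root_.zpow_sub, zpow_one]
        group
      rw [h1, hRinv, ih, ← MulAut.mul_apply, ← map_mul, _root_.zpow_sub, zpow_one]
  -- the quotient
  have hcard : Nat.card (B ⧸ L) = 3 := h3
  have : Fact (Nat.Prime 3) := ⟨Nat.prime_three⟩
  have : Finite (B ⧸ L) := Nat.finite_of_card_ne_zero (by rw [hcard]; norm_num)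
  have hsne : (QuotientGroup.mk s : B ⧸ L) ≠ 1 := fun h => hs ((QuotientGroup.eq_one_iff s).1 h)
  have hord : orderOf (QuotientGroup.mk s : B ⧸ L) = 3 := by
    have h1 : orderOf (QuotientGroup.mk s : B ⧸ L) ∣ 3 := hcard ▸ orderOf_dvd_natCard _
    rcases (Nat.dvd_prime Nat.prime_three).1 h1 with h | h
    · exact absurd (orderOf_eq_one_iff.1 h) hsne
    · exact h
  have hgen : ∀ b : B, ∃ i : ℤ, b * (s ^ i)⁻¹ ∈ L := by
    intro b
    have h1 : (QuotientGroup.mk b : B ⧸ L) ∈ Subgroup.zpowers (QuotientGroup.mk s : B ⧸ L) :=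
      mem_zpowers_of_prime_card hcard hsne
    obtain ⟨i, hi⟩ := Subgroup.mem_zpowers_iff.1 h1
    refine ⟨i, ?_⟩
    rw [← QuotientGroup.eq_one_iff, QuotientGroup.mk_mul, QuotientGroup.mk_inv,
      QuotientGroup.mk_zpow, hi, mul_inv_cancel]
  have hpow : ∀ (i : ℤ), s ^ i ∈ L → ∀ y : L, (y : B) = s ^ i → T y = R ^ i := by
    intro i hi y hy
    have h1 : (QuotientGroup.mk s : B ⧸ L) ^ i = 1 := by
      rw [← QuotientGroup.mk_zpow]
      exact (QuotientGroup.eq_one_iff _).2 hi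
    have h2 : (3 : ℤ) ∣ i := by
      have := orderOf_dvd_iff_zpow_eq_one.2 h1
      rwa [hord] at this
    obtain ⟨m, rfl⟩ := h2
    have h4 : y = x₀ ^ m := by
      apply Subtype.ext
      rw [hy, Subgroup.coe_zpow, hx₀, _root_.zpow_mul]
      norm_cast
    rw [h4, map_zpow, ← hR3, _root_.zpow_mul]
    norm_cast
  choose ex hex using hgen
  have hwd : ∀ (b : B) (x : L) (i : ℤ), b = x * s ^ i →
      T ⟨b * (s ^ ex b)⁻¹, hex b⟩ * R ^ ex b = T x * R ^ i := by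
    intro b x i hb
    have h1 : (x : B)⁻¹ * (b * (s ^ ex b)⁻¹) = s ^ (i - ex b) := by
      rw [hb, _root_.zpow_sub]
      group
    have h2 : s ^ (i - ex b) ∈ L := by
      rw [← h1]
      exact L.mul_mem (L.inv_mem x.2) (hex b)
    have h3' := hpow (i - ex b) h2 (x⁻¹ * ⟨b * (s ^ ex b)⁻¹, hex b⟩) h1
    rw [map_mul, map_inv, inv_mul_eq_iff_eq_mul] at h3'
    rw [h3', mul_assoc, ← _root_.zpow_add, sub_add_cancel]
  let ρ : B →* Γ := MonoidHom.mk' (fun b => T ⟨b * (s ^ ex b)⁻¹, hex b⟩ * R ^ ex b) (by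
    intro b b'
    have h1 := hwd (b * b')
      (⟨b * (s ^ ex b)⁻¹, hex b⟩ * MulAut.conjNormal (s ^ ex b) ⟨b' * (s ^ ex b')⁻¹, hex b'⟩)
      (ex b + ex b') (by
        rw [Subgroup.coe_mul, MulAut.conjNormal_apply, _root_.zpow_add]
        simp only []
        group)
    rw [h1, map_mul, ← hRz, _root_.zpow_add]
    group)
  refine ⟨ρ, ?_⟩
  ext x
  change T ⟨(x : B) * (s ^ ex (x : B))⁻¹, hex x⟩ * R ^ ex (x : B) = T x
  rw [hwd (x : B) x 0 (by rw [_root_.zpow_zero, mul_one]), _root_.zpow_zero, mul_one]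

theorem exists_ext_three {B : Type} [Group B] (L : Subgroup B) [L.Normal] (h3 : L.index = 3)
    {d : ℕ} {τ : Rep L d} (hτ : IsIrr τ) (hinv : ∀ b : B, Sim (cj L b τ) τ) :
    ∃ ρ : Rep B d, res L ρ = τ := by
  obtain ⟨s, hs⟩ : ∃ s : B, s ∉ L := by
    by_contra hcon
    push Not at hcon
    have : L = ⊤ := by
      rw [eq_top_iff]
      exact fun b _ => hcon b
    rw [this, Subgroup.index_top] at h3
    exact absurd h3 (by norm_num)
  obtain ⟨P, hP⟩ := hinv s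
  set R : GL (Fin d) ℂ := P⁻¹ with hRdef
  have hR : ∀ x : L, R * τ x * R⁻¹ = τ (MulAut.conjNormal s x) := by
    intro x
    have h1 : P * τ (MulAut.conjNormal s x) = τ x * P := Units.ext (hP x)
    rw [hRdef, inv_inv, mul_assoc, ← h1, inv_mul_cancel_left]
  have hx₀ : s ^ 3 ∈ L := by
    have := L.pow_index_mem s
    rwa [h3] at this
  set x₀ : L := ⟨s ^ 3, hx₀⟩ with hx₀def
  have hR3 : ∀ x : L, R ^ 3 * τ x * (R ^ 3)⁻¹ = τ x₀ * τ x * (τ x₀)⁻¹ := by
    intro x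
    have h1 : R ^ 3 * τ x * (R ^ 3)⁻¹ = R * (R * (R * τ x * R⁻¹) * R⁻¹) * R⁻¹ := by
      rw [pow_three]
      group
    rw [h1, hR, hR, hR, ← map_inv, ← map_mul, ← map_mul]
    congr 1
    apply Subtype.ext
    simp only [MulAut.conjNormal_apply, Subgroup.coe_mul, Subgroup.coe_inv, hx₀def]
    rw [pow_three]
    group
  set A : GL (Fin d) ℂ := (τ x₀)⁻¹ * R ^ 3 with hAdef
  have hA : ∀ x : L, (A : Matrix (Fin d) (Fin d) ℂ) * mat τ x = mat τ x * A := by
    intro x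
    have h1 : A * τ x = τ x * A := by
      have h2 : R ^ 3 * τ x = τ x₀ * τ x * (τ x₀)⁻¹ * R ^ 3 := by
        rw [← hR3 x]
        group
      rw [hAdef, mul_assoc, h2]
      group
    have h2 := congrArg Units.val h1
    rwa [Units.val_mul, Units.val_mul] at h2
  obtain ⟨c, hc⟩ := schur hτ (A : Matrix (Fin d) (Fin d) ℂ) hA
  have hc0 : c ≠ 0 := by
    rintro rfl
    have : Nonempty (Fin d) := ⟨⟨0, hτ.pos⟩⟩
    have h1 : (A : Matrix (Fin d) (Fin d) ℂ) ≠ 0 := A.ne_zero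
    exact h1 (by rw [hc, zero_smul])
  obtain ⟨κ, hκ⟩ := IsAlgClosed.exists_pow_nat_eq (c⁻¹) (n := 3) (by norm_num)
  have hκ0 : κ ≠ 0 := by
    rintro rfl
    rw [zero_pow (by norm_num)] at hκ
    exact inv_ne_zero hc0 hκ.symm
  set K : GL (Fin d) ℂ := Units.map (Matrix.scalar (Fin d)).toMonoidHom (Units.mk0 κ hκ0) with hK
  have hKmat : (K : Matrix (Fin d) (Fin d) ℂ) = κ • (1 : Matrix (Fin d) (Fin d) ℂ) := by
    rw [hK]
    simp only [Units.coe_map, Units.val_mk0, RingHom.toMonoidHom_eq_coe, MonoidHom.coe_coe]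
    rw [Matrix.scalar_apply, Matrix.smul_one_eq_diagonal]
  have hKcomm : ∀ M : GL (Fin d) ℂ, K * M = M * K := by
    intro M
    apply Units.ext
    rw [Units.val_mul, Units.val_mul, hKmat, smul_mul_assoc, one_mul, mul_smul_comm, mul_one]
  have hKA : K ^ 3 * A = 1 := by
    apply Units.ext
    rw [Units.val_mul, Units.val_pow_eq_pow_val, hKmat, hc, smul_pow, one_pow, Units.val_one,
      smul_mul_smul_comm, mul_one, hκ, inv_mul_cancel₀ hc0, one_smul]
  obtain ⟨ρ, hρ⟩ := ve3_group L h3 τ s hs (K * R) (by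
    intro x
    have h1 : K * R * τ x * (K * R)⁻¹ = K * (R * τ x * R⁻¹) * K⁻¹ := by
      group
    rw [h1, hKcomm, mul_inv_cancel_right, hR]) x₀ rfl (by
    have h1 : (K * R) ^ 3 = K ^ 3 * R ^ 3 := (show Commute K R from hKcomm R).mul_pow 3
    have h2 : R ^ 3 = τ x₀ * A := by
      rw [hAdef, mul_inv_cancel_left]
    have h4 : K ^ 3 * τ x₀ = τ x₀ * K ^ 3 := ((show Commute K (τ x₀) from hKcomm _).pow_left 3)
    rw [h1, h2, ← mul_assoc, h4, mul_assoc, hKA, mul_one])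
  exact ⟨ρ, hρ⟩

end Pool.Agent.CGS
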