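import Pool.Agent.CGS.BaseV
import Pool.Agent.CGS.Irr

/-!
# Odd determinants: existence of the extension in index two

PACKAGE (statements frozen; auxiliary lemmas private; the imported files are black boxes, some
of them still contain sorry).

Let `N = f.range` (index two), `s ∉ N`. By `hsim` there is `Q` with `Q τ(φ y) = τ(y) Q` for all
`y`; put `R = Q⁻¹`, so `R τ(y) R⁻¹ = τ(φ y)`, where `f (φ y) = s * f y * s⁻¹`. Let `y₀ : Y` with
`f y₀ = s * s` (`Subgroup.mul_self_mem_of_index_two`). Then `φ (φ y) = y₀ * y * y₀⁻¹` (`f` is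
injective), so `R * R * τ(y) = τ(y₀) τ(y) τ(y₀)⁻¹ * R * R`, so `τ(y₀)⁻¹ R R` commutes with all
`τ(y)` and is a scalar `c`, `c ≠ 0` (`schur`). Choose `κ` with `κ ^ 2 = c⁻¹`
(`IsAlgClosed.exists_pow_nat_eq`), and replace `R` by `κ R`: now `R R = τ(y₀)`. Note also `φ y₀ =
y₀` (`f (φ y₀) = s * s * s * s⁻¹ = s * s`), consistent with `R τ(y₀) R⁻¹ = τ(y₀)`.

Every `g ∈ G` is uniquely `f y` or `f y * s`. Define `ρ (f y) = τ(y)` and `ρ (f y * s) = τ(y) R`.
It is multiplicative: `(f y)(f y') = f (y y')`; `(f y)(f y' s) = f (y y') s`; `(f y s)(f y') = f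
(y * φ y') s` and `τ(y) R τ(y') = τ(y) τ(φ y') R`; `(f y s)(f y' s) = f (y * φ y' * y₀)` and `τ(y)
R τ(y') R = τ(y) τ(φ y') R R = τ(y) τ(φ y') τ(y₀)`. So `ρ` is a representation (construct it with
`ofMat` or `MonoidHom.mk'`) with `pull f ρ = τ`.

Determinants: let `m` be odd with `det τ(y) ^ m = 1` for all `y`. `det R ^ (2 m) = det τ(y₀) ^ m =
1`, so `det R ^ m = 1` or `-1`. In the second case replace `R` by `-R` from the beginning
(`(-R)(-R) = R R`): `det (-R) ^ m = (-1) ^ (d m) det R ^ m = 1` as `d m` is odd. So all `det ρ(g)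
^ m = 1`.
-/

set_option autoImplicit false

namespace Pool.Agent.CGS

open Matrix

/-- The intertwining matrix, normalised. -/
private theorem vext_R {G Y : Type} [Group G] [Group Y] (f : Y →* G)
    (hf : Function.Injective f) {d : ℕ} (hd : Odd d) {τ : Rep Y d}
    (hτ : IsIrr τ) {m : ℕ} (hm : Odd m) (h1 : ∀ y, (mat τ y).det ^ m = 1) (s : G)
    (φ : Y ≃* Y) (hφ : ∀ y, f (φ y) = s * f y * s⁻¹) (hsim : Sim (pull φ.toMonoidHom τ) τ)
    (y0 : Y) (hy0 : f y0 = s * s) :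
    ∃ R : Matrix (Fin d) (Fin d) ℂ, R * R = mat τ y0 ∧ (∀ y, R * mat τ y = mat τ (φ y) * R) ∧
      R.det ^ m = 1 := by
  obtain ⟨P, hP⟩ := hsim
  have hP1 : ((P⁻¹ : GL (Fin d) ℂ) : Matrix (Fin d) (Fin d) ℂ) *
      (P : Matrix (Fin d) (Fin d) ℂ) = 1 := by
    rw [← Units.val_mul, inv_mul_cancel, Units.val_one]
  have hP2 : (P : Matrix (Fin d) (Fin d) ℂ) *
      ((P⁻¹ : GL (Fin d) ℂ) : Matrix (Fin d) (Fin d) ℂ) = 1 := by
    rw [← Units.val_mul, mul_inv_cancel, Units.val_one]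
  obtain ⟨R, hR⟩ : ∃ R : Matrix (Fin d) (Fin d) ℂ,
      R = ((P⁻¹ : GL (Fin d) ℂ) : Matrix (Fin d) (Fin d) ℂ) := ⟨_, rfl⟩
  rw [← hR] at hP1 hP2
  have hRc : ∀ y, R * mat τ y = mat τ (φ y) * R := by
    intro y
    have h2 : (P : Matrix (Fin d) (Fin d) ℂ) * mat τ (φ y) =
        mat τ y * (P : Matrix (Fin d) (Fin d) ℂ) := hP y
    calc R * mat τ y = R * mat τ y * ((P : Matrix (Fin d) (Fin d) ℂ) * R) := by
          rw [hP2, mul_one]
      _ = R * (mat τ y * (P : Matrix (Fin d) (Fin d) ℂ)) * R := by simp only [mul_assoc]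
      _ = (R * (P : Matrix (Fin d) (Fin d) ℂ)) * mat τ (φ y) * R := by
          rw [← h2]
          simp only [mul_assoc]
      _ = mat τ (φ y) * R := by rw [hP1, one_mul]
  have hRdet : R.det ≠ 0 := by
    intro h
    have h2 := congrArg Matrix.det hP1
    rw [det_mul, h, zero_mul, det_one] at h2
    exact zero_ne_one h2
  have hφφ : ∀ y, φ (φ y) = y0 * y * y0⁻¹ := by
    intro y
    apply hf
    rw [hφ, hφ, map_mul, map_mul, map_inv, hy0]
    group
  have hRR : ∀ y, R * R * mat τ y = mat τ (y0 * y * y0⁻¹) * (R * R) := by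
    intro y
    rw [mul_assoc, hRc y, ← mul_assoc, hRc, mul_assoc, hφφ]
  obtain ⟨c, hc⟩ := schur hτ (mat τ y0⁻¹ * (R * R)) (by
    intro y
    rw [mul_assoc, hRR y, ← mul_assoc (mat τ y0⁻¹), ← mat_mul, ← mul_assoc (mat τ y), ← mat_mul]
    congr 2
    group)
  have hc' : R * R = c • mat τ y0 := by
    calc R * R = (mat τ y0 * mat τ y0⁻¹) * (R * R) := by rw [mat_mul_inv, one_mul]
      _ = mat τ y0 * (mat τ y0⁻¹ * (R * R)) := by rw [mul_assoc]
      _ = c • mat τ y0 := by rw [hc, mul_smul_comm, mul_one]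
  have hd0 : Nonempty (Fin d) := ⟨⟨0, hd.pos⟩⟩
  have hc0 : c ≠ 0 := by
    rintro rfl
    rw [zero_smul] at hc'
    have h2 := congrArg Matrix.det hc'
    rw [det_mul, det_zero] at h2
    exact hRdet (mul_self_eq_zero.1 h2)
  obtain ⟨κ, hκ⟩ := IsAlgClosed.exists_pow_nat_eq (c⁻¹) (n := 2) (by norm_num)
  obtain ⟨R1, hR1⟩ : ∃ R1 : Matrix (Fin d) (Fin d) ℂ, R1 = κ • R := ⟨_, rfl⟩
  have e1 : R1 * R1 = mat τ y0 := by
    rw [hR1, smul_mul_smul_comm, ← pow_two, hκ, hc', smul_smul, inv_mul_cancel₀ hc0, one_smul]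
  have e2 : ∀ y, R1 * mat τ y = mat τ (φ y) * R1 := by
    intro y
    rw [hR1, smul_mul_assoc, hRc y, mul_smul_comm]
  have e3 : R1.det ^ m = 1 ∨ R1.det ^ m = -1 := by
    have h2 : (R1.det ^ m) ^ 2 = 1 := by
      rw [← pow_mul, mul_comm, pow_mul, pow_two, ← det_mul, e1, h1]
    rw [← sub_eq_zero, show (R1.det ^ m) ^ 2 - 1 = (R1.det ^ m - 1) * (R1.det ^ m + 1) by ring,
      mul_eq_zero, sub_eq_zero] at h2
    exact h2.imp id eq_neg_of_add_eq_zero_left
  rcases e3 with e3 | e3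
  · exact ⟨R1, e1, e2, e3⟩
  · refine ⟨-R1, ?_, ?_, ?_⟩
    · rw [neg_mul_neg, e1]
    · intro y
      rw [neg_mul, e2 y, mul_neg]
    · rw [det_neg, Fintype.card_fin, hd.neg_one_pow, neg_one_mul, hm.neg_pow, e3, neg_neg]

theorem exists_ext_two {G Y : Type} [Group G] [Group Y] (f : Y →* G)
    (hf : Function.Injective f) (hf2 : f.range.index = 2) {d : ℕ} (hd : Odd d) {τ : Rep Y d}
    (hτ : IsIrr τ) (h1 : OddDet τ) (s : G) (hs : s ∉ f.range) (φ : Y ≃* Y)
    (hφ : ∀ y, f (φ y) = s * f y * s⁻¹) (hsim : Sim (pull φ.toMonoidHom τ) τ) :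
    ∃ ρ : Rep G d, OddDet ρ ∧ pull f ρ = τ := by
  obtain ⟨m, hm, hdet⟩ := h1
  obtain ⟨y0, hy0⟩ : ∃ y0, f y0 = s * s := Subgroup.mul_self_mem_of_index_two hf2 s
  obtain ⟨R, hR1, hR2, hR3⟩ := vext_R f hf hd hτ hm hdet s φ hφ hsim y0 hy0
  have hcase : ∀ g : G, (∃ y, g = f y) ∨ ∃ y, g = f y * s := by
    intro g
    by_cases hg : g ∈ f.range
    · obtain ⟨y, hy⟩ := hg
      exact Or.inl ⟨y, hy.symm⟩
    · have h2 : g * s⁻¹ ∈ f.range := by
        rw [Subgroup.mul_mem_iff_of_index_two hf2]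
        exact ⟨fun h => absurd h hg, fun h => absurd (inv_mem_iff.1 h) hs⟩
      obtain ⟨y, hy⟩ := h2
      exact Or.inr ⟨y, by rw [hy, inv_mul_cancel_right]⟩
  have hne : ∀ y y', f y ≠ f y' * s := by
    intro y y' h
    apply hs
    refine ⟨y'⁻¹ * y, ?_⟩
    rw [map_mul, map_inv, h, inv_mul_cancel_left]
  have hF : ∀ g : G, ∃ M : Matrix (Fin d) (Fin d) ℂ, (∀ y, g = f y → M = mat τ y) ∧
      ∀ y, g = f y * s → M = mat τ y * R := by
    intro g
    rcases hcase g with ⟨y, rfl⟩ | ⟨y, rfl⟩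
    · refine ⟨mat τ y, fun y' h => ?_, fun y' h => absurd h (hne y y')⟩
      rw [hf h]
    · refine ⟨mat τ y * R, fun y' h => absurd h.symm (hne y' y), fun y' h => ?_⟩
      rw [hf (mul_right_cancel h)]
  choose F hF1 hF2 using hF
  have hF1' : ∀ y, F (f y) = mat τ y := fun y => hF1 _ y rfl
  have hF2' : ∀ y, F (f y * s) = mat τ y * R := fun y => hF2 _ y rfl
  have hmul : ∀ g g', F (g * g') = F g * F g' := by
    intro g g'
    rcases hcase g with ⟨y, rfl⟩ | ⟨y, rfl⟩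
    · rcases hcase g' with ⟨y', rfl⟩ | ⟨y', rfl⟩
      · rw [← map_mul, hF1', hF1', hF1', mat_mul]
      · rw [← mul_assoc, ← map_mul, hF1', hF2', hF2', mat_mul, mul_assoc]
    · rcases hcase g' with ⟨y', rfl⟩ | ⟨y', rfl⟩
      · have e : f y * s * f y' = f (y * φ y') * s := by
          rw [map_mul, hφ]
          group
        rw [e, hF2', hF2', hF1', mat_mul, mul_assoc, mul_assoc, hR2]
      · have e : f y * s * (f y' * s) = f (y * φ y' * y0) := by
          rw [map_mul, map_mul, hφ, hy0]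
          group
        rw [e, hF1', hF2', hF2', mat_mul, mat_mul, ← hR1]
        calc mat τ y * mat τ (φ y') * (R * R) = mat τ y * (mat τ (φ y') * R) * R := by
              simp only [mul_assoc]
          _ = mat τ y * (R * mat τ y') * R := by rw [hR2]
          _ = _ := by simp only [mul_assoc]
  have hone : F 1 = 1 := by
    rw [← map_one f, hF1', mat_one]
  refine ⟨ofMat { toFun := F, map_one' := hone, map_mul' := hmul }, ⟨m, hm, fun g => ?_⟩,
    rep_ext fun y => ?_⟩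
  · change (F g).det ^ m = 1
    rcases hcase g with ⟨y, rfl⟩ | ⟨y, rfl⟩
    · rw [hF1', hdet]
    · rw [hF2', det_mul, mul_pow, hdet, hR3, one_mul]
  · exact hF1' y

end Pool.Agent.CGS
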