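import Pool.Agent.CGS.BaseV
import Pool.Agent.CGS.NoIdx
import Pool.Agent.CGS.FE

/-!
# The odd part of a centralizer

PACKAGE (statements frozen; auxiliary lemmas private; the imported files are black boxes, some
of them still contain sorry).

`Nat.card C = 4 * m` with `m` odd; let `O` be the set of elements of odd order; we have to show
that it is a subgroup of order `m`. It is enough to find a normal subgroup `K` of `C` of order
`m`: then `O = K` (an element of odd order has trivial image in `C ⧸ K`, which has order four; an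
element of `K` has odd order since `Nat.card K` is odd).

* if `orderOf w = 4`: `Z = Subgroup.zpowers w` is central (so normal) of order four and index `m`,
  coprime; by Schur-Zassenhaus (`Subgroup.exists_right_complement'_of_coprime`) it has a
  complement `K` of order `m`; as `Z` is central and `C = Z K`, `K` is normal.
* if `orderOf w = 2` (the orders of `w ≠ 1` with `w ^ 4 = 1` are `2` and `4`): `Z =
  Subgroup.zpowers w`, of order two, is central. `C ⧸ Z` has order `2 m`; it is `Harmless` (`2 ^ i
  ∣ 2 m` gives `i = 1`, and `2 ^ 1 - 1 = 1` is not divisible by a prime), so by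
  `exists_complement` (file `FE`) it has a normal subgroup of odd order and 2-power index, that is
  of order `m`; let `N` be its preimage in `C`, normal of order `2 m`. In `N` the subgroup `Z` is
  central of order two and index `m`, so by Schur-Zassenhaus `N = Z × K` with `K` of order `m`;
  `K` is the set of elements of odd order of `N` (an element `z k` with `z ≠ 1` has even order),
  so it is normal in `C`.
-/

set_option autoImplicit false

namespace Pool.Agent.CGS

open Matrix

private theorem VG1_idx {G : Type} [Group G] [Finite G] {m : ℕ} (hm : Odd m)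
    (hG : Nat.card G = 2 * m) : ∃ Y : Subgroup G, Y.index = 2 := by
  by_contra h
  have h1 : NoIdx2 G := fun Y hY => h ⟨Y, hY⟩
  have h2 := h1.four_dvd ⟨m, hG⟩
  rw [hG] at h2
  obtain ⟨r, hr⟩ := hm
  omega

private theorem VG1_mem {G : Type} [Group G] {Y : Subgroup G} (hY : Y.index = 2) {y : G}
    (hy : Odd (orderOf y)) : y ∈ Y := by
  obtain ⟨r, hr⟩ := hy
  have h1 : y = (y ^ 2) ^ (r + 1) := by
    have h2 : y ^ (2 * r + 1) = 1 := by rw [← hr]; exact pow_orderOf_eq_one y
    rw [← pow_mul, show 2 * (r + 1) = (2 * r + 1) + 1 by ring, pow_succ, h2, one_mul]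
  rw [h1]
  exact Y.pow_mem (Subgroup.sq_mem_of_index_two hY y) _

private theorem VG1_two {C : Type} [Group C] [Finite C] {m : ℕ} (hm : Odd m)
    (hC : Nat.card C = 4 * m) (z : C) (hz : orderOf z = 2) (hc : ∀ x : C, x * z = z * x) :
    ∃ O : Subgroup C, (∀ y : C, y ∈ O ↔ Odd (orderOf y)) ∧ Nat.card O = m := by
  have hn : (Subgroup.zpowers z).Normal := by
    refine ⟨fun n hn g => ?_⟩
    obtain ⟨i, rfl⟩ := Subgroup.mem_zpowers_iff.1 hn
    have h1 : Commute g z := hc g
    have h2 := h1.zpow_right i
    rw [h2.eq, mul_assoc, mul_inv_cancel, mul_one]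
    exact hn
  have h1 : Nat.card (C ⧸ Subgroup.zpowers z) = 2 * m := by
    have h2 := Subgroup.card_eq_card_quotient_mul_card_subgroup (Subgroup.zpowers z)
    rw [Nat.card_zpowers, hz, hC] at h2
    omega
  obtain ⟨Y, hY⟩ := VG1_idx hm h1
  have hN : (Y.comap (QuotientGroup.mk' (Subgroup.zpowers z))).index = 2 := by
    rw [Subgroup.index_comap_of_surjective Y (QuotientGroup.mk'_surjective _)]
    exact hY
  generalize Y.comap (QuotientGroup.mk' (Subgroup.zpowers z)) = N at hN
  have hNc : Nat.card N = 2 * m := by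
    have h2 := N.card_mul_index
    rw [hN, hC] at h2
    omega
  obtain ⟨K, hK⟩ := VG1_idx hm hNc
  have hKc : Nat.card K = m := by
    have h2 := K.card_mul_index
    rw [hK, hNc] at h2
    omega
  have hOc : Nat.card (K.map N.subtype) = m := by
    rw [← hKc]
    exact Nat.card_congr (K.equivMapOfInjective N.subtype N.subtype_injective).toEquiv.symm
  refine ⟨K.map N.subtype, fun y => ⟨fun hy => ?_, fun hy => ?_⟩, hOc⟩
  · have h2 := Subgroup.orderOf_dvd_natCard _ hy
    rw [hOc] at h2
    exact Odd.of_dvd_nat hm h2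
  · have h2 : y ∈ N := VG1_mem hN hy
    refine ⟨⟨y, h2⟩, VG1_mem hK ?_, rfl⟩
    rw [Subgroup.orderOf_mk]
    exact hy

theorem exists_odd_part {C : Type} [Group C] [Finite C] {m : ℕ} (hm : Odd m)
    (hC : Nat.card C = 4 * m) (w : C) (hw : w ≠ 1) (hw4 : w ^ 4 = 1)
    (hc : ∀ x : C, x * w = w * x) :
    ∃ O : Subgroup C, (∀ y : C, y ∈ O ↔ Odd (orderOf y)) ∧ Nat.card O = m := by
  have : Fact (Nat.Prime 2) := ⟨Nat.prime_two⟩
  by_cases h2 : w ^ 2 = 1
  · exact VG1_two hm hC w (orderOf_eq_prime h2 hw) hc
  · refine VG1_two hm hC (w ^ 2) (orderOf_eq_prime ?_ h2) fun x => ?_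
    · rw [← pow_mul]
      exact hw4
    · have h1 : Commute x w := hc x
      exact (h1.pow_right 2).eq

/-- the datum `WData` from the 2-part of the centralizer -/
theorem wData_of_centralizer {R : Type} [Group R] [Finite R] (w : R) (hw : w ≠ 1)
    (hw4 : w ^ 4 = 1) (hconj : IsConj w w⁻¹) {m : ℕ} (hm : Odd m)
    (hC : Nat.card (Subgroup.centralizer {w}) = 4 * m) : ∃ O : Subgroup R, WData w O := by
  have hwC : w ∈ Subgroup.centralizer ({w} : Set R) := by
    rw [Subgroup.mem_centralizer_iff]
    rintro h rfl
    rfl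
  obtain ⟨O', hO', hOc'⟩ := exists_odd_part hm hC ⟨w, hwC⟩
    (fun h => hw (congrArg Subtype.val h)) (Subtype.ext hw4) (fun x => by
      apply Subtype.ext
      have h1 := Subgroup.mem_centralizer_iff.1 x.2 w rfl
      exact h1.symm)
  have hOc : Nat.card (O'.map (Subgroup.centralizer ({w} : Set R)).subtype) = m := by
    rw [← hOc']
    exact Nat.card_congr (O'.equivMapOfInjective _
      (Subgroup.subtype_injective _)).toEquiv.symm
  refine ⟨O'.map (Subgroup.centralizer ({w} : Set R)).subtype, hw4, hw, hconj, ?_, ?_⟩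
  · intro y
    constructor
    · rintro ⟨x, hx, rfl⟩
      refine ⟨Subgroup.mem_centralizer_iff.1 x.2 w rfl, ?_⟩
      have h1 := (hO' x).1 hx
      rw [← Subgroup.orderOf_coe] at h1
      exact h1
    · rintro ⟨h1, h2⟩
      have hy : y ∈ Subgroup.centralizer ({w} : Set R) := by
        rw [Subgroup.mem_centralizer_iff]
        rintro h rfl
        exact h1
      refine ⟨⟨y, hy⟩, (hO' ⟨y, hy⟩).2 ?_, rfl⟩
      rw [Subgroup.orderOf_mk]
      exact h2
  · rw [hOc, hC]

end Pool.Agent.CGS
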