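import Pool.Agent.CGS.NoIdx
import Pool.Agent.CGS.Base

/-!
# Focal subgroups: a Sylow 2-subgroup of a group without subgroups of index two

PACKAGE (statements frozen; auxiliary lemmas private; the imported files are black boxes, some
of them still contain sorry).

By the focal subgroup theorem (`commutator_inf_eq_focalSubgroup`, file
`Mathlib/GroupTheory/Focal.lean`; compare file `FD` of this folder) `commutator R ⊓ P` is
generated by the elements `x⁻¹ * y` with `x, y ∈ P` conjugate in `R`. `R` has no subgroup of index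
two, so `(commutator R).index` is odd (`NoIdx2.odd_index_commutator`) and the 2-group `P` is
contained in `commutator R` (its image in a group of odd order is trivial). So `P` is generated by
the elements `x⁻¹ * y`: every subgroup `F` of `R` which contains all `x⁻¹ * y` with `x, y ∈ P`,
`IsConj x y`, contains `P`.
-/

set_option autoImplicit false

namespace Pool.Agent.CGS

open Matrix

open scoped commutatorElement

theorem le_of_focal {R : Type} [Group R] [Finite R] (hR : NoIdx2 R) (P : Sylow 2 R)
    (F : Subgroup R) (hF : ∀ x y : R, x ∈ (P : Subgroup R) → y ∈ (P : Subgroup R) →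
      IsConj x y → x⁻¹ * y ∈ F) : (P : Subgroup R) ≤ F := by
  have hp2 : Fact (Nat.Prime 2) := ⟨Nat.prime_two⟩
  have hodd := hR.odd_index_commutator
  have h1 : (P : Subgroup R) ≤ commutator R := by
    intro x hx
    obtain ⟨k, hk⟩ := P.isPGroup' ⟨x, hx⟩
    have hk' : x ^ 2 ^ k = 1 := congrArg Subtype.val hk
    have h2 : (QuotientGroup.mk x : R ⧸ commutator R) ^ 2 ^ k = 1 := by
      rw [← QuotientGroup.mk_pow, hk']
      rfl
    have h3 : (QuotientGroup.mk x : R ⧸ commutator R) ^ (commutator R).index = 1 := by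
      rw [Subgroup.index]
      exact pow_card_eq_one'
    have h4 : Nat.Coprime (2 ^ k) (commutator R).index :=
      Nat.Coprime.pow_left k ((Nat.coprime_two_left).2 hodd)
    have h5 : orderOf (QuotientGroup.mk x : R ⧸ commutator R) ∣ 1 := by
      rw [← h4]
      exact Nat.dvd_gcd (orderOf_dvd_of_pow_eq_one h2) (orderOf_dvd_of_pow_eq_one h3)
    have h6 : (QuotientGroup.mk x : R ⧸ commutator R) = 1 :=
      orderOf_eq_one_iff.1 (Nat.dvd_one.1 h5)
    exact (QuotientGroup.eq_one_iff x).1 h6
  have h2 : (P : Subgroup R).focalSubgroup ≤ F := by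
    rw [Subgroup.focalSubgroup_def, Subgroup.closure_le]
    rintro g ⟨hg, x, hx, u, rfl⟩
    have h3 : u * x⁻¹ * u⁻¹ ∈ (P : Subgroup R) := by
      have h4 := mul_mem (inv_mem hx) hg
      rw [commutatorElement_def] at h4
      have h5 : x⁻¹ * (x * u * x⁻¹ * u⁻¹) = u * x⁻¹ * u⁻¹ := by group
      rwa [h5] at h4
    have h6 := hF x⁻¹ (u * x⁻¹ * u⁻¹) (inv_mem hx) h3 (isConj_iff.2 ⟨u, rfl⟩)
    have h7 : (x⁻¹)⁻¹ * (u * x⁻¹ * u⁻¹) = ⁅x, u⁆ := by
      rw [commutatorElement_def]
      group
    rw [h7] at h6
    exact h6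
  refine le_trans ?_ h2
  rw [← Subgroup.commutator_inf_eq_focalSubgroup P]
  exact le_inf h1 le_rfl

end Pool.Agent.CGS
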