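import Pool.Agent.CGS.VG1
import Pool.Agent.CGS.VG2

/-!
# Sylow 2-subgroups of order four

PACKAGE (statements frozen; auxiliary lemmas private; the imported files are black boxes, some
of them still contain sorry).

Let `P` be a Sylow 2-subgroup; `Nat.card P = 4` (`Sylow.card_eq_multiplicity` and `4 ∣`, `¬ 8 ∣`),
so `P` is commutative.

* `P` is not cyclic: suppose `P = zpowers u` with `u` of order four. If `x, y ∈ P` are conjugate
  in `R` then they have the same order, so `y = x` or `y = x⁻¹` (in a cyclic group of order four),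
  and `x⁻¹ * y ∈ {1, x⁻²} ⊆ zpowers (u ^ 2)`. By `le_of_focal` `P ≤ zpowers (u ^ 2)`, of order
  two, a contradiction. So every `x ∈ P` satisfies `x ^ 2 = 1` (`P` has no element of order four).
* all involutions of `R` are conjugate: every involution is conjugate to an involution of `P`
  (Sylow: `IsPGroup.exists_le_sylow` for `zpowers`, `Sylow` conjugate). Let `P = {1, a, b, a b}`.
  If `a` and `b` are not conjugate: let `F = zpowers` of a suitable element of `P`: the conjugate
  pairs of different elements of `P` are among `{a, a b}` and `{b, a b}`, not both (transitivity),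
  so all `x⁻¹ y` lie in `zpowers b` or all lie in `zpowers a` (`a⁻¹ (a b) = b`, `b⁻¹ (a b) = a`),
  of order two, contradicting `le_of_focal`. By symmetry (the same for any pair of different
  involutions of `P`) all involutions of `P` are conjugate.
* let `w ∈ P` be an involution. `w ^ 4 = 1`, `w⁻¹ = w`. `P ≤ centralizer {w}` and `8 ∤ Nat.card
  R`, so `Nat.card (centralizer {w}) = 4 * m` with `m` odd. `wData_of_centralizer`.
-/

set_option autoImplicit false

namespace Pool.Agent.CGS

open Matrix

private theorem factor_two {n : ℕ} (hn : n ≠ 0) (h4 : 4 ∣ n) (h8 : ¬ 8 ∣ n) :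
    n.factorization 2 = 2 := by
  have h1 : 2 ≤ n.factorization 2 :=
    (Nat.prime_two.pow_dvd_iff_le_factorization hn).1 (by norm_num; exact h4)
  have h2 : ¬ 3 ≤ n.factorization 2 := fun h =>
    h8 (by
      have := (Nat.prime_two.pow_dvd_iff_le_factorization hn).2 h
      norm_num at this
      exact this)
  omega

private theorem card_sylow {R : Type} [Group R] [Finite R] (h4 : 4 ∣ Nat.card R)
    (h8 : ¬ 8 ∣ Nat.card R) (P : Sylow 2 R) : Nat.card (P : Subgroup R) = 4 := by
  have : Fact (Nat.Prime 2) := ⟨Nat.prime_two⟩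
  rw [P.card_eq_multiplicity, factor_two Nat.card_pos.ne' h4 h8]
  norm_num

private theorem conj_eq_one {R : Type} [Group R] {x y : R} (h : IsConj x y) :
    x = 1 ↔ y = 1 := by
  constructor
  · rintro rfl
    exact isConj_one_right.1 h
  · rintro rfl
    exact isConj_one_left.1 h

/-- the squares of the elements of `P` -/
private theorem sq_eq_one {R : Type} [Group R] [Finite R] (hR : NoIdx2 R) (P : Sylow 2 R)
    (hP : Nat.card (P : Subgroup R) = 4) {u : R} (hu : u ∈ (P : Subgroup R)) : u ^ 2 = 1 := by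
  by_contra h
  have h4 : u ^ 4 = 1 := by
    have h1 : (⟨u, hu⟩ : (P : Subgroup R)) ^ Nat.card (P : Subgroup R) = 1 := pow_card_eq_one'
    rw [hP] at h1
    exact congrArg Subtype.val h1
  have hord : orderOf u = 4 := by
    have h1 : orderOf u ∣ 2 ^ 2 := orderOf_dvd_of_pow_eq_one (by norm_num; exact h4)
    obtain ⟨k, hk, hk'⟩ := (Nat.dvd_prime_pow Nat.prime_two).1 h1
    have h2 : k ≠ 0 := by
      rintro rfl
      apply h
      rw [pow_zero, orderOf_eq_one_iff] at hk'
      rw [hk', one_pow]
    have h3 : k ≠ 1 := by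
      rintro rfl
      apply h
      rw [pow_one] at hk'
      rw [← hk', pow_orderOf_eq_one]
    have h5 : k = 2 := by omega
    rw [hk', h5]
    norm_num
  have hPu : (P : Subgroup R) = Subgroup.zpowers u := by
    symm
    refine Subgroup.eq_of_le_of_card_ge ?_ ?_
    · rw [Subgroup.zpowers_le]
      exact hu
    · rw [hP, Nat.card_zpowers, hord]
  have hpar : ∀ i : ℤ, (u ^ i) ^ 2 = 1 ↔ (2 : ℤ) ∣ i := by
    intro i
    have h1 : (u ^ i) ^ 2 = u ^ (2 * i) := by
      rw [← zpow_natCast, ← _root_.zpow_mul, mul_comm]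
      rfl
    rw [h1, ← orderOf_dvd_iff_zpow_eq_one, hord]
    push_cast
    omega
  have hle : (P : Subgroup R) ≤ Subgroup.zpowers (u ^ 2) := by
    refine le_of_focal hR P _ ?_
    intro x y hx hy hxy
    rw [hPu] at hx hy
    obtain ⟨i, rfl⟩ := Subgroup.mem_zpowers_iff.1 hx
    obtain ⟨j, rfl⟩ := Subgroup.mem_zpowers_iff.1 hy
    have h1 := conj_eq_one (hxy.pow 2)
    rw [hpar, hpar] at h1
    have h2 : (2 : ℤ) ∣ j - i := by omega
    obtain ⟨k, hk⟩ := h2
    refine Subgroup.mem_zpowers_iff.2 ⟨k, ?_⟩
    rw [← zpow_natCast, ← _root_.zpow_mul, ← _root_.zpow_neg, ← _root_.zpow_add]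
    congr 1
    push_cast
    omega
  have h1 := Subgroup.card_le_of_le hle
  rw [hP, Nat.card_zpowers] at h1
  have h2 : orderOf (u ^ 2) ≤ 2 := by
    refine Nat.le_of_dvd (by norm_num) (orderOf_dvd_of_pow_eq_one ?_)
    rw [← pow_mul]
    exact h4
  omega

/-- an isolated element -/
private theorem isolated {R : Type} [Group R] [Finite R] (hR : NoIdx2 R) (P : Sylow 2 R)
    (hP : Nat.card (P : Subgroup R) = 4) {a b : R} (ha : a ^ 2 = 1) (hb1 : b ≠ 1)
    (hab : a ≠ b) (hcomm : a * b = b * a)
    (hall : ∀ x ∈ (P : Subgroup R), x = 1 ∨ x = a ∨ x = b ∨ x = a * b)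
    (hiso : ∀ x ∈ (P : Subgroup R), IsConj a x → x = a)
    (haP : a ∈ (P : Subgroup R)) : False := by
  have haF : a ∈ Subgroup.zpowers a := Subgroup.mem_zpowers a
  have hle : (P : Subgroup R) ≤ Subgroup.zpowers a := by
    refine le_of_focal hR P _ ?_
    intro x y hx hy hxy
    have hself : x = y → x⁻¹ * y ∈ Subgroup.zpowers a := by
      rintro rfl
      rw [inv_mul_cancel]
      exact one_mem _
    have hx1 := conj_eq_one hxy
    have hxa : x = a → y = a := by
      rintro rfl
      exact hiso y hy hxy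
    have hya : y = a → x = a := by
      rintro rfl
      exact hiso x hx hxy.symm
    rcases hall x hx with h1 | h1 | h1 | h1
    · exact hself (h1.trans (hx1.1 h1).symm)
    · exact hself (h1.trans (hxa h1).symm)
    · rcases hall y hy with h2 | h2 | h2 | h2
      · exact hself ((hx1.2 h2).trans h2.symm)
      · exact hself ((hya h2).trans h2.symm)
      · exact hself (h1.trans h2.symm)
      · rw [h1, h2, hcomm, inv_mul_cancel_left]
        exact haF
    · rcases hall y hy with h2 | h2 | h2 | h2
      · exact hself ((hx1.2 h2).trans h2.symm)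
      · exact hself ((hya h2).trans h2.symm)
      · rw [h1, h2, hcomm, _root_.mul_inv_rev, mul_assoc, inv_mul_cancel, mul_one]
        exact inv_mem haF
      · exact hself (h1.trans h2.symm)
  have h1 := Subgroup.card_le_of_le hle
  rw [hP, Nat.card_zpowers] at h1
  have h2 : orderOf a ≤ 2 := Nat.le_of_dvd (by norm_num) (orderOf_dvd_of_pow_eq_one ha)
  have _ := hb1
  have _ := hab
  have _ := haP
  omega

private theorem all_conj {R : Type} [Group R] [Finite R] (hR : NoIdx2 R) (P : Sylow 2 R)
    (hP : Nat.card (P : Subgroup R) = 4) {a b : R} (haP : a ∈ (P : Subgroup R))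
    (hbP : b ∈ (P : Subgroup R)) (ha1 : a ≠ 1) (hb1 : b ≠ 1) : IsConj a b := by
  classical
  by_cases hab : a = b
  · rw [hab]
  have ha := sq_eq_one hR P hP haP
  have hb := sq_eq_one hR P hP hbP
  have habP : a * b ∈ (P : Subgroup R) := mul_mem haP hbP
  have hab2 := sq_eq_one hR P hP habP
  have ha' : a * a = 1 := by rw [← sq]; exact ha
  have hb' : b * b = 1 := by rw [← sq]; exact hb
  have hai : a⁻¹ = a := inv_eq_of_mul_eq_one_right ha'
  have hbi : b⁻¹ = b := inv_eq_of_mul_eq_one_right hb'
  have hcomm : a * b = b * a := by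
    have h1 : (a * b)⁻¹ = a * b := inv_eq_of_mul_eq_one_right (by rw [← sq]; exact hab2)
    rw [_root_.mul_inv_rev, hai, hbi] at h1
    exact h1.symm
  have h1 : a * b ≠ 1 := fun h => hab (by
    rw [← hai]
    exact inv_eq_of_mul_eq_one_right h)
  have h2 : a * b ≠ a := fun h => hb1 (mul_eq_left.1 h)
  have h3 : a * b ≠ b := fun h => ha1 (mul_eq_right.1 h)
  have hall : ∀ x ∈ (P : Subgroup R), x = 1 ∨ x = a ∨ x = b ∨ x = a * b := by
    have hsub : ((({1, a, b, a * b} : Finset R) : Set R)) ⊆ ((P : Subgroup R) : Set R) := by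
      intro x hx
      simp only [Finset.coe_insert, Finset.coe_singleton, Set.mem_insert_iff,
        Set.mem_singleton_iff] at hx
      rcases hx with rfl | rfl | rfl | rfl
      · exact one_mem _
      · exact haP
      · exact hbP
      · exact habP
    have hcard : ({1, a, b, a * b} : Finset R).card = 4 := by
      rw [Finset.card_insert_of_notMem, Finset.card_insert_of_notMem,
        Finset.card_insert_of_notMem, Finset.card_singleton]
      · simp only [Finset.mem_singleton]
        exact fun h => h3 h.symm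
      · simp only [Finset.mem_insert, Finset.mem_singleton, not_or]
        exact ⟨hab, fun h => h2 h.symm⟩
      · simp only [Finset.mem_insert, Finset.mem_singleton, not_or]
        exact ⟨fun h => ha1 h.symm, fun h => hb1 h.symm, fun h => h1 h.symm⟩
    have heq := Set.eq_of_subset_of_ncard_le hsub (by
      rw [Set.ncard_coe_finset, hcard]
      have h5 : ((P : Subgroup R) : Set R).ncard = Nat.card (P : Subgroup R) := rfl
      rw [h5, hP]) (Set.toFinite _)
    intro x hx
    have h6 : x ∈ ((P : Subgroup R) : Set R) := hx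
    rw [← heq] at h6
    simpa only [Finset.coe_insert, Finset.coe_singleton, Set.mem_insert_iff,
      Set.mem_singleton_iff] using h6
  by_contra hc
  by_cases hac : IsConj a (a * b)
  · refine isolated hR P hP (a := b) (b := a) hb ha1 (Ne.symm hab) hcomm.symm ?_ ?_ hbP
    · intro x hx
      rw [← hcomm]
      have := hall x hx
      tauto
    · intro x hx hbx
      rcases hall x hx with h5 | h5 | h5 | h5
      · exact absurd ((conj_eq_one hbx).2 h5) hb1
      · rw [h5] at hbx
        exact absurd hbx.symm hc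
      · exact h5
      · rw [h5] at hbx
        exact absurd (hac.trans hbx.symm) hc
  · refine isolated hR P hP (a := a) (b := b) ha hb1 hab hcomm hall ?_ haP
    intro x hx hax
    rcases hall x hx with h5 | h5 | h5 | h5
    · exact absurd ((conj_eq_one hax).2 h5) ha1
    · exact h5
    · rw [h5] at hax
      exact absurd hax hc
    · rw [h5] at hax
      exact absurd hax hac

theorem exists_W4 {R : Type} [Group R] [Finite R] (hR : NoIdx2 R) (h4 : 4 ∣ Nat.card R)
    (h8 : ¬ 8 ∣ Nat.card R) :
    ∃ (w : R) (O : Subgroup R), WData w O ∧ ∀ x : R, orderOf x = orderOf w → IsConj x w := by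
  have : Fact (Nat.Prime 2) := ⟨Nat.prime_two⟩
  obtain ⟨P⟩ : Nonempty (Sylow 2 R) := inferInstance
  have hP := card_sylow h4 h8 P
  obtain ⟨w, hwP, hw1⟩ : ∃ w ∈ (P : Subgroup R), w ≠ 1 := by
    by_contra h
    push Not at h
    have h1 : (P : Subgroup R) = ⊥ := (Subgroup.eq_bot_iff_forall _).2 h
    rw [h1, Subgroup.card_bot] at hP
    omega
  have hw2 := sq_eq_one hR P hP hwP
  have hw4 : w ^ 4 = 1 := by
    rw [show (4 : ℕ) = 2 * 2 by norm_num, pow_mul, hw2, one_pow]
  have hwi : w⁻¹ = w := inv_eq_of_mul_eq_one_right (by rw [← sq]; exact hw2)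
  have hconj : IsConj w w⁻¹ := by
    rw [hwi]
  have hPC : (P : Subgroup R) ≤ Subgroup.centralizer {w} := by
    intro x hx
    rw [Subgroup.mem_centralizer_iff]
    rintro h (rfl : h = w)
    have hx2 := sq_eq_one hR P hP hx
    have hxw := sq_eq_one hR P hP (mul_mem hx hwP)
    have hxi : x⁻¹ = x := inv_eq_of_mul_eq_one_right (by rw [← sq]; exact hx2)
    have h1 : (x * h)⁻¹ = x * h := inv_eq_of_mul_eq_one_right (by rw [← sq]; exact hxw)
    rw [_root_.mul_inv_rev, hxi, hwi] at h1
    exact h1
  have hC4 : 4 ∣ Nat.card (Subgroup.centralizer {w}) := by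
    rw [← hP]
    exact Subgroup.card_dvd_of_le hPC
  obtain ⟨m, hm⟩ := hC4
  have hmo : Odd m := by
    by_contra h
    obtain ⟨r, rfl⟩ := (Nat.not_odd_iff_even.1 h).two_dvd
    apply h8
    have h1 := Subgroup.card_subgroup_dvd_card (Subgroup.centralizer {w})
    rw [hm] at h1
    exact (Dvd.intro r (by ring)).trans h1
  obtain ⟨O, hO⟩ := wData_of_centralizer w hw1 hw4 hconj hmo hm
  refine ⟨w, O, hO, ?_⟩
  intro x hx
  have hwo : orderOf w = 2 := orderOf_eq_prime hw2 hw1
  rw [hwo] at hx
  have hx1 : x ≠ 1 := by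
    rintro rfl
    rw [orderOf_one] at hx
    omega
  have hpg : IsPGroup 2 (Subgroup.zpowers x) := by
    refine IsPGroup.of_card (n := 1) ?_
    rw [Nat.card_zpowers, hx, pow_one]
  obtain ⟨Q, hQ⟩ := hpg.exists_le_sylow
  obtain ⟨g, hg⟩ := MulAction.exists_smul_eq R Q P
  have hxQ : x ∈ (Q : Subgroup R) := hQ (Subgroup.mem_zpowers x)
  have hgx : g * x * g⁻¹ ∈ (P : Subgroup R) := by
    rw [← hg, Sylow.coe_subgroup_smul]
    have := Subgroup.smul_mem_pointwise_smul x (MulAut.conj g) (Q : Subgroup R) hxQ
    exact this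
  have hgx1 : g * x * g⁻¹ ≠ 1 := by
    intro h
    apply hx1
    rw [mul_inv_eq_one] at h
    exact mul_eq_left.1 h
  have h1 := all_conj hR P hP hgx hwP hgx1 hw1
  have h2 : IsConj x (g * x * g⁻¹) := isConj_iff.2 ⟨g, rfl⟩
  exact h2.trans h1

end Pool.Agent.CGS
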