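import Pool.Agent.CGS.VG2
import Pool.Agent.CGS.FA

/-!
# Sylow 2-subgroups of order eight are not commutative

PACKAGE (statements frozen; auxiliary lemmas private; the imported files are black boxes, some
of them still contain sorry).

Let `P` be a Sylow 2-subgroup of order eight and suppose that `P` is commutative. Let `N =
Subgroup.normalizer P`.

* fusion (Burnside): if `x, y ∈ P` are conjugate in `R` then `y = n x n⁻¹` with `n ∈ N` (Mathlib:
  `Sylow.conj_eq_normalizer_conj_of_mem` for commutative `P`, file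
  `Mathlib/GroupTheory/Sylow.lean` or `Transfer.lean`; check the exact form).
* there is `v ∈ P`, `v ≠ 1`, commuting with all elements of `N`: let `C = Subgroup.centralizer P`,
  `P ≤ C ≤ N`; the index of `C` in `N` is odd (`P` is Sylow), and has no prime divisor `p ≥ 5`: an
  element `g ∈ N` of `p`-power order commutes with `P` by `commute_of_harmless` (`2 ^ i ∣ 8`, `2 ^
  i - 1 ∈ {1, 3, 7}`, and `p ≠ 7` because `p ∣ Nat.card R`), so a Sylow `p`-subgroup of `N` is
  contained in `C` and `p ∤ C.relIndex N`. So `N / C` is a 3-group acting on the set `P` of eight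
  elements (conjugation; `C` acts trivially): the number of fixed points is `≡ 8 ≡ 2` modulo 3
  (`IsPGroup.card_modEq_card_fixedPoints` for `p = 3`), so there are at least two fixed points.
* let `F = {x ∈ P | ...}` be the subgroup generated by all `x⁻¹ * n x n⁻¹`, `x ∈ P`, `n ∈ N`
  (contained in `P`). By `le_of_focal` `F = P`. On the other hand let `σ : P → P` be the norm map
  `σ(x) = ∏ over the cosets n C of N / C of n x n⁻¹` (a homomorphism, `P` is commutative; the
  index `k = C.relIndex N` is odd). `σ(n x n⁻¹) = σ(x)`, so `σ` is trivial on `F = P`. But `σ(v) =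
  v ^ k ≠ 1` for the fixed `v ≠ 1`, as `k` is odd: a contradiction. (For the product choose for
  instance `∏ over n ∈ N` of `n x n⁻¹`, all of `N`: then `σ(v) = v ^ |N|`, which is trivial as
  `|N|` is even; so use representatives or the action of the group `N / C`, `QuotientGroup`.
  Another way: the group `N / C` of odd order acts on the commutative 2-group `P`; coprime
  action.)
-/

set_option autoImplicit false

namespace Pool.Agent.CGS

open Matrix

private theorem not_dvd_le {G : Type} [Group G] [Finite G] (N K : Subgroup G) 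
    (h : ∀ p : ℕ, p.Prime → ∃ S : Sylow p N, ∀ x ∈ S, (x : G) ∈ K) : N ≤ K := by
  have h1 : K.relIndex N = 1 := by
    by_contra hne
    obtain ⟨p, hp, hpd⟩ := Nat.exists_prime_and_dvd hne
    have := Fact.mk hp
    obtain ⟨S, hS⟩ := h p hp
    have hle : (S : Subgroup N) ≤ K.subgroupOf N := by
      intro x hx
      rw [Subgroup.mem_subgroupOf]
      exact hS x hx
    have h1 : K.relIndex N ∣ (S : Subgroup N).index := Subgroup.index_dvd_of_le hle
    exact S.not_dvd_index (hpd.trans h1)
  exact Subgroup.relIndex_eq_one.1 h1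

/-- a homomorphism to a finite 2-group is trivial -/
private theorem hom_trivial {R A : Type} [Group R] [Group A] [Finite A] (hR : NoIdx2 R)
    (hA : IsPGroup 2 A) (f : R →* A) (x : R) : f x = 1 := by
  by_contra hne
  have h1 : IsPGroup 2 f.range := hA.to_subgroup _
  have : Nontrivial f.range := by
    refine ⟨⟨⟨f x, x, rfl⟩, 1, ?_⟩⟩
    intro h
    exact hne (congrArg Subtype.val h)
  obtain ⟨Y, hY⟩ := exists_index_two_of_isPGroup h1
  exact hR.of_surjective f.rangeRestrict f.rangeRestrict_surjective Y hY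

private theorem card_eight {R : Type} [Group R] [Finite R] (h8 : 8 ∣ Nat.card R)
    (h16 : ¬ 16 ∣ Nat.card R) (P : Sylow 2 R) : Nat.card (P : Subgroup R) = 8 := by
  have := Fact.mk Nat.prime_two
  obtain ⟨n, hn⟩ := IsPGroup.iff_card.1 P.isPGroup'
  have h1 : (2 : ℕ) ^ 3 ∣ Nat.card (P : Subgroup R) := by
    apply P.pow_dvd_card_of_pow_dvd_card
    norm_num
    exact h8
  have h2 : ¬ (2 : ℕ) ^ 4 ∣ Nat.card (P : Subgroup R) := by
    intro h
    apply h16
    have := h.trans (Subgroup.card_subgroup_dvd_card (P : Subgroup R))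
    norm_num at this
    exact this
  rw [hn] at h1 h2 ⊢
  have h3 : 3 ≤ n := (Nat.pow_dvd_pow_iff_le_right (by norm_num)).1 h1
  have h4 : ¬ 4 ≤ n := fun h => h2 (pow_dvd_pow 2 h)
  have : n = 3 := by omega
  rw [this]
  norm_num

private theorem exists_fixed {R : Type} [Group R] [Finite R] (P : Subgroup R)
    (hP : Nat.card P = 8) (hP2 : IsPGroup 2 P) (h7 : ¬ 7 ∣ Nat.card R)
    (hc : ∀ x ∈ P, ∀ y ∈ P, x * y = y * x) (hS : ¬ 2 ∣ P.index) :
    ∃ v ∈ P, v ≠ 1 ∧ ∀ n ∈ Subgroup.normalizer (P : Set R), n * v = v * n := by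
  classical
  set N := Subgroup.normalizer (P : Set R) with hN
  have hPN : P ≤ N := Subgroup.le_normalizer
  have f3 := Fact.mk Nat.prime_three
  obtain ⟨T⟩ : Nonempty (Sylow 3 N) := inferInstance
  let _ : MulAction T P := MulAction.compHom P (T : Subgroup N).subtype
  have h1 := T.isPGroup'.card_modEq_card_fixedPoints (α := P)
  rw [hP] at h1
  have h2 : 1 < Nat.card (MulAction.fixedPoints T P) := by
    have h3 : 8 % 3 = Nat.card (MulAction.fixedPoints T P) % 3 := h1
    omega
  have : Nontrivial (MulAction.fixedPoints T P) := Finite.one_lt_card_iff_nontrivial.1 h2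
  have hone : (1 : P) ∈ MulAction.fixedPoints T P := by
    intro t
    apply Subtype.ext
    change ((t : N) : R) * 1 * ((t : N) : R)⁻¹ = 1
    group
  obtain ⟨w, hw⟩ := exists_ne (⟨1, hone⟩ : MulAction.fixedPoints T P)
  refine ⟨((w : P) : R), (w : P).2, ?_, ?_⟩
  · intro h
    apply hw
    apply Subtype.ext
    apply Subtype.ext
    exact h
  set v : R := ((w : P) : R) with hv
  have hvP : v ∈ P := (w : P).2
  have hT : ∀ t ∈ T, (t : R) * v = v * t := by
    intro t ht
    have h3 : (⟨t, ht⟩ : T) • (w : P) = w := w.2 ⟨t, ht⟩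
    have h4 : (t : R) * v * (t : R)⁻¹ = v := congrArg Subtype.val h3
    calc (t : R) * v = ((t : R) * v * (t : R)⁻¹) * t := by group
      _ = v * t := by rw [h4]
  have key : N ≤ Subgroup.centralizer {v} ⊓ N := by
    apply not_dvd_le N
    intro p hp
    have fp := Fact.mk hp
    by_cases hp2 : p = 2
    · subst hp2
      have h5 : IsPGroup 2 (P.subgroupOf N) :=
        hP2.of_injective (Subgroup.subgroupOfEquivOfLe hPN).toMonoidHom
          (Subgroup.subgroupOfEquivOfLe hPN).injective
      have h6 : ¬ 2 ∣ (P.subgroupOf N).index := fun h =>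
        hS (h.trans (Dvd.intro _ (Subgroup.relIndex_mul_index hPN)))
      refine ⟨h5.toSylow h6, ?_⟩
      intro x hx
      have hx' : (x : R) ∈ P := hx
      refine ⟨?_, x.2⟩
      change (x : R) ∈ Subgroup.centralizer {v}
      rw [Subgroup.mem_centralizer_singleton_iff]
      exact hc _ hx' _ hvP
    by_cases hp3 : p = 3
    · subst hp3
      refine ⟨T, ?_⟩
      intro x hx
      refine ⟨?_, x.2⟩
      change (x : R) ∈ Subgroup.centralizer {v}
      rw [Subgroup.mem_centralizer_singleton_iff]
      exact hT x hx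
    obtain ⟨S⟩ : Nonempty (Sylow p N) := inferInstance
    refine ⟨S, ?_⟩
    intro x hx
    refine ⟨?_, x.2⟩
    change (x : R) ∈ Subgroup.centralizer {v}
    rw [Subgroup.mem_centralizer_singleton_iff]
    have hord : ∃ k, orderOf (x : R) = p ^ k := by
      obtain ⟨k, hk⟩ := IsPGroup.iff_orderOf.1 S.isPGroup' ⟨x, hx⟩
      refine ⟨k, ?_⟩
      rw [← hk, Subgroup.orderOf_mk, Subgroup.orderOf_coe]
    by_cases hx1 : (x : R) = 1
    · rw [hx1, one_mul, mul_one]
    have hpR : p ∣ Nat.card R := by
      obtain ⟨k, hk⟩ := hord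
      have hk0 : k ≠ 0 := by
        rintro rfl
        rw [pow_zero, orderOf_eq_one_iff] at hk
        exact hx1 hk
      exact (dvd_pow_self p hk0).trans (hk ▸ orderOf_dvd_natCard (x : R))
    refine commute_of_harmless P hP2 hp hp2 (x : R) hord
      (fun r hr => ((x.2 : (x : R) ∈ N) r).1 hr) ?_ v hvP
    intro i hi hdi hpi
    rw [hP] at hdi
    have hi3 : i ≤ 3 := by
      have : (2 : ℕ) ^ i ∣ 2 ^ 3 := by norm_num; exact hdi
      exact (Nat.pow_dvd_pow_iff_le_right (by norm_num)).1 this
    have hp1 : p ≠ 1 := hp.one_lt.ne'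
    interval_cases i
    · norm_num at hpi
      exact hp1 hpi
    · norm_num at hpi
      rcases (Nat.dvd_prime Nat.prime_three).1 hpi with h | h
      · exact hp1 h
      · exact hp3 h
    · norm_num at hpi
      rcases (Nat.dvd_prime (by norm_num : Nat.Prime 7)).1 hpi with h | h
      · exact hp1 h
      · exact h7 (h ▸ hpR)
  intro n hn
  have h7 := (key hn).1
  change n ∈ Subgroup.centralizer {v} at h7
  exact Subgroup.mem_centralizer_singleton_iff.1 h7

theorem not_comm_of_eight {R : Type} [Group R] [Finite R] (hR : NoIdx2 R)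
    (h8 : 8 ∣ Nat.card R) (h16 : ¬ 16 ∣ Nat.card R) (h7 : ¬ 7 ∣ Nat.card R) (P : Sylow 2 R) :
    ∃ x ∈ (P : Subgroup R), ∃ y ∈ (P : Subgroup R), x * y ≠ y * x := by
  classical
  have f2 := Fact.mk Nat.prime_two
  by_contra hcon
  push Not at hcon
  have hcard := card_eight h8 h16 P
  have hidx : ¬ 2 ∣ (P : Subgroup R).index := P.not_dvd_index
  obtain ⟨v, hvP, hv1, hvN⟩ := exists_fixed (P : Subgroup R) hcard P.isPGroup' h7 hcon hidx
  have hcomm : IsMulCommutative (P : Subgroup R) :=
    ⟨⟨fun a b => Subtype.ext (hcon a a.2 b b.2)⟩⟩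
  let _ : CommGroup (P : Subgroup R) :=
    { (inferInstance : Group (P : Subgroup R)) with
      mul_comm := fun a b => Subtype.ext (hcon a a.2 b b.2) }
  have key : ∀ (k : ℕ) (g₀ : R), g₀⁻¹ * v ^ k * g₀ ∈ (P : Subgroup R) →
      g₀⁻¹ * v ^ k * g₀ = v ^ k := by
    intro k g hg
    obtain ⟨n, hn, hn'⟩ := P.conj_eq_normalizer_conj_of_mem (_hP := hcomm) (v ^ k) g
      (Subgroup.pow_mem _ hvP k) hg
    rw [hn']
    have h1 : Commute n (v ^ k) := (show Commute n v from hvN n hn).pow_right k
    rw [mul_assoc, ← h1.eq, ← mul_assoc, inv_mul_cancel, one_mul]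
  have htr := MonoidHom.transfer_eq_pow (MonoidHom.id (P : Subgroup R)) v key
  rw [hom_trivial hR P.isPGroup' _ v] at htr
  have h1 : v ^ (P : Subgroup R).index = 1 := (congrArg Subtype.val htr).symm
  have h2 : v ^ 8 = 1 := by
    have := pow_card_eq_one' (x := (⟨v, hvP⟩ : (P : Subgroup R)))
    rw [hcard] at this
    exact congrArg Subtype.val this
  have h3 : Nat.Coprime 8 (P : Subgroup R).index := by
    have : Nat.Coprime (2 ^ 3) (P : Subgroup R).index :=
      Nat.Coprime.pow_left 3 ((Nat.Prime.coprime_iff_not_dvd Nat.prime_two).2 hidx)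
    exact this
  apply hv1
  have h4 : orderOf v ∣ Nat.gcd 8 (P : Subgroup R).index :=
    Nat.dvd_gcd (orderOf_dvd_of_pow_eq_one h2) (orderOf_dvd_of_pow_eq_one h1)
  rw [h3.gcd_eq_one] at h4
  exact orderOf_eq_one_iff.1 (Nat.dvd_one.1 h4)

end Pool.Agent.CGS
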