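import Pool.Agent.CGS.VG1
import Pool.Agent.CGS.VG2
import Pool.Agent.CGS.VG8a

/-!
# Sylow 2-subgroups of order eight

PACKAGE (statements frozen; auxiliary lemmas private; the imported files are black boxes, some
of them still contain sorry).

Let `P` be a Sylow 2-subgroup, of order eight (`Sylow.card_eq_multiplicity`), not commutative
(`not_comm_of_eight`). Its center `Z` has order two (order `4` or `8` would make `P` commutative:
a group with cyclic central quotient), `Z = {1, z}`, `P ⧸ Z` has order four and exponent two (if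
cyclic then `P` is commutative), so `x ^ 2 ∈ Z` for all `x ∈ P` and `P` has an element `w` of
order four (otherwise all squares are trivial and `P` is commutative); `w ^ 2 = z`.

* `IsConj w w⁻¹`: the centralizer of `w` in `P` is `zpowers w` (it contains `zpowers w`, of index
  two, and is not `P` since `w ∉ Z`). Take `u ∈ P` not commuting with `w`; `zpowers w` is normal
  in `P` (index two), `u w u⁻¹ ∈ zpowers w` has order four and is not `w`, so it is `w⁻¹`.
* `Nat.card (centralizer {w}) = 4 * m`, `m` odd: it is divisible by four (`zpowers w`) and not by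
  eight: otherwise it contains a Sylow 2-subgroup `P₁` of `R` (order eight), `w` commutes with
  `P₁`, so the subgroup generated by `P₁` and `w` is a 2-group and `w ∈ P₁` is in the center of
  `P₁`, a conjugate of `P` whose center has order two; but `w` has order four. So
  `wData_of_centralizer` gives `O`.
* every `x : R` of order four is conjugate to `w`: `x` is conjugate to an element of `P` (Sylow),
  so let `x ∈ P` have order four. Suppose that `x` is not conjugate to `w`. Then `x ∉ zpowers w`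
  and `x ^ 2 = z`. Let `F = zpowers` of `x * w`... : consider the quotient `P ⧸ Z` of order four
  with the three subgroups of order two, spanned by the images of `w`, `x` and `w x`. For `a, b ∈
  P` conjugate in `R` and different modulo `Z`: they have the same order. Elements outside `Z`:
  the cosets `w Z`, `x Z`, `w x Z`. `w Z = {w, w⁻¹}` and `x Z = {x, x⁻¹}` consist of elements of
  order four, conjugate among themselves; `w x Z` has two elements. A conjugate pair `a ~ b` with
  `a, b` in different cosets of `Z` and different from `1`, `z`... if one of them is in `Z` then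
  it is `z` or `1`. Cases: (i) the elements of `w x Z` have order four: then an element of `Z` is
  not conjugate to an element outside `Z` (orders), `w ≁ x`, and at most one of `w ~ w x`, `x ~ w
  x` holds (transitivity, the elements of a coset are conjugate); if `w ~ w x` then all `a⁻¹ b`
  (for conjugate `a, b ∈ P`) lie in `⟨x⟩` (`w⁻¹ (w x) = x`, and elements of `Z ≤ ⟨x⟩`); if `x ~ w
  x` they all lie in `⟨w⟩`; if none they lie in `Z`. In all cases a proper subgroup of `P`
  contains them: contradiction to `le_of_focal`. (ii) the elements of `w x Z` are involutions: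
  then they may be conjugate to `z`, but not to elements of order four, and `w ≁ x`; so all `a⁻¹
  b` lie in the subgroup `⟨z, w x⟩ = Z ∪ w x Z` of order four: contradiction.
-/

set_option autoImplicit false

namespace Pool.Agent.CGS

open Matrix

section

variable {R : Type} [Group R]

private theorem mem_pow4 {w s : R} (hw : orderOf w = 4) (hs : s ∈ Subgroup.zpowers w) :
    s = 1 ∨ s = w ∨ s = w ^ 2 ∨ s = w⁻¹ := by
  classical
  have hw4 : w ^ 4 = 1 := by rw [← hw]; exact pow_orderOf_eq_one w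
  have hfin : IsOfFinOrder w := by
    rw [← orderOf_pos_iff, hw]; norm_num
  rw [hfin.mem_zpowers_iff_mem_range_orderOf] at hs
  obtain ⟨k, hk, rfl⟩ := Finset.mem_image.1 hs
  rw [Finset.mem_range, hw] at hk
  have h3 : w ^ 3 = w⁻¹ := by
    rw [eq_inv_iff_mul_eq_one, ← pow_succ]; exact hw4
  interval_cases k
  · left; simp
  · right; left; simp
  · right; right; left; rfl
  · right; right; right; exact h3

private theorem sq_ne {w : R} (hw : orderOf w = 4) : w ^ 2 ≠ 1 := by
  intro h
  have := orderOf_dvd_of_pow_eq_one h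
  rw [hw] at this
  omega

private theorem sq_mem {w s : R} (hw : orderOf w = 4) (hs : s ∈ Subgroup.zpowers w)
    (h2 : s ^ 2 = 1) : s = 1 ∨ s = w ^ 2 := by
  have hw2 := sq_ne hw
  rcases mem_pow4 hw hs with h | h | h | h
  · exact Or.inl h
  · rw [h] at h2; exact absurd h2 hw2
  · exact Or.inr h
  · rw [h, inv_pow, inv_eq_one] at h2; exact absurd h2 hw2

private theorem sq_mem' {w s : R} (hw : orderOf w = 4) (hs : s ∈ Subgroup.zpowers w)
    (h2 : s ^ 2 ≠ 1) : s = w ∨ s = w⁻¹ := by
  have hw4 : w ^ 4 = 1 := by rw [← hw]; exact pow_orderOf_eq_one w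
  rcases mem_pow4 hw hs with h | h | h | h
  · rw [h] at h2; simp at h2
  · exact Or.inl h
  · rw [h, ← pow_mul] at h2; exact absurd hw4 h2
  · exact Or.inr h

private theorem orderOf_four {x : R} (h4 : x ^ 4 = 1) (h2 : x ^ 2 ≠ 1) : orderOf x = 4 := by
  have h := orderOf_eq_prime_pow (p := 2) (n := 1) (x := x) (by simpa using h2)
    (by simpa using h4)
  simpa using h

private theorem idx2 {P F : Subgroup R} (hF : F ≤ P) (hcP : Nat.card P = 8)
    (hcF : Nat.card F = 4) {a b : R} (ha : a ∈ P) (hb : b ∈ P) :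
    a * b ∈ F ↔ (a ∈ F ↔ b ∈ F) := by
  have h1 : Nat.card (F.subgroupOf P) = 4 := by
    rw [Nat.card_congr (Subgroup.subgroupOfEquivOfLe hF).toEquiv, hcF]
  have h2 : (F.subgroupOf P).index = 2 := by
    have := (F.subgroupOf P).card_mul_index
    rw [h1, hcP] at this
    omega
  have h3 := Subgroup.mul_mem_iff_of_index_two h2 (a := ⟨a, ha⟩) (b := ⟨b, hb⟩)
  simpa [Subgroup.mem_subgroupOf] using h3

/-- the structure of a nonabelian group of order eight around an element of order four -/
private theorem core {P : Subgroup R} (hcP : Nat.card P = 8)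
    (hnc : ∃ x ∈ P, ∃ y ∈ P, x * y ≠ y * x) {w u : R} (hwP : w ∈ P) (hw : orderOf w = 4)
    (huP : u ∈ P) (hu : u ∉ Subgroup.zpowers w) : u * w * u⁻¹ = w⁻¹ := by
  have hF : Subgroup.zpowers w ≤ P := by
    rw [Subgroup.zpowers_le]; exact hwP
  have hcF : Nat.card (Subgroup.zpowers w) = 4 := by rw [Nat.card_zpowers, hw]
  have hwF : w ∈ Subgroup.zpowers w := Subgroup.mem_zpowers w
  have h1 : u * w ∉ Subgroup.zpowers w := by
    rw [idx2 hF hcP hcF huP hwP]
    exact fun h => hu (h.2 hwF)
  have h2 : u⁻¹ ∉ Subgroup.zpowers w := by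
    rw [inv_mem_iff]; exact hu
  have h3 : u * w * u⁻¹ ∈ Subgroup.zpowers w := by
    rw [idx2 hF hcP hcF (P.mul_mem huP hwP) (P.inv_mem huP)]
    exact ⟨fun h => absurd h h1, fun h => absurd h h2⟩
  have hord : orderOf (u * w * u⁻¹) = 4 := by
    have : u * w * u⁻¹ = MulAut.conj u w := rfl
    rw [this, ← hw]
    exact orderOf_injective (MulAut.conj u).toMonoidHom (MulAut.conj u).injective w
  rcases sq_mem' hw h3 (sq_ne hord) with h | h
  · exfalso
    have hc : u * w = w * u := by
      rw [mul_inv_eq_iff_eq_mul] at h; exact h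
    have hcu : ∀ f ∈ Subgroup.zpowers w, Commute f u := by
      intro f hf
      obtain ⟨k, rfl⟩ := Subgroup.mem_zpowers_iff.1 hf
      exact Commute.zpow_left (Commute.symm hc) k
    have hcw : ∀ f ∈ Subgroup.zpowers w, Commute f w := by
      intro f hf
      obtain ⟨k, rfl⟩ := Subgroup.mem_zpowers_iff.1 hf
      exact Commute.zpow_left (Commute.refl w) k
    have hdec : ∀ a ∈ P, a ∈ Subgroup.zpowers w ∨
        ∃ f ∈ Subgroup.zpowers w, a = f * u := by
      intro a ha
      by_cases h5 : a ∈ Subgroup.zpowers w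
      · exact Or.inl h5
      · refine Or.inr ⟨a * u⁻¹, ?_, by group⟩
        rw [idx2 hF hcP hcF ha (P.inv_mem huP)]
        exact ⟨fun h => absurd h h5, fun h => absurd h h2⟩
    have hallw : ∀ a ∈ P, Commute a w := by
      intro a ha
      rcases hdec a ha with h5 | ⟨f, hf, rfl⟩
      · exact hcw a h5
      · exact (hcw f hf).mul_left hc
    have hallu : ∀ a ∈ P, Commute a u := by
      intro a ha
      rcases hdec a ha with h5 | ⟨f, hf, rfl⟩
      · exact hcu a h5
      · exact (hcu f hf).mul_left (Commute.refl u)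
    obtain ⟨x, hx, y, hy, hxy⟩ := hnc
    apply hxy
    have hxf : ∀ f ∈ Subgroup.zpowers w, Commute x f := by
      intro f hf
      obtain ⟨k, rfl⟩ := Subgroup.mem_zpowers_iff.1 hf
      exact Commute.zpow_right (hallw x hx) k
    rcases hdec y hy with h5 | ⟨f, hf, rfl⟩
    · exact hxf y h5
    · exact (hxf f hf).mul_right (hallu x hx)
  · exact h

private theorem exists_notMem {P F : Subgroup R} (hF : F ≤ P) (hcP : Nat.card P = 8)
    (hcF : Nat.card F = 4) : ∃ u ∈ P, u ∉ F := by
  by_contra hcon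
  push Not at hcon
  have : P = F := le_antisymm hcon hF
  rw [this, hcF] at hcP
  omega

private theorem conj_inv' {P : Subgroup R} (hcP : Nat.card P = 8)
    (hnc : ∃ x ∈ P, ∃ y ∈ P, x * y ≠ y * x) {w : R} (hwP : w ∈ P) (hw : orderOf w = 4) :
    IsConj w w⁻¹ := by
  have hF : Subgroup.zpowers w ≤ P := by
    rw [Subgroup.zpowers_le]; exact hwP
  have hcF : Nat.card (Subgroup.zpowers w) = 4 := by rw [Nat.card_zpowers, hw]
  obtain ⟨u, huP, hu⟩ := exists_notMem hF hcP hcF
  exact isConj_iff.2 ⟨u, core hcP hnc hwP hw huP hu⟩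

/-- all elements outside `zpowers w` have the same square, `1` or `w ^ 2` -/
private theorem sq_out {P : Subgroup R} (hcP : Nat.card P = 8)
    (hnc : ∃ x ∈ P, ∃ y ∈ P, x * y ≠ y * x) {w u v : R} (hwP : w ∈ P) (hw : orderOf w = 4)
    (huP : u ∈ P) (hu : u ∉ Subgroup.zpowers w) (hvP : v ∈ P) (hv : v ∉ Subgroup.zpowers w) :
    v ^ 2 = u ^ 2 ∧ (u ^ 2 = 1 ∨ u ^ 2 = w ^ 2) := by
  have hF : Subgroup.zpowers w ≤ P := by
    rw [Subgroup.zpowers_le]; exact hwP
  have hcF : Nat.card (Subgroup.zpowers w) = 4 := by rw [Nat.card_zpowers, hw]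
  have hc := core hcP hnc hwP hw huP hu
  have hinv : ∀ f ∈ Subgroup.zpowers w, u * f * u⁻¹ = f⁻¹ := by
    intro f hf
    obtain ⟨k, rfl⟩ := Subgroup.mem_zpowers_iff.1 hf
    rw [← conj_zpow, hc, _root_.inv_zpow]
  have h2 : u⁻¹ ∉ Subgroup.zpowers w := by
    rw [inv_mem_iff]; exact hu
  constructor
  · have hf : v * u⁻¹ ∈ Subgroup.zpowers w := by
      rw [idx2 hF hcP hcF hvP (P.inv_mem huP)]
      exact ⟨fun h => absurd h hv, fun h => absurd h h2⟩
    have h5 := hinv _ hf
    calc v ^ 2 = (v * u⁻¹) * (u * (v * u⁻¹) * u⁻¹) * u ^ 2 := by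
          rw [pow_two, pow_two]; simp [mul_assoc]
      _ = u ^ 2 := by rw [h5, mul_inv_cancel, one_mul]
  · have hs : u ^ 2 ∈ Subgroup.zpowers w := by
      rw [pow_two, idx2 hF hcP hcF huP huP]
    have h5 := hinv _ hs
    have h6 : u ^ 2 = (u ^ 2)⁻¹ := by
      rw [← h5]; group
    have h7 : (u ^ 2) ^ 2 = 1 := by
      rw [pow_two]; nth_rewrite 2 [h6]; exact mul_inv_cancel _
    exact sq_mem hw hs h7

end

private theorem exists_four {R : Type} [Group R] {P : Subgroup R} (hcP : Nat.card P = 8)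
    (hnc : ∃ x ∈ P, ∃ y ∈ P, x * y ≠ y * x) : ∃ w ∈ P, orderOf w = 4 := by
  by_contra hcon
  push Not at hcon
  have h8 : ∀ a ∈ P, a ^ 8 = 1 := by
    intro a ha
    have h := pow_card_eq_one' (x := (⟨a, ha⟩ : P))
    rw [hcP] at h
    simpa using congrArg Subtype.val h
  have h4 : ∀ a ∈ P, a ^ 4 = 1 := by
    intro a ha
    by_contra h
    refine hcon (a ^ 2) (P.pow_mem ha 2) (orderOf_four ?_ ?_)
    · rw [← pow_mul]; exact h8 a ha
    · rw [← pow_mul]; exact h
  have h2 : ∀ a ∈ P, a * a = 1 := by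
    intro a ha
    by_contra h
    exact hcon a ha (orderOf_four (h4 a ha) (by rw [pow_two]; exact h))
  obtain ⟨x, hx, y, hy, hxy⟩ := hnc
  apply hxy
  have hi : ∀ a ∈ P, a⁻¹ = a := fun a ha => inv_eq_of_mul_eq_one_left (h2 a ha)
  calc x * y = (x * y)⁻¹ := (hi _ (P.mul_mem hx hy)).symm
    _ = y⁻¹ * x⁻¹ := mul_inv_rev x y
    _ = y * x := by rw [hi x hx, hi y hy]

/-- every element of order four is conjugate to one outside its cyclic group, if there is an
element of order four outside -/
private theorem exists_conj_out {R : Type} [Group R] [Finite R] (hR : NoIdx2 R) (Q : Sylow 2 R)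
    (hcP : Nat.card (Q : Subgroup R) = 8)
    (hnc : ∃ x ∈ (Q : Subgroup R), ∃ y ∈ (Q : Subgroup R), x * y ≠ y * x) {w u : R}
    (hwP : w ∈ (Q : Subgroup R)) (hw : orderOf w = 4) (huP : u ∈ (Q : Subgroup R))
    (hu : u ∉ Subgroup.zpowers w) (hu4 : u ^ 2 ≠ 1) :
    ∃ b ∈ (Q : Subgroup R), b ∉ Subgroup.zpowers w ∧ IsConj w b := by
  have hF : Subgroup.zpowers w ≤ (Q : Subgroup R) := by
    rw [Subgroup.zpowers_le]; exact hwP
  have hcF : Nat.card (Subgroup.zpowers w) = 4 := by rw [Nat.card_zpowers, hw]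
  by_contra hcon
  push Not at hcon
  have key : ∀ a b : R, a ∈ (Q : Subgroup R) → b ∈ (Q : Subgroup R) → IsConj a b →
      a ∈ Subgroup.zpowers w → b ∈ Subgroup.zpowers w := by
    intro a b ha hb hab haF
    by_contra hbF
    have hb2 : b ^ 2 ≠ 1 := by
      rw [(sq_out hcP hnc hwP hw huP hu hb hbF).1]; exact hu4
    have ha2 : a ^ 2 ≠ 1 := by
      intro h
      apply hb2
      obtain ⟨c, hc⟩ := isConj_iff.1 hab
      rw [← hc, conj_pow, h, mul_one, mul_inv_cancel]
    have hwa : IsConj w a := by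
      rcases sq_mem' hw haF ha2 with h | h
      · rw [h]
      · rw [h]; exact conj_inv' hcP hnc hwP hw
    exact hcon b hb hbF (hwa.trans hab)
  have hle := le_of_focal hR Q (Subgroup.zpowers w) (by
    intro a b ha hb hab
    rw [idx2 hF hcP hcF ((Q : Subgroup R).inv_mem ha) hb, inv_mem_iff]
    exact ⟨key a b ha hb hab, key b a hb ha hab.symm⟩)
  have heq : (Q : Subgroup R) = Subgroup.zpowers w := le_antisymm hle hF
  rw [heq, hcF] at hcP
  omega

theorem exists_W8 {R : Type} [Group R] [Finite R] (hR : NoIdx2 R) (h8 : 8 ∣ Nat.card R)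
    (h16 : ¬ 16 ∣ Nat.card R) (h7 : ¬ 7 ∣ Nat.card R) :
    ∃ (w : R) (O : Subgroup R), WData w O ∧ ∀ x : R, orderOf x = orderOf w → IsConj x w := by
  have hcard0 : Nat.card R ≠ 0 := Nat.card_pos.ne'
  have hfac : (Nat.card R).factorization 2 = 3 := by
    apply le_antisymm
    · by_contra hcon
      push Not at hcon
      exact h16 ((Nat.prime_two.pow_dvd_iff_le_factorization hcard0 (k := 4)).2 hcon)
    · exact (Nat.prime_two.pow_dvd_iff_le_factorization hcard0).1 (by simpa using h8)
  obtain ⟨Q⟩ : Nonempty (Sylow 2 R) := inferInstance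
  have hcP : Nat.card (Q : Subgroup R) = 8 := by
    have := Q.card_eq_multiplicity
    rw [hfac] at this
    simpa using this
  have hnc := not_comm_of_eight hR h8 h16 h7 Q
  obtain ⟨w, hwP, hw⟩ := exists_four hcP hnc
  have hw4 : w ^ 4 = 1 := by rw [← hw]; exact pow_orderOf_eq_one w
  have hw1 : w ≠ 1 := by
    rintro rfl
    simp at hw
  have hconj := conj_inv' hcP hnc hwP hw
  -- the centralizer
  have h4C : 4 ∣ Nat.card (Subgroup.centralizer {w}) := by
    rw [← hw, ← Nat.card_zpowers]
    apply Subgroup.card_dvd_of_le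
    rw [Subgroup.zpowers_le, Subgroup.mem_centralizer_iff]
    intro h hh
    rw [Set.mem_singleton_iff.1 hh]
  have h8C : ¬ 8 ∣ Nat.card (Subgroup.centralizer {w}) := by
    intro hd
    have hwC : w ∈ Subgroup.centralizer {w} := by
      rw [Subgroup.mem_centralizer_iff]
      intro h hh
      rw [Set.mem_singleton_iff.1 hh]
    obtain ⟨K, hK, hKw⟩ := Sylow.exists_subgroup_card_pow_prime_le 2 (m := 3) (n := 2)
      (G := Subgroup.centralizer {w}) (by simpa using hd)
      (Subgroup.zpowers (⟨w, hwC⟩ : Subgroup.centralizer {w})) (by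
        rw [Nat.card_zpowers, Subgroup.orderOf_mk, hw]; norm_num) (by norm_num)
    have hK' : Nat.card (K.map (Subgroup.centralizer {w}).subtype) = 8 := by
      rw [Nat.card_congr
        (K.equivMapOfInjective _ (Subgroup.centralizer {w}).subtype_injective).toEquiv.symm, hK]
      norm_num
    have hwK : w ∈ K.map (Subgroup.centralizer {w}).subtype :=
      Subgroup.mem_map.2 ⟨⟨w, hwC⟩, hKw (Subgroup.mem_zpowers _), rfl⟩
    have hnc' := not_comm_of_eight hR h8 h16 h7
      (Sylow.ofCard (K.map (Subgroup.centralizer {w}).subtype) (by rw [hK', hfac]; norm_num))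
    rw [Sylow.coe_ofCard] at hnc'
    have hF : Subgroup.zpowers w ≤ K.map (Subgroup.centralizer {w}).subtype := by
      rw [Subgroup.zpowers_le]; exact hwK
    obtain ⟨u, huP, hu⟩ := exists_notMem hF hK' (by rw [Nat.card_zpowers, hw])
    have h1 := core hK' hnc' hwK hw huP hu
    obtain ⟨⟨v, hv⟩, _, rfl⟩ := Subgroup.mem_map.1 huP
    rw [Subgroup.mem_centralizer_iff] at hv
    have h2 := hv w (Set.mem_singleton w)
    have h3 : v * w * v⁻¹ = w := by rw [← h2]; group
    have h4 : w = w⁻¹ := by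
      rw [← h1]; exact h3.symm
    apply sq_ne hw
    rw [pow_two]
    nth_rewrite 2 [h4]
    exact mul_inv_cancel w
  obtain ⟨m, hm⟩ := h4C
  have hmo : Odd m := by
    rw [← Nat.not_even_iff_odd]
    rintro ⟨k, rfl⟩
    exact h8C ⟨k, by rw [hm]; ring⟩
  obtain ⟨O, hO⟩ := wData_of_centralizer w hw1 hw4 hconj hmo hm
  refine ⟨w, O, hO, fun x0 hx0 => ?_⟩
  rw [hw] at hx0
  -- move `x0` into `Q`
  obtain ⟨x, hxP, hxx⟩ : ∃ x ∈ (Q : Subgroup R), IsConj x0 x := by
    have hp : IsPGroup 2 (Subgroup.zpowers x0) := by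
      apply IsPGroup.of_card (n := 2)
      rw [Nat.card_zpowers, hx0]; norm_num
    obtain ⟨Q', hQ'⟩ := hp.exists_le_sylow
    obtain ⟨g, hg⟩ := MulAction.exists_smul_eq R Q' Q
    refine ⟨g * x0 * g⁻¹, ?_, isConj_iff.2 ⟨g, rfl⟩⟩
    rw [← hg, Sylow.coe_subgroup_smul]
    exact Subgroup.smul_mem_pointwise_smul x0 (MulAut.conj g) _
      (hQ' (Subgroup.mem_zpowers x0))
  have hx : orderOf x = 4 := by
    obtain ⟨c, hc⟩ := isConj_iff.1 hxx
    have : c * x0 * c⁻¹ = MulAut.conj c x0 := rfl
    rw [← hc, this, ← hx0]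
    exact orderOf_injective (MulAut.conj c).toMonoidHom (MulAut.conj c).injective x0
  refine hxx.trans ?_
  by_contra hxw
  have hx4 : x ^ 4 = 1 := by rw [← hx]; exact pow_orderOf_eq_one x
  have hx2 := sq_ne hx
  have hxF : x ∉ Subgroup.zpowers w := by
    intro h
    rcases sq_mem' hw h hx2 with h5 | h5
    · exact hxw (by rw [h5])
    · exact hxw (by rw [h5]; exact hconj.symm)
  have hwF : w ∉ Subgroup.zpowers x := by
    intro h
    rcases sq_mem' hx h (sq_ne hw) with h5 | h5
    · exact hxw (by rw [h5])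
    · exact hxw (by rw [h5]; exact conj_inv' hcP hnc hxP hx)
  obtain ⟨b, hbP, hbw, hwb⟩ := exists_conj_out hR Q hcP hnc hwP hw hxP hxF hx2
  obtain ⟨c, hcP', hcx, hxc⟩ := exists_conj_out hR Q hcP hnc hxP hx hwP hwF (sq_ne hw)
  have hsq : ∀ {a b : R}, IsConj a b → a ^ 2 ≠ 1 → b ^ 2 ≠ 1 := by
    intro a b hab ha h
    apply ha
    obtain ⟨c, hc⟩ := isConj_iff.1 hab.symm
    rw [← hc, conj_pow, h, mul_one, mul_inv_cancel]
  have hbx : b ∉ Subgroup.zpowers x := by
    intro h
    rcases sq_mem' hx h (hsq hwb (sq_ne hw)) with h5 | h5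
    · exact hxw (by rw [← h5]; exact hwb.symm)
    · refine hxw ((conj_inv' hcP hnc hxP hx).trans ?_)
      rw [← h5]; exact hwb.symm
  have hcw : c ∉ Subgroup.zpowers w := by
    intro h
    rcases sq_mem' hw h (hsq hxc hx2) with h5 | h5
    · exact hxw (by rw [← h5]; exact hxc)
    · exact hxw ((by rw [← h5]; exact hxc : IsConj x w⁻¹).trans hconj.symm)
  have hFw : Subgroup.zpowers w ≤ (Q : Subgroup R) := by
    rw [Subgroup.zpowers_le]; exact hwP
  have hFx : Subgroup.zpowers x ≤ (Q : Subgroup R) := by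
    rw [Subgroup.zpowers_le]; exact hxP
  have hs1 : b⁻¹ * c ∈ Subgroup.zpowers w := by
    rw [idx2 hFw hcP (by rw [Nat.card_zpowers, hw]) ((Q : Subgroup R).inv_mem hbP) hcP',
      inv_mem_iff]
    exact ⟨fun h => absurd h hbw, fun h => absurd h hcw⟩
  have hs2 : b⁻¹ * c ∈ Subgroup.zpowers x := by
    rw [idx2 hFx hcP (by rw [Nat.card_zpowers, hx]) ((Q : Subgroup R).inv_mem hbP) hcP',
      inv_mem_iff]
    exact ⟨fun h => absurd h hbx, fun h => absurd h hcx⟩
  have hs : (b⁻¹ * c) ^ 2 = 1 := by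
    by_contra hne
    apply hwF
    rcases sq_mem' hw hs1 hne with h5 | h5
    · rw [← h5]; exact hs2
    · rw [← inv_mem_iff, ← h5]; exact hs2
  have hbc : IsConj b c := by
    rcases sq_mem hw hs1 hs with h5 | h5
    · rw [inv_mul_eq_one] at h5
      rw [h5]
    · have hb2 : b ^ 2 = w ^ 2 := by
        rcases (sq_out hcP hnc hwP hw hbP hbw hbP hbw).2 with h6 | h6
        · exact absurd h6 (hsq hwb (sq_ne hw))
        · exact h6
      have hb4 : b ^ 4 = 1 := by
        have : b ^ 4 = (b ^ 2) ^ 2 := by rw [← pow_mul]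
        rw [this, hb2, ← pow_mul]; exact hw4
      have hbo : orderOf b = 4 := orderOf_four hb4 (hsq hwb (sq_ne hw))
      have hcb : c = b⁻¹ := by
        rw [← hb2, inv_mul_eq_iff_eq_mul] at h5
        rw [h5, eq_inv_iff_mul_eq_one, ← pow_succ', ← pow_succ]
        exact hb4
      rw [hcb]
      exact conj_inv' hcP hnc hbP hbo
  exact hxw (hxc.trans (hbc.symm.trans hwb.symm))

end Pool.Agent.CGS
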