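import Pool.Agent.CGS.VP1
import Pool.Agent.CGS.NoIdx

/-!
# Invariant classes of a subgroup of index three and of a normal subgroup of 2-power index in it

PACKAGE (statements frozen; auxiliary lemmas private; the imported files are black boxes, some
of them were stubs).

* `inv_det_odd`: let `δ : L →* ℂˣ` be the determinant character of `τ`; by invariance `δ (b x b⁻¹)
  = δ x` for `b ∈ B` (`det_sim`, `mat_cj`). Let `2 ^ a * m` (`m` odd) be the order of the finite
  cyclic group `δ.range` (or an exponent of it, for instance `Nat.card L`), and `λ = δ ^ m`, with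
  values of 2-power order. Let `K = (λ.ker).map L.subtype`, a subgroup of `B`, normal in `B`
  because `λ` is invariant. `L / K` is isomorphic to the range of `λ`, a 2-group, and it is
  central in `B / K` (for `x ∈ L`, `b ∈ B` the element `b x b⁻¹ x⁻¹` is in `K`). `B / L` is cyclic
  of order three, so `B / K` is commutative (a group whose quotient by a central subgroup is
  cyclic: `commutative_of_cyclic_center_quotient`-type lemma), of order `3 * 2 ^ j`. `B / K` has
  no subgroup of index two (`NoIdx2.quotient`), so its order is odd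
  (`NoIdx2.odd_index_commutator`, the commutator subgroup is trivial), `j = 0`, `L = K`, `λ = 1`,
  and `δ x ^ m = 1` for all `x` with `m` odd.
* `NI_eq`: consider the map `c ↦` class of `resLE hRL` on `{c : Cls L d // InvC L c}`; by
  `irr_resLE` it is well defined into `Cls R d` (`clsMap`-like on irreducible representations of
  odd degree; use `Quotient` maps), and `resLE (cj L b ρ) = cj R b (resLE ρ)` for `b ∈ B`
  (`rep_ext`, `mat_cj`, `mat_resLE`), so it maps to invariant classes. Injective: both classes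
  have odd determinant (`inv_det_odd`), so `sim_of_sim_resLE`. Surjective: let `τ : Rep R d` be
  irreducible and `B`-invariant; `ext_of_inv` with `Y = L` gives `ρ` irreducible with odd
  determinant, `resLE ρ ~ τ`. For `b ∈ B`: `cj L b ρ` is irreducible with odd determinant and its
  restriction is `cj R b (resLE ρ) ~ cj R b τ ~ τ ~ resLE ρ`, so `cj L b ρ ~ ρ` by
  `sim_of_sim_resLE`; so the class of `ρ` is invariant. `Nat.card_congr` with `Equiv.ofBijective`.
-/

set_option autoImplicit false

namespace Pool.Agent.CGS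

open Matrix

variable {B : Type} [Group B] [Finite B]

theorem inv_det_odd (hB : NoIdx2 B) (L : Subgroup B) [L.Normal] (h3 : L.index = 3) {d : ℕ}
    {τ : Rep L d} (hinv : ∀ b : B, Sim (cj L b τ) τ) : OddDet τ := by
  classical
  have : Fact (Nat.Prime 3) := ⟨Nat.prime_three⟩
  let δ : L →* ℂˣ := Matrix.GeneralLinearGroup.det.comp τ
  have hδ : ∀ x : L, (δ x : ℂ) = (mat τ x).det := fun x => rfl
  have hδi : ∀ (b : B) (x : L), δ ((MulAut.conjNormal b : L ≃* L) x) = δ x := by
    intro b x
    apply Units.ext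
    rw [hδ, hδ]
    exact det_sim (hinv b) x
  obtain ⟨a, m, hm, hc⟩ := Nat.exists_eq_two_pow_mul_odd (Nat.card_pos (α := L)).ne'
  let lam : L →* ℂˣ := (powMonoidHom m).comp δ
  have hlam : ∀ x : L, lam x = δ x ^ m := fun x => rfl
  have hlami : ∀ (b : B) (x : L), lam ((MulAut.conjNormal b : L ≃* L) x) = lam x := by
    intro b x
    rw [hlam, hlam, hδi]
  have hlam2 : ∀ x : L, lam x ^ 2 ^ a = 1 := by
    intro x
    rw [hlam, ← pow_mul, mul_comm m, ← hc, ← map_pow, pow_card_eq_one', map_one]
  let K : Subgroup B := lam.ker.map L.subtype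
  have hKm : ∀ {b : B}, b ∈ K ↔ ∃ x : L, lam x = 1 ∧ (x : B) = b := by
    intro b
    exact Subgroup.mem_map
  have hKn : K.Normal := by
    refine ⟨fun k hk g => ?_⟩
    obtain ⟨x, hx, rfl⟩ := hKm.1 hk
    exact hKm.2 ⟨(MulAut.conjNormal g : L ≃* L) x, by rw [hlami, hx], rfl⟩
  have hKL : K ≤ L := by
    intro k hk
    obtain ⟨x, -, rfl⟩ := hKm.1 hk
    exact x.2
  let f : B ⧸ K →* B ⧸ L := QuotientGroup.map K L (MonoidHom.id B) hKL
  have hcyc : IsCyclic (B ⧸ L) := isCyclic_of_prime_card (p := 3) h3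
  have hker : f.ker ≤ Subgroup.center (B ⧸ K) := by
    intro q hq
    induction q using QuotientGroup.induction_on with
    | H b =>
      have hb : b ∈ L := (QuotientGroup.eq_one_iff b).1 hq
      rw [Subgroup.mem_center_iff]
      intro g
      induction g using QuotientGroup.induction_on with
      | H c =>
        rw [← QuotientGroup.mk_mul, ← QuotientGroup.mk_mul, QuotientGroup.eq]
        refine hKm.2 ⟨(⟨b, hb⟩ : L)⁻¹ * (MulAut.conjNormal c⁻¹ : L ≃* L) ⟨b, hb⟩, ?_, ?_⟩
        · rw [map_mul, hlami, map_inv, inv_mul_cancel]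
        · rw [Subgroup.coe_mul, MulAut.conjNormal_apply]
          simp only [Subgroup.coe_inv, inv_inv, _root_.mul_inv_rev]
          group
  have hcomm : ∀ x y : B ⧸ K, x * y = y * x := commutative_of_cyclic_center_quotient f hker
  have hodd := (hB.quotient K).odd_index_commutator
  have hbot : commutator (B ⧸ K) = ⊥ := by
    rw [eq_bot_iff, commutator_def, Subgroup.commutator_le]
    intro x _ y _
    rw [Subgroup.mem_bot, commutatorElement_eq_one_iff_mul_comm]
    exact hcomm x y
  rw [hbot, Subgroup.index_bot] at hodd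
  refine ⟨m, hm, fun x => ?_⟩
  have h1 : lam x ^ Nat.card (B ⧸ K) = 1 := by
    have h2 : (((x : B) ^ Nat.card (B ⧸ K) : B) : B ⧸ K) = 1 := by
      rw [QuotientGroup.mk_pow, pow_card_eq_one']
    obtain ⟨y, hy, hy2⟩ := hKm.1 ((QuotientGroup.eq_one_iff _).1 h2)
    have h3 : y = x ^ Nat.card (B ⧸ K) := Subtype.ext hy2
    rw [← map_pow, ← h3, hy]
  have h2 : orderOf (lam x) ∣ Nat.gcd (Nat.card (B ⧸ K)) (2 ^ a) :=
    Nat.dvd_gcd (orderOf_dvd_of_pow_eq_one h1) (orderOf_dvd_of_pow_eq_one (hlam2 x))
  have h4 : Nat.gcd (Nat.card (B ⧸ K)) (2 ^ a) = 1 :=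
    Nat.Coprime.pow_right a (Nat.coprime_two_right.2 hodd)
  rw [h4, Nat.dvd_one, orderOf_eq_one_iff] at h2
  have h5 : δ x ^ m = 1 := h2
  rw [← hδ, ← Units.val_pow_eq_pow_val, h5, Units.val_one]

theorem NI_eq (hB : NoIdx2 B) (L : Subgroup B) [L.Normal] (h3 : L.index = 3) (R : Subgroup B)
    [R.Normal] (hR : NoIdx2 R) (hRL : R ≤ L) {k : ℕ} (hk : R.relIndex L = 2 ^ k) {d : ℕ}
    (hd : Odd d) : NI L d = NI R d := by
  have hcomm : ∀ (s : B) (ρ : Rep L d), resLE hRL (cj L s ρ) = cj R s (resLE hRL ρ) := by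
    intro s ρ
    refine rep_ext fun r => ?_
    rfl
  let g : Cls L d → Cls R d := clsMap (resLE hRL) (fun _ h => irr_resLE R L hRL hk hd h)
    (fun _ _ h => sim_pull _ h)
  have hF : ∀ c, InvC L c → InvC R (g c) := by
    intro c
    refine cls_ind (q := fun c => InvC L c → InvC R (g c)) (fun ρ hρ hi => ?_) c
    have hi' := (invC_mk L ρ hρ).1 hi
    refine (invC_mk R (resLE hRL ρ) (irr_resLE R L hRL hk hd hρ)).2 fun s => ?_
    rw [← hcomm]
    exact sim_pull _ (hi' s)
  let F : {c : Cls L d // InvC L c} → {c : Cls R d // InvC R c} := fun c => ⟨g c.1, hF c.1 c.2⟩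
  have hFb : Function.Bijective F := by
    constructor
    · rintro ⟨c, hc⟩ ⟨c', hc'⟩ h
      have h1 : g c = g c' := congrArg Subtype.val h
      apply Subtype.ext
      change c = c'
      clear h
      revert hc hc' h1
      refine cls_ind (q := fun c => InvC L c → InvC L c' → g c = g c' → c = c')
        (fun ρ hρ => ?_) c
      refine cls_ind (q := fun c' => InvC L (mk ρ hρ) → InvC L c' → g (mk ρ hρ) = g c' →
        mk ρ hρ = c') (fun σ hσ hi hj h => ?_) c'
      have h2 : Sim (resLE hRL ρ) (resLE hRL σ) := mk_eq.1 h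
      exact mk_eq.2 (sim_of_sim_resLE R L hRL hk hd hρ hσ
        (inv_det_odd hB L h3 ((invC_mk L ρ hρ).1 hi))
        (inv_det_odd hB L h3 ((invC_mk L σ hσ).1 hj)) h2)
    · rintro ⟨e, he⟩
      revert he
      refine cls_ind (q := fun e => ∀ he : InvC R e, ∃ c, F c = ⟨e, he⟩) (fun τ hτ he => ?_) e
      have he' := (invC_mk R τ hτ).1 he
      obtain ⟨ρ, hρ, ho, hs⟩ := ext_of_inv R L hR hRL hk hd hτ (fun y _ => he' y)
      have hi : InvC L (mk ρ hρ) := by
        refine (invC_mk L ρ hρ).2 fun s => ?_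
        obtain ⟨h', -⟩ := cjC_mk L s ρ hρ
        refine sim_of_sim_resLE R L hRL hk hd h' hρ (OddDet.pull _ ho) ho ?_
        rw [hcomm]
        exact ((sim_pull _ hs).trans (he' s)).trans hs.symm
      refine ⟨⟨mk ρ hρ, hi⟩, Subtype.ext ?_⟩
      exact mk_eq.2 hs
  exact Nat.card_congr (Equiv.ofBijective F hFb)

end Pool.Agent.CGS
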