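import Pool.Agent.CGS.NoIdx
import Pool.Agent.CGS.Base

/-!
# The smallest normal subgroup of 2-power index

(Statements frozen; auxiliary lemmas private; the imported files are black boxes.)

Among the subgroups `N` of `B` with `N` normal in `B`, `N ≤ L` and `N.relIndex L` a power of two
(there is one: `L` itself) choose `R` with `Nat.card R` minimal. If `M` is as in the statement
then `R ≤ M`: `R ⊓ M` is normal, `≤ L`, and its index in `L` is a power of two: `(R ⊓ M).relIndex
L = (R ⊓ M).relIndex R * R.relIndex L` and `(R ⊓ M).relIndex R` divides `M.relIndex L` (`R / (R ⊓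
M)` embeds into `L / M`, `Subgroup.relIndex_inf_le`-type or the second isomorphism theorem; `M` is
normal). By minimality `R ⊓ M = R`.

`NoIdx2 R`: let `Y` be a subgroup of index two of `R`, `Y' = Y.map R.subtype ≤ R` as a subgroup of
`B`, `Y'.relIndex R = 2`. Let `K = ⨅ b : B, Y' conjugated by b` (all contained in `R`, which is
normal): `K` is normal in `B`, `K ≤ Y' < R`. `R / K` embeds into the product of the groups `R /
Y'^b` of order two, so its order is a power of two (`K.relIndex R`: every element of `R` has its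
square in every conjugate of `Y'`, so in `K`; a finite group in which all squares are trivial is a
2-group). So `K.relIndex L = K.relIndex R * R.relIndex L` is a power of two, contradicting the
minimality of `R`.
-/

set_option autoImplicit false

namespace Pool.Agent.CGS

open Matrix

private theorem core_relIndex {B : Type} [Group B] [Finite B] (R Y : Subgroup B) [R.Normal]
    (hY : Y.relIndex R = 2) : ∃ k, Y.normalCore.relIndex R = 2 ^ k := by
  have : Fact (Nat.Prime 2) := ⟨Nat.prime_two⟩
  have h1 : IsPGroup 2 (R ⧸ Y.normalCore.subgroupOf R) := by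
    intro g
    obtain ⟨x, rfl⟩ := QuotientGroup.mk_surjective g
    refine ⟨1, ?_⟩
    rw [pow_one, ← QuotientGroup.mk_pow, QuotientGroup.eq_one_iff, Subgroup.mem_subgroupOf]
    intro b
    have hb : b * (x : B) * b⁻¹ ∈ R := Subgroup.Normal.conj_mem inferInstance _ x.2 b
    have h2 := Subgroup.sq_mem_of_index_two (H := Y.subgroupOf R) hY ⟨b * (x : B) * b⁻¹, hb⟩
    have h3 : (b * (x : B) * b⁻¹) ^ 2 ∈ Y := h2
    have h4 : b * ((x ^ 2 : R) : B) * b⁻¹ = (b * (x : B) * b⁻¹) ^ 2 := by
      rw [conj_pow, Subgroup.coe_pow]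
    rw [h4]
    exact h3
  obtain ⟨n, hn⟩ := IsPGroup.iff_card.1 h1
  exact ⟨n, hn⟩

theorem exists_R {B : Type} [Group B] [Finite B] (L : Subgroup B) [L.Normal] :
    ∃ R : Subgroup B, R.Normal ∧ R ≤ L ∧ (∃ k, R.relIndex L = 2 ^ k) ∧ NoIdx2 R ∧
      ∀ M : Subgroup B, M.Normal → M ≤ L → (∃ k, M.relIndex L = 2 ^ k) → R ≤ M := by
  obtain ⟨R, hR⟩ := Set.Finite.exists_minimal
    (s := {N : Subgroup B | N.Normal ∧ N ≤ L ∧ ∃ k, N.relIndex L = 2 ^ k}) (Set.toFinite _)
    ⟨L, inferInstance, le_rfl, 0, by rw [Subgroup.relIndex_self, pow_zero]⟩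
  obtain ⟨⟨hn, hle, i, hi⟩, hmin⟩ := hR
  refine ⟨R, hn, hle, ⟨i, hi⟩, ?_, ?_⟩
  · intro Y hY
    have e1 : (Y.map R.subtype).subgroupOf R = Y :=
      Subgroup.comap_map_eq_self_of_injective R.subtype_injective Y
    have h1 : (Y.map R.subtype).relIndex R = 2 := by
      rw [Subgroup.relIndex, e1]
      exact hY
    obtain ⟨k, hk⟩ := core_relIndex R (Y.map R.subtype) h1
    have h2 : (Y.map R.subtype).normalCore ≤ R :=
      (Subgroup.normalCore_le _).trans (Subgroup.map_subtype_le Y)
    have h3 : (Y.map R.subtype).normalCore.relIndex L = 2 ^ (k + i) := by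
      rw [← Subgroup.relIndex_mul_relIndex _ R L h2 hle, hk, hi, pow_add]
    have h4 : R ≤ (Y.map R.subtype).normalCore :=
      hmin ⟨inferInstance, h2.trans hle, k + i, h3⟩ h2
    have h5 := Subgroup.relIndex_eq_one.2 (h4.trans (Subgroup.normalCore_le _))
    rw [h1] at h5
    exact absurd h5 (by norm_num)
  · rintro M hM hML ⟨k, hk⟩
    have e1 : M.relIndex R ∣ M.relIndex L := by
      have h1 := Subgroup.relIndex_dvd_index_of_normal (M.subgroupOf L) (R.subgroupOf L)
      rw [Subgroup.relIndex_subgroupOf hle] at h1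
      exact h1
    rw [hk] at e1
    obtain ⟨j, -, hj⟩ := (Nat.dvd_prime_pow Nat.prime_two).1 e1
    have e2 : (M ⊓ R).relIndex L = 2 ^ (j + i) := by
      rw [← Subgroup.relIndex_inf_mul_relIndex, inf_eq_left.2 hle, hj, hi, pow_add]
    have h3 : R ≤ M ⊓ R := hmin ⟨Subgroup.normal_inf_normal M R, inf_le_right.trans hle, j + i, e2⟩
      inf_le_right
    exact h3.trans inf_le_left

end Pool.Agent.CGS
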