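import Pool.Agent.CGS.VM3
import Pool.Agent.CGS.VP2
import Pool.Agent.CGS.VComb
import Pool.Agent.CGS.VG4
import Pool.Agent.CGS.VG8b
import Pool.Agent.CGS.VRes
import Pool.Agent.CGS.Sol3
import Pool.Agent.CGS.S2lem
import Pool.Agent.CGS.Lin

/-!
# The other side for n at most five

PACKAGE (statements frozen; auxiliary lemmas private; the imported files are black boxes, some
of them still contain sorry).

`M` has index `12 = 3 * 2 ^ 2` or `24 = 3 * 2 ^ 3`. `B ⧸ M` has no subgroup of index two
(`NoIdx2.quotient`), so by `exists_of_noIdx2` it has a normal subgroup of index three and of order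
a power of two (`4` or `8`); let `L` be its preimage: `L` is normal of index three in `B`, `M ≤
L`, `M.relIndex L = 4` or `8`. `L` has a subgroup of index two (`L / M` is a nontrivial 2-group,
`exists_index_two_of_isPGroup`, take the preimage). Take `R` from `exists_R L`; `R ≤ M`. So
`Nat.card R ∣ Nat.card M`, and `2 ^ (i + 2) ∣ Nat.card B` if `2 ^ i ∣ Nat.card R`; so `2 ^ (n - 1)
∤ Nat.card R`-style bounds: if `n ≤ 4` then `8 ∤ Nat.card R` (otherwise `2 ^ 5 ∣ Nat.card B`); if
`n = 5` then `16 ∤ Nat.card R`, and `7 ∤ Nat.card R` as `7 ∤ Nat.card B`.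

Claim: `Nat.card R` is odd. Suppose not. By `NoIdx2.four_dvd` `4 ∣ Nat.card R`. If `8 ∤ Nat.card
R` take `w, O` from `exists_W4`; if `8 ∣ Nat.card R` (then `n = 5`) from `exists_W8`. For `b : B`
the element `MulAut.conjNormal b w` has the same order as `w`, so it is conjugate to `w` in `R`.
By `exists_odd_NI_of_WData` there is an odd `e ≠ 1` with `NI R e` odd. But `NI R e = NI L e`
(`NI_eq`) is even by `even_NI` (`N B 1 = (commutator B).index` is odd by `N_one` and
`NoIdx2.odd_index_commutator`; `hN3`, `hN`). Contradiction.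

So `R` is a normal subgroup of odd order and `B ⧸ R` has order `3 * 2 ^ j` (`Nat.card (B ⧸ R) =
R.relIndex L * L.index`), so it is solvable (`isSolvable_of_card`) and `S2 B` by `S2.of_normal`.
-/

set_option autoImplicit false

namespace Pool.Agent.CGS

open Matrix

theorem s2_of_kernel_five {B : Type} [Group B] [Finite B] (hB : NoIdx2 B) {n : ℕ}
    (hn : ¬ 2 ^ (n + 1) ∣ Nat.card B) (hn5 : n ≤ 4 ∨ (n = 5 ∧ ¬ 7 ∣ Nat.card B))
    (hN3 : Odd (N B 3)) (hN : ∀ d, Odd d → d ≠ 1 → d ≠ 3 → Even (N B d)) (M : Subgroup B)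
    [M.Normal] (hM : M.index = 12 ∨ M.index = 24) : S2 B := by
  -- the normal subgroup `L` of index three
  obtain ⟨k, hk, hMk⟩ : ∃ k : ℕ, (k = 2 ∨ k = 3) ∧ M.index = 3 * 2 ^ k := by
    rcases hM with h | h
    · exact ⟨2, Or.inl rfl, by rw [h]; norm_num⟩
    · exact ⟨3, Or.inr rfl, by rw [h]; norm_num⟩
  obtain ⟨T, hT, ⟨j, hj⟩, hT3⟩ := exists_of_noIdx2 (hB.quotient M) (k := k) hMk
  let L : Subgroup B := T.comap (QuotientGroup.mk' M)
  have hLn : L.Normal := hT.comap _
  have hL3 : L.index = 3 := by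
    rw [Subgroup.index_comap_of_surjective T (QuotientGroup.mk'_surjective M), hT3]
  have hML : M ≤ L := by
    intro x hx
    change QuotientGroup.mk' M x ∈ T
    rw [QuotientGroup.mk'_apply, (QuotientGroup.eq_one_iff x).2 hx]
    exact one_mem T
  have hMrel : M.relIndex L = 2 ^ k := by
    have h1 := Subgroup.relIndex_mul_index hML
    rw [hL3, hMk, mul_comm] at h1
    exact Nat.eq_of_mul_eq_mul_left (by norm_num) h1
  -- `L` has a subgroup of index two
  have hLY : ∃ Y : Subgroup L, Y.index = 2 := by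
    have hT1 : Nat.card T = 2 ^ k := by
      have h1 := T.card_mul_index
      have h2 : Nat.card (B ⧸ M) = 3 * 2 ^ k := hMk
      rw [hT3, h2, mul_comm] at h1
      exact Nat.eq_of_mul_eq_mul_left (by norm_num) h1
    have hTp : IsPGroup 2 T := IsPGroup.of_card hT1
    have hTn : Nontrivial T := by
      rw [← Finite.one_lt_card_iff_nontrivial, hT1]
      rcases hk with rfl | rfl <;> norm_num
    obtain ⟨Y, hY⟩ := exists_index_two_of_isPGroup hTp
    refine ⟨Y.comap ((QuotientGroup.mk' M).subgroupComap T), ?_⟩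
    rw [Subgroup.index_comap_of_surjective Y
      (MonoidHom.subgroupComap_surjective_of_surjective _ _ (QuotientGroup.mk'_surjective M)), hY]
  obtain ⟨R, hRn, hRL, ⟨r, hr⟩, hRno, hRmin⟩ := exists_R L
  have hRM : R ≤ M := hRmin M inferInstance hML ⟨k, hMrel⟩
  have hRMc : Nat.card R ∣ Nat.card M := Subgroup.card_dvd_of_le hRM
  have hcB : Nat.card B = Nat.card M * (3 * 2 ^ k) := by
    rw [← hMk, Subgroup.card_mul_index]
  have hRB : Nat.card R ∣ Nat.card B := Subgroup.card_subgroup_dvd_card R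
  have hpow : ∀ i : ℕ, 2 ^ i ∣ Nat.card R → 2 ^ (i + 2) ∣ Nat.card B := by
    intro i hi
    rw [hcB, pow_add]
    refine Nat.mul_dvd_mul (hi.trans hRMc) (Dvd.dvd.mul_left ?_ _)
    exact pow_dvd_pow 2 (by rcases hk with rfl | rfl <;> norm_num)
  have hodd : Odd (Nat.card R) := by
    by_contra hne
    have h2 : 2 ∣ Nat.card R := (Nat.not_odd_iff_even.1 hne).two_dvd
    have h4 : 4 ∣ Nat.card R := hRno.four_dvd h2
    obtain ⟨w, O, hw, hconj⟩ : ∃ (w : R) (O : Subgroup R), WData w O ∧
        ∀ x : R, orderOf x = orderOf w → IsConj x w := by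
      by_cases h8 : 8 ∣ Nat.card R
      · have h5 : 2 ^ 5 ∣ Nat.card B := hpow 3 (by norm_num; exact h8)
        rcases hn5 with h | ⟨rfl, h7⟩
        · exact absurd ((pow_dvd_pow 2 (by omega)).trans h5) hn
        · refine exists_W8 hRno h8 (fun h16 => hn ?_) (fun h7' => h7 (h7'.trans hRB))
          exact hpow 4 (by norm_num; exact h16)
      · exact exists_W4 hRno h4 h8
    have hinv : ∀ b : B, IsConj ((MulAut.conjNormal b : R ≃* R) w) w := by
      intro b
      exact hconj _ (MulEquiv.orderOf_eq (MulAut.conjNormal b : R ≃* R) w)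
    obtain ⟨e, he, he1, hNI⟩ := exists_odd_NI_of_WData hB R hRno w O hw hinv
    have h1 : NI L e = NI R e := NI_eq hB L hL3 R hRno hRL hr he
    have h3 : Odd (N B 1) := by
      rw [N_one]
      exact hB.odd_index_commutator
    have h5 : Even (NI L e) := even_NI L hL3 hLY h3 hN3 hN he he1
    rw [h1] at h5
    exact (Nat.not_odd_iff_even.2 h5) hNI
  refine S2.of_normal R hodd (isSolvable_of_card (k := r) ?_)
  have h1 := Subgroup.relIndex_mul_index hRL
  rw [hr, hL3, mul_comm] at h1
  exact h1.symm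

end Pool.Agent.CGS
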