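import Pool.Agent.CGS.BaseV
import Pool.Agent.CGS.OddA
import Pool.Agent.CGS.Irr

/-!
# The 2-singular trace function has integral values

PACKAGE (statements frozen; auxiliary lemmas private; the imported files are black boxes, some
of them still contain sorry).

Let `c = ⟨d, mk ρ h⟩` (`cls_ind`), `V = Fin d → ℂ`, `E = (1 / |O|) ∑ y ∈ O, mat ρ y`, an
idempotent with range `U`, the vectors fixed by `O`. `w` commutes with all `y ∈ O`, so `W = mat ρ
w` commutes with `E`, and `aC w O c = (W * E).trace` and `aC w⁻¹ O c = (W⁻¹ * E).trace` (`W⁻¹ =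
mat ρ w⁻¹`); these are the traces of `W`, `W⁻¹` on `U`. As `W ^ 4 = 1`, `U` is the direct sum of
the eigenspaces of `W` in `U` for `1, -1, I, -I`, of dimensions `a, b, e, f`, so `(W * E).trace =
a - b + (e - f) I`, `(W⁻¹ * E).trace = a - b - (e - f) I`, `dim U = a + b + e + f`. (For instance
with the commuting idempotents `E_ζ = (1 / 4) ∑ k < 4, ζ^{-k} W ^ k`, `ζ ∈ {1, -1, I, -I}`: `E_ζ
E` is an idempotent whose trace is a natural number, `∑ E_ζ = 1`, `W = ∑ ζ E_ζ`.)

* both traces are equal: `w⁻¹ = g w g⁻¹` for some `g` (`conj_inv`); `g` maps `O` to itself by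
  conjugation: `y` commutes with `w` iff `g y g⁻¹` commutes with `w⁻¹`, iff it commutes with `w`,
  and the orders agree (`mem_iff`). So `∑ y ∈ O, chi (w⁻¹ y) = ∑ y ∈ O, chi (w⁻¹ (g y g⁻¹)) = ∑ y
  ∈ O, chi (g w y g⁻¹) = ∑ y ∈ O, chi (w y)`. So `e = f` and both are the integer `k = a - b`,
  with `k ≡ a + b + 2 e = dim U` modulo 2.
* if `ρ` is self-dual then `dim U ≡ d` modulo 2. `Nat.card O` is odd (all elements have odd order,
  Cauchy). `tr ρ(y⁻¹) = tr ρ(y)` (from `ρ(y)ᵀ P ρ(y) = P`). As in the proof of `exists_fixed`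
  (file `OddA`): `|O| * dim U = ∑ y ∈ O, tr ρ(y) = d + 2 α` with an algebraic integer `α`, so `|O|
  * dim U - d` is even, and `dim U ≡ d` modulo 2. (`exists_fixed` itself only states that there is
  a fixed vector; copy its proof, the lemmas there are private. Both parities are needed: if `d`
  is odd then `dim U` is odd, and if `d` is even then `dim U` is even.) `Has SelfDual c.2` gives
  `SelfDual ρ` by `has_mk` with `SelfDual.of_sim`.
-/

set_option autoImplicit false

namespace Pool.Agent.CGS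

open Matrix

/-- the trace of a matrix of finite order is an algebraic integer -/
private theorem isIntegral_trace {d : ℕ} (A : Matrix (Fin d) (Fin d) ℂ) {m : ℕ} (hm : 0 < m)
    (hA : A ^ m = 1) : IsIntegral ℤ A.trace := by
  rw [Matrix.trace_eq_sum_roots_charpoly]
  refine IsIntegral.multiset_sum fun μ hμ => ?_
  have h0 : A.charpoly.IsRoot μ := (Polynomial.mem_roots'.1 hμ).2
  have h1 : μ ∈ spectrum ℂ A := by
    rwa [Matrix.mem_spectrum_iff_isRoot_charpoly]
  have h2 : μ ^ m ∈ spectrum ℂ (A ^ m) := spectrum.pow_mem_pow A m h1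
  have h3 : μ ^ m = 1 := by
    rw [hA] at h2
    have hne : Nontrivial (Matrix (Fin d) (Fin d) ℂ) := by
      by_contra hcon
      rw [not_nontrivial_iff_subsingleton] at hcon
      rw [spectrum.of_subsingleton] at h2
      exact h2
    rw [spectrum.one_eq] at h2
    exact h2
  exact IsIntegral.of_pow hm (by rw [h3]; exact isIntegral_one)

/-- the trace of an idempotent matrix is a natural number -/
private theorem trace_idem {d : ℕ} (A : Matrix (Fin d) (Fin d) ℂ) (h : A * A = A) :
    ∃ n : ℕ, A.trace = n := by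
  have h1 : IsIdempotentElem (Matrix.toLin' A) := by
    change Matrix.toLin' A * Matrix.toLin' A = Matrix.toLin' A
    rw [Module.End.mul_eq_comp, ← Matrix.toLin'_mul, h]
  have h2 := (LinearMap.isProj_range_iff_isIdempotentElem (Matrix.toLin' A)).2 h1
  refine ⟨Module.finrank ℂ (LinearMap.range (Matrix.toLin' A)), ?_⟩
  rw [← Matrix.trace_toLin'_eq, h2.trace]

/-- real traces: the sum of the traces over a group of odd order has the parity of the degree -/
private theorem sum_trace_parity {S : Type} [Group S] [Fintype S] (hS : Odd (Nat.card S)) {d : ℕ}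
    (ρ : Rep S d) (htr : ∀ s, (mat ρ s⁻¹).trace = (mat ρ s).trace) (M : ℕ)
    (hM : ∑ s, (mat ρ s).trace = M) : (Odd M ↔ Odd d) := by
  classical
  have hint : ∀ s, IsIntegral ℤ (mat ρ s).trace := fun s => by
    refine isIntegral_trace (mat ρ s) (m := Fintype.card S) Fintype.card_pos ?_
    rw [← mat_pow, pow_card_eq_one, mat_one]
  let F : S → integralClosure ℤ ℂ := fun s => ⟨(mat ρ s).trace, hint s⟩
  have hF : ∀ s, F s⁻¹ = F s := fun s => Subtype.ext (htr s)
  obtain ⟨α, hα⟩ : ∃ α : integralClosure ℤ ℂ, ∑ s ∈ Finset.univ.erase 1, F s = 2 * α := by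
    have h1 : Ideal.Quotient.mk (Ideal.span {(2 : integralClosure ℤ ℂ)})
        (∑ s ∈ Finset.univ.erase 1, F s) = 0 := by
      rw [map_sum]
      refine Finset.sum_involution (fun s _ => s⁻¹) (fun s _ => ?_) (fun s hs _ => ?_)
        (fun s hs => ?_) (fun s _ => inv_inv s)
      · rw [hF, ← map_add, Ideal.Quotient.eq_zero_iff_mem, Ideal.mem_span_singleton]
        exact ⟨F s, (two_mul _).symm⟩
      · intro h
        have h2 : s ^ 2 = 1 := by
          rw [pow_two]
          nth_rewrite 1 [← h]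
          exact inv_mul_cancel s
        have h3 : orderOf s ∣ 2 := orderOf_dvd_of_pow_eq_one h2
        have h4 : orderOf s ∣ Nat.card S := orderOf_dvd_natCard s
        have h5 : Nat.Coprime 2 (Nat.card S) := Nat.coprime_two_left.2 hS
        have h6 : orderOf s = 1 := Nat.eq_one_of_dvd_coprimes h5 h3 h4
        exact (Finset.mem_erase.1 hs).1 (orderOf_eq_one_iff.1 h6)
      · refine Finset.mem_erase.2 ⟨fun h => ?_, Finset.mem_univ _⟩
        exact (Finset.mem_erase.1 hs).1 (inv_eq_one.1 h)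
    rw [Ideal.Quotient.eq_zero_iff_mem, Ideal.mem_span_singleton] at h1
    exact h1
  have h1 : ∑ s, (mat ρ s).trace = d + 2 * (α : ℂ) := by
    rw [← Finset.add_sum_erase Finset.univ _ (Finset.mem_univ (1 : S))]
    have h2 := congrArg (fun x : integralClosure ℤ ℂ => (x : ℂ)) hα
    simp only [AddSubmonoidClass.coe_finsetSum, MulMemClass.coe_mul] at h2
    have h3 : ((2 : integralClosure ℤ ℂ) : ℂ) = 2 := rfl
    rw [h3] at h2
    rw [← h2, mat_one, Matrix.trace_one, Fintype.card_fin]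
  rw [hM] at h1
  have h2 : (α : ℂ) = algebraMap ℚ ℂ (((M : ℚ) - d) / 2) := by
    rw [map_div₀, map_sub, map_natCast, map_natCast, map_ofNat]
    linear_combination -h1 / 2
  have h3 : IsIntegral ℤ (algebraMap ℚ ℂ (((M : ℚ) - d) / 2)) := by
    rw [← h2]
    exact α.2
  rw [isIntegral_algebraMap_iff (algebraMap ℚ ℂ).injective,
    IsIntegrallyClosed.isIntegral_iff] at h3
  obtain ⟨y, hy⟩ := h3
  have h4 : (M : ℚ) = ((d + 2 * y : ℤ) : ℚ) := by
    rw [eq_intCast] at hy
    push_cast
    rw [hy]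
    ring
  have h5 : (M : ℤ) = d + 2 * y := by exact_mod_cast h4
  rw [Nat.odd_iff, Nat.odd_iff]
  omega

private theorem eig_idem {d : ℕ} {E A : Matrix (Fin d) (Fin d) ℂ} (hE : E * E = E)
    (hEA : E * A = A) (hAE : A * E = A) (hA4 : A * (A * (A * A)) = E) (z : ℂ) (hz : z ^ 4 = 1) :
    ∃ n : ℕ, (1 / 4 : ℂ) * (E.trace + z * A.trace + z ^ 2 * (A * A).trace +
      z ^ 3 * (A * (A * A)).trace) = n := by
  obtain ⟨F, hF⟩ : ∃ F : Matrix (Fin d) (Fin d) ℂ,
      F = (1 / 4 : ℂ) • (E + z • A + z ^ 2 • (A * A) + z ^ 3 • (A * (A * A))) := ⟨_, rfl⟩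
  have h1 : E * F = F := by
    rw [hF, mul_smul_comm]
    simp only [mul_add, mul_smul_comm, hE, ← mul_assoc, hEA]
  have h2 : z • (A * F) = F := by
    rw [hF, mul_smul_comm]
    simp only [mul_add, mul_smul_comm, hA4, hAE, smul_add, smul_smul]
    have e1 : z * (1 / 4 * z ^ 3) = 1 / 4 := by linear_combination (1 / 4) * hz
    rw [e1, add_comm, ← add_assoc, ← add_assoc]
    congr 1
    · congr 1
      · congr 1
        ring_nf
      · congr 1
        ring
    · congr 1
      ring
  have h3 : z ^ 2 • (A * A * F) = F := by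
    calc z ^ 2 • (A * A * F) = z • (A * (z • (A * F))) := by
          rw [mul_smul_comm, smul_smul, ← mul_assoc, pow_two]
      _ = F := by rw [h2, h2]
  have h4 : z ^ 3 • (A * (A * A) * F) = F := by
    calc z ^ 3 • (A * (A * A) * F) = z • (A * (z ^ 2 • (A * A * F))) := by
          rw [mul_smul_comm, smul_smul, mul_assoc A (A * A) F]
          congr 1
          ring
      _ = F := by rw [h3, h2]
  have h5 : F * F = F := by
    have e : F * F = (1 / 4 : ℂ) • (E * F + z • (A * F) + z ^ 2 • (A * A * F) +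
        z ^ 3 • (A * (A * A) * F)) := by
      nth_rewrite 1 [hF]
      rw [smul_mul_assoc, add_mul, add_mul, add_mul, smul_mul_assoc, smul_mul_assoc,
        smul_mul_assoc]
    rw [e, h1, h2, h3, h4]
    module
  obtain ⟨n, hn⟩ := trace_idem F h5
  refine ⟨n, ?_⟩
  rw [← hn, hF, trace_smul, trace_add, trace_add, trace_add, trace_smul, trace_smul, trace_smul]
  rfl

theorem aC_int {R : Type} [Group R] [Finite R] {w : R} {O : Subgroup R} (h : WData w O)
    (c : AC R) :
    ∃ k : ℤ, aC w O c = k ∧ aC w⁻¹ O c = k ∧ (Has SelfDual c.2 → (Odd k ↔ Odd c.1)) := by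
  classical
  obtain ⟨d, c⟩ := c
  refine cls_ind (q := fun c => ∃ k : ℤ, aC w O ⟨d, c⟩ = k ∧ aC w⁻¹ O ⟨d, c⟩ = k ∧
    (Has SelfDual c → (Odd k ↔ Odd d))) (fun ρ hρ => ?_) c
  have : Fintype R := Fintype.ofFinite R
  have : Fintype O := Fintype.ofFinite O
  have hm0 : (Nat.card O : ℂ) ≠ 0 := by
    exact_mod_cast Nat.card_pos.ne'
  have ha : ∀ v : R, aC v O ⟨d, mk ρ hρ⟩ = (Nat.card O : ℂ)⁻¹ *
      ∑ y : O, (mat ρ (v * (y : R))).trace := by
    intro v
    rw [aC, finsum_eq_sum_of_fintype]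
    rfl
  -- the idempotent
  set E : Matrix (Fin d) (Fin d) ℂ := (Nat.card O : ℂ)⁻¹ • ∑ y : O, mat ρ (y : R) with hE
  have hav : ∀ v : R, aC v O ⟨d, mk ρ hρ⟩ = (mat ρ v * E).trace := by
    intro v
    rw [ha, hE, mul_smul_comm, trace_smul, smul_eq_mul]
    congr 1
    rw [Finset.mul_sum, trace_sum]
    simp only [mat_mul]
  have hyE : ∀ y : O, mat ρ (y : R) * E = E := by
    intro y
    rw [hE, mul_smul_comm, Finset.mul_sum]
    congr 1
    refine Fintype.sum_equiv (Equiv.mulLeft y) _ _ fun x => ?_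
    rw [← mat_mul]
    rfl
  have hEE : E * E = E := by
    nth_rewrite 1 [hE]
    rw [smul_mul_assoc, Finset.sum_mul, Finset.sum_congr rfl fun y _ => hyE y,
      Finset.sum_const, Finset.card_univ, ← Nat.card_eq_fintype_card, ← Nat.cast_smul_eq_nsmul ℂ,
      smul_smul, inv_mul_cancel₀ hm0, one_smul]
  set W : Matrix (Fin d) (Fin d) ℂ := mat ρ w with hW
  have hWE : W * E = E * W := by
    rw [hE, mul_smul_comm, smul_mul_assoc, Finset.mul_sum, Finset.sum_mul]
    congr 1
    refine Finset.sum_congr rfl fun y _ => ?_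
    rw [hW, ← mat_mul, ← mat_mul, ((h.mem_iff y).1 y.2).1]
  have hW4 : W * (W * (W * W)) = 1 := by
    rw [hW, ← mat_mul, ← mat_mul, ← mat_mul]
    have e : w * (w * (w * w)) = 1 := by
      rw [← h.pow4]
      simp only [pow_succ, pow_zero, one_mul, mul_assoc]
    rw [e, mat_one]
  set A : Matrix (Fin d) (Fin d) ℂ := W * E with hA
  have hEA : E * A = A := by
    rw [hA, ← mul_assoc, ← hWE, mul_assoc, hEE]
  have hAE : A * E = A := by
    rw [hA, mul_assoc, hEE]
  have hAX : ∀ X : Matrix (Fin d) (Fin d) ℂ, E * X = X → A * X = W * X := by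
    intro X hX
    rw [hA, mul_assoc, hX]
  have hA2 : A * A = W * W * E := by
    rw [hAX A hEA, hA, ← mul_assoc]
  have hEA2 : E * (A * A) = A * A := by
    rw [← mul_assoc, hEA]
  have hA3 : A * (A * A) = W * (W * W) * E := by
    rw [hAX _ hEA2, hA2, ← mul_assoc]
  have hEA3 : E * (A * (A * A)) = A * (A * A) := by
    rw [← mul_assoc, hEA]
  have hA4 : A * (A * (A * A)) = E := by
    rw [hAX _ hEA3, hA3, ← mul_assoc, hW4, one_mul]
  have hw3 : mat ρ w⁻¹ = W * (W * W) := by
    have e : w⁻¹ = w * (w * w) := by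
      rw [inv_eq_iff_mul_eq_one, ← h.pow4]
      simp only [pow_succ, pow_zero, one_mul, mul_assoc]
    rw [e, mat_mul, mat_mul]
  have ht1 : aC w O ⟨d, mk ρ hρ⟩ = A.trace := hav w
  have ht3 : aC w⁻¹ O ⟨d, mk ρ hρ⟩ = (A * (A * A)).trace := by
    rw [hav, hw3, hA3]
  -- the two traces are equal
  have heq : aC w⁻¹ O ⟨d, mk ρ hρ⟩ = aC w O ⟨d, mk ρ hρ⟩ := by
    obtain ⟨g, hg⟩ := isConj_iff.1 h.conj_inv
    rw [ha, ha]
    congr 1
    have hmem : ∀ y : O, g * (y : R) * g⁻¹ ∈ O := by
      intro y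
      obtain ⟨h1, h2⟩ := (h.mem_iff y).1 y.2
      rw [h.mem_iff]
      constructor
      · have e : w⁻¹ * (g * (y : R) * g⁻¹) = g * (y : R) * g⁻¹ * w⁻¹ := by
          rw [← hg]
          calc g * w * g⁻¹ * (g * (y : R) * g⁻¹) = g * (w * y) * g⁻¹ := by group
            _ = g * (y * w) * g⁻¹ := by rw [h1]
            _ = g * (y : R) * g⁻¹ * (g * w * g⁻¹) := by group
        have e2 := congrArg (fun x => w * x * w) e
        simp only [mul_assoc, mul_inv_cancel_left, inv_mul_cancel, mul_one] at e2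
        simpa only [mul_assoc] using e2.symm
      · have e : orderOf (g * (y : R) * g⁻¹) = orderOf (y : R) := by
          have := MulEquiv.orderOf_eq (MulAut.conj g) (y : R)
          rwa [MulAut.conj_apply] at this
        rw [e]
        exact h2
    symm
    refine Finset.sum_bijective (fun y : O => (⟨g * (y : R) * g⁻¹, hmem y⟩ : O)) ?_
      (fun _ => by simp) (fun y _ => ?_)
    · refine Finite.injective_iff_bijective.1 fun x y hxy => ?_
      have e := congrArg (fun x : O => (x : R)) hxy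
      simp only [mul_left_inj, mul_right_inj] at e
      exact Subtype.ext e
    · change (mat ρ (w * (y : R))).trace = (mat ρ (w⁻¹ * (g * (y : R) * g⁻¹))).trace
      have e : w⁻¹ * (g * (y : R) * g⁻¹) = g * (w * y) * g⁻¹ := by
        rw [← hg]
        group
      rw [e, mat_mul ρ (g * (w * y)) g⁻¹, Matrix.trace_mul_comm, ← mat_mul]
      congr 2
      group
  have h13 : A.trace = (A * (A * A)).trace := by
    rw [← ht1, ← ht3, heq]
  -- the four natural numbers
  obtain ⟨n1, e1⟩ := eig_idem hEE hEA hAE hA4 1 (by norm_num)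
  obtain ⟨n2, e2⟩ := eig_idem hEE hEA hAE hA4 (-1) (by norm_num)
  obtain ⟨n3, e3⟩ := eig_idem hEE hEA hAE hA4 Complex.I (by
    rw [Complex.I_pow_four])
  obtain ⟨n4, e4⟩ := eig_idem hEE hEA hAE hA4 (-Complex.I) (by
    rw [neg_pow, Complex.I_pow_four]; norm_num)
  rw [← h13] at e1 e2 e3 e4
  have i2 : Complex.I ^ 2 = -1 := Complex.I_sq
  have i3 : Complex.I ^ 3 = -Complex.I := by
    rw [pow_succ, i2, neg_one_mul]
  have j2 : (-Complex.I) ^ 2 = -1 := by rw [neg_sq, i2]
  have j3 : (-Complex.I) ^ 3 = Complex.I := by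
    rw [pow_succ, j2, neg_one_mul, neg_neg]
  rw [i2, i3] at e3
  rw [j2, j3] at e4
  have hk : A.trace = ((n1 - n2 : ℤ) : ℂ) := by
    push_cast
    rw [← e1, ← e2]
    ring
  have h34 : (n3 : ℂ) = n4 := by
    rw [← e3, ← e4]
    ring
  have h34' : n3 = n4 := by exact_mod_cast h34
  have ht0 : E.trace = ((n1 + n2 + n3 + n4 : ℕ) : ℂ) := by
    push_cast
    rw [← e1, ← e2, ← e3, ← e4]
    ring
  refine ⟨(n1 : ℤ) - n2, ?_, ?_, fun hsd => ?_⟩
  · rw [ht1, hk]
  · rw [heq, ht1, hk]
  have hsd' : SelfDual ρ := (has_mk (fun _ _ hs hq => SelfDual.of_sim hs hq)).1 hsd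
  have hodd : Odd (Nat.card O) := by
    rw [← Nat.not_even_iff_odd, even_iff_two_dvd]
    intro h2
    have : Fact (Nat.Prime 2) := ⟨Nat.prime_two⟩
    obtain ⟨y, hy⟩ := exists_prime_orderOf_dvd_card' 2 h2
    have h3 := ((h.mem_iff y).1 y.2).2
    rw [Subgroup.orderOf_coe, hy] at h3
    exact (Nat.not_odd_iff_even.2 (by decide : Even 2)) h3
  have hsum : ∑ y : O, (mat (res O ρ) y).trace = ((Nat.card O * (n1 + n2 + n3 + n4) : ℕ) : ℂ) := by
    rw [Nat.cast_mul, ← ht0, hE, trace_smul, smul_eq_mul, mul_inv_cancel_left₀ hm0, trace_sum]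
    rfl
  have hpar := sum_trace_parity (S := O) hodd (res O ρ) (fun y => by
    have e := trace_sim ((dual_sim_iff ρ).2 hsd') (y : R)
    rw [mat_dual, trace_transpose] at e
    rw [mat_res, mat_res, e]
    rfl) _ hsum
  rw [← hpar, Nat.odd_mul]
  have h5 : Odd (n1 + n2 + n3 + n4) ↔ Odd ((n1 : ℤ) - n2) := by
    rw [Nat.odd_iff, Int.odd_iff]
    omega
  rw [h5]
  exact ⟨fun h6 => ⟨hodd, h6⟩, fun h6 => h6.2⟩

end Pool.Agent.CGS
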