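import Pool.Agent.CGS.VZ
import Pool.Agent.CGS.VC3
import Pool.Agent.CGS.VA3
import Pool.Agent.CGS.VDet

/-!
# The numbers of classes of a group and of a subgroup of index three

PACKAGE (statements frozen; auxiliary lemmas private; the imported files are black boxes, some
of them still contain sorry).

Write `A d = Nat.card {c : Cls B d // Has (ResIrr L) c}`, `C d = Nat.card {c : Cls B d // ¬ Has
(ResIrr L) c}`, so `N B d = A d + C d` (finite types, `finite_cls`).

* `mass_three`: take `z : ℂ[L]` from `exists_z_exact L he` (`k d = if d = e then 1 else 0`). For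
  `ρ` irreducible of degree `d` the matrix `lift ρ (inc L z)` commutes with all `mat ρ b`
  (`z_conj_normal`, `lift_of`), so it is a scalar `κ • 1` (`schur`). With `d', τ, T` from
  `exists_sub_three`: `lift ρ (inc L z) * T = T * lift τ z` (`lift_inc` and linearity; for group
  elements this is the intertwining property), so `κ • T = T * (if d' = e then 1 else 0)` and `κ =
  if d' = e then 1 else 0`. So `lift ρ (inc L z) = 1` if (`d = e` and `ResIrr L ρ`) or (`d = 3 *
  e` and `¬ ResIrr L ρ`), and `0` otherwise. Apply `coeff_formula` with `q d c = (d = e ∧ Has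
  (ResIrr L) c) ∨ (d = 3 * e ∧ ¬ Has (ResIrr L) c)` (`has_mk` with `ResIrr.of_sim`). The left hand
  side is `|B| * z.coeff 1` (`coeff_inc`) `= 3 * |L| * z.coeff 1 = 3 * e ^ 2 * N L e`. The right
  hand side is `e ^ 2 * A e + (3 * e) ^ 2 * C (3 * e)` (the terms with `d > |B|` are zero since
  then the types are empty by `N_eq_zero`). Divide by `e ^ 2`.
* `not_resIrr_deg`: from `exists_sub_three`: if the restriction is not irreducible then `3 ∣ d`.
* `N_modEq_NI`: if `3 ∤ d` then `C d = 0` and `N B d = A d = 3 * NI L d` (`card_resIrr`). If `d =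
  3 * e`, `e` is odd; `mass_three` and `card_resIrr`: `3 * N L e = 3 * NI L e + 9 * C (3 * e)`, so
  `N L e = NI L e + 3 * C (3 * e)`; `N L e` is even (`even_N_of_index_two`, `L` has a subgroup of
  index two), so `C (3 * e) ≡ NI L e` modulo 2; and `N B d = 3 * NI L d + C d`.
* `even_NI`: strong induction on `d`. `N B 1` is odd and `N B 1 = 3 * NI L 1`, so `NI L 1` is odd.
  Let `d ≠ 1` be odd. If `3 ∤ d`: `N B d ≡ NI L d` and `N B d` is even. If `d = 3`: `N B 3 ≡ NI L
  3 + NI L 1`, both `N B 3` and `NI L 1` are odd. If `d = 3 * e`, `e ≠ 1`: `N B d` is even and `NI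
  L e` is even by induction.
-/

set_option autoImplicit false

namespace Pool.Agent.CGS

open Matrix

variable {B : Type} [Group B] [Finite B]

private theorem alg_ind {H : Type} [Group H] {p : MonoidAlgebra ℂ H → Prop}
    (h1 : ∀ g, p (MonoidAlgebra.of ℂ H g)) (h2 : ∀ a b, p a → p b → p (a + b))
    (h3 : ∀ (c : ℂ) a, p a → p (c • a)) (a : MonoidAlgebra ℂ H) : p a := by
  refine MonoidAlgebra.induction_linear a ?_ h2 ?_
  · have h4 := h3 0 _ (h1 1)
    rwa [zero_smul] at h4
  · intro g c
    have h4 := h3 c _ (h1 g)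
    rwa [MonoidAlgebra.of_apply, MonoidAlgebra.smul_single, smul_eq_mul, mul_one] at h4

private theorem card_split {α : Type} [Finite α] (p : α → Prop) :
    Nat.card α = Nat.card {c : α // p c} + Nat.card {c : α // ¬ p c} := by
  classical
  rw [← Nat.card_sum]
  exact Nat.card_congr (Equiv.sumCompl p).symm

private theorem card_zero {d : ℕ} (hd : Nat.card B < d) (p : Cls B d → Prop) :
    Nat.card {c : Cls B d // p c} = 0 := by
  have hfin : Finite (Cls B d) := finite_cls B d
  have h1 : Nat.card (Cls B d) = 0 := N_eq_zero B hd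
  rcases Nat.card_eq_zero.1 h1 with h2 | h2
  · exact Nat.card_of_isEmpty
  · exact absurd hfin (not_finite_iff_infinite.2 h2)

theorem mass_three (L : Subgroup B) [L.Normal] (h3 : L.index = 3) {e : ℕ} (he : 0 < e) :
    3 * N L e = Nat.card {c : Cls B e // Has (ResIrr L) c} +
      9 * Nat.card {c : Cls B (3 * e) // ¬ Has (ResIrr L) c} := by
  classical
  obtain ⟨z, hz, cz⟩ := exists_z_exact L he
  have hcomm : ∀ s : B, MonoidAlgebra.of ℂ B s * inc L z = inc L z * MonoidAlgebra.of ℂ B s := by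
    refine z_conj_normal L (fun d => if d = e then 1 else 0) fun d τ hτ => ?_
    rw [hz d τ hτ]
    by_cases h : d = e
    · rw [if_pos h, if_pos h, one_smul]
    · rw [if_neg h, if_neg h, zero_smul]
  have key : ∀ (d : ℕ) (ρ : Rep B d), IsIrr ρ → ∃ d' : ℕ,
      lift ρ (inc L z) = (if d' = e then 1 else 0) ∧
      ((d = d' ∧ ResIrr L ρ) ∨ (d = 3 * d' ∧ ¬ ResIrr L ρ)) := by
    intro d ρ h
    obtain ⟨d', τ, T, hτ, hT, hTx, hcase⟩ := exists_sub_three L h3 h
    refine ⟨d', ?_, hcase⟩
    obtain ⟨k, hk⟩ := schur h (lift ρ (inc L z)) (fun g => by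
      rw [← lift_of, ← map_mul, ← map_mul, hcomm])
    have h1 : ∀ a : MonoidAlgebra ℂ L, lift ρ (inc L a) * T = T * lift τ a := by
      intro a
      refine alg_ind (p := fun a => lift ρ (inc L a) * T = T * lift τ a) ?_ ?_ ?_ a
      · intro y
        rw [inc_of, lift_of, lift_of]
        exact hTx y
      · intro a b ha hb
        rw [map_add, map_add, map_add, Matrix.add_mul, Matrix.mul_add, ha, hb]
      · intro c a ha
        rw [map_smul, map_smul, map_smul, Matrix.smul_mul, Matrix.mul_smul, ha]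
    have h2 := h1 z
    rw [hk, hz d' τ hτ, Matrix.smul_mul, Matrix.one_mul] at h2
    by_cases hd : d' = e
    · rw [if_pos hd, Matrix.mul_one] at h2
      rw [if_pos hd, hk]
      have h4 : (k - 1) • T = 0 := by rw [sub_smul, one_smul, h2, sub_self]
      rw [sub_eq_zero.1 ((smul_eq_zero.1 h4).resolve_right hT), one_smul]
    · rw [if_neg hd, Matrix.mul_zero] at h2
      rw [if_neg hd, hk, (smul_eq_zero.1 h2).resolve_right hT, zero_smul]
  have hhas : ∀ (d : ℕ) (ρ : Rep B d) (h : IsIrr ρ), Has (ResIrr L) (mk ρ h) ↔ ResIrr L ρ :=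
    fun d ρ h => has_mk fun _ _ h1 h2 => ResIrr.of_sim L h1 h2
  have hform := coeff_formula (inc L z)
    (fun d c => (d = e ∧ Has (ResIrr L) c) ∨ (d = 3 * e ∧ ¬ Has (ResIrr L) c))
    (by
      intro d ρ h hq
      rw [hhas d ρ h] at hq
      obtain ⟨d', h1, h2⟩ := key d ρ h
      rw [h1, if_pos]
      rcases hq with ⟨hq1, hq2⟩ | ⟨hq1, hq2⟩ <;> rcases h2 with ⟨k1, k2⟩ | ⟨k1, k2⟩
      · omega
      · exact absurd hq2 k2
      · exact absurd k2 hq2
      · omega)
    (by
      intro d ρ h hq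
      rw [hhas d ρ h] at hq
      obtain ⟨d', h1, h2⟩ := key d ρ h
      rw [h1, if_neg]
      rintro rfl
      exact hq h2)
  have hcard : Nat.card B = 3 * Nat.card L := by
    rw [← L.card_mul_index, h3, mul_comm]
  have hterm : ∀ d : ℕ, (d : ℂ) ^ 2 * (Nat.card {c : Cls B d //
      (d = e ∧ Has (ResIrr L) c) ∨ (d = 3 * e ∧ ¬ Has (ResIrr L) c)} : ℂ) =
      (if d = e then (e : ℂ) ^ 2 * (Nat.card {c : Cls B e // Has (ResIrr L) c} : ℂ) else 0) +
      (if d = 3 * e then ((3 * e : ℕ) : ℂ) ^ 2 *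
        (Nat.card {c : Cls B (3 * e) // ¬ Has (ResIrr L) c} : ℂ) else 0) := by
    intro d
    by_cases h1 : d = e
    · subst h1
      rw [if_pos rfl, if_neg (by omega), add_zero]
      congr 2
      refine Nat.card_congr (Equiv.subtypeEquivRight fun c => ?_)
      constructor
      · rintro (⟨-, h⟩ | ⟨h, -⟩)
        · exact h
        · omega
      · exact fun h => Or.inl ⟨rfl, h⟩
    · by_cases h2 : d = 3 * e
      · subst h2
        rw [if_neg h1, if_pos rfl, zero_add]
        congr 2
        refine Nat.card_congr (Equiv.subtypeEquivRight fun c => ?_)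
        constructor
        · rintro (⟨h, -⟩ | ⟨-, h⟩)
          · omega
          · exact h
        · exact fun h => Or.inr ⟨rfl, h⟩
      · rw [if_neg h1, if_neg h2, add_zero]
        have h4 : IsEmpty {c : Cls B d //
            (d = e ∧ Has (ResIrr L) c) ∨ (d = 3 * e ∧ ¬ Has (ResIrr L) c)} :=
          ⟨fun c => by
            rcases c.2 with ⟨h, -⟩ | ⟨h, -⟩
            · exact h1 h
            · exact h2 h⟩
        rw [Nat.card_of_isEmpty, Nat.cast_zero, mul_zero]
  rw [coeff_inc, hcard, Finset.sum_congr rfl fun d _ => hterm d, Finset.sum_add_distrib,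
    Finset.sum_ite_eq', Finset.sum_ite_eq', ← hcard] at hform
  have hA : (if e ∈ Finset.range (Nat.card B + 1) then
      (e : ℂ) ^ 2 * (Nat.card {c : Cls B e // Has (ResIrr L) c} : ℂ) else 0) =
      (e : ℂ) ^ 2 * (Nat.card {c : Cls B e // Has (ResIrr L) c} : ℂ) := by
    by_cases h : e ∈ Finset.range (Nat.card B + 1)
    · rw [if_pos h]
    · rw [if_neg h, card_zero (by rw [Finset.mem_range] at h; omega), Nat.cast_zero, mul_zero]
  have hC : (if 3 * e ∈ Finset.range (Nat.card B + 1) then ((3 * e : ℕ) : ℂ) ^ 2 *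
      (Nat.card {c : Cls B (3 * e) // ¬ Has (ResIrr L) c} : ℂ) else 0) =
      ((3 * e : ℕ) : ℂ) ^ 2 * (Nat.card {c : Cls B (3 * e) // ¬ Has (ResIrr L) c} : ℂ) := by
    by_cases h : 3 * e ∈ Finset.range (Nat.card B + 1)
    · rw [if_pos h]
    · rw [if_neg h, card_zero (by rw [Finset.mem_range] at h; omega), Nat.cast_zero, mul_zero]
  rw [hA, hC, hcard] at hform
  have he0 : (e : ℂ) ^ 2 ≠ 0 := pow_ne_zero 2 (Nat.cast_ne_zero.2 he.ne')
  have hfin : (3 : ℂ) * (N L e : ℂ) = (Nat.card {c : Cls B e // Has (ResIrr L) c} : ℂ) +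
      9 * (Nat.card {c : Cls B (3 * e) // ¬ Has (ResIrr L) c} : ℂ) := by
    refine mul_left_cancel₀ he0 ?_
    push_cast at hform
    linear_combination hform - 3 * cz
  exact_mod_cast hfin

theorem not_resIrr_deg (L : Subgroup B) [L.Normal] (h3 : L.index = 3) {d : ℕ} (c : Cls B d)
    (hc : ¬ Has (ResIrr L) c) : 3 ∣ d := by
  revert hc
  refine cls_ind (q := fun c => ¬ Has (ResIrr L) c → 3 ∣ d) (fun ρ hρ hc => ?_) c
  rw [has_mk fun _ _ h1 h2 => ResIrr.of_sim L h1 h2] at hc
  obtain ⟨d', τ, T, -, -, -, h | h⟩ := exists_sub_three L h3 hρ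
  · exact absurd h.2 hc
  · exact ⟨d', h.1⟩

theorem N_modEq_NI (L : Subgroup B) [L.Normal] (h3 : L.index = 3)
    (hL : ∃ Y : Subgroup L, Y.index = 2) {d : ℕ} (hd : Odd d) :
    N B d ≡ NI L d + (if 3 ∣ d then NI L (d / 3) else 0) [MOD 2] := by
  have hfin : Finite (Cls B d) := finite_cls B d
  have h1 : N B d = Nat.card {c : Cls B d // Has (ResIrr L) c} +
      Nat.card {c : Cls B d // ¬ Has (ResIrr L) c} := card_split _
  rw [card_resIrr L h3] at h1
  by_cases h : 3 ∣ d
  · rw [if_pos h]
    obtain ⟨e, rfl⟩ := h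
    rw [Nat.mul_div_cancel_left e (by norm_num)]
    have he : Odd e := (Nat.odd_mul.1 hd).2
    have h2 := mass_three L h3 he.pos
    rw [card_resIrr L h3] at h2
    obtain ⟨Y, hY⟩ := hL
    obtain ⟨r, hr⟩ := even_N_of_index_two (G := L) Y hY he
    unfold Nat.ModEq
    omega
  · rw [if_neg h]
    have h4 : IsEmpty {c : Cls B d // ¬ Has (ResIrr L) c} :=
      ⟨fun c => h (not_resIrr_deg L h3 c.1 c.2)⟩
    rw [Nat.card_of_isEmpty] at h1
    unfold Nat.ModEq
    omega

theorem even_NI (L : Subgroup B) [L.Normal] (h3 : L.index = 3)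
    (hL : ∃ Y : Subgroup L, Y.index = 2) (h1 : Odd (N B 1)) (hN3 : Odd (N B 3))
    (hN : ∀ d, Odd d → d ≠ 1 → d ≠ 3 → Even (N B d)) {d : ℕ} (hd : Odd d) (hd1 : d ≠ 1) :
    Even (NI L d) := by
  have k1 : Odd (NI L 1) := by
    have h := N_modEq_NI L h3 hL (d := 1) odd_one
    rw [if_neg (by norm_num)] at h
    rw [Nat.odd_iff] at h1 ⊢
    unfold Nat.ModEq at h
    omega
  induction d using Nat.strong_induction_on with
  | _ d ih =>
    have h := N_modEq_NI L h3 hL hd
    by_cases h2 : 3 ∣ d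
    · rw [if_pos h2] at h
      by_cases h4 : d = 3
      · subst h4
        rw [Nat.div_self (by norm_num)] at h
        rw [Nat.odd_iff] at hN3 k1
        rw [Nat.even_iff]
        unfold Nat.ModEq at h
        omega
      · obtain ⟨e, rfl⟩ := h2
        rw [Nat.mul_div_cancel_left e (by norm_num)] at h
        have he : Odd e := (Nat.odd_mul.1 hd).2
        have he0 := he.pos
        have k2 := ih e (by omega) he (by omega)
        have k3 := hN (3 * e) hd hd1 h4
        rw [Nat.even_iff] at k2 k3 ⊢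
        unfold Nat.ModEq at h
        omega
    · rw [if_neg h2] at h
      have k3 := hN d hd hd1 (by rintro rfl; exact h2 (dvd_refl 3))
      rw [Nat.even_iff] at k3 ⊢
      unfold Nat.ModEq at h
      omega

end Pool.Agent.CGS
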