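import Pool.Agent.CGS.Q3
import Pool.Agent.CGS.OddC
import Pool.Agent.CGS.NoIdx

/-!
# Groups with a normal 2-subgroup of index three modulo an odd normal subgroup: other degrees

PACKAGE (statements frozen; auxiliary lemmas private; the imported files are black boxes, some
of them still contain sorry).

As in the proof of `odd_N_three` (file `Q3N`): let `S, Q` be as in `Has23 X`. `Z = X ⧸ S`, `Q' =
Q.map (QuotientGroup.mk' S)` is a normal 2-subgroup of index three in `Z`. By `deg_of_index_three`
the type `Cls Z d` is empty for odd `d ≠ 1, 3`, so `N Z d = 0`, and `N X d ≡ N Z d` modulo 2 by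
`N_quotient_modEq`.
-/

set_option autoImplicit false

namespace Pool.Agent.CGS

open Matrix

theorem even_N_other {X : Type} [Group X] [Finite X] (h : Has23 X) {d : ℕ} (hd : Odd d)
    (h1 : d ≠ 1) (h3 : d ≠ 3) : Even (N X d) := by
  obtain ⟨S, Q, hS, hQ, hSQ, hSo, hQ3, k, hk⟩ := h
  have hsurj := QuotientGroup.mk'_surjective S
  have hQ'n : (Q.map (QuotientGroup.mk' S)).Normal := hQ.map _ hsurj
  have hQ'3 : (Q.map (QuotientGroup.mk' S)).index = 3 := by
    rw [← Subgroup.index_comap_of_surjective (Q.map (QuotientGroup.mk' S)) hsurj,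
      Subgroup.comap_map_eq, QuotientGroup.ker_mk', sup_eq_left.2 hSQ]
    exact hQ3
  have hcard : Nat.card (Q.map (QuotientGroup.mk' S)) = 2 ^ k := by
    have h1 : Nat.card (Q.map (QuotientGroup.mk' S)) * (Q.map (QuotientGroup.mk' S)).index =
        Nat.card (X ⧸ S) := Subgroup.card_mul_index _
    have h2 : S.relIndex Q * Q.index = S.index := Subgroup.relIndex_mul_index hSQ
    have h3 : Nat.card (X ⧸ S) = S.index := rfl
    rw [hQ'3, h3, ← h2, hk, hQ3] at h1
    exact Nat.eq_of_mul_eq_mul_right (by norm_num) h1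
  have hp : IsPGroup 2 (Q.map (QuotientGroup.mk' S)) := IsPGroup.of_card (n := k) hcard
  have hN0 : N (X ⧸ S) d = 0 := by
    have : IsEmpty (Cls (X ⧸ S) d) := ⟨fun c => cls_ind (q := fun _ => False) (fun ρ hρ => by
      rcases deg_of_index_three (Q.map (QuotientGroup.mk' S)) hp hQ'3 hd hρ with h4 | h4
      · exact h1 h4
      · exact h3 h4) c⟩
    exact Nat.card_of_isEmpty
  have h4 := N_quotient_modEq X (d := d) hd S hSo
  rw [hN0] at h4
  rw [Nat.even_iff]
  exact h4

end Pool.Agent.CGS
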