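import Pool.Agent.CGS.Main
import Pool.Agent.CGS.VH
import Pool.Agent.CGS.VNo

/-!
# The theorem for groups which are odd by three times a power of two

PACKAGE (statements frozen; auxiliary lemmas private; the imported files are black boxes, some
of them still contain sorry).

As `main_theorem` (file `Main`): take `A, f` and `B, g` from `residual_congr`. `f.range ≤ K` by
`range_le`, so `Nat.card A` divides `Nat.card K`, and `2 ^ (n + 1)` does not divide `Nat.card A =
Nat.card B`. If `Nat.card A` is odd then `S2 B` and `S2 H`. Otherwise `Has23 A` by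
`has23_of_case_A`, `N A 3` is odd (`odd_N_three`) and `N A d` is even for odd `d ≠ 1, 3`
(`even_N_other`); the same holds for `B` (congruence modulo 4). `exists_kernel` gives `M` of index
`12` or `24` in `B`, and `s2_of_kernel_five` gives `S2 B` (`7 ∤ Nat.card B` because `Nat.card B =
Nat.card A` divides `Nat.card G`). `S2 H` by `S2.of_derivedSeries_le`. In the third case of `hn5`
use `main_theorem` directly.
-/

set_option autoImplicit false

namespace Pool.Agent.CGS

open Matrix

theorem main_five {G H : Type} [Group G] [Group H] [Finite G] [Finite H]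
    (e : Nonempty (MonoidAlgebra ℂ G ≃ₐ[ℂ] MonoidAlgebra ℂ H)) (K : Subgroup G) [K.Normal]
    {a n : ℕ} (hK : K.index = 2 ^ a) (hn : ¬ 2 ^ (n + 1) ∣ Nat.card K)
    (hS : ∃ S : Subgroup G, S.Normal ∧ Odd (Nat.card S) ∧ ∃ b, S.index = 3 * 2 ^ b)
    (hn5 : n ≤ 4 ∨ (n = 5 ∧ ¬ 7 ∣ Nat.card G) ∨
      GoodH n (Nat.card G) (Nat.card (commutator G))) : S2 H := by
  by_cases hgood : GoodH n (Nat.card G) (Nat.card (commutator G))
  · exact main_theorem e K hK hn (Or.inr ⟨hS, hgood⟩)
  have hn5' : n ≤ 4 ∨ (n = 5 ∧ ¬ 7 ∣ Nat.card G) := by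
    rcases hn5 with h | h | h
    · exact Or.inl h
    · exact Or.inr h
    · exact absurd h hgood
  obtain ⟨A, iA, iAF, f, B, iB, iBF, g, hf, hg, hA, hB, hAB, hm, hcong⟩ := residual_congr e
  have hfK : f.range ≤ K := range_le f hA K hK
  have hcA : Nat.card f.range = Nat.card A :=
    (Nat.card_congr (MonoidHom.ofInjective hf).toEquiv).symm
  have hAK : Nat.card A ∣ Nat.card K := by
    rw [← hcA]
    exact Subgroup.card_dvd_of_le hfK
  have hAG : Nat.card A ∣ Nat.card G := hAK.trans (Subgroup.card_subgroup_dvd_card K)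
  have hnA : ¬ 2 ^ (n + 1) ∣ Nat.card A := fun hh => hn (hh.trans hAK)
  have hnB : ¬ 2 ^ (n + 1) ∣ Nat.card B := by rwa [← hAB]
  refine S2.of_derivedSeries_le g hm ?_
  by_cases hodd : 2 ∣ Nat.card A
  · obtain ⟨S, hSn, hSo, b, hSb⟩ := hS
    have h23 : Has23 A := has23_of_case_A f hf hA hodd S hSo hSb
    have h3 : Odd (N A 3) := odd_N_three h23 hA hodd
    have h4 : Odd (N B 3) := by
      have h5 : N A 3 ≡ N B 3 [MOD 2] := (hcong 3 (by decide)).of_dvd (by norm_num)
      rw [Nat.odd_iff] at h3 ⊢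
      exact (show N A 3 % 2 = N B 3 % 2 from h5).symm.trans h3
    have h5 : ∀ d, Odd d → d ≠ 1 → d ≠ 3 → Even (N B d) := by
      intro d hd hd1 hd3
      have h6 := even_N_other h23 hd hd1 hd3
      have h7 : N A d ≡ N B d [MOD 2] := (hcong d hd).of_dvd (by norm_num)
      rw [Nat.even_iff] at h6 ⊢
      exact (show N A d % 2 = N B d % 2 from h7).symm.trans h6
    obtain ⟨M, hM, hMi⟩ := exists_kernel hB h4
    refine s2_of_kernel_five hB hnB ?_ h4 h5 M hMi
    rcases hn5' with h | ⟨h, h7⟩
    · exact Or.inl h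
    · refine Or.inr ⟨h, fun hh => h7 ?_⟩
      rw [← hAB] at hh
      exact hh.trans hAG
  · refine ⟨0, ?_⟩
    rw [derivedSeries_zero, Subgroup.card_top, ← hAB]
    rwa [← Nat.not_even_iff_odd, even_iff_two_dvd]

end Pool.Agent.CGS
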