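import Pool.Agent.CGS.VOrth

/-!
# The norm of the 2-singular trace function

PACKAGE (statements frozen; auxiliary lemmas private; the imported files are black boxes, some
of them still contain sorry).

Let `C = Subgroup.centralizer {w}`; `Nat.card C = 4 * Nat.card O`. All sums over `AC R` are finite
(`finite_AC`).

* `aC_deg`: exchange the sums: `∑ c, aC w O c * c.1 = (1 / |O|) ∑ y ∈ O, ∑ c, chiA c (w * y) *
  c.1`, and `w * y ≠ 1`: otherwise `w = y⁻¹` has odd order (`y ∈ O`) and `w ^ 4 = 1`, so `w = 1`.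
  `regular_orth`.
* `aC_one`: for the trivial class (degree one, `chi = 1`) all terms are `1`. The trivial
  representation `(1 : Rep R 1)` is irreducible.
* `aC_norm`: `aC w⁻¹ O c = (1 / |O|) ∑ y' ∈ O, chiA c (w⁻¹ * y')`, and with `y' = y⁻¹` (`O` is a
  subgroup, `w` commutes with `y`) `w⁻¹ * y⁻¹ = (w * y)⁻¹`. So the sum is `(1 / |O| ^ 2) ∑ y, ∑
  y', ∑ c, chiA c (w y) * chiA c (w y')⁻¹ = (1 / |O| ^ 2) ∑ y, ∑ y' with w y ~ w y', |C(w y)|`.
  Claim: for fixed `y ∈ O` the number of `y' ∈ O` with `w y' ~ w y` times `|C(w y)|` is `|C|`.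
  Indeed, if `g (w y) g⁻¹ = w y'` then `g w g⁻¹ = w` and `g y g⁻¹ = y'`: the element `w y` has the
  2-part `w` and the odd part `y`: take `m` with `m` divisible by the order of `y` and `m ≡ 1`
  modulo 4 (the order of `y` is odd), then `(w y) ^ m = w` and `(w y') ^ m' = w`; use one `m`
  divisible by `Nat.card O` and `≡ 1` mod 4: `(w y) ^ m = w ^ m * y ^ m = w`. So `w y' ~ w y` iff
  `y' = g y g⁻¹` for some `g ∈ C`; `C` acts on `O` by conjugation (`O` is the set of elements of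
  odd order of `C`), the stabilizer of `y` is `C ∩ C(y) = C(w y)` (again by taking powers), and
  the orbit has `|C| / |C(w y)|` elements (orbit-stabilizer). So the total is `(1 / |O| ^ 2) * |O|
  * |C| = 4`.
-/

set_option autoImplicit false

namespace Pool.Agent.CGS

open Matrix

variable {R : Type} [Group R] [Finite R] {w : R} {O : Subgroup R}

omit [Finite R] in
private theorem wcomm (h : WData w O) (y : O) : Commute w (y : R) := ((h.mem_iff y).1 y.2).1

omit [Finite R] in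
private theorem wodd (h : WData w O) (y : O) : Odd (orderOf (y : R)) := ((h.mem_iff y).1 y.2).2

omit [Finite R] in
/-- the number of conjugating elements -/
private theorem card_conj (x z : R) : (Nat.card {g : R // g * x * g⁻¹ = z} : ℂ) =
    open Classical in if IsConj x z then (Nat.card (Subgroup.centralizer {x}) : ℂ) else 0 := by
  classical
  by_cases hc : IsConj x z
  · rw [if_pos hc]
    obtain ⟨g₀, rfl⟩ := isConj_iff.1 hc
    congr 1
    refine Nat.card_congr
      { toFun := fun g => ⟨g₀⁻¹ * g.1, ?_⟩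
        invFun := fun c => ⟨g₀ * c.1, ?_⟩
        left_inv := fun g => Subtype.ext (mul_inv_cancel_left g₀ g.1)
        right_inv := fun c => Subtype.ext (inv_mul_cancel_left g₀ c.1) }
    · rw [Subgroup.mem_centralizer_singleton_iff]
      have h1 := g.2
      calc g₀⁻¹ * g.1 * x = g₀⁻¹ * (g.1 * x * g.1⁻¹) * g.1 := by group
        _ = x * (g₀⁻¹ * g.1) := by rw [h1]; group
    · have h1 := (Subgroup.mem_centralizer_singleton_iff).1 c.2
      calc g₀ * c.1 * x * (g₀ * c.1)⁻¹ = g₀ * (c.1 * x) * c.1⁻¹ * g₀⁻¹ := by group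
        _ = g₀ * x * g₀⁻¹ := by rw [h1]; group
  · rw [if_neg hc]
    have : IsEmpty {g : R // g * x * g⁻¹ = z} := ⟨fun g => hc (isConj_iff.2 ⟨g.1, g.2⟩)⟩
    rw [Nat.card_of_isEmpty, Nat.cast_zero]

omit [Finite R] in
/-- an element which conjugates `w y` to `w y'` centralizes `w` -/
private theorem conj_w (h : WData w O) (y y' : O) {g : R}
    (hg : g * (w * (y : R)) * g⁻¹ = w * (y' : R)) : g * w = w * g := by
  obtain ⟨m, hm1, hm2, q, hq⟩ : ∃ m : ℕ, orderOf (y : R) ∣ m ∧ orderOf (y' : R) ∣ m ∧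
      ∃ q, m = 4 * q + 1 := by
    obtain ⟨a, ha⟩ := (wodd h y).mul (wodd h y')
    refine ⟨(orderOf (y : R) * orderOf (y' : R)) * (orderOf (y : R) * orderOf (y' : R)),
      ⟨orderOf (y' : R) * (orderOf (y : R) * orderOf (y' : R)), by ring⟩,
      ⟨orderOf (y : R) * (orderOf (y : R) * orderOf (y' : R)), by ring⟩, a * a + a, ?_⟩
    rw [ha]
    ring
  have hp : ∀ z : O, orderOf (z : R) ∣ m → (w * (z : R)) ^ m = w := by
    intro z hz
    rw [(wcomm h z).mul_pow, orderOf_dvd_iff_pow_eq_one.1 hz, mul_one, hq, pow_succ, pow_mul,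
      h.pow4, one_pow, one_mul]
  have h1 := congrArg (fun r => r ^ m) hg
  simp only [conj_pow] at h1
  rw [hp y hm1, hp y' hm2] at h1
  exact mul_inv_eq_iff_eq_mul.1 h1

omit [Finite R] in
private theorem conj_mem (h : WData w O) (y : O) {c : R}
    (hc : c ∈ Subgroup.centralizer ({w} : Set R)) : c * (y : R) * c⁻¹ ∈ O := by
  have h1 : Commute w c := ((Subgroup.mem_centralizer_singleton_iff).1 hc).symm
  refine (h.mem_iff _).2 ⟨(h1.mul_right (wcomm h y)).mul_right h1.inv_right, ?_⟩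
  have h2 := (MulAut.conj c).orderOf_eq (y : R)
  rw [MulAut.conj_apply] at h2
  rw [h2]
  exact wodd h y

private theorem count (h : WData w O) [Fintype O] (y : O) :
    ∑ y' : O, (Nat.card {g : R // g * (w * (y : R)) * g⁻¹ = w * (y' : R)} : ℂ) =
      (Nat.card (Subgroup.centralizer ({w} : Set R)) : ℂ) := by
  rw [← Nat.cast_sum, ← Nat.card_sigma]
  congr 1
  have ht : ∀ c : Subgroup.centralizer ({w} : Set R), c.1 * (w * (y : R)) * c.1⁻¹ =
      w * ((⟨c.1 * (y : R) * c.1⁻¹, conj_mem h y c.2⟩ : O) : R) := by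
    intro c
    have h1 := (Subgroup.mem_centralizer_singleton_iff).1 c.2
    calc c.1 * (w * (y : R)) * c.1⁻¹ = c.1 * w * (y : R) * c.1⁻¹ := by group
      _ = w * (c.1 * (y : R) * c.1⁻¹) := by rw [h1]; group
  have hi : ∀ p : (Σ y' : O, {g : R // g * (w * (y : R)) * g⁻¹ = w * (y' : R)}),
      p.2.1 ∈ Subgroup.centralizer ({w} : Set R) := by
    intro p
    rw [Subgroup.mem_centralizer_singleton_iff]
    exact conj_w h y p.1 p.2.2
  have hr : ∀ p : (Σ y' : O, {g : R // g * (w * (y : R)) * g⁻¹ = w * (y' : R)}),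
      p.2.1 * (y : R) * p.2.1⁻¹ = p.1 := by
    intro p
    have h1 := conj_w h y p.1 p.2.2
    have h3 : w * (p.2.1 * (y : R) * p.2.1⁻¹) = w * p.1 := by
      calc w * (p.2.1 * (y : R) * p.2.1⁻¹) = w * p.2.1 * (y : R) * p.2.1⁻¹ := by group
        _ = p.2.1 * (w * (y : R)) * p.2.1⁻¹ := by rw [← h1]; group
        _ = w * p.1 := p.2.2
    exact mul_left_cancel h3
  refine (Nat.card_congr
    { toFun := fun c => (⟨⟨c.1 * (y : R) * c.1⁻¹, conj_mem h y c.2⟩, ⟨c.1, ht c⟩⟩ :
        (Σ y' : O, {g : R // g * (w * (y : R)) * g⁻¹ = w * (y' : R)}))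
      invFun := fun p => ⟨p.2.1, hi p⟩
      left_inv := fun c => rfl
      right_inv := fun p => ?_ }).symm
  obtain ⟨⟨y', hy'⟩, ⟨g, hg⟩⟩ := p
  have h2 : g * (y : R) * g⁻¹ = y' := hr ⟨⟨y', hy'⟩, ⟨g, hg⟩⟩
  subst h2
  rfl

theorem aC_norm (h : WData w O) : ∑ᶠ c : AC R, aC w O c * aC w⁻¹ O c = 4 := by
  classical
  have hf := finite_AC R
  have : Fintype (AC R) := Fintype.ofFinite _
  have : Fintype O := Fintype.ofFinite _
  have hn : (Nat.card O : ℂ) ≠ 0 := by exact_mod_cast Nat.card_pos.ne'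
  have e0 : ∀ c : AC R, aC w O c = (Nat.card O : ℂ)⁻¹ * ∑ y : O, chiA c (w * (y : R)) := by
    intro c
    unfold aC
    rw [finsum_eq_sum_of_fintype]
  have e1 : ∀ c : AC R, aC w⁻¹ O c =
      (Nat.card O : ℂ)⁻¹ * ∑ y : O, chiA c (w * (y : R))⁻¹ := by
    intro c
    unfold aC
    rw [finsum_eq_sum_of_fintype]
    congr 1
    refine Fintype.sum_equiv (Equiv.inv O) _ _ fun y => ?_
    congr 1
    rw [Equiv.inv_apply, Subgroup.coe_inv, _root_.mul_inv_rev, inv_inv]
    exact (wcomm h y).inv_left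
  have e2 : ∀ y y' : O, ∑ c : AC R, chiA c (w * (y : R)) * chiA c (w * (y' : R))⁻¹ =
      (Nat.card {g : R // g * (w * (y : R)) * g⁻¹ = w * (y' : R)} : ℂ) := by
    intro y y'
    rw [card_conj, ← second_orth R (w * (y : R)) (w * (y' : R)), finsum_eq_sum_of_fintype]
  rw [finsum_eq_sum_of_fintype]
  calc ∑ c : AC R, aC w O c * aC w⁻¹ O c
      = ∑ c : AC R, ((Nat.card O : ℂ)⁻¹ * (Nat.card O : ℂ)⁻¹) * ∑ y : O, ∑ y' : O,
        chiA c (w * (y : R)) * chiA c (w * (y' : R))⁻¹ := by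
        refine Finset.sum_congr rfl fun c _ => ?_
        rw [e0, e1, ← Finset.sum_mul_sum]
        ring
    _ = ((Nat.card O : ℂ)⁻¹ * (Nat.card O : ℂ)⁻¹) * ∑ y : O, ∑ y' : O, ∑ c : AC R,
        chiA c (w * (y : R)) * chiA c (w * (y' : R))⁻¹ := by
        rw [← Finset.mul_sum, Finset.sum_comm]
        congr 1
        refine Finset.sum_congr rfl fun y _ => ?_
        rw [Finset.sum_comm]
    _ = ((Nat.card O : ℂ)⁻¹ * (Nat.card O : ℂ)⁻¹) * ∑ _y : O,
        (Nat.card (Subgroup.centralizer ({w} : Set R)) : ℂ) := by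
        congr 1
        refine Finset.sum_congr rfl fun y _ => ?_
        rw [Finset.sum_congr rfl fun y' _ => e2 y y', count h y]
    _ = 4 := by
        rw [Finset.sum_const, Finset.card_univ, ← Nat.card_eq_fintype_card, nsmul_eq_mul,
          h.card_centralizer]
        push_cast
        field_simp

theorem aC_deg (h : WData w O) : ∑ᶠ c : AC R, aC w O c * (c.1 : ℂ) = 0 := by
  have hf := finite_AC R
  have : Fintype (AC R) := Fintype.ofFinite _
  have : Fintype O := Fintype.ofFinite _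
  have hne : ∀ y : O, w * (y : R) ≠ 1 := by
    intro y hy
    have h1 : (y : R) = w⁻¹ := eq_inv_of_mul_eq_one_right hy
    have h2 := wodd h y
    rw [h1, orderOf_inv] at h2
    have h3 : orderOf w ∣ 4 := orderOf_dvd_of_pow_eq_one h.pow4
    have h4 : (orderOf w).Coprime 4 := by
      have : (4 : ℕ) = 2 ^ 2 := rfl
      rw [this]
      exact (Nat.coprime_two_right.2 h2).pow_right 2
    exact h.ne_one (orderOf_eq_one_iff.1 (Nat.Coprime.eq_one_of_dvd h4 h3))
  rw [finsum_eq_sum_of_fintype]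
  calc ∑ c : AC R, aC w O c * (c.1 : ℂ)
      = ∑ c : AC R, (Nat.card O : ℂ)⁻¹ * ∑ y : O, chiA c (w * (y : R)) * (c.1 : ℂ) := by
        refine Finset.sum_congr rfl fun c _ => ?_
        unfold aC
        rw [finsum_eq_sum_of_fintype, mul_assoc, Finset.sum_mul]
    _ = (Nat.card O : ℂ)⁻¹ * ∑ y : O, ∑ c : AC R, chiA c (w * (y : R)) * (c.1 : ℂ) := by
        rw [← Finset.mul_sum, Finset.sum_comm]
    _ = 0 := by
        rw [Finset.sum_eq_zero fun y _ => ?_, mul_zero]
        rw [← finsum_eq_sum_of_fintype]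
        exact regular_orth R _ (hne y)

theorem aC_one (w : R) (O : Subgroup R) (h1 : IsIrr (1 : Rep R 1)) :
    aC w O ⟨1, mk 1 h1⟩ = 1 := by
  have : Fintype O := Fintype.ofFinite _
  have hn : (Nat.card O : ℂ) ≠ 0 := by exact_mod_cast Nat.card_pos.ne'
  have h2 : ∀ g : R, chiA (⟨1, mk 1 h1⟩ : AC R) g = 1 := by
    intro g
    change (mat (1 : Rep R 1) g).trace = 1
    have h3 : mat (1 : Rep R 1) g = 1 := rfl
    rw [h3, Matrix.trace_one, Fintype.card_fin, Nat.cast_one]
  unfold aC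
  rw [finsum_eq_sum_of_fintype, Finset.sum_congr rfl fun y _ => h2 _, Finset.sum_const,
    Finset.card_univ, ← Nat.card_eq_fintype_card, nsmul_eq_mul, mul_one]
  exact inv_mul_cancel₀ hn

end Pool.Agent.CGS
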