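import Pool.Agent.CGS.BaseV
import Pool.Agent.CGS.Deg

/-!
# Finiteness of all classes and the second orthogonality relation

PACKAGE (statements frozen; auxiliary lemmas private; the imported files are black boxes, some
of them still contain sorry).

* `finite_AC`: `Cls G d` is empty for `d > Nat.card G` (`N_eq_zero`, `finite_cls`; `Nat.card = 0`
  and finite) and finite for all `d`, so the sigma type is finite (injection into `Σ d : Fin
  (Nat.card G + 1), Cls G d`).
* `second_orth`: take `n, δ, φ` from `exists_degrees` and for each `i` an irreducible `ρ i : Rep G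
  (δ i)` with `lift (ρ i) = (evaluation at i) ∘ φ` (`exists_rep_of_surjective` from file `Alg1`).
  The map `i ↦ (⟨δ i, mk (ρ i) _⟩ : AC G)` is a bijection of `Fin n` onto `AC G`: injective, since
  similar `ρ i`, `ρ j` with `i ≠ j` would give `P * 1 = 0 * P` at `φ.symm (Pi.single i 1)`; the
  number of classes of degree `d` is the number of `i` with `δ i = d`, so it is surjective (an
  injective map between finite sets of the same size, for each `d`). So the left hand side is `∑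
  i, (mat (ρ i) x).trace * (mat (ρ i) y⁻¹).trace`. Consider the linear map `F v = of x * v * of
  y⁻¹` of `ℂ[G]`. In the basis of group elements it permutes them: `g ↦ x g y⁻¹`; its trace is the
  number of `g` with `x g = g y`, which is `Nat.card (centralizer {x})` if `x` and `y` are
  conjugate and `0` otherwise (if `x g₀ = g₀ y` the solutions are `c g₀`, `c` in the centralizer
  of `x`). Transported by `φ` it is `(M i) ↦ (ρ i (x) M i ρ i (y⁻¹))`, and the trace of `M ↦ A M
  C` on `M_δ(ℂ)` is `A.trace * C.trace` (basis of matrix units `Matrix.stdBasis`: the diagonal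
  entry at `(a, b)` is `A a a * C b b`; or `Matrix.trace_kronecker`). The trace of a direct sum of
  maps is the sum (`LinearMap.trace_pi`-type, or compute in the product basis `Pi.basis`).
* `regular_orth`: the case `y = 1` with `chiA c 1 = c.1` (`Matrix.trace_one`): for `x ≠ 1` the sum
  is zero.
-/

set_option autoImplicit false

namespace Pool.Agent.CGS

open Matrix

variable (G : Type) [Group G] [Finite G]

omit [Finite G] in
private theorem vo_cls_zero : IsEmpty (Cls G 0) :=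
  ⟨fun c => cls_ind (q := fun _ => False) (fun _ h => absurd h.pos (lt_irrefl 0)) c⟩

omit [Finite G] in
private theorem vo_equiv {n : ℕ} {δ : Fin n → ℕ} (hδ : ∀ i, 0 < δ i)
    (h : ∀ d, 0 < d → Nonempty (Cls G d ≃ {i : Fin n // δ i = d})) :
    Nonempty (AC G ≃ Fin n) := by
  have h' : ∀ d, Nonempty (Cls G d ≃ {i : Fin n // δ i = d}) := by
    intro d
    rcases Nat.eq_zero_or_pos d with rfl | hd
    · have := vo_cls_zero G
      have : IsEmpty {i : Fin n // δ i = 0} := ⟨fun i => (hδ i.1).ne' i.2⟩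
      exact ⟨Equiv.equivOfIsEmpty _ _⟩
    · exact h d hd
  exact ⟨(Equiv.sigmaCongrRight fun d => (h' d).some).trans (Equiv.sigmaFiberEquiv δ)⟩

theorem finite_AC : Finite (AC G) := by
  obtain ⟨n, δ, hδ, -, -, -, hc⟩ := exists_degrees G
  obtain ⟨e⟩ := vo_equiv G hδ hc
  exact Finite.of_equiv _ e.symm

private theorem vo_setup : ∃ (n : ℕ) (δ : Fin n → ℕ)
    (φ : MonoidAlgebra ℂ G ≃ₐ[ℂ] (∀ i, Matrix (Fin (δ i)) (Fin (δ i)) ℂ))
    (ρ : ∀ i, Rep G (δ i)) (hρ : ∀ i, IsIrr (ρ i)), (∀ i a, lift (ρ i) a = φ a i) ∧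
      Function.Bijective (fun i => (⟨δ i, mk (ρ i) (hρ i)⟩ : AC G)) := by
  classical
  obtain ⟨n, δ, hδ, -, -, ⟨φ⟩, hc⟩ := exists_degrees G
  have hsurj : ∀ i, ∃ ρ : Rep G (δ i), IsIrr ρ ∧ lift ρ =
      (Pi.evalAlgHom ℂ (fun i => Matrix (Fin (δ i)) (Fin (δ i)) ℂ) i).comp
        (φ : MonoidAlgebra ℂ G →ₐ[ℂ] (∀ i, Matrix (Fin (δ i)) (Fin (δ i)) ℂ)) := by
    intro i
    refine exists_rep_of_surjective (hδ i) _ fun m => ⟨φ.symm (Pi.single i m), ?_⟩
    simp
  choose ρ hρ hl using hsurj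
  have hl' : ∀ i a, lift (ρ i) a = φ a i := fun i a => by
    rw [hl i]
    rfl
  obtain ⟨e⟩ := vo_equiv G hδ hc
  refine ⟨n, δ, φ, ρ, hρ, hl', ?_⟩
  have hinj : Function.Injective (fun i => (⟨δ i, mk (ρ i) (hρ i)⟩ : AC G)) := by
    intro i j hij
    by_contra hne
    let Q : AC G → Prop := fun c => Has (fun σ => lift σ (φ.symm (Pi.single i 1)) ≠ 0) c.2
    have hsim : ∀ (d : ℕ) (σ τ : Rep G d), Sim σ τ → lift σ (φ.symm (Pi.single i 1)) ≠ 0 →
        lift τ (φ.symm (Pi.single i 1)) ≠ 0 := by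
      intro d σ τ h h1 h2
      apply h1
      obtain ⟨P, hP⟩ := h
      have key : ∀ a : MonoidAlgebra ℂ G, (P : Matrix (Fin d) (Fin d) ℂ) * lift σ a =
          lift τ a * (P : Matrix (Fin d) (Fin d) ℂ) := by
        intro a
        induction a using MonoidAlgebra.induction_linear with
        | zero => rw [map_zero, map_zero, mul_zero, zero_mul]
        | add x y hx hy => rw [map_add, map_add, mul_add, add_mul, hx, hy]
        | single x c =>
          rw [lift_single, lift_single, mul_smul_comm, smul_mul_assoc, hP x]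
      have h3 := key (φ.symm (Pi.single i 1))
      rw [h2, zero_mul] at h3
      have h4 : (P⁻¹ : GL (Fin d) ℂ).val * (P.val * lift σ (φ.symm (Pi.single i 1))) = 0 := by
        rw [h3, mul_zero]
      rwa [← mul_assoc, ← Units.val_mul, inv_mul_cancel, Units.val_one, one_mul] at h4
    have hi : Q ⟨δ i, mk (ρ i) (hρ i)⟩ := by
      refine (has_mk (fun σ τ => hsim _ σ τ)).2 ?_
      rw [hl', AlgEquiv.apply_symm_apply, Pi.single_eq_same]
      intro h0
      have h1 := congrFun (congrFun h0 ⟨0, hδ i⟩) ⟨0, hδ i⟩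
      rw [Matrix.one_apply_eq, Matrix.zero_apply] at h1
      exact one_ne_zero h1
    have hij' : (⟨δ i, mk (ρ i) (hρ i)⟩ : AC G) = ⟨δ j, mk (ρ j) (hρ j)⟩ := hij
    rw [hij'] at hi
    have hj := (has_mk (fun σ τ => hsim _ σ τ)).1 hi
    rw [hl', AlgEquiv.apply_symm_apply, Pi.single_eq_of_ne (Ne.symm hne)] at hj
    exact hj rfl
  have hb : Function.Bijective (e ∘ fun i => (⟨δ i, mk (ρ i) (hρ i)⟩ : AC G)) :=
    Finite.injective_iff_bijective.1 (e.injective.comp hinj)
  have h2 : (fun i => (⟨δ i, mk (ρ i) (hρ i)⟩ : AC G)) =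
      e.symm ∘ (e ∘ fun i => (⟨δ i, mk (ρ i) (hρ i)⟩ : AC G)) := by
    funext i
    simp
  rw [h2]
  exact e.symm.bijective.comp hb

omit [Finite G] in
private theorem vo_single_mul {d : ℕ} (A C : Matrix (Fin d) (Fin d) ℂ) (a b : Fin d) :
    (A * (Matrix.single a b (1 : ℂ) * C)) a b = A a a * C b b := by
  rw [Matrix.mul_apply, Finset.sum_eq_single a]
  · rw [Matrix.single_mul_apply_same, one_mul]
  · intro k _ hk
    rw [Matrix.single_mul_apply_of_ne _ _ _ _ _ hk, mul_zero]
  · intro h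
    exact absurd (Finset.mem_univ a) h

private theorem vo_trace_pi {n : ℕ} (δ : Fin n → ℕ)
    (A C : ∀ i, Matrix (Fin (δ i)) (Fin (δ i)) ℂ) :
    LinearMap.trace ℂ (∀ i, Matrix (Fin (δ i)) (Fin (δ i)) ℂ)
      ((LinearMap.mulLeft ℂ A).comp (LinearMap.mulRight ℂ C)) =
      ∑ i, (A i).trace * (C i).trace := by
  classical
  rw [LinearMap.trace_eq_matrix_trace ℂ
    (Pi.basis fun i => Matrix.stdBasis ℂ (Fin (δ i)) (Fin (δ i)))]
  rw [Matrix.trace, Fintype.sum_sigma]
  refine Finset.sum_congr rfl fun i _ => ?_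
  rw [Fintype.sum_prod_type, Matrix.trace, Matrix.trace, Finset.sum_mul_sum]
  refine Finset.sum_congr rfl fun a _ => Finset.sum_congr rfl fun b _ => ?_
  rw [Matrix.diag_apply, LinearMap.toMatrix_apply, Pi.basis_repr, Pi.basis_apply,
    Matrix.stdBasis_eq_single]
  have h1 : ((LinearMap.mulLeft ℂ A).comp (LinearMap.mulRight ℂ C))
      (Pi.single i (Matrix.single a b (1 : ℂ))) i = A i * (Matrix.single a b (1 : ℂ) * C i) := by
    simp
  rw [h1]
  exact vo_single_mul (A i) (C i) a b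

private theorem vo_trace_grp (x y : G) : LinearMap.trace ℂ (MonoidAlgebra ℂ G)
    ((LinearMap.mulLeft ℂ (MonoidAlgebra.of ℂ G x)).comp
      (LinearMap.mulRight ℂ (MonoidAlgebra.of ℂ G y⁻¹))) =
      (Nat.card {g : G // x * (g * y⁻¹) = g} : ℂ) := by
  classical
  have := Fintype.ofFinite G
  rw [LinearMap.trace_eq_matrix_trace ℂ (MonoidAlgebra.basis G ℂ), Matrix.trace]
  rw [Nat.card_eq_fintype_card, Fintype.card_subtype, ← Finset.sum_boole]
  refine Finset.sum_congr rfl fun g _ => ?_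
  rw [Matrix.diag_apply, LinearMap.toMatrix_apply, MonoidAlgebra.basis_apply]
  have h1 : ((LinearMap.mulLeft ℂ (MonoidAlgebra.of ℂ G x)).comp
      (LinearMap.mulRight ℂ (MonoidAlgebra.of ℂ G y⁻¹))) (MonoidAlgebra.single g 1) =
      MonoidAlgebra.single (x * (g * y⁻¹)) 1 := by
    simp [MonoidAlgebra.single_mul_single]
  rw [h1]
  change (MonoidAlgebra.single (x * (g * y⁻¹)) (1 : ℂ)).coeff g = _
  rw [MonoidAlgebra.coeff_single, Finsupp.single_apply]

omit [Finite G] in
private theorem vo_count (x y : G) : (Nat.card {g : G // x * (g * y⁻¹) = g} : ℂ) =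
      open Classical in if IsConj x y then (Nat.card (Subgroup.centralizer {x}) : ℂ) else 0 := by
  classical
  split_ifs with h
  · obtain ⟨c, rfl⟩ := isConj_iff.1 h
    congr 1
    refine Nat.card_congr
      { toFun := fun g => ⟨g.1 * c, ?_⟩
        invFun := fun z => ⟨z.1 * c⁻¹, ?_⟩
        left_inv := fun g => ?_
        right_inv := fun z => ?_ }
    · rw [Subgroup.mem_centralizer_singleton_iff]
      have h1 := g.2
      have h2 : x * (g.1 * c) * x⁻¹ = g.1 * c := by
        calc x * (g.1 * c) * x⁻¹ = x * (g.1 * (c * x * c⁻¹)⁻¹) * c := by group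
          _ = g.1 * c := by rw [h1]
      rw [mul_inv_eq_iff_eq_mul] at h2
      exact h2.symm
    · have h1 := Subgroup.mem_centralizer_singleton_iff.1 z.2
      have h2 : x * z.1 = z.1 * x := by first | exact h1 | exact h1.symm
      calc x * (z.1 * c⁻¹ * (c * x * c⁻¹)⁻¹) = (x * z.1) * x⁻¹ * c⁻¹ := by group
        _ = z.1 * c⁻¹ := by rw [h2]; group
    · apply Subtype.ext
      simp
    · apply Subtype.ext
      simp
  · have : IsEmpty {g : G // x * (g * y⁻¹) = g} := by
      refine ⟨fun g => h (isConj_iff.2 ⟨g.1⁻¹, ?_⟩)⟩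
      have h1 := g.2
      have h2 : x * g.1 = g.1 * y := by
        rw [← mul_assoc, mul_inv_eq_iff_eq_mul] at h1
        exact h1
      rw [inv_inv, mul_assoc, h2, inv_mul_cancel_left]
    rw [Nat.card_of_isEmpty, Nat.cast_zero]

theorem second_orth (x y : G) :
    ∑ᶠ c : AC G, chiA c x * chiA c y⁻¹ =
      open Classical in if IsConj x y then (Nat.card (Subgroup.centralizer {x}) : ℂ) else 0 := by
  classical
  obtain ⟨n, δ, φ, ρ, hρ, hl, hbij⟩ := vo_setup G
  rw [← vo_count, ← vo_trace_grp, ← LinearMap.trace_conj' _ φ.toLinearEquiv]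
  have h1 : φ.toLinearEquiv.conj ((LinearMap.mulLeft ℂ (MonoidAlgebra.of ℂ G x)).comp
      (LinearMap.mulRight ℂ (MonoidAlgebra.of ℂ G y⁻¹))) =
      (LinearMap.mulLeft ℂ (φ (MonoidAlgebra.of ℂ G x))).comp
        (LinearMap.mulRight ℂ (φ (MonoidAlgebra.of ℂ G y⁻¹))) := by
    apply LinearMap.ext
    intro v
    change φ (MonoidAlgebra.of ℂ G x * (φ.symm v * MonoidAlgebra.of ℂ G y⁻¹)) =
      φ (MonoidAlgebra.of ℂ G x) * (v * φ (MonoidAlgebra.of ℂ G y⁻¹))
    rw [map_mul, map_mul, AlgEquiv.apply_symm_apply]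
  have e1 : ∑ᶠ c : AC G, chiA c x * chiA c y⁻¹ =
      ∑ᶠ i : Fin n, chiA (⟨δ i, mk (ρ i) (hρ i)⟩ : AC G) x *
        chiA (⟨δ i, mk (ρ i) (hρ i)⟩ : AC G) y⁻¹ :=
    (finsum_eq_of_bijective _ hbij (fun i => rfl)).symm
  rw [h1, vo_trace_pi, e1, finsum_eq_sum_of_fintype]
  refine Finset.sum_congr rfl fun i _ => ?_
  change chi (mk (ρ i) (hρ i)) x * chi (mk (ρ i) (hρ i)) y⁻¹ = _
  rw [chi_mk, chi_mk, ← lift_of, ← lift_of, hl, hl]

theorem regular_orth (x : G) (hx : x ≠ 1) : ∑ᶠ c : AC G, chiA c x * (c.1 : ℂ) = 0 := by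
  have h := second_orth G x 1
  have h1 : ¬ IsConj x 1 := fun h0 => hx (isConj_one_left.1 h0)
  rw [if_neg h1] at h
  rw [← h]
  congr 1
  funext c
  obtain ⟨d, c⟩ := c
  have h2 : chiA (⟨d, c⟩ : AC G) (1 : G)⁻¹ = (d : ℂ) := by
    refine cls_ind (q := fun c => chiA (⟨d, c⟩ : AC G) (1 : G)⁻¹ = (d : ℂ)) (fun ρ hρ => ?_) c
    change chi (mk ρ hρ) (1 : G)⁻¹ = (d : ℂ)
    rw [chi_mk, inv_one, mat_one, Matrix.trace_one, Fintype.card_fin]
  rw [h2]

end Pool.Agent.CGS
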