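import Pool.Agent.CGS.VDet
import Pool.Agent.CGS.VExt
import Pool.Agent.CGS.I2abs
import Pool.Agent.CGS.NoIdx

/-!
# Odd degree classes of a 2-extension and invariant classes

PACKAGE (statements frozen; auxiliary lemmas private; the imported files are black boxes, some
of them still contain sorry).

`R` is normal in `B`, without subgroups of index two; `Y` is a subgroup of `B` with `R ≤ Y` and
`R.relIndex Y = 2 ^ k`. Induction on `k` for the first three statements (for all such `Y`). If `k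
= 0` then `R = Y` (`Subgroup.relIndex_eq_one`), and the restriction `resLE` is along an
isomorphism: all claims are clear, except that in `ext_of_inv` we need `OddDet τ` for `τ : Rep R
d`: this holds because `R` has no subgroup of index two (`oddDet_of_noIdx2`). If `k > 0`: the
quotient of `Y` by `R` (normal) is a nontrivial 2-group, so it has a subgroup of index two
(`exists_index_two_of_isPGroup`), and there is a subgroup `Y'` of `B` with `R ≤ Y' ≤ Y`,
`Y'.relIndex Y = 2`, `R.relIndex Y' = 2 ^ (k - 1)` (preimage, then `Subgroup.map Y.subtype`;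
`Subgroup.relIndex_mul_relIndex`). Put `f = Subgroup.inclusion : Y' →* Y`, injective with range of
index two (`Subgroup.relIndex`, `Subgroup.inclusion_range`); `resLE (R ≤ Y) ρ = resLE (R ≤ Y')
(pull f ρ)` (definitionally or by `rep_ext`).

* `oddDet_of_noIdx2`: the image of `g ↦ det τ(g)` is a finite subgroup of `ℂˣ`; if its order `m`
  is even then (it is a finite cyclic or commutative group with an element of order two) it has a
  subgroup of index two (`NoIdx2.odd_index_commutator` and `NoIdx2.of_surjective` applied to the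
  range: a commutative group, its commutator subgroup is trivial, so its order is odd); so `m` is
  odd and `det τ(g) ^ m = 1`.
* `irr_resLE`: `pull f ρ` is irreducible by `irr_res_of_odd` (file `I2abs`, for `toRepr ρ` and the
  range of `f`, with `isIrr_iff`); then induction.
* `sim_of_sim_resLE`: `pull f ρ`, `pull f σ` are irreducible with odd determinant (`OddDet.pull`),
  and their restrictions to `R` are similar, so `pull f ρ ~ pull f σ` by induction and `ρ ~ σ` by
  `sim_of_sim_pull`.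
* `ext_of_inv`: `τ` is `Y'`-invariant; by induction there is `ρ' : Rep Y' d` irreducible with odd
  determinant and `resLE ρ' ~ τ`. Let `s ∈ Y`, `s ∉ Y'`; `Y'` is normal in `Y` (index two); let `φ
  : Y' ≃* Y'` be `y ↦ s y s⁻¹`. `pull φ ρ'` is irreducible with odd determinant, and its
  restriction to `R` is the conjugate by `s` of `resLE ρ'`, similar to `cj R s τ ~ τ` (similar
  representations have similar conjugates), so `pull φ ρ' ~ ρ'` by `sim_of_sim_resLE` for `Y'`. By
  `exists_ext_two` `ρ'` extends to `ρ : Rep Y d` with odd determinant; it is irreducible because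
  its restriction is (the matrices of `pull f ρ` are among those of `ρ`).
-/

set_option autoImplicit false

namespace Pool.Agent.CGS

open Matrix

variable {B : Type} [Group B] [Finite B]

private theorem exists_step (R Y : Subgroup B) [R.Normal] (hRY : R ≤ Y) {k : ℕ}
    (hk : R.relIndex Y = 2 ^ (k + 1)) :
    ∃ Y' : Subgroup B, R ≤ Y' ∧ Y' ≤ Y ∧ Y'.relIndex Y = 2 ∧ R.relIndex Y' = 2 ^ k := by
  have hc : Nat.card (Y ⧸ R.subgroupOf Y) = 2 ^ (k + 1) := hk
  have hp : IsPGroup 2 (Y ⧸ R.subgroupOf Y) := IsPGroup.of_card (n := k + 1) hc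
  have : Nontrivial (Y ⧸ R.subgroupOf Y) := by
    rw [← Finite.one_lt_card_iff_nontrivial, hc]
    exact Nat.one_lt_two_pow (Nat.succ_ne_zero k)
  obtain ⟨Z, hZ⟩ := exists_index_two_of_isPGroup hp
  obtain ⟨W, hW⟩ : ∃ W : Subgroup Y, W = Z.comap (QuotientGroup.mk' (R.subgroupOf Y)) :=
    ⟨_, rfl⟩
  have hWi : W.index = 2 := by
    rw [hW, Subgroup.index_comap_of_surjective Z (QuotientGroup.mk'_surjective _)]
    exact hZ
  have hRW : ∀ r : Y, (r : B) ∈ R → r ∈ W := by
    intro r hr
    rw [hW, Subgroup.mem_comap]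
    have h1 : (QuotientGroup.mk' (R.subgroupOf Y)) r = 1 :=
      (QuotientGroup.eq_one_iff r).2 hr
    rw [h1]
    exact Z.one_mem
  refine ⟨W.map Y.subtype, fun r hr => ⟨⟨r, hRY hr⟩, hRW _ hr, rfl⟩, ?_, ?_, ?_⟩
  · rintro _ ⟨y, -, rfl⟩
    exact y.2
  · have h2 : (W.map Y.subtype).subgroupOf Y = W :=
      Subgroup.comap_map_eq_self_of_injective Y.subtype_injective W
    change ((W.map Y.subtype).subgroupOf Y).index = 2
    rw [h2, hWi]
  · have h2 : (W.map Y.subtype).subgroupOf Y = W :=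
      Subgroup.comap_map_eq_self_of_injective Y.subtype_injective W
    have h3 : (W.map Y.subtype).relIndex Y = 2 := by
      change ((W.map Y.subtype).subgroupOf Y).index = 2
      rw [h2, hWi]
    have h4 := Subgroup.relIndex_mul_relIndex R (W.map Y.subtype) Y
      (fun r hr => ⟨⟨r, hRY hr⟩, hRW _ hr, rfl⟩)
      (by
        rintro _ ⟨y, -, rfl⟩
        exact y.2)
    rw [h3, hk, pow_succ] at h4
    exact Nat.eq_of_mul_eq_mul_right (by norm_num) h4

private theorem range_inclusion_index {Y' Y : Subgroup B} (h : Y' ≤ Y)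
    (hi : Y'.relIndex Y = 2) : (Subgroup.inclusion h).range.index = 2 := by
  rw [Subgroup.inclusion_range]
  exact hi

private theorem irr_pull_two {G Y : Type} [Group G] [Group Y] (f : Y →* G)
    (hf : f.range.index = 2) {d : ℕ} (hd : Odd d) {ρ : Rep G d} (hρ : IsIrr ρ) :
    IsIrr (pull f ρ) := by
  rw [isIrr_iff] at hρ ⊢
  refine ⟨hρ.1, fun W hW => ?_⟩
  refine irr_res_of_odd (toRepr ρ) f.range hf ?_ (fun U hU => hρ.2 U hU) W ?_
  · rw [Module.finrank_fin_fun]
    exact hd
  · rintro _ ⟨y, rfl⟩ w hw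
    exact hW y w hw

theorem oddDet_of_noIdx2 {R : Type} [Group R] [Finite R] (hR : NoIdx2 R) {d : ℕ} (τ : Rep R d) :
    OddDet τ := by
  refine ⟨(commutator R).index, hR.odd_index_commutator, fun g => ?_⟩
  obtain ⟨δ, hδ⟩ : ∃ δ : R →* ℂˣ, δ = Matrix.GeneralLinearGroup.det.comp τ := ⟨_, rfl⟩
  have h1 : ∀ x : R, ((δ x : ℂˣ) : ℂ) = (mat τ x).det := fun x => by rw [hδ]; rfl
  have h2 : g ^ (commutator R).index ∈ commutator R := Subgroup.pow_index_mem _ g
  have h3 : δ (g ^ (commutator R).index) = 1 := Abelianization.commutator_subset_ker δ h2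
  rw [← h1, ← Units.val_pow_eq_pow_val, ← map_pow, h3, Units.val_one]

theorem irr_resLE (R Y : Subgroup B) [R.Normal] (hRY : R ≤ Y) {k : ℕ}
    (hk : R.relIndex Y = 2 ^ k) {d : ℕ} (hd : Odd d) {ρ : Rep Y d} (hρ : IsIrr ρ) :
    IsIrr (resLE hRY ρ) := by
  induction k generalizing Y with
  | zero =>
    have h1 : Y ≤ R := Subgroup.relIndex_eq_one.1 hk
    obtain rfl : R = Y := le_antisymm hRY h1
    exact (isIrr_pull (f := Subgroup.inclusion hRY) fun y => ⟨y, rfl⟩).2 hρ
  | succ k ih =>
    obtain ⟨Y', h1, h2, h3, h4⟩ := exists_step R Y hRY hk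
    exact ih Y' h1 h4 (irr_pull_two (Subgroup.inclusion h2) (range_inclusion_index h2 h3) hd hρ)

theorem sim_of_sim_resLE (R Y : Subgroup B) [R.Normal] (hRY : R ≤ Y) {k : ℕ}
    (hk : R.relIndex Y = 2 ^ k) {d : ℕ} (hd : Odd d) {ρ σ : Rep Y d} (hρ : IsIrr ρ)
    (hσ : IsIrr σ) (h1 : OddDet ρ) (h2 : OddDet σ) (h : Sim (resLE hRY ρ) (resLE hRY σ)) :
    Sim ρ σ := by
  induction k generalizing Y with
  | zero =>
    have h3 : Y ≤ R := Subgroup.relIndex_eq_one.1 hk
    obtain rfl : R = Y := le_antisymm hRY h3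
    obtain ⟨P, hP⟩ := h
    exact ⟨P, fun g => hP g⟩
  | succ k ih =>
    obtain ⟨Y', k1, k2, k3, k4⟩ := exists_step R Y hRY hk
    have hi := irr_pull_two (Subgroup.inclusion k2) (range_inclusion_index k2 k3) hd hρ
    have hi' := irr_pull_two (Subgroup.inclusion k2) (range_inclusion_index k2 k3) hd hσ
    have hs := ih Y' k1 k4 hi hi' (h1.pull _) (h2.pull _) h
    exact sim_of_sim_pull (Subgroup.inclusion k2) (range_inclusion_index k2 k3) hd hi h1 h2 hs

theorem ext_of_inv (R Y : Subgroup B) [R.Normal] (hR : NoIdx2 R) (hRY : R ≤ Y) {k : ℕ}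
    (hk : R.relIndex Y = 2 ^ k) {d : ℕ} (hd : Odd d) {τ : Rep R d} (hτ : IsIrr τ)
    (hinv : ∀ y ∈ Y, Sim (cj R y τ) τ) :
    ∃ ρ : Rep Y d, IsIrr ρ ∧ OddDet ρ ∧ Sim (resLE hRY ρ) τ := by
  induction k generalizing Y with
  | zero =>
    have h3 : Y ≤ R := Subgroup.relIndex_eq_one.1 hk
    obtain rfl : R = Y := le_antisymm hRY h3
    exact ⟨τ, hτ, oddDet_of_noIdx2 hR τ, ⟨1, fun g => by
      rw [Units.val_one, one_mul, mul_one]
      rfl⟩⟩
  | succ k ih =>
    obtain ⟨Y', k1, k2, k3, k4⟩ := exists_step R Y hRY hk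
    obtain ⟨ρ', hi, ho, hs⟩ := ih Y' k1 k4 (fun y hy => hinv y (k2 hy))
    have hidx : (Y'.subgroupOf Y).index = 2 := k3
    have hn : (Y'.subgroupOf Y).Normal := Subgroup.normal_of_index_eq_two hidx
    obtain ⟨s, hsY, hsY'⟩ : ∃ s ∈ Y, s ∉ Y' := by
      by_contra hno
      push Not at hno
      have h5 : Y'.relIndex Y = 1 := Subgroup.relIndex_eq_one.2 hno
      omega
    have hconj : ∀ t ∈ Y, ∀ y ∈ Y', t * y * t⁻¹ ∈ Y' := by
      intro t ht y hy
      exact hn.conj_mem (⟨y, k2 hy⟩ : Y) hy ⟨t, ht⟩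
    have hconj' : ∀ y ∈ Y', s⁻¹ * y * s ∈ Y' := by
      intro y hy
      have h6 := hconj s⁻¹ (Y.inv_mem hsY) y hy
      rwa [inv_inv] at h6
    let φ : Y' ≃* Y' :=
      { toFun := fun y => ⟨s * y * s⁻¹, hconj s hsY y y.2⟩
        invFun := fun y => ⟨s⁻¹ * y * s, hconj' y y.2⟩
        left_inv := fun y => Subtype.ext (by
          change s⁻¹ * (s * y * s⁻¹) * s = y
          group)
        right_inv := fun y => Subtype.ext (by
          change s * (s⁻¹ * y * s) * s⁻¹ = y
          group)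
        map_mul' := fun y z => Subtype.ext (by
          change s * (y * z) * s⁻¹ = (s * y * s⁻¹) * (s * z * s⁻¹)
          group) }
    have hφ : ∀ y, Subgroup.inclusion k2 (φ y) =
        (⟨s, hsY⟩ : Y) * Subgroup.inclusion k2 y * (⟨s, hsY⟩ : Y)⁻¹ := fun y => rfl
    have hpi : IsIrr (pull φ.toMonoidHom ρ') := (isIrr_pull φ.surjective).2 hi
    have heq : resLE k1 (pull φ.toMonoidHom ρ') = cj R s (resLE k1 ρ') := by
      refine rep_ext fun r => ?_
      rfl
    have hsim : Sim (pull φ.toMonoidHom ρ') ρ' := by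
      refine sim_of_sim_resLE R Y' k1 k4 hd hpi hi (ho.pull _) ho ?_
      rw [heq]
      exact ((sim_pull _ hs).trans (hinv s hsY)).trans hs.symm
    have hsr : (⟨s, hsY⟩ : Y) ∉ (Subgroup.inclusion k2).range := by
      rintro ⟨y, hy⟩
      have h7 : (y : B) = s := congrArg Subtype.val hy
      exact hsY' (h7 ▸ y.2)
    obtain ⟨ρ, hρo, hρ⟩ := exists_ext_two (Subgroup.inclusion k2) (Subgroup.inclusion_injective k2)
      (range_inclusion_index k2 k3) hd hi ho ⟨s, hsY⟩ hsr φ hφ hsim
    refine ⟨ρ, ⟨hi.pos, ?_⟩, hρo, ?_⟩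
    · rw [eq_top_iff, ← hi.span, ← hρ]
      refine Submodule.span_mono ?_
      rintro _ ⟨y, rfl⟩
      exact ⟨Subgroup.inclusion k2 y, rfl⟩
    · have h8 : resLE hRY ρ = resLE k1 ρ' := by
        rw [← hρ]
        rfl
      rw [h8]
      exact hs

end Pool.Agent.CGS
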