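import Pool.Agent.CGS.ZRes
import Pool.Agent.CGS.BaseV

/-!
# Central idempotents: exact degrees, invariance, coefficients

PACKAGE (statements frozen; auxiliary lemmas private; the imported files are black boxes).

* `exists_z_exact`: as `exists_z` in file `ZEl` (take `z = φ.symm (fun i => if δ i = e then 1 else
  0)`), with `∑ i with δ i = e, δ i ^ 2 = e ^ 2 * N G e`.
* `z_conj_normal`: as `z_conj` in file `ZRes` (whose proof works for every normal subgroup and
  every family of scalars `k d`): the element `κ z` of `ℂ[Y]` obtained from `z` by the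
  automorphism `y ↦ s y s⁻¹` satisfies `lift τ (κ z) = lift (pull (conj s) τ) z = k d • 1 = lift τ
  z` for all irreducible `τ`, so `κ z = z` by `lift_ext`, and `of s * inc Y z = inc Y (κ z) * of
  s`.
* `coeff_formula`: let `n, δ, φ` and the equivalences be as in `exists_degrees`. The trace of left
  multiplication by `a` on `ℂ[B]` is `|B| * a.coeff 1` (as in `exists_z`), and on the product it
  is `∑ i, κ i * δ i ^ 2` if the `i`-th component of `φ a` is the scalar `κ i`. For each block `i`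
  there is an irreducible representation `ρ i : Rep B (δ i)` with `lift (ρ i) = (evaluation at i)
  ∘ φ` (`exists_rep_of_surjective`), so the component is `1` if `q (δ i) (mk (ρ i) _)` and `0`
  otherwise. The classes `mk (ρ i) _`, `δ i = d`, are pairwise different (if `P` intertwines `lift
  (ρ i)` and `lift (ρ j)`, `i ≠ j`, evaluate at `φ.symm (Pi.single i 1)`: `P * 1 = 0 * P`) and
  their number is the number of classes of degree `d` (`exists_degrees`), so for fixed `d` the
  number of `i` with `δ i = d` and `q d (mk (ρ i) _)` is `Nat.card {c : Cls B d // q d c}`. Group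
  the sum by `d = δ i ∈ range (|B| + 1)`.
-/

set_option autoImplicit false

namespace Pool.Agent.CGS

open Matrix

private theorem alg_ind {H : Type} [Group H] {p : MonoidAlgebra ℂ H → Prop}
    (h1 : ∀ g, p (MonoidAlgebra.of ℂ H g)) (h2 : ∀ a b, p a → p b → p (a + b))
    (h3 : ∀ (c : ℂ) a, p a → p (c • a)) (a : MonoidAlgebra ℂ H) : p a := by
  refine MonoidAlgebra.induction_linear a ?_ h2 ?_
  · have h4 := h3 0 _ (h1 1)
    rwa [zero_smul] at h4
  · intro g c
    have h4 := h3 c _ (h1 g)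
    rwa [MonoidAlgebra.of_apply, MonoidAlgebra.smul_single, smul_eq_mul, mul_one] at h4

/-- the trace of the left multiplication in the group algebra -/
private theorem trace_left {G : Type} [Group G] [Finite G] (a : MonoidAlgebra ℂ G) :
    LinearMap.trace ℂ _ (LinearMap.mulLeft ℂ a) = (Nat.card G : ℂ) * a.coeff 1 := by
  classical
  have := Fintype.ofFinite G
  rw [LinearMap.trace_eq_matrix_trace ℂ (MonoidAlgebra.basis G ℂ)]
  unfold Matrix.trace
  have h1 : ∀ g : G, Matrix.diag (LinearMap.toMatrix (MonoidAlgebra.basis G ℂ)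
      (MonoidAlgebra.basis G ℂ) (LinearMap.mulLeft ℂ a)) g = a.coeff 1 := by
    intro g
    rw [Matrix.diag_apply, LinearMap.toMatrix_apply]
    have h2 : (MonoidAlgebra.basis G ℂ) g = MonoidAlgebra.single g 1 := by
      simp
    rw [h2, LinearMap.mulLeft_apply]
    change (a * MonoidAlgebra.single g 1).coeff g = _
    rw [MonoidAlgebra.coeff_mul_single_apply]
    simp
  rw [Finset.sum_congr rfl fun g _ => h1 g, Finset.sum_const, Finset.card_univ,
    Nat.card_eq_fintype_card, nsmul_eq_mul]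

/-- the trace of the left multiplication by scalars in the product of matrix algebras -/
private theorem trace_pi {n : ℕ} (δ : Fin n → ℕ) (c : Fin n → ℂ) :
    LinearMap.trace ℂ _ (LinearMap.mulLeft ℂ
      (fun i => c i • (1 : Matrix (Fin (δ i)) (Fin (δ i)) ℂ))) = ∑ i, c i * (δ i : ℂ) ^ 2 := by
  classical
  let b := Pi.basis (fun i => Matrix.stdBasis ℂ (Fin (δ i)) (Fin (δ i)))
  rw [LinearMap.trace_eq_matrix_trace ℂ b]
  unfold Matrix.trace
  have h1 : ∀ j, Matrix.diag (LinearMap.toMatrix b b (LinearMap.mulLeft ℂ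
      (fun i => c i • (1 : Matrix (Fin (δ i)) (Fin (δ i)) ℂ)))) j = c j.1 := by
    intro j
    rw [Matrix.diag_apply, LinearMap.toMatrix_apply, LinearMap.mulLeft_apply]
    have h2 : (fun i => c i • (1 : Matrix (Fin (δ i)) (Fin (δ i)) ℂ)) * b j = c j.1 • b j := by
      funext i
      rw [Pi.mul_apply, smul_mul_assoc, one_mul, Pi.smul_apply]
      by_cases hij : i = j.1
      · rw [hij]
      · have h3 : b j i = 0 := by
          rw [Pi.basis_apply, Pi.single_eq_of_ne hij]
        rw [h3, smul_zero, smul_zero]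
    rw [h2, map_smul, Module.Basis.repr_self]
    simp
  rw [Finset.sum_congr rfl fun j _ => h1 j, Fintype.sum_sigma]
  refine Finset.sum_congr rfl fun i _ => ?_
  change ∑ _y : Fin (δ i) × Fin (δ i), c i = _
  rw [Finset.sum_const, Finset.card_univ, Fintype.card_prod, Fintype.card_fin, nsmul_eq_mul]
  push_cast
  ring

private theorem coeff_trace {G : Type} [Group G] [Finite G] {n : ℕ} {δ : Fin n → ℕ}
    (φ : MonoidAlgebra ℂ G ≃ₐ[ℂ] (∀ i, Matrix (Fin (δ i)) (Fin (δ i)) ℂ)) (c : Fin n → ℂ)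
    (a : MonoidAlgebra ℂ G)
    (ha : φ a = fun i => c i • (1 : Matrix (Fin (δ i)) (Fin (δ i)) ℂ)) :
    (Nat.card G : ℂ) * a.coeff 1 = ∑ i, c i * (δ i : ℂ) ^ 2 := by
  rw [← trace_left, ← trace_pi, ← ha]
  have h1 : LinearMap.mulLeft ℂ (φ a) = φ.toLinearEquiv.conj (LinearMap.mulLeft ℂ a) := by
    refine LinearMap.ext fun y => ?_
    rw [LinearEquiv.conj_apply_apply, LinearMap.mulLeft_apply, LinearMap.mulLeft_apply]
    change φ a * y = φ (a * φ.symm y)
    rw [map_mul, AlgEquiv.apply_symm_apply]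
  rw [h1, LinearMap.trace_conj']

private theorem lift_sim {G : Type} [Group G] {d : ℕ} {ρ σ : Rep G d} {P : GL (Fin d) ℂ}
    (hP : ∀ g, (P : Matrix (Fin d) (Fin d) ℂ) * mat ρ g =
      mat σ g * (P : Matrix (Fin d) (Fin d) ℂ)) (a : MonoidAlgebra ℂ G) :
    (P : Matrix (Fin d) (Fin d) ℂ) * lift ρ a =
      lift σ a * (P : Matrix (Fin d) (Fin d) ℂ) := by
  refine alg_ind (p := fun a => (P : Matrix (Fin d) (Fin d) ℂ) * lift ρ a =
      lift σ a * (P : Matrix (Fin d) (Fin d) ℂ)) ?_ ?_ ?_ a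
  · intro g
    rw [lift_of, lift_of, hP]
  · intro a b ha hb
    rw [map_add, map_add, mul_add, add_mul, ha, hb]
  · intro c a ha
    rw [map_smul, map_smul, mul_smul_comm, smul_mul_assoc, ha]

private theorem delta_le {G : Type} [Group G] [Finite G] {n : ℕ} {δ : Fin n → ℕ}
    (hs : ∑ i, δ i ^ 2 = Nat.card G) (i : Fin n) : δ i ∈ Finset.range (Nat.card G + 1) := by
  rw [Finset.mem_range]
  have h2 : δ i ^ 2 ≤ Nat.card G := by
    rw [← hs]
    exact Finset.single_le_sum (f := fun i => δ i ^ 2) (fun j _ => Nat.zero_le _)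
      (Finset.mem_univ i)
  have h3 : δ i ≤ δ i ^ 2 := Nat.le_self_pow two_ne_zero _
  omega

theorem exists_z_exact (G : Type) [Group G] [Finite G] {e : ℕ} (he : 0 < e) :
    ∃ z : MonoidAlgebra ℂ G,
      (∀ (d : ℕ) (ρ : Rep G d), IsIrr ρ → lift ρ z = if d = e then 1 else 0) ∧
      (Nat.card G : ℂ) * z.coeff 1 = (e : ℂ) ^ 2 * (N G e : ℂ) := by
  classical
  obtain ⟨n, δ, hδ, hs, -, ⟨φ⟩, hc⟩ := exists_degrees G
  let c : Fin n → ℂ := fun i => if δ i = e then 1 else 0
  let x : ∀ i, Matrix (Fin (δ i)) (Fin (δ i)) ℂ := fun i => c i • 1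
  refine ⟨φ.symm x, ?_, ?_⟩
  · intro d ρ hρ
    let f : (∀ i, Matrix (Fin (δ i)) (Fin (δ i)) ℂ) →ₐ[ℂ] Matrix (Fin d) (Fin d) ℂ :=
      (lift ρ).comp φ.symm.toAlgHom
    have hf : Function.Surjective f := by
      intro y
      obtain ⟨a, ha⟩ := lift_surjective hρ y
      refine ⟨φ a, ?_⟩
      change lift ρ (φ.symm (φ a)) = y
      rw [AlgEquiv.symm_apply_apply, ha]
    obtain ⟨i, hi, h1, h2⟩ := exists_block δ hδ hρ.pos f hf
    have h3 : f (x - c i • (Pi.single i 1 : ∀ i, Matrix (Fin (δ i)) (Fin (δ i)) ℂ)) = 0 := by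
      apply h2
      rw [Pi.sub_apply, Pi.smul_apply, Pi.single_eq_same]
      exact sub_self _
    rw [map_sub, map_smul, h1, sub_eq_zero] at h3
    change f x = _
    rw [h3]
    change (if δ i = e then (1 : ℂ) else 0) • _ = _
    rw [hi]
    split_ifs <;> simp
  · rw [coeff_trace φ c (φ.symm x) (AlgEquiv.apply_symm_apply φ x)]
    obtain ⟨E⟩ := hc e he
    have h5 : N G e = (Finset.univ.filter (fun i => δ i = e)).card := by
      unfold N
      rw [Nat.card_congr E, Nat.card_eq_fintype_card, Fintype.card_subtype]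
    have h6 : ∀ i, c i * (δ i : ℂ) ^ 2 = if δ i = e then (e : ℂ) ^ 2 else 0 := by
      intro i
      change (if δ i = e then (1 : ℂ) else 0) * _ = _
      split_ifs with h
      · rw [h, one_mul]
      · rw [zero_mul]
    rw [Finset.sum_congr rfl fun i _ => h6 i, ← Finset.sum_filter, Finset.sum_const, h5,
      nsmul_eq_mul, mul_comm]

theorem z_conj_normal {G : Type} [Group G] [Finite G] (Y : Subgroup G) [Y.Normal] (k : ℕ → ℂ)
    {z : MonoidAlgebra ℂ Y} (hz : ∀ (d : ℕ) (τ : Rep Y d), IsIrr τ →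
      lift τ z = k d • (1 : Matrix (Fin d) (Fin d) ℂ)) (s : G) :
    MonoidAlgebra.of ℂ G s * inc Y z = inc Y z * MonoidAlgebra.of ℂ G s := by
  let α : Y →* Y := (MulAut.conjNormal s : Y ≃* Y).toMonoidHom
  have hα : Function.Surjective α := (MulAut.conjNormal s : Y ≃* Y).surjective
  let κ : MonoidAlgebra ℂ Y →ₐ[ℂ] MonoidAlgebra ℂ Y :=
    MonoidAlgebra.lift ℂ _ Y ((MonoidAlgebra.of ℂ Y).comp α)
  have hκ : ∀ y : Y, κ (MonoidAlgebra.of ℂ Y y) = MonoidAlgebra.of ℂ Y (α y) := by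
    intro y
    simp [κ]
  have h1 : ∀ a, MonoidAlgebra.of ℂ G s * inc Y a = inc Y (κ a) * MonoidAlgebra.of ℂ G s := by
    intro a
    refine alg_ind (p := fun a => MonoidAlgebra.of ℂ G s * inc Y a =
      inc Y (κ a) * MonoidAlgebra.of ℂ G s) ?_ ?_ ?_ a
    · intro y
      rw [hκ, inc_of, inc_of, ← map_mul, ← map_mul]
      congr 1
      change s * (y : G) = s * (y : G) * s⁻¹ * s
      group
    · intro a b ha hb
      rw [map_add, map_add, map_add, mul_add, add_mul, ha, hb]
    · intro c a ha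
      rw [map_smul, map_smul, map_smul, mul_smul_comm, smul_mul_assoc, ha]
  have h2 : κ z = z := by
    refine lift_ext _ _ fun d τ hτ => ?_
    have h3 : ∀ a, lift τ (κ a) = lift (pull α τ) a := by
      intro a
      refine alg_ind (p := fun a => lift τ (κ a) = lift (pull α τ) a) ?_ ?_ ?_ a
      · intro y
        rw [hκ, lift_of, lift_of, mat_pull]
      · intro a b ha hb
        rw [map_add, map_add, map_add, ha, hb]
      · intro c a ha
        rw [map_smul, map_smul, map_smul, ha]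
    rw [h3, hz d _ ((isIrr_pull hα).2 hτ), hz d _ hτ]
  rw [h1, h2]

theorem coeff_formula {B : Type} [Group B] [Finite B] (a : MonoidAlgebra ℂ B)
    (q : ∀ d : ℕ, Cls B d → Prop)
    (h1 : ∀ (d : ℕ) (ρ : Rep B d) (h : IsIrr ρ), q d (mk ρ h) → lift ρ a = 1)
    (h0 : ∀ (d : ℕ) (ρ : Rep B d) (h : IsIrr ρ), ¬ q d (mk ρ h) → lift ρ a = 0) :
    (Nat.card B : ℂ) * a.coeff 1 =
      ∑ d ∈ Finset.range (Nat.card B + 1), (d : ℂ) ^ 2 * (Nat.card {c : Cls B d // q d c} : ℂ) := by
  classical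
  obtain ⟨n, δ, hδ, hs, -, ⟨φ⟩, hc⟩ := exists_degrees B
  have hrep : ∀ i, ∃ ρ : Rep B (δ i), IsIrr ρ ∧ ∀ b, lift ρ b = φ b i := by
    intro i
    let f : MonoidAlgebra ℂ B →ₐ[ℂ] Matrix (Fin (δ i)) (Fin (δ i)) ℂ :=
      (Pi.evalAlgHom ℂ (fun i => Matrix (Fin (δ i)) (Fin (δ i)) ℂ) i).comp φ.toAlgHom
    have hf : Function.Surjective f := by
      intro x
      obtain ⟨a, ha⟩ := φ.surjective (Pi.single i x)
      refine ⟨a, ?_⟩
      change φ a i = x
      rw [ha, Pi.single_eq_same]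
    obtain ⟨ρ, hρ, e⟩ := exists_rep_of_surjective (hδ i) f hf
    exact ⟨ρ, hρ, fun b => by rw [e]; rfl⟩
  choose ρ hρ hφ using hrep
  obtain ⟨c, hcdef⟩ : ∃ c : ∀ i, Cls B (δ i), c = fun i => mk (ρ i) (hρ i) := ⟨_, rfl⟩
  obtain ⟨κ, hκ⟩ : ∃ κ : Fin n → ℂ, κ = fun i => if q (δ i) (c i) then 1 else 0 := ⟨_, rfl⟩
  have hκi : ∀ i, κ i = if q (δ i) (c i) then 1 else 0 := fun i => by rw [hκ]
  have hci : ∀ i, c i = mk (ρ i) (hρ i) := fun i => by rw [hcdef]
  have hφa : φ a = fun i => κ i • (1 : Matrix (Fin (δ i)) (Fin (δ i)) ℂ) := by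
    funext i
    rw [← hφ i a, hκi, hci]
    by_cases hq : q (δ i) (mk (ρ i) (hρ i))
    · rw [h1 _ _ _ hq, if_pos hq, one_smul]
    · rw [h0 _ _ _ hq, if_neg hq, zero_smul]
  rw [coeff_trace φ κ a hφa]
  -- the classes of the blocks
  have hcls : ∀ (d : ℕ) (j : Fin n) (hj : δ j = d), ∃ (σ : Rep B d) (h : IsIrr σ),
      (hj ▸ c j : Cls B d) = mk σ h ∧
      lift σ (φ.symm (Pi.single j (1 : Matrix (Fin (δ j)) (Fin (δ j)) ℂ))) = 1 ∧
      ∀ y : (∀ i, Matrix (Fin (δ i)) (Fin (δ i)) ℂ), y j = 0 → lift σ (φ.symm y) = 0 := by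
    intro d j hj
    subst hj
    refine ⟨ρ j, hρ j, by rw [hcdef], ?_, ?_⟩
    · rw [hφ, AlgEquiv.apply_symm_apply, Pi.single_eq_same]
    · intro y hy
      rw [hφ, AlgEquiv.apply_symm_apply, hy]
  have hcard : ∀ d, 0 < d → Nat.card {c : Cls B d // q d c} =
      (Finset.univ.filter (fun i => δ i = d ∧ q (δ i) (c i))).card := by
    intro d hd
    obtain ⟨E⟩ := hc d hd
    obtain ⟨F, hF⟩ : ∃ F : {i : Fin n // δ i = d} → Cls B d, F = fun i => i.2 ▸ c i.1 :=
      ⟨_, rfl⟩
    have hinj : Function.Injective F := by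
      rintro ⟨i, hi⟩ ⟨j, hj⟩ hij
      by_contra hne
      have hne' : i ≠ j := fun h => hne (Subtype.ext h)
      obtain ⟨σ, hσ, e1, e2, -⟩ := hcls d i hi
      obtain ⟨τ, hτ, e3, -, e4⟩ := hcls d j hj
      rw [hF] at hij
      have h5 : mk σ hσ = mk τ hτ := by
        rw [← e1, ← e3]
        exact hij
      obtain ⟨P, hP⟩ := mk_eq.1 h5
      have h6 := lift_sim hP (φ.symm (Pi.single i 1))
      rw [e2, e4 _ (Pi.single_eq_of_ne hne'.symm _), mul_one, zero_mul] at h6
      have h7 : (P : Matrix (Fin d) (Fin d) ℂ) *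
          ((P⁻¹ : GL (Fin d) ℂ) : Matrix (Fin d) (Fin d) ℂ) = 1 := by
        rw [← Units.val_mul, mul_inv_cancel, Units.val_one]
      rw [h6, zero_mul] at h7
      have h8 := congrFun (congrFun h7 ⟨0, hd⟩) ⟨0, hd⟩
      rw [Matrix.zero_apply, Matrix.one_apply_eq] at h8
      exact zero_ne_one h8
    have hbij : Function.Bijective F := by
      have : Finite (Cls B d) := Finite.of_equiv _ E.symm
      have := Fintype.ofFinite (Cls B d)
      refine (Fintype.bijective_iff_injective_and_card F).2 ⟨hinj, ?_⟩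
      exact (Fintype.card_congr E).symm
    have hq : ∀ i : {i : Fin n // δ i = d}, q (δ i.1) (c i.1) ↔ q d (F i) := by
      rintro ⟨i, hi⟩
      rw [hF]
      subst hi
      exact Iff.rfl
    have e5 : {i : {i : Fin n // δ i = d} // q (δ i.1) (c i.1)} ≃ {c : Cls B d // q d c} :=
      Equiv.subtypeEquiv (Equiv.ofBijective F hbij) hq
    have e6 : {i : {i : Fin n // δ i = d} // q (δ i.1) (c i.1)} ≃
        {i : Fin n // δ i = d ∧ q (δ i) (c i)} :=
      Equiv.subtypeSubtypeEquivSubtypeInter (fun i => δ i = d) (fun i => q (δ i) (c i))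
    rw [← Nat.card_congr e5, Nat.card_congr e6, Nat.card_eq_fintype_card,
      Fintype.card_subtype]
  rw [← Finset.sum_fiberwise_of_maps_to (fun i _ => delta_le hs i)]
  refine Finset.sum_congr rfl fun d _ => ?_
  have h6 : ∀ i ∈ Finset.univ.filter (fun i => δ i = d), κ i * (δ i : ℂ) ^ 2 =
      (d : ℂ) ^ 2 * if q (δ i) (c i) then 1 else 0 := by
    intro i hi
    have e : ((δ i : ℕ) : ℂ) = (d : ℂ) := by rw [(Finset.mem_filter.1 hi).2]
    rw [e, hκi, mul_comm]
  rw [Finset.sum_congr rfl h6, ← Finset.mul_sum]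
  rcases Nat.eq_zero_or_pos d with rfl | hd
  · simp
  · rw [hcard d hd, Finset.sum_boole, Finset.filter_filter]

end Pool.Agent.CGS
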