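import Pool.Agent.CGS.Deg

/-!
# The central idempotent belonging to the degrees with odd part e

PACKAGE (statements frozen; auxiliary lemmas private; the imported files are black boxes, some
of them still contain sorry).

Take `n, δ`, `φ : ℂ[G] ≃ₐ ∏ M_{δ i}` and the counting equivalences from `exists_degrees`. The
function `od d = d / 2 ^ d.factorization 2` is the odd part.

* `lift_ext`: let `x = φ a - φ b`. For every `i` the map `f = (Pi.evalAlgHom ℂ _ i).comp φ` is a
  surjective algebra homomorphism `ℂ[G] → M_{δ i}`, so `f = lift ρ` with `ρ` irreducible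
  (`exists_rep_of_surjective`), so `f a = f b`, that is `x i = 0`. So `φ a = φ b`, `a = b`.
* `exists_z`: `z = φ.symm (fun i => if od (δ i) = e then 1 else 0)`. Let `ρ` be irreducible of
  degree `d` (`0 < d` by `IsIrr.pos`). `f = (lift ρ).comp φ.symm` is a surjective homomorphism of
  the product (`lift_surjective`), let `i` be its block (`exists_block`): `δ i = d`, `f (Pi.single
  i 1) = 1`, and `f a = 0` if `a i = 0`. For `a = φ z` and `c = if od (δ i) = e then 1 else 0` the
  element `a - c • Pi.single i 1` has `i`-component `0`; so `lift ρ z = f (φ z) = c • 1`, as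
  claimed.
* the coefficient at `1`: for `a : ℂ[G]` the trace of the left multiplication by `a` (a linear
  endomorphism of `ℂ[G]`) is `Nat.card G * a.coeff 1` (in the basis of group elements the diagonal
  entry at `g` is the coefficient of `a * g` at `g`, which is `a.coeff 1`). `LinearMap.trace` is
  invariant under `φ` (`LinearMap.trace_conj'`), and in the product the left multiplication by `x
  = fun i => c i • 1` has the trace `∑ i, c i * (δ i) ^ 2` (it is multiplication by the scalar `c
  i` on the `i`-th factor, of dimension `(δ i) ^ 2`; for instance as `x` is a sum of `c i •`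
  (projections), or: the trace of the idempotent with `c i ∈ {0, 1}` is the dimension of its
  range, `LinearMap.IsProj.trace` or `IsIdempotentElem` version). So `Nat.card G * z.coeff 1 = ∑ i
  with od (δ i) = e, δ i ^ 2`, and this is `MS G e`: group the `i` by the value `d = δ i ∈ range
  (Nat.card G + 1)` (`δ i ≤ δ i ^ 2 ≤ Nat.card G`), the number of `i` with `δ i = d` is `N G d`.
-/

set_option autoImplicit false

namespace Pool.Agent.CGS

open Matrix

theorem lift_ext {G : Type} [Group G] [Finite G] (a b : MonoidAlgebra ℂ G)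
    (h : ∀ (d : ℕ) (ρ : Rep G d), IsIrr ρ → lift ρ a = lift ρ b) : a = b := by
  obtain ⟨n, δ, hδ, -, -, ⟨φ⟩, -⟩ := exists_degrees G
  apply φ.injective
  funext i
  let f : MonoidAlgebra ℂ G →ₐ[ℂ] Matrix (Fin (δ i)) (Fin (δ i)) ℂ :=
    (Pi.evalAlgHom ℂ (fun i => Matrix (Fin (δ i)) (Fin (δ i)) ℂ) i).comp φ.toAlgHom
  have hf : Function.Surjective f := by
    intro x
    obtain ⟨a, ha⟩ := φ.surjective (Pi.single i x)
    refine ⟨a, ?_⟩
    change φ a i = x
    rw [ha, Pi.single_eq_same]
  obtain ⟨ρ, hρ, e⟩ := exists_rep_of_surjective (hδ i) f hf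
  have h1 := h _ ρ hρ
  rw [e] at h1
  exact h1

/-- the trace of the left multiplication in the group algebra -/
private theorem trace_left {G : Type} [Group G] [Finite G] (a : MonoidAlgebra ℂ G) :
    LinearMap.trace ℂ _ (LinearMap.mulLeft ℂ a) = (Nat.card G : ℂ) * a.coeff 1 := by
  classical
  have := Fintype.ofFinite G
  rw [LinearMap.trace_eq_matrix_trace ℂ (MonoidAlgebra.basis G ℂ)]
  unfold Matrix.trace
  have h1 : ∀ g : G, Matrix.diag (LinearMap.toMatrix (MonoidAlgebra.basis G ℂ)
      (MonoidAlgebra.basis G ℂ) (LinearMap.mulLeft ℂ a)) g = a.coeff 1 := by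
    intro g
    rw [Matrix.diag_apply, LinearMap.toMatrix_apply]
    have h2 : (MonoidAlgebra.basis G ℂ) g = MonoidAlgebra.single g 1 := by
      simp
    rw [h2, LinearMap.mulLeft_apply]
    change (a * MonoidAlgebra.single g 1).coeff g = _
    rw [MonoidAlgebra.coeff_mul_single_apply]
    simp
  rw [Finset.sum_congr rfl fun g _ => h1 g, Finset.sum_const, Finset.card_univ,
    Nat.card_eq_fintype_card, nsmul_eq_mul]

/-- the trace of the left multiplication by scalars in the product of matrix algebras -/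
private theorem trace_pi {n : ℕ} (δ : Fin n → ℕ) (c : Fin n → ℂ) :
    LinearMap.trace ℂ _ (LinearMap.mulLeft ℂ
      (fun i => c i • (1 : Matrix (Fin (δ i)) (Fin (δ i)) ℂ))) = ∑ i, c i * (δ i : ℂ) ^ 2 := by
  classical
  let b := Pi.basis (fun i => Matrix.stdBasis ℂ (Fin (δ i)) (Fin (δ i)))
  rw [LinearMap.trace_eq_matrix_trace ℂ b]
  unfold Matrix.trace
  have h1 : ∀ j, Matrix.diag (LinearMap.toMatrix b b (LinearMap.mulLeft ℂ
      (fun i => c i • (1 : Matrix (Fin (δ i)) (Fin (δ i)) ℂ)))) j = c j.1 := by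
    intro j
    rw [Matrix.diag_apply, LinearMap.toMatrix_apply, LinearMap.mulLeft_apply]
    have h2 : (fun i => c i • (1 : Matrix (Fin (δ i)) (Fin (δ i)) ℂ)) * b j = c j.1 • b j := by
      funext i
      rw [Pi.mul_apply, smul_mul_assoc, one_mul, Pi.smul_apply]
      by_cases hij : i = j.1
      · rw [hij]
      · have h3 : b j i = 0 := by
          rw [Pi.basis_apply, Pi.single_eq_of_ne hij]
        rw [h3, smul_zero, smul_zero]
    rw [h2, map_smul, Module.Basis.repr_self]
    simp
  rw [Finset.sum_congr rfl fun j _ => h1 j, Fintype.sum_sigma]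
  refine Finset.sum_congr rfl fun i _ => ?_
  change ∑ _y : Fin (δ i) × Fin (δ i), c i = _
  rw [Finset.sum_const, Finset.card_univ, Fintype.card_prod, Fintype.card_fin, nsmul_eq_mul]
  push_cast
  ring

private theorem count_MS {G : Type} [Group G] [Finite G] {n : ℕ} {δ : Fin n → ℕ}
    (hs : ∑ i, δ i ^ 2 = Nat.card G)
    (hc : ∀ d, 0 < d → Nonempty (Cls G d ≃ {i : Fin n // δ i = d})) {e : ℕ} (he : Odd e) :
    MS G e = ∑ i, if δ i / 2 ^ (δ i).factorization 2 = e then δ i ^ 2 else 0 := by
  classical
  rw [← Finset.sum_filter]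
  have h1 : ∀ i ∈ Finset.univ.filter (fun i => δ i / 2 ^ (δ i).factorization 2 = e),
      δ i ∈ (Finset.range (Nat.card G + 1)).filter
        (fun d => d / 2 ^ d.factorization 2 = e) := by
    intro i hi
    rw [Finset.mem_filter] at hi ⊢
    refine ⟨?_, hi.2⟩
    rw [Finset.mem_range]
    have h2 : δ i ^ 2 ≤ Nat.card G := by
      rw [← hs]
      exact Finset.single_le_sum (f := fun i => δ i ^ 2) (fun j _ => Nat.zero_le _)
        (Finset.mem_univ i)
    have h3 : δ i ≤ δ i ^ 2 := Nat.le_self_pow two_ne_zero _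
    omega
  rw [← Finset.sum_fiberwise_of_maps_to h1]
  unfold MS
  refine Finset.sum_congr rfl fun d hd => ?_
  rw [Finset.mem_filter] at hd
  have hd0 : 0 < d := by
    rcases Nat.eq_zero_or_pos d with h0 | h0
    · exfalso
      rw [h0] at hd
      have h4 : e = 0 := by rw [← hd.2]; simp
      rw [h4] at he
      exact absurd he (by decide)
    · exact h0
  obtain ⟨E⟩ := hc d hd0
  have h5 : N G d = (Finset.univ.filter (fun i => δ i = d)).card := by
    unfold N
    rw [Nat.card_congr E, Nat.card_eq_fintype_card, Fintype.card_subtype]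
  rw [h5]
  have h6 : ∀ i ∈ (Finset.univ.filter (fun i => δ i / 2 ^ (δ i).factorization 2 = e)).filter
      (fun i => δ i = d), δ i ^ 2 = d ^ 2 := by
    intro i hi
    rw [(Finset.mem_filter.1 hi).2]
  rw [Finset.sum_congr rfl h6, Finset.sum_const, smul_eq_mul, mul_comm]
  congr 2
  ext i
  simp only [Finset.mem_filter, Finset.mem_univ, true_and]
  constructor
  · intro h
    exact ⟨by rw [h]; exact hd.2, h⟩
  · exact fun h => h.2

theorem exists_z (G : Type) [Group G] [Finite G] {e : ℕ} (he : Odd e) :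
    ∃ z : MonoidAlgebra ℂ G,
      (∀ (d : ℕ) (ρ : Rep G d), IsIrr ρ →
        lift ρ z = if d / 2 ^ d.factorization 2 = e then 1 else 0) ∧
      (Nat.card G : ℂ) * z.coeff 1 = (MS G e : ℂ) := by
  classical
  obtain ⟨n, δ, hδ, hs, -, ⟨φ⟩, hc⟩ := exists_degrees G
  let c : Fin n → ℂ := fun i => if δ i / 2 ^ (δ i).factorization 2 = e then 1 else 0
  let x : ∀ i, Matrix (Fin (δ i)) (Fin (δ i)) ℂ := fun i => c i • 1
  refine ⟨φ.symm x, ?_, ?_⟩
  · intro d ρ hρ
    let f : (∀ i, Matrix (Fin (δ i)) (Fin (δ i)) ℂ) →ₐ[ℂ] Matrix (Fin d) (Fin d) ℂ :=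
      (lift ρ).comp φ.symm.toAlgHom
    have hf : Function.Surjective f := by
      intro y
      obtain ⟨a, ha⟩ := lift_surjective hρ y
      refine ⟨φ a, ?_⟩
      change lift ρ (φ.symm (φ a)) = y
      rw [AlgEquiv.symm_apply_apply, ha]
    obtain ⟨i, hi, h1, h2⟩ := exists_block δ hδ hρ.pos f hf
    have h3 : f (x - c i • (Pi.single i 1 : ∀ i, Matrix (Fin (δ i)) (Fin (δ i)) ℂ)) = 0 := by
      apply h2
      rw [Pi.sub_apply, Pi.smul_apply, Pi.single_eq_same]
      exact sub_self _
    rw [map_sub, map_smul, h1, sub_eq_zero] at h3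
    change f x = _
    rw [h3]
    change (if δ i / 2 ^ (δ i).factorization 2 = e then (1 : ℂ) else 0) • _ = _
    rw [hi]
    split_ifs <;> simp
  · rw [← trace_left]
    have h1 : LinearMap.mulLeft ℂ x = φ.toLinearEquiv.conj (LinearMap.mulLeft ℂ (φ.symm x)) := by
      refine LinearMap.ext fun y => ?_
      rw [LinearEquiv.conj_apply_apply, LinearMap.mulLeft_apply, LinearMap.mulLeft_apply]
      change x * y = φ (φ.symm x * φ.symm y)
      rw [map_mul, AlgEquiv.apply_symm_apply, AlgEquiv.apply_symm_apply]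
    rw [← LinearMap.trace_conj' (LinearMap.mulLeft ℂ (φ.symm x)) φ.toLinearEquiv, ← h1,
      trace_pi, count_MS hs hc he]
    push_cast
    refine Finset.sum_congr rfl fun i _ => ?_
    change (if δ i / 2 ^ (δ i).factorization 2 = e then (1 : ℂ) else 0) * _ = _
    split_ifs <;> simp

end Pool.Agent.CGS
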