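import Pool.Agent.CGS.ZEl
import Pool.Agent.CGS.Cliff
import Pool.Agent.CGS.Ops

/-!
# The idempotent of a subgroup of index two

PACKAGE (statements frozen; auxiliary lemmas private; the imported files are black boxes, some
of them still contain sorry).

Let `z` be an element of `ℂ[Y]` as in `exists_z` (hypothesis `hz`), `c d = if od d = e then 1 else
0` (`od` the odd part). `Y` is normal (`Subgroup.normal_of_index_eq_two`).

* `z_conj`: let `κ : ℂ[Y] →ₐ ℂ[Y]` be the homomorphism induced by the automorphism `y ↦ s y s⁻¹`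
  of `Y` (`MulAut.conjNormal s`; `κ = MonoidAlgebra.lift ℂ _ Y ((MonoidAlgebra.of ℂ Y).comp
  (MulAut.conjNormal s).toMonoidHom)`). Then `of s * inc Y a = inc Y (κ a) * of s` for all `a`
  (linearity, check for group elements). For `τ : Rep Y d` irreducible, `lift τ (κ a) = lift (pull
  (conj s) τ) a` (check for group elements), and `pull (conj s) τ` is irreducible (`isIrr_pull`),
  so `lift τ (κ z) = c d = lift τ z` (`c d` as a scalar matrix). By `lift_ext` `κ z = z`.
* `lift_inc_z`: let `ρ` be irreducible of degree `d`; `E = lift ρ (inc Y z)` commutes with `mat ρ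
  g` for all `g` (`z_conj` and `lift_of`), so `E = k • 1` (`schur`). Take `d', τ, T` from
  `exists_sub`. By linearity `lift ρ (inc Y a) * T = T * lift τ a` for all `a` (group elements
  suffice). For `a = z`: `k • T = T * (c d' as a matrix) = c d' • T`, and `T ≠ 0`, so `k = c d'`.
  As `d = d'` or `d = 2 * d'` we have `od d = od d'` (`Nat.factorization_mul`, `d' > 0`), so `k =
  c d`.
* `coeff_inc`: the coefficient at `1` of `inc Y a` is the coefficient of `a` at `1` (linearity;
  for a group element `y` both are `1` if `y = 1` and `0` otherwise).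
* `MS_index_two`: let `z_Y`, `z_G` be the elements of `exists_z`. By `lift_inc_z` and `lift_ext`
  `inc Y z_Y = z_G`. So `MS G e = |G| * z_G.coeff 1 = 2 * |Y| * z_Y.coeff 1 = 2 * MS Y e` (in `ℂ`,
  then `Nat.cast_injective`; `|G| = 2 * |Y|` by `Subgroup.card_mul_index`).
-/

set_option autoImplicit false

namespace Pool.Agent.CGS

open Matrix

variable {G : Type} [Group G] [Finite G]

private theorem alg_ind {H : Type} [Group H] {p : MonoidAlgebra ℂ H → Prop}
    (h1 : ∀ g, p (MonoidAlgebra.of ℂ H g)) (h2 : ∀ a b, p a → p b → p (a + b))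
    (h3 : ∀ (c : ℂ) a, p a → p (c • a)) (a : MonoidAlgebra ℂ H) : p a := by
  refine MonoidAlgebra.induction_linear a ?_ h2 ?_
  · have h4 := h3 0 _ (h1 1)
    rwa [zero_smul] at h4
  · intro g c
    have h4 := h3 c _ (h1 g)
    rwa [MonoidAlgebra.of_apply, MonoidAlgebra.smul_single, smul_eq_mul, mul_one] at h4

private theorem od_two {d : ℕ} (hd : 0 < d) :
    (2 * d) / 2 ^ (2 * d).factorization 2 = d / 2 ^ d.factorization 2 := by
  rw [Nat.factorization_mul two_ne_zero hd.ne', Finsupp.add_apply,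
    Nat.Prime.factorization_self Nat.prime_two, pow_add, pow_one,
    Nat.mul_div_mul_left _ _ two_pos]

theorem z_conj (Y : Subgroup G) (hY : Y.index = 2) {e : ℕ} {z : MonoidAlgebra ℂ Y}
    (hz : ∀ (d : ℕ) (τ : Rep Y d), IsIrr τ →
      lift τ z = if d / 2 ^ d.factorization 2 = e then 1 else 0) (s : G) :
    MonoidAlgebra.of ℂ G s * inc Y z = inc Y z * MonoidAlgebra.of ℂ G s := by
  have : Y.Normal := Subgroup.normal_of_index_eq_two hY
  let α : Y →* Y := (MulAut.conjNormal s : Y ≃* Y).toMonoidHom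
  have hα : Function.Surjective α := (MulAut.conjNormal s : Y ≃* Y).surjective
  let κ : MonoidAlgebra ℂ Y →ₐ[ℂ] MonoidAlgebra ℂ Y :=
    MonoidAlgebra.lift ℂ _ Y ((MonoidAlgebra.of ℂ Y).comp α)
  have hκ : ∀ y : Y, κ (MonoidAlgebra.of ℂ Y y) = MonoidAlgebra.of ℂ Y (α y) := by
    intro y
    simp [κ]
  have h1 : ∀ a, MonoidAlgebra.of ℂ G s * inc Y a = inc Y (κ a) * MonoidAlgebra.of ℂ G s := by
    intro a
    refine alg_ind (p := fun a => MonoidAlgebra.of ℂ G s * inc Y a =
      inc Y (κ a) * MonoidAlgebra.of ℂ G s) ?_ ?_ ?_ a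
    · intro y
      rw [hκ, inc_of, inc_of, ← map_mul, ← map_mul]
      congr 1
      change s * (y : G) = s * (y : G) * s⁻¹ * s
      group
    · intro a b ha hb
      rw [map_add, map_add, map_add, mul_add, add_mul, ha, hb]
    · intro c a ha
      rw [map_smul, map_smul, map_smul, mul_smul_comm, smul_mul_assoc, ha]
  have h2 : κ z = z := by
    refine lift_ext _ _ fun d τ hτ => ?_
    have h3 : ∀ a, lift τ (κ a) = lift (pull α τ) a := by
      intro a
      refine alg_ind (p := fun a => lift τ (κ a) = lift (pull α τ) a) ?_ ?_ ?_ a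
      · intro y
        rw [hκ, lift_of, lift_of, mat_pull]
      · intro a b ha hb
        rw [map_add, map_add, map_add, ha, hb]
      · intro c a ha
        rw [map_smul, map_smul, map_smul, ha]
    rw [h3, hz d _ ((isIrr_pull hα).2 hτ), hz d _ hτ]
  rw [h1, h2]

theorem lift_inc_z (Y : Subgroup G) (hY : Y.index = 2) {e : ℕ} {z : MonoidAlgebra ℂ Y}
    (hz : ∀ (d : ℕ) (τ : Rep Y d), IsIrr τ →
      lift τ z = if d / 2 ^ d.factorization 2 = e then 1 else 0) {d : ℕ} {ρ : Rep G d}
    (h : IsIrr ρ) : lift ρ (inc Y z) = if d / 2 ^ d.factorization 2 = e then 1 else 0 := by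
  obtain ⟨k, hk⟩ := schur h (lift ρ (inc Y z)) (by
    intro g
    have h1 := z_conj Y hY hz g
    have h2 := congrArg (lift ρ) h1
    rw [map_mul, map_mul, lift_of] at h2
    exact h2.symm)
  obtain ⟨d', τ, T, hτ, hT, hTτ, hd⟩ := exists_sub Y hY h
  have h3 : ∀ a, lift ρ (inc Y a) * T = T * lift τ a := by
    intro a
    refine alg_ind (p := fun a => lift ρ (inc Y a) * T = T * lift τ a) ?_ ?_ ?_ a
    · intro y
      rw [inc_of, lift_of, lift_of, hTτ]
    · intro a b ha hb
      rw [map_add, map_add, map_add, Matrix.add_mul, Matrix.mul_add, ha, hb]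
    · intro c a ha
      rw [map_smul, map_smul, map_smul, Matrix.smul_mul, Matrix.mul_smul, ha]
  have hod : d / 2 ^ d.factorization 2 = d' / 2 ^ d'.factorization 2 := by
    rcases hd with rfl | rfl
    · rfl
    · exact od_two hτ.pos
  have h4 := h3 z
  rw [hk, hz d' τ hτ, Matrix.smul_mul, Matrix.one_mul] at h4
  rw [hk, hod]
  split_ifs at h4 ⊢ with h5
  · rw [Matrix.mul_one] at h4
    have h6 : (k - 1) • T = 0 := by rw [sub_smul, one_smul, h4, sub_self]
    have h7 : k = 1 := sub_eq_zero.1 ((smul_eq_zero.1 h6).resolve_right hT)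
    rw [h7, one_smul]
  · rw [Matrix.mul_zero] at h4
    rw [(smul_eq_zero.1 h4).resolve_right hT, zero_smul]

theorem coeff_inc (Y : Subgroup G) (a : MonoidAlgebra ℂ Y) : (inc Y a).coeff 1 = a.coeff 1 := by
  classical
  refine alg_ind (p := fun a => (inc Y a).coeff 1 = a.coeff 1) ?_ ?_ ?_ a
  · intro y
    rw [inc_of, MonoidAlgebra.of_apply, MonoidAlgebra.of_apply, MonoidAlgebra.coeff_single,
      MonoidAlgebra.coeff_single, Finsupp.single_apply, Finsupp.single_apply]
    have h1 : ((y : G) = 1) = (y = 1) := by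
      simp
    simp only [h1]
  · intro a b ha hb
    rw [map_add, MonoidAlgebra.coeff_add, MonoidAlgebra.coeff_add, Finsupp.add_apply,
      Finsupp.add_apply, ha, hb]
  · intro c a ha
    rw [map_smul, MonoidAlgebra.coeff_smul, MonoidAlgebra.coeff_smul, Finsupp.smul_apply,
      Finsupp.smul_apply, ha]

/-- the sums of squares of degrees double in a subgroup of index two -/
theorem MS_index_two (Y : Subgroup G) (hY : Y.index = 2) {e : ℕ} (he : Odd e) :
    MS G e = 2 * MS Y e := by
  obtain ⟨zY, hzY, cY⟩ := exists_z Y he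
  obtain ⟨zG, hzG, cG⟩ := exists_z G he
  have h1 : inc Y zY = zG := by
    refine lift_ext _ _ fun d ρ hρ => ?_
    rw [lift_inc_z Y hY hzY hρ, hzG d ρ hρ]
  rw [← h1, coeff_inc] at cG
  have h2 : Nat.card G = 2 * Nat.card Y := by
    rw [← Subgroup.card_mul_index Y, hY, mul_comm]
  rw [h2] at cG
  push_cast at cG
  have h3 : (MS G e : ℂ) = ((2 * MS Y e : ℕ) : ℂ) := by
    push_cast
    rw [← cG, ← cY]
    ring
  exact_mod_cast h3

end Pool.Agent.CGS
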